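import Mathlib

/-!
Circular-arc drawings of graphs and spherical cover numbers (problem MP_9f365b_co).
-/

open scoped RealInnerProductSpace

namespace Pool.Agent.Lib.MP_9f365b_co

/-- Euclidean space `ℝ^d`. -/
abbrev E (d : ℕ) := EuclideanSpace ℝ (Fin d)

/-- `S` is an `l`-dimensional sphere in `ℝ^d`: the points at distance `r > 0` from `c` inside an
affine subspace `A` of dimension `l + 1` which contains `c`. -/
def IsSph (d l : ℕ) (S : Set (E d)) : Prop :=
  ∃ (A : AffineSubspace ℝ (E d)) (c : E d) (r : ℝ), c ∈ A ∧ Module.finrank ℝ A.direction = l + 1 ∧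
    0 < r ∧ S = {x | x ∈ A ∧ ‖x - c‖ = r}

/-- `u, v` is an orthonormal pair. -/
def Frame {d : ℕ} (u v : E d) : Prop := ‖u‖ = 1 ∧ ‖v‖ = 1 ∧ ⟪u, v⟫ = 0

/-- The point with angle `θ` of the circle with centre `c`, radius `r` and frame `u, v`. -/
noncomputable def cpt {d : ℕ} (c u v : E d) (r θ : ℝ) : E d :=
  c + (r * Real.cos θ) • u + (r * Real.sin θ) • v

/-- `J` is a (closed, proper) arc of a circle in `ℝ^d` with end points `P` and `Q`. -/
def IsArc {d : ℕ} (J : Set (E d)) (P Q : E d) : Prop :=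
  ∃ (c u v : E d) (r α β : ℝ), Frame u v ∧ 0 < r ∧ α < β ∧ β < α + 2 * Real.pi ∧
    cpt c u v r α = P ∧ cpt c u v r β = Q ∧ J = cpt c u v r '' Set.Icc α β

/-- A crossing-free circular-arc drawing of `G` in `ℝ^d`: vertices at distinct points, each edge
an arc of a circle joining its end points; two edges share only common end points, and no edge
passes through a vertex other than its end points. -/
structure Drawing {V : Type} (G : SimpleGraph V) (d : ℕ) where
  /-- position of the vertices -/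
  pos : V → E d
  /-- the arc of an edge -/
  arc : Sym2 V → Set (E d)
  inj : Function.Injective pos
  isArc : ∀ x y, G.Adj x y → IsArc (arc s(x, y)) (pos x) (pos y)
  cross : ∀ e ∈ G.edgeSet, ∀ e' ∈ G.edgeSet, e ≠ e' → ∀ z, z ∈ arc e → z ∈ arc e' →
    ∃ w, w ∈ e ∧ w ∈ e' ∧ z = pos w
  thru : ∀ e ∈ G.edgeSet, ∀ w, pos w ∈ arc e → w ∈ e

/-- The finite set `F` consists of `l`-dimensional spheres whose union contains the drawing. -/
def Covers {V : Type} {G : SimpleGraph V} {d : ℕ} (l : ℕ) (D : Drawing G d)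
    (F : Finset (Set (E d))) : Prop :=
  (∀ S ∈ F, IsSph d l S) ∧ (∀ w, ∃ S ∈ F, D.pos w ∈ S) ∧
    ∀ e ∈ G.edgeSet, ∀ z ∈ D.arc e, ∃ S ∈ F, z ∈ S

/-- The spherical cover number `σ_d^l(G)`: the least number of `l`-dimensional spheres in `ℝ^d`
whose union contains some crossing-free circular-arc drawing of `G` (`⊤` if there is none). -/
noncomputable def sphericalCover {V : Type} (d l : ℕ) (G : SimpleGraph V) : ℕ∞ :=
  sInf {n : ℕ∞ | ∃ (D : Drawing G d) (F : Finset (Set (E d))), Covers l D F ∧ (F.card : ℕ∞) = n}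

end Pool.Agent.Lib.MP_9f365b_co
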