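import Mathlib
import Pool.Agent.Lib.MP_9f365b_co.Defs

/-!
Statements of the modules of the proof that `σ_4^1(G) < σ_3^1(G)` for some graph `G`.
Blueprint: team-store `MP_9f365b_blueprint.md`.
-/

open scoped RealInnerProductSpace

namespace Pool.Agent.Lib.MP_9f365b_co

/-! ### A. Circles and arcs -/

/-- A1. A circle through `A` has a frame in which `A` has angle `0`. -/
def StFrame : Prop := ∀ (d : ℕ) (C : Set (E d)) (A : E d), IsSph d 1 C → A ∈ C →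
  ∃ (c u v : E d) (r : ℝ), Frame u v ∧ 0 < r ∧ cpt c u v r 0 = A ∧ C = Set.range (cpt c u v r)

/-- A2. The circle of a frame is a `1`-sphere. -/
def StRange : Prop := ∀ (d : ℕ) (c u v : E d) (r : ℝ), Frame u v → 0 < r →
  IsSph d 1 (Set.range (cpt c u v r))

/-- A3. Two circles with three common points are equal. -/
def StThree : Prop := ∀ (d : ℕ) (C C' : Set (E d)) (P Q R : E d), IsSph d 1 C → IsSph d 1 C' →
  P ≠ Q → P ≠ R → Q ≠ R → P ∈ C → Q ∈ C → R ∈ C → P ∈ C' → Q ∈ C' → R ∈ C' → C = C'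

/-- A4. An arc covered by finitely many circles lies in one of them. -/
def StCov : Prop := ∀ (d : ℕ) (J : Set (E d)) (P Q : E d) (F : Finset (Set (E d))),
  IsArc J P Q → (∀ S ∈ F, IsSph d 1 S) → (∀ z ∈ J, ∃ S ∈ F, z ∈ S) → ∃ S ∈ F, J ⊆ S

/-- `γ` parametrises the circle `C` without its point `A` by `ℝ` (stereographic projection), and
the arcs in `C` are the images of intervals and rays. -/
structure CircPar {d : ℕ} (C : Set (E d)) (A : E d) (γ : ℝ → E d) : Prop where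
  inj : Function.Injective γ
  cont : Continuous γ
  range : Set.range γ = C \ {A}
  arcMid : ∀ J P Q, IsArc J P Q → J ⊆ C → A ∉ J →
    ∃ s t, s ≠ t ∧ γ s = P ∧ γ t = Q ∧ J = γ '' Set.uIcc s t
  arcEnd : ∀ J P, IsArc J P A → J ⊆ C →
    ∃ s, γ s = P ∧ (J = insert A (γ '' Set.Ici s) ∨ J = insert A (γ '' Set.Iic s))
  mkMid : ∀ s t, s ≠ t → IsArc (γ '' Set.uIcc s t) (γ s) (γ t)
  mkUp : ∀ s, IsArc (insert A (γ '' Set.Ici s)) (γ s) A
  mkDown : ∀ s, IsArc (insert A (γ '' Set.Iic s)) (γ s) A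

/-- A5. The angle parametrisation `s ↦ cpt c u v r (2 arctan s + π)`. -/
def StParFrame : Prop := ∀ (d : ℕ) (c u v : E d) (r : ℝ), Frame u v → 0 < r →
  CircPar (Set.range (cpt c u v r)) (cpt c u v r 0)
    (fun s => cpt c u v r (2 * Real.arctan s + Real.pi))

/-- A6. Reversal of arcs. -/
def StSymm : Prop := ∀ (d : ℕ) (J : Set (E d)) (P Q : E d), IsArc J P Q → IsArc J Q P

/-- A7. Linear isometries preserve circles and arcs. -/
def StMap : Prop := ∀ (d d' : ℕ) (f : E d →ₗᵢ[ℝ] E d'),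
  (∀ J P Q, IsArc J P Q → IsArc (f '' J) (f P) (f Q)) ∧ ∀ C, IsSph d 1 C → IsSph d' 1 (f '' C)

/-- The point `z` lifted to the paraboloid `(‖z‖², z, 1)` is the combination of the lifts of
`P, A, B` with coefficients `l, m, n`. -/
def Comb {d : ℕ} (z P A B : E d) (l m n : ℝ) : Prop :=
  l + m + n = 1 ∧ z = l • P + m • A + n • B ∧ ‖z‖ ^ 2 = l * ‖P‖ ^ 2 + m * ‖A‖ ^ 2 + n * ‖B‖ ^ 2

/-- A8. A circle through three distinct points consists of the combinations of their lifts. -/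
def StComb : Prop := ∀ (d : ℕ) (C : Set (E d)) (P A B : E d), IsSph d 1 C → P ∈ C → A ∈ C →
  B ∈ C → P ≠ A → P ≠ B → A ≠ B → ∀ z, z ∈ C ↔ ∃ l m n, Comb z P A B l m n

/-- A9. A circle through `P, A, B` has a parametrisation of the complement of `A` in which `P` is
`0`, `B` is some `tB < 0`, and the coefficient of `A` is `t` times the coefficient of `P`. -/
def StCoord : Prop := ∀ (d : ℕ) (C : Set (E d)) (P A B : E d), IsSph d 1 C → P ∈ C → A ∈ C →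
  B ∈ C → P ≠ A → P ≠ B → A ≠ B →
  ∃ (γ : ℝ → E d) (tB : ℝ), tB < 0 ∧ CircPar C A γ ∧ γ 0 = P ∧ γ tB = B ∧
    ∀ t, ∃ l n, Comb (γ t) P A B l (l * t) n ∧ (0 < l ↔ tB < t)

/-- A10. Three non-collinear points lie on a circle. -/
def StCirc3 : Prop := ∀ (d : ℕ) (P A B : E d), AffineIndependent ℝ ![P, A, B] →
  ∃ C, IsSph d 1 C ∧ P ∈ C ∧ A ∈ C ∧ B ∈ C

/-! ### B. Degrees and completion by pendant vertices -/

/-- number of members of `F` through `z` -/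
noncomputable def nthru {d : ℕ} (F : Finset (Set (E d))) (z : E d) : ℕ :=
  {S | S ∈ F ∧ z ∈ S}.ncard

/-- degree of a vertex -/
noncomputable def deg {V : Type} (G : SimpleGraph V) (w : V) : ℕ := (G.neighborSet w).ncard

/-- B1. At most two edges at `w` on each circle through `w`. -/
def StDeg : Prop := ∀ (V : Type) (_ : Finite V) (G : SimpleGraph V) (d : ℕ) (D : Drawing G d)
  (F : Finset (Set (E d))), Covers 1 D F → ∀ w, deg G w ≤ 2 * nthru F (D.pos w)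

/-- the graph with one more vertex `none`, adjacent to `w` only -/
def Pend {V : Type} (G : SimpleGraph V) (w : V) : SimpleGraph (Option V) where
  Adj a b := (∃ x y, a = some x ∧ b = some y ∧ G.Adj x y) ∨ (a = some w ∧ b = none) ∨
    (a = none ∧ b = some w)
  symm := ⟨by
    rintro a b (⟨x, y, rfl, rfl, h⟩ | ⟨rfl, rfl⟩ | ⟨rfl, rfl⟩)
    · exact Or.inl ⟨y, x, rfl, rfl, h.symm⟩
    · exact Or.inr (Or.inr ⟨rfl, rfl⟩)
    · exact Or.inr (Or.inl ⟨rfl, rfl⟩)⟩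
  loopless := ⟨by
    rintro a (⟨x, y, rfl, hy, h⟩ | ⟨rfl, h⟩ | ⟨rfl, h⟩)
    · rw [Option.some_inj] at hy; subst hy; exact h.ne rfl
    · exact absurd h (by simp)
    · exact absurd h (by simp)⟩

/-- B2. A pendant edge can be added on the given circles as long as the degree is less than twice
the number of circles through the vertex. -/
def StPend : Prop := ∀ (V : Type) (_ : Finite V) (G : SimpleGraph V) (d : ℕ) (D : Drawing G d)
  (F : Finset (Set (E d))), Covers 1 D F → ∀ w, deg G w < 2 * nthru F (D.pos w) →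
  ∃ D' : Drawing (Pend G w) d, Covers 1 D' F ∧ ∀ x, D'.pos (some x) = D.pos x

/-- B3. Completion: all degrees of the old vertices can be made twice the number of circles. -/
def StCompl : Prop := ∀ (V : Type) (_ : Finite V) (G : SimpleGraph V) (d : ℕ) (D : Drawing G d)
  (F : Finset (Set (E d))), Covers 1 D F →
  ∃ (V' : Type) (_ : Finite V') (G' : SimpleGraph V') (ι : V → V') (D' : Drawing G' d),
    Function.Injective ι ∧ (∀ x y, G.Adj x y → G'.Adj (ι x) (ι y)) ∧ Covers 1 D' F ∧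
    ∀ x, 2 * nthru F (D.pos x) ≤ deg G' (ι x)

/-! ### C. Counting circles through the hubs -/

/-- C1. -/
def StHub : Prop := ∀ (d : ℕ) (F : Finset (Set (E d))) (h : Fin 4 → E d) (R : ℕ),
  (∀ S ∈ F, IsSph d 1 S) → Function.Injective h → F.card ≤ R →
  2 * R + 4 ≤ ∑ a, nthru F (h a) →
  (∀ S ∈ F, {a | h a ∈ S}.ncard = 2 ∨ {a | h a ∈ S}.ncard = 3) ∧
  ∀ a b c, a ≠ b → a ≠ c → b ≠ c → ∃ S ∈ F, h a ∈ S ∧ h b ∈ S ∧ h c ∈ S

/-- C2. -/
def StHub2 : Prop := ∀ (d : ℕ) (F : Finset (Set (E d))) (h : Fin 4 → E d) (w : E d),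
  (∀ S ∈ F, IsSph d 1 S) → Function.Injective h → (∀ a, w ≠ h a) →
  (∀ S ∈ F, {a | h a ∈ S}.ncard = 2 ∨ {a | h a ∈ S}.ncard = 3) → 6 ≤ nthru F w →
  ∀ S ∈ F, w ∈ S → {a | h a ∈ S}.ncard = 2

/-! ### D. Conformal coordinates with respect to four hubs -/

/-- Coordinates `(x, φ)` of the lift with respect to the lifts of the hubs and a normal vector. -/
structure Conf (h : Fin 4 → E 3) (x : E 3 → Fin 4 → ℝ) (φ : E 3 → ℝ) : Prop where
  dist_sq : ∀ p b, ‖p - h b‖ ^ 2 = ∑ a, ‖h a - h b‖ ^ 2 * x p a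
  quad : ∀ p, ∑ a, ∑ b, ‖h a - h b‖ ^ 2 * x p a * x p b = 2 * φ p ^ 2
  hub : ∀ a b, x (h a) b = if a = b then 1 else 0
  hubφ : ∀ a, φ (h a) = 0
  comb : ∀ z P A B l m n, Comb z P A B l m n →
    (∀ a, x z a = l * x P a + m * x A a + n * x B a) ∧ φ z = l * φ P + m * φ A + n * φ B
  comb' : ∀ z P A B l m n, (∀ a, x z a = l * x P a + m * x A a + n * x B a) →
    φ z = l * φ P + m * φ A + n * φ B → Comb z P A B l m n

/-- D. -/
def StConf : Prop := ∀ h : Fin 4 → E 3, Function.Injective h →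
  (∀ a b c, a ≠ b → a ≠ c → b ≠ c → ∃ C, IsSph 3 1 C ∧ h a ∈ C ∧ h b ∈ C ∧ h c ∈ C) →
  (¬ ∃ C, IsSph 3 1 C ∧ ∀ a, h a ∈ C) → ∃ x φ, Conf h x φ

/-! ### E. Edges in conformal coordinates -/

/-- E1. A direct edge on a circle through the hubs `a, b` which avoids these hubs. -/
def StEdge : Prop := ∀ (h : Fin 4 → E 3) (x : E 3 → Fin 4 → ℝ) (φ : E 3 → ℝ), Conf h x φ →
  Function.Injective h → ∀ (C J : Set (E 3)) (P Q : E 3) (a b : Fin 4), IsSph 3 1 C →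
  IsArc J P Q → J ⊆ C → a ≠ b → h a ∈ C → h b ∈ C → h a ∉ J → h b ∉ J →
  ∃ l : ℝ, 0 < l ∧ (∀ c, c ≠ a → c ≠ b → x Q c = l * x P c) ∧ φ Q = l * φ P ∧
    ∀ (R : E 3) (k : ℝ), 0 < k → (∀ c, c ≠ a → c ≠ b → x R c = k * x P c) → φ R = k * φ P →
      x R a / k ∈ Set.uIcc (x P a) (x Q a / l) → R ∈ J

/-- E2. A hub edge on a circle through the hubs `a, b` which ends at the hub `a`: it contains all
points `z` with coordinates `x P + t e_a + s e_b`, `t ≥ 0`, up to a positive factor. -/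
def StHubEdge : Prop := ∀ (h : Fin 4 → E 3) (x : E 3 → Fin 4 → ℝ) (φ : E 3 → ℝ), Conf h x φ →
  Function.Injective h → ∀ (C J : Set (E 3)) (P : E 3) (a b : Fin 4), IsSph 3 1 C →
  IsArc J P (h a) → J ⊆ C → a ≠ b → h a ∈ C → h b ∈ C → h b ∉ J → P ≠ h b →
  ∀ t : ℝ, 0 ≤ t → ∃ z ∈ J, z ≠ h a ∧ ∃ l s : ℝ, 0 < l ∧ φ z = l * φ P ∧
    ∀ c, x z c = l * (x P c + (if c = a then t else 0) + (if c = b then s else 0))

/-! ### F. Rigidity of a copy of the piece off the sphere of the hubs (real algebra) -/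

/-- twice the quadratic form -/
def QQ (G : Fin 4 → Fin 4 → ℝ) (X : Fin 4 → ℝ) : ℝ := ∑ a, ∑ b, G a b * X a * X b

/-- its polar form with a basis vector -/
def LL (G : Fin 4 → Fin 4 → ℝ) (X : Fin 4 → ℝ) (b : Fin 4) : ℝ := ∑ a, G a b * X a

/-- Symmetric, zero diagonal, positive off the diagonal. -/
structure GOK (G : Fin 4 → Fin 4 → ℝ) : Prop where
  symm : ∀ a b, G a b = G b a
  diag : ∀ a, G a a = 0
  pos : ∀ a b, a ≠ b → 0 < G a b

/-- index of the shell vertex `p_ab`, `a ≠ b` -/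
def pI (a b : Fin 4) : Fin 19 :=
  ⟨1 + 3 * a.val + (if b.val < a.val then b.val else b.val - 1), by
    have := a.isLt; have := b.isLt; split_ifs <;> omega⟩

/-- index of the vertex `y^c_a` for `(a,c) = (0,1),(0,2),(0,3),(1,2),(1,0)` -/
def yI (a c : Fin 4) : Fin 19 :=
  if a = 0 then (if c = 1 then 13 else if c = 2 then 14 else 15) else (if c = 2 then 16 else 17)

/-- the 50 direct edges of the piece; `0` is the centre `v`, `18` is `f` -/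
def pieceEdges : List (Fin 19 × Fin 19) :=
  [(0, 1), (0, 2), (0, 3), (0, 4), (0, 5), (0, 6), (0, 7), (0, 8), (0, 9), (0, 10), (0, 11),
   (0, 12), (1, 2), (1, 3), (1, 8), (1, 11), (2, 3), (2, 5), (2, 12), (3, 6), (3, 9), (4, 5),
   (4, 6), (4, 7), (4, 10), (5, 6), (5, 12), (6, 9), (7, 8), (7, 9), (7, 10), (8, 9), (8, 11),
   (10, 11), (10, 12), (11, 12), (2, 13), (3, 13), (1, 14), (3, 14), (1, 15), (2, 15), (4, 16),
   (6, 16), (5, 17), (6, 17), (14, 15), (13, 14), (16, 17), (14, 18)]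

/-- adjacency in the piece -/
def PAdj (i j : Fin 19) : Prop := (i, j) ∈ pieceEdges ∨ (j, i) ∈ pieceEdges

instance : DecidableRel PAdj := fun _ _ => inferInstanceAs (Decidable (_ ∨ _))

/-- The algebraic configuration given by a copy of the piece off the sphere of the hubs. -/
structure PieceConf (G : Fin 4 → Fin 4 → ℝ) (X : Fin 19 → Fin 4 → ℝ) : Prop where
  ok : GOK G
  quad : ∀ w, QQ G (X w) = 2
  pos : ∀ w a, 0 < LL G (X w) a
  inj : Function.Injective X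
  edge : ∀ w w', PAdj w w' → ∃ a b, a ≠ b ∧ ∀ c, c ≠ a → c ≠ b → X w c = X w' c
  between : ∀ w w' r, PAdj w w' → r ≠ w → r ≠ w' → ∀ a b, a ≠ b →
    (∀ c, c ≠ a → c ≠ b → X w c = X w' c ∧ X r c = X w c) → X r a ∉ Set.uIcc (X w a) (X w' a)

/-- F0. Antichain property. -/
def StAnti : Prop := ∀ (G : Fin 4 → Fin 4 → ℝ) (X Y : Fin 4 → ℝ), GOK G → QQ G X = QQ G Y →
  (∀ a, 0 < LL G X a) → (∀ a, 0 < LL G Y a) → (∀ a, X a ≤ Y a) → X = Y

/-- F1. Four pairwise adjacent vertices: `W i` differs from a base point `β` in the one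
coordinate `π i`. -/
def StK4 : Prop := ∀ (G : Fin 4 → Fin 4 → ℝ) (W : Fin 4 → Fin 4 → ℝ), GOK G →
  (∀ i, QQ G (W i) = 2) → (∀ i a, 0 < LL G (W i) a) → Function.Injective W →
  (∀ i j, i ≠ j → ∃ a b, a ≠ b ∧ ∀ c, c ≠ a → c ≠ b → W i c = W j c) →
  (∀ i j k, i ≠ j → i ≠ k → j ≠ k → ∀ c c', c ≠ c' →
    ¬ (W i c = W j c ∧ W j c = W k c ∧ W i c' = W j c' ∧ W j c' = W k c')) →
  ∃ (β : Fin 4 → ℝ) (π : Equiv.Perm (Fin 4)),
    ∀ i, W i (π i) ≠ β (π i) ∧ ∀ c, c ≠ π i → W i c = β c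

/-- The shell of the piece is standard up to the permutation `σ` of the coordinates. -/
def ShellStd (X : Fin 19 → Fin 4 → ℝ) (σ : Equiv.Perm (Fin 4)) (α α' : Fin 4 → ℝ) : Prop :=
  (∀ a b, α a * α' b < 0) ∧
  ∀ a b, a ≠ b → ∀ c, X (pI a b) c =
    X 0 c + (if c = σ a then α a else 0) + (if c = σ b then α' b else 0)

/-- F2. -/
def StShell : Prop := ∀ G X, PieceConf G X → ∃ σ α α', ShellStd X σ α α'

/-- the standard form of the vertex `y^c_a` with new coordinate `Y` -/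
def YStd (X : Fin 19 → Fin 4 → ℝ) (σ : Equiv.Perm (Fin 4)) (α' : Fin 4 → ℝ) (a c : Fin 4)
    (Y : ℝ) : Prop :=
  X (yI a c) (σ a) = Y ∧ X (yI a c) (σ c) = X 0 (σ c) ∧
    ∀ b, b ≠ a → b ≠ c → X (yI a c) (σ b) = X 0 (σ b) + α' b

/-- F3. -/
def StY : Prop := ∀ G X, PieceConf G X → ∀ σ α α', ShellStd X σ α α' →
  (∃ Y, YStd X σ α' 0 2 Y ∧ YStd X σ α' 0 3 Y ∧ YStd X σ α' 0 1 Y) ∧
  ∃ Y, YStd X σ α' 1 2 Y ∧ YStd X σ α' 1 0 Y

/-- F4. -/
def StSigma : Prop := ∀ G X, PieceConf G X → ∀ σ α α', ShellStd X σ α α' →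
  (∃ Y, YStd X σ α' 0 2 Y ∧ YStd X σ α' 0 3 Y ∧ YStd X σ α' 0 1 Y) →
  (∃ Y, YStd X σ α' 1 2 Y ∧ YStd X σ α' 1 0 Y) →
  ∃ t, ∀ a b, a ≠ b → G a b = t * (LL G (X 0) a * LL G (X 0) b)

/-- F. -/
def StRigid : Prop := ∀ G X, PieceConf G X →
  ∃ t, ∀ a b, a ≠ b → G a b = t * (LL G (X 0) a * LL G (X 0) b)

/-! ### G. The centre is unique on each side -/

/-- G1. -/
def StCentre : Prop := ∀ (G : Fin 4 → Fin 4 → ℝ) (X Y : Fin 4 → ℝ) (t s : ℝ), GOK G →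
  QQ G X = 2 → QQ G Y = 2 → (∀ a, 0 < LL G X a) → (∀ a, 0 < LL G Y a) →
  (∀ a b, a ≠ b → G a b = t * (LL G X a * LL G X b)) →
  (∀ a b, a ≠ b → G a b = s * (LL G Y a * LL G Y b)) → X = Y

/-! ### H. Crossings on the sphere of the hubs (real algebra) -/

/-- The point with parameter `t ≥ 0` of the hub edge from `F` to the hub `a` on the circle through
the hubs `a, b`. -/
noncomputable def pathPt (G : Fin 4 → Fin 4 → ℝ) (F : Fin 4 → ℝ) (a b : Fin 4) (t : ℝ)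
    (c : Fin 4) : ℝ :=
  F c + (if c = a then t else 0) + (if c = b then -(t * LL G F a / (LL G F b + G a b * t)) else 0)

/-- H1. For every choice `ξ` of the second hubs the hub edges of two vertices with the same signs
cross. -/
def StS0alg : Prop := ∀ (G : Fin 4 → Fin 4 → ℝ) (F F' : Fin 4 → ℝ) (ξ : Fin 4 → Fin 4), GOK G →
  (∀ a, ξ a ≠ a) → QQ G F = 0 → QQ G F' = 0 → (∀ a, 0 < F a * F' a) →
  (∀ a t, 0 ≤ t → ∀ c, 0 < LL G (pathPt G F a (ξ a) t) c) →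
  (∀ a t, 0 ≤ t → ∀ c, 0 < LL G (pathPt G F' a (ξ a) t) c) →
  ∃ (a b : Fin 4) (t t' l : ℝ), 0 ≤ t ∧ 0 ≤ t' ∧ 0 < l ∧
    ∀ c, pathPt G F a (ξ a) t c = l * pathPt G F' b (ξ b) t' c

/-! ### I. The scene in `ℝ^3` -/

/-- What a drawing of the completed graph in `ℝ^3` on few circles gives: hubs `H`, the `N` copies
`P k` of the piece, the arcs `JD k w w'` of the direct edges and `JH k a` of the hub edges. -/
structure Scene (N : ℕ) (H : Fin 4 → E 3) (P : Fin N → Fin 19 → E 3)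
    (JD : Fin N → Fin 19 → Fin 19 → Set (E 3)) (JH : Fin N → Fin 4 → Set (E 3)) : Prop where
  injH : Function.Injective H
  injP : ∀ k w k' w', P k w = P k' w' → k = k' ∧ w = w'
  neHP : ∀ a k w, H a ≠ P k w
  three : ∀ a b c, a ≠ b → a ≠ c → b ≠ c → ∃ C, IsSph 3 1 C ∧ H a ∈ C ∧ H b ∈ C ∧ H c ∈ C
  four : ¬ ∃ C, IsSph 3 1 C ∧ ∀ a, H a ∈ C
  full : ∀ k w a b c, a ≠ b → a ≠ c → b ≠ c →
    ¬ ∃ C, IsSph 3 1 C ∧ P k w ∈ C ∧ H a ∈ C ∧ H b ∈ C ∧ H c ∈ C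
  dir : ∀ k w w', PAdj w w' → ∃ C a b, a ≠ b ∧ IsSph 3 1 C ∧ H a ∈ C ∧ H b ∈ C ∧ JD k w w' ⊆ C
  dirArc : ∀ k w w', PAdj w w' → IsArc (JD k w w') (P k w) (P k w')
  dirHub : ∀ k w w', PAdj w w' → ∀ a, H a ∉ JD k w w'
  dirThru : ∀ k w w', PAdj w w' → ∀ k' r, P k' r ∈ JD k w w' → k' = k ∧ (r = w ∨ r = w')
  hub : ∀ k a, ∃ C b, b ≠ a ∧ IsSph 3 1 C ∧ H a ∈ C ∧ H b ∈ C ∧ JH k a ⊆ C
  hubArc : ∀ k a, IsArc (JH k a) (P k 18) (H a)
  hubHub : ∀ k a b, b ≠ a → H b ∉ JH k a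
  hubCross : ∀ k k' a a', k ≠ k' → ∀ z, z ∈ JH k a → z ∈ JH k' a' → a = a' ∧ z = H a

/-- the base graph: four hubs and `N` copies of the piece; the hubs are joined to the vertices
`f = 18` of the copies -/
def baseG (N : ℕ) : SimpleGraph (Fin 4 ⊕ (Fin N × Fin 19)) where
  Adj x y := (∃ k w w', x = Sum.inr (k, w) ∧ y = Sum.inr (k, w') ∧ PAdj w w') ∨
    (∃ a k, x = Sum.inl a ∧ y = Sum.inr (k, 18)) ∨ (∃ a k, y = Sum.inl a ∧ x = Sum.inr (k, 18))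
  symm := ⟨by
    rintro x y (⟨k, w, w', rfl, rfl, h⟩ | ⟨a, k, rfl, rfl⟩ | ⟨a, k, rfl, rfl⟩)
    · exact Or.inl ⟨k, w', w, rfl, rfl, h.symm⟩
    · exact Or.inr (Or.inr ⟨a, k, rfl, rfl⟩)
    · exact Or.inr (Or.inl ⟨a, k, rfl, rfl⟩)⟩
  loopless := ⟨by
    rintro x (⟨k, w, w', rfl, hw, h⟩ | ⟨a, k, rfl, h⟩ | ⟨a, k, rfl, h⟩)
    · simp only [Sum.inr.injEq, Prod.mk.injEq, true_and] at hw
      subst hw
      revert h; revert w; decide
    · simp at h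
    · simp at h⟩

/-- I1. -/
def StScene : Prop := ∀ (N R : ℕ) (V : Type) (_ : Finite V) (G : SimpleGraph V)
  (ι : Fin 4 ⊕ (Fin N × Fin 19) → V), Function.Injective ι →
  (∀ x y, (baseG N).Adj x y → G.Adj (ι x) (ι y)) →
  2 * (2 * R + 4) ≤ ∑ a, deg G (ι (Sum.inl a)) →
  (∀ k w, 12 ≤ deg G (ι (Sum.inr (k, w)))) →
  ∀ (D : Drawing G 3) (F : Finset (Set (E 3))), Covers 1 D F → F.card ≤ R →
  ∃ H P JD JH, Scene N H P JD JH

/-- I2. A copy off the sphere of the hubs gives the algebraic configuration. -/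
def StCopy : Prop := ∀ N H P JD JH, Scene N H P JD JH → ∀ x φ, Conf H x φ → ∀ k, φ (P k 0) ≠ 0 →
  (∀ w, 0 < φ (P k w) * φ (P k 0)) ∧
  PieceConf (fun a b => ‖H a - H b‖ ^ 2) (fun w c => x (P k w) c / |φ (P k w)|)

/-- I3. A copy whose centre is on the sphere of the hubs has its vertex `f` there. -/
def StOn : Prop := ∀ N H P JD JH, Scene N H P JD JH → ∀ x φ, Conf H x φ → ∀ k, φ (P k 0) = 0 →
  φ (P k 18) = 0 ∧ ∀ a, x (P k 18) a ≠ 0

/-- I4. Two copies on the sphere of the hubs differ in the signs or in the second hubs of the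
circles of their hub edges. -/
def StOnTwo : Prop := ∀ N H P JD JH, Scene N H P JD JH → ∀ x φ, Conf H x φ → ∀ k k', k ≠ k' →
  φ (P k 18) = 0 → φ (P k' 18) = 0 → (∀ a, 0 < x (P k 18) a * x (P k' 18) a) →
  ∀ ξ : Fin 4 → Fin 4, (∀ a, ξ a ≠ a) →
  (∀ a, ∃ C, IsSph 3 1 C ∧ H a ∈ C ∧ H (ξ a) ∈ C ∧ JH k a ⊆ C) →
  (∀ a, ∃ C, IsSph 3 1 C ∧ H a ∈ C ∧ H (ξ a) ∈ C ∧ JH k' a ⊆ C) → False

/-- I5. -/
def StNoScene : Prop := ∀ N H P JD JH, 4099 ≤ N → ¬ Scene N H P JD JH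

/-- I. The lower bound. -/
def StLB : Prop := ∀ (N R : ℕ) (V : Type) (_ : Finite V) (G : SimpleGraph V)
  (ι : Fin 4 ⊕ (Fin N × Fin 19) → V), 4099 ≤ N → Function.Injective ι →
  (∀ x y, (baseG N).Adj x y → G.Adj (ι x) (ι y)) →
  2 * (2 * R + 4) ≤ ∑ a, deg G (ι (Sum.inl a)) →
  (∀ k w, 12 ≤ deg G (ι (Sum.inr (k, w)))) →
  ∀ (D : Drawing G 3) (F : Finset (Set (E 3))), Covers 1 D F → R < F.card

/-! ### J. The half-space model -/

/-- the hubs of the upper bound: `0` and three unit vectors in the plane `z_2 = 0` -/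
noncomputable def hubPt (a : Fin 4) : E 3 :=
  if a = 0 then 0 else if a = 1 then !₂[1, 0, 0] else if a = 2 then !₂[-1 / 2, √3 / 2, 0]
    else !₂[-1 / 2, -√3 / 2, 0]

/-- the elementary symmetric polynomial of degree two -/
def e2 (X : Fin 4 → ℝ) : ℝ :=
  X 0 * X 1 + X 0 * X 2 + X 0 * X 3 + X 1 * X 2 + X 1 * X 3 + X 2 * X 3

/-- the positive linear form -/
def sm (X : Fin 4 → ℝ) : ℝ := 3 * X 0 + X 1 + X 2 + X 3

/-- coordinates of a point of the upper half space -/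
noncomputable def co (p : E 3) : Fin 4 → ℝ :=
  ![√2 * (1 - ‖p‖ ^ 2) / p 2, √2 * (‖p‖ ^ 2 + 2 * p 0) / p 2,
    √2 * (‖p‖ ^ 2 - p 0 + √3 * p 1) / p 2, √2 * (‖p‖ ^ 2 - p 0 - √3 * p 1) / p 2]

/-- the point with given coordinates -/
noncomputable def pt (X : Fin 4 → ℝ) : E 3 :=
  !₂[(X 1 - (X 2 + X 3) / 2) / sm X, √3 / 2 * (X 2 - X 3) / sm X, 3 * √2 / sm X]

/-- J1. `co` and `pt` are inverse to each other. -/
def StCoPt : Prop :=
  (∀ p : E 3, 0 < p 2 → e2 (co p) = 6 ∧ 0 < sm (co p) ∧ pt (co p) = p) ∧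
  (∀ X, e2 X = 6 → 0 < sm X → 0 < pt X 2 ∧ co (pt X) = X)

/-- J2. Circles through a point of the upper half space and two hubs. -/
def StUpCirc : Prop := ∀ X, e2 X = 6 → 0 < sm X → ∀ a b : Fin 4, a ≠ b →
  ∃ C, IsSph 3 1 C ∧ pt X ∈ C ∧ hubPt a ∈ C ∧ hubPt b ∈ C ∧
    (∀ z ∈ C, z 2 = 0 → z = hubPt a ∨ z = hubPt b)

/-- J3. Arcs between points of the upper half space whose coordinates differ at `a, b` only. -/
def StUpArc : Prop := ∀ X Y, e2 X = 6 → 0 < sm X → e2 Y = 6 → 0 < sm Y → ∀ a b : Fin 4, a ≠ b →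
  X a ≠ Y a → (∀ c, c ≠ a → c ≠ b → X c = Y c) →
  ∀ C, IsSph 3 1 C → pt X ∈ C → hubPt a ∈ C → hubPt b ∈ C →
  ∃ J, J ⊆ C ∧ IsArc J (pt X) (pt Y) ∧ ∀ z ∈ J, 0 < z 2 ∧
    (∀ c, c ≠ a → c ≠ b → co z c = X c) ∧ co z a ∈ Set.uIcc (X a) (Y a) ∧
      co z b ∈ Set.uIcc (X b) (Y b)

/-- J4. Arcs from a point of the upper half space to a hub. -/
def StUpHub : Prop := ∀ X, e2 X = 6 → 0 < sm X → ∀ a b : Fin 4, a ≠ b →
  ∀ C, IsSph 3 1 C → pt X ∈ C → hubPt a ∈ C → hubPt b ∈ C →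
  ∃ J, J ⊆ C ∧ IsArc J (pt X) (hubPt a) ∧ ∀ z ∈ J, z = hubPt a ∨ (0 < z 2 ∧
    (∀ c, c ≠ a → c ≠ b → co z c = X c) ∧ X a ≤ co z a ∧ co z b ≤ X b)

/-! ### K. The piece in the half-space model -/

/-- the six values of the coordinates -/
noncomputable def val (n : ℕ) : ℝ :=
  if n = 1 then 1 / 7 else if n = 2 then 2 / 5 else if n = 3 then 1 else if n = 4 then 7 / 4
    else if n = 5 then 14 / 5 else 7 / 2

/-- ranks of the coordinates of the 19 vertices -/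
def rk (w : Fin 19) (c : Fin 4) : ℕ :=
  ((([[3, 3, 3, 3], [4, 2, 3, 3], [4, 3, 2, 3], [4, 3, 3, 2], [2, 4, 3, 3], [3, 4, 2, 3],
    [3, 4, 3, 2], [2, 3, 4, 3], [3, 2, 4, 3], [3, 3, 4, 2], [2, 3, 3, 4], [3, 2, 3, 4],
    [3, 3, 2, 4], [5, 3, 2, 2], [5, 2, 3, 2], [5, 2, 2, 3], [2, 5, 3, 2], [3, 5, 2, 2],
    [6, 1, 3, 2]] : List (List ℕ)).getD w.val []).getD c.val 0)

/-- coordinates of the 19 vertices -/
noncomputable def XV (w : Fin 19) (c : Fin 4) : ℝ := val (rk w c)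

/-- the second hub on the circle of the hub edge from `f` to the hub `a` -/
def xi (a : Fin 4) : Fin 4 := if a = 0 then 1 else if a = 1 then 2 else if a = 2 then 3 else 1

/-- the box of a direct edge -/
def InBox (w w' : Fin 19) (X : Fin 4 → ℝ) : Prop := ∀ c, X c ∈ Set.uIcc (XV w c) (XV w' c)

/-- the box of a hub edge -/
def InHubBox (a : Fin 4) (X : Fin 4 → ℝ) : Prop :=
  XV 18 a ≤ X a ∧ X (xi a) ≤ XV 18 (xi a) ∧ ∀ c, c ≠ a → c ≠ xi a → X c = XV 18 c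

/-- K1. The vertices: on the quadric, distinct, and adjacent ones differ at two coordinates. -/
def StVert : Prop := (∀ w, e2 (XV w) = 6 ∧ 0 < sm (XV w)) ∧ Function.Injective XV ∧
  ∀ w w', PAdj w w' → ∃ a b, a ≠ b ∧ XV w a ≠ XV w' a ∧ ∀ c, c ≠ a → c ≠ b → XV w c = XV w' c

/-- K2. The boxes meet the quadric only in common vertices. -/
def StBox : Prop :=
  (∀ u u' w w', PAdj u u' → PAdj w w' → s(u, u') ≠ s(w, w') → ∀ X, e2 X = 6 → InBox u u' X →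
    InBox w w' X → ∃ k, k ∈ s(u, u') ∧ k ∈ s(w, w') ∧ X = XV k) ∧
  (∀ u u' a, PAdj u u' → ∀ X, e2 X = 6 → InBox u u' X → InHubBox a X →
    18 ∈ s(u, u') ∧ X = XV 18) ∧
  (∀ a b, a ≠ b → ∀ X, e2 X = 6 → InHubBox a X → InHubBox b X → X = XV 18) ∧
  (∀ u u' k, PAdj u u' → InBox u u' (XV k) → k ∈ s(u, u')) ∧
  (∀ a k, InHubBox a (XV k) → k = 18)

/-! ### L. The drawing in `ℝ^4` -/

/-- the page with angle `θ` -/
noncomputable def pageMap (θ : ℝ) (p : E 3) : E 4 :=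
  !₂[p 0, p 1, p 2 * Real.cos θ, p 2 * Real.sin θ]

/-- L1. The pages are isometric copies of `ℝ^3`, and the open half pages are disjoint. -/
def StPage : Prop := (∀ θ, ∃ f : E 3 →ₗᵢ[ℝ] E 4, ∀ p, f p = pageMap θ p) ∧
  (∀ θ θ' p, p 2 = 0 → pageMap θ p = pageMap θ' p) ∧
  ∀ θ θ' p p', 0 ≤ θ → θ < Real.pi → 0 ≤ θ' → θ' < Real.pi → 0 ≤ p 2 → 0 ≤ p' 2 →
    pageMap θ p = pageMap θ' p' → p = p' ∧ (0 < p 2 → θ = θ')

/-- L2. The circle through three hubs. -/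
def StTriple : Prop := ∀ d : Fin 4, ∃ C, IsSph 3 1 C ∧ ∀ a, hubPt a ∈ C ↔ a ≠ d

/-- The drawing of one copy of the piece and of its four hub edges in a page. -/
structure PageDrawing (P : Fin 19 → E 3) (JD : Sym2 (Fin 19) → Set (E 3))
    (JH : Fin 4 → Set (E 3)) (CF : Finset (Set (E 3))) : Prop where
  inj : Function.Injective P
  up : ∀ w, 0 < P w 2
  dirArc : ∀ u u', PAdj u u' → IsArc (JD s(u, u')) (P u) (P u')
  dirUp : ∀ u u', PAdj u u' → ∀ z ∈ JD s(u, u'), 0 < z 2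
  hubArc : ∀ a, IsArc (JH a) (P 18) (hubPt a)
  hubUp : ∀ a, ∀ z ∈ JH a, z = hubPt a ∨ 0 < z 2
  cross1 : ∀ u u' w w', PAdj u u' → PAdj w w' → s(u, u') ≠ s(w, w') →
    ∀ z ∈ JD s(u, u'), z ∈ JD s(w, w') → ∃ k, k ∈ s(u, u') ∧ k ∈ s(w, w') ∧ z = P k
  cross2 : ∀ u u' a, PAdj u u' → ∀ z ∈ JD s(u, u'), z ∈ JH a → 18 ∈ s(u, u') ∧ z = P 18
  cross3 : ∀ a b, a ≠ b → ∀ z ∈ JH a, z ∈ JH b → z = P 18
  thru1 : ∀ u u' k, PAdj u u' → P k ∈ JD s(u, u') → k ∈ s(u, u')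
  thru2 : ∀ a k, P k ∈ JH a → k = 18
  circ : ∀ S ∈ CF, IsSph 3 1 S ∧ ∃ a b, a ≠ b ∧ hubPt a ∈ S ∧ hubPt b ∈ S
  cov1 : ∀ u u', PAdj u u' → ∃ S ∈ CF, JD s(u, u') ⊆ S
  cov2 : ∀ a, ∃ S ∈ CF, JH a ⊆ S
  six : ∀ w, 6 ≤ nthru CF (P w)

/-- L3. -/
def StPageD : Prop := ∃ P JD JH CF, PageDrawing P JD JH CF

/-- L4. Double counting of the incidences between circles and hubs. -/
def StDouble : Prop := ∀ (d : ℕ) (F : Finset (Set (E d))) (h : Fin 4 → E d),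
  (∑ a, nthru F (h a) = ∑ S ∈ F, {a | h a ∈ S}.ncard) ∧
  ((∀ S ∈ F, 2 ≤ {a | h a ∈ S}.ncard) → ∀ T : Fin 4 → Set (E d), Function.Injective T →
    (∀ i, T i ∈ F ∧ 3 ≤ {a | h a ∈ T i}.ncard) → 2 * F.card + 4 ≤ ∑ a, nthru F (h a))

/-- L. The upper bound. -/
def StUB : Prop := ∀ N : ℕ, ∃ (D : Drawing (baseG N) 4) (F : Finset (Set (E 4))),
  Covers 1 D F ∧ 2 * F.card + 4 ≤ ∑ a, nthru F (D.pos (Sum.inl a)) ∧
  ∀ k w, 6 ≤ nthru F (D.pos (Sum.inr (k, w)))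

/-! ### M. Final statement -/

/-- M1. Drawings in `ℝ^d` embed in `ℝ^d'` for `d ≤ d'`. -/
def StMono : Prop := ∀ (V : Type) (G : SimpleGraph V) (d d' : ℕ), d ≤ d' →
  sphericalCover d' 1 G ≤ sphericalCover d 1 G

/-- M. -/
def StMain : Prop := ∃ (V : Type) (_ : Finite V) (G : SimpleGraph V), ∀ d, 3 < d →
  sphericalCover d 1 G < sphericalCover 3 1 G

end Pool.Agent.Lib.MP_9f365b_co
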