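import Mathlib
import Pool.Agent.Lib.MP_9f365b_co.Stmts

/-! Assembly of the main statement from the module statements. -/

namespace Pool.Agent.Lib.MP_9f365b_co

theorem stRigid (h1 : StShell) (h2 : StY) (h3 : StSigma) : StRigid := by
  intro G X hX
  obtain ⟨σ, α, α', hs⟩ := h1 G X hX
  obtain ⟨y1, y2⟩ := h2 G X hX σ α α' hs
  exact h3 G X hX σ α α' hs y1 y2

theorem stLB (h1 : StScene) (h2 : StNoScene) : StLB := by
  intro N R V hV G ι hN hι hadj hhub hfull D F hF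
  by_contra hcon
  obtain ⟨H, P, JD, JH, hs⟩ := h1 N R V hV G ι hι hadj hhub hfull D F hF (not_lt.mp hcon)
  exact h2 N H P JD JH hN hs

theorem stMain (hUB : StUB) (hC : StCompl) (hLB : StLB) (hM : StMono) : StMain := by
  obtain ⟨D, F, hF, hhub, hfull⟩ := hUB 4099
  obtain ⟨V', hV', G', ι, D', hι, hadj, hF', hdeg⟩ := hC _ inferInstance (baseG 4099) 4 D F hF
  refine ⟨V', hV', G', ?_⟩
  intro d hd
  have h4 : sphericalCover 4 1 G' ≤ F.card := sInf_le ⟨D', F, hF', rfl⟩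
  have h3 : ((F.card + 1 : ℕ) : ℕ∞) ≤ sphericalCover 3 1 G' := by
    apply le_sInf
    rintro n ⟨D3, F3, hF3, rfl⟩
    have := hLB 4099 F.card V' hV' G' ι le_rfl hι hadj ?_ ?_ D3 F3 hF3
    · exact_mod_cast this
    · calc 2 * (2 * F.card + 4) ≤ 2 * ∑ a, nthru F (D.pos (Sum.inl a)) := by omega
        _ = ∑ a, 2 * nthru F (D.pos (Sum.inl a)) := by rw [Finset.mul_sum]
        _ ≤ ∑ a, deg G' (ι (Sum.inl a)) := Finset.sum_le_sum fun a _ => hdeg _
    · intro k w
      have h6 := hfull k w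
      have := hdeg (Sum.inr (k, w))
      omega
  calc sphericalCover d 1 G' ≤ sphericalCover 4 1 G' := hM V' G' 4 d hd
    _ ≤ F.card := h4
    _ < ((F.card + 1 : ℕ) : ℕ∞) := by exact_mod_cast Nat.lt_succ_self _
    _ ≤ sphericalCover 3 1 G' := h3

/-- Negative answer to Q1. -/
theorem not_Q1 (h : StMain) : ¬ ∀ (V : Type) (_ : Finite V) (G : SimpleGraph V) (d l : ℕ), 3 < d →
    (l = 1 ∨ l = 2) → sphericalCover d l G = sphericalCover 3 l G := by
  obtain ⟨V, hV, G, hG⟩ := h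
  intro hall
  exact (hG 4 (by norm_num)).ne (hall V hV G 4 1 (by norm_num) (Or.inl rfl))

end Pool.Agent.Lib.MP_9f365b_co
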