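import Pool.Agent.Lib.MP_9f365b_co.Stmts

/-!
K: the piece in the half-space model, finite certificate.
-/

namespace Pool.Agent.Lib.MP_9f365b_co

namespace BoxAux

/-! ### Values and ranks -/

lemma val_lt {m n : ℕ} (hm : 1 ≤ m) (hmn : m < n) (hn : n ≤ 6) : val m < val n := by
  have h1 : m ≤ 6 := by omega
  interval_cases n <;> interval_cases m <;> simp [val] <;> norm_num

lemma val_pos (n : ℕ) : 0 < val n := by
  unfold val
  split_ifs <;> norm_num

lemma rk_bd : ∀ (k : Fin 19) (c : Fin 4), 1 ≤ rk k c ∧ rk k c ≤ 6 := by decide +kernel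

/-! ### Boxes given by ranks -/

/-- the box with lower ranks `lo` (`0`: none) and upper ranks `hi` (`7`: none) -/
def Bd (lo hi : Fin 4 → ℕ) (X : Fin 4 → ℝ) : Prop :=
  ∀ c, (lo c = 0 ∨ val (lo c) ≤ X c) ∧ (hi c = 7 ∨ X c ≤ val (hi c))

lemma Bd.inter {lo hi lo' hi' : Fin 4 → ℕ} {X : Fin 4 → ℝ} (h : Bd lo hi X)
    (h' : Bd lo' hi' X) : Bd (fun c => max (lo c) (lo' c)) (fun c => min (hi c) (hi' c)) X := by
  intro c
  simp only
  constructor
  · rcases max_choice (lo c) (lo' c) with e | e
    · rw [e]; exact (h c).1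
    · rw [e]; exact (h' c).1
  · rcases min_choice (hi c) (hi' c) with e | e
    · rw [e]; exact (h c).2
    · rw [e]; exact (h' c).2

/-- all coordinates -/
def cs : List (Fin 4) := [0, 1, 2, 3]

/-- all vertices -/
def ks : List (Fin 19) := [0, 1, 2, 3, 4, 5, 6, 7, 8, 9, 10, 11, 12, 13, 14, 15, 16, 17, 18]

lemma mem_cs (c : Fin 4) : c ∈ cs := by revert c; decide

lemma mem_ks (k : Fin 19) : k ∈ ks := by revert k; decide

/-- the certificate: the box is empty or meets the quadric in allowed vertices only -/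
def chk (lo hi : Fin 4 → ℕ) (al : Fin 19 → Bool) : Bool :=
  (cs.all fun c => decide (lo c ≤ 6) && decide (1 ≤ hi c)) &&
  ((cs.any fun c => decide (hi c < lo c)) ||
    ks.any fun k => cs.any fun c0 =>
      (cs.all fun c => decide (c = c0) || (decide (lo c = hi c) && decide (rk k c = lo c))) &&
      (al k || decide (rk k c0 < lo c0) || decide (hi c0 < rk k c0)))

lemma e2_det {X Y : Fin 4 → ℝ} (hX : e2 X = e2 Y) (c0 : Fin 4) (h : ∀ c, c ≠ c0 → X c = Y c)
    (hp : ∀ c, 0 < Y c) : X = Y := by
  have key : X c0 = Y c0 := by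
    have p0 := hp 0
    have p1 := hp 1
    have p2 := hp 2
    have p3 := hp 3
    unfold e2 at hX
    fin_cases c0
    · have h1 := h 1 (by decide)
      have h2 := h 2 (by decide)
      have h3 := h 3 (by decide)
      rw [h1, h2, h3] at hX
      have : (X 0 - Y 0) * (Y 1 + Y 2 + Y 3) = 0 := by linarith
      rcases mul_eq_zero.mp this with h4 | h4
      · simp only [Fin.zero_eta]; linarith
      · exact absurd h4 (by positivity)
    · have h1 := h 0 (by decide)
      have h2 := h 2 (by decide)
      have h3 := h 3 (by decide)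
      rw [h1, h2, h3] at hX
      have : (X 1 - Y 1) * (Y 0 + Y 2 + Y 3) = 0 := by linarith
      rcases mul_eq_zero.mp this with h4 | h4
      · simp only [Fin.mk_one]; linarith
      · exact absurd h4 (by positivity)
    · have h1 := h 0 (by decide)
      have h2 := h 1 (by decide)
      have h3 := h 3 (by decide)
      rw [h1, h2, h3] at hX
      have : (X 2 - Y 2) * (Y 0 + Y 1 + Y 3) = 0 := by linarith
      rcases mul_eq_zero.mp this with h4 | h4
      · simp only [Fin.reduceFinMk]; linarith
      · exact absurd h4 (by positivity)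
    · have h1 := h 0 (by decide)
      have h2 := h 1 (by decide)
      have h3 := h 2 (by decide)
      rw [h1, h2, h3] at hX
      have : (X 3 - Y 3) * (Y 0 + Y 1 + Y 2) = 0 := by linarith
      rcases mul_eq_zero.mp this with h4 | h4
      · simp only [Fin.reduceFinMk]; linarith
      · exact absurd h4 (by positivity)
  funext c
  by_cases hc : c = c0
  · rw [hc, key]
  · exact h c hc

lemma e2_XV : ∀ w : Fin 19, e2 (XV w) = 6 := by
  intro w
  fin_cases w <;> simp [e2, XV, rk, val] <;> norm_num

lemma chk_sound {lo hi : Fin 4 → ℕ} {al : Fin 19 → Bool} (h : chk lo hi al = true)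
    {X : Fin 4 → ℝ} (hX : e2 X = 6) (hB : Bd lo hi X) : ∃ k, al k = true ∧ X = XV k := by
  unfold chk at h
  simp only [Bool.and_eq_true, Bool.or_eq_true, List.all_eq_true, List.any_eq_true,
    decide_eq_true_eq] at h
  obtain ⟨h0, h1 | ⟨k, -, c0, -, h2, h3⟩⟩ := h
  · obtain ⟨c, -, h2⟩ := h1
    exfalso
    obtain ⟨b1, b2⟩ := h0 c (mem_cs c)
    obtain ⟨d1, d2⟩ := hB c
    have d1' : val (lo c) ≤ X c := by
      rcases d1 with d1 | d1
      · omega
      · exact d1
    have d2' : X c ≤ val (hi c) := by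
      rcases d2 with d2 | d2
      · omega
      · exact d2
    have := val_lt b2 h2 b1
    linarith
  · have hXk : X = XV k := by
      apply e2_det (by rw [hX, e2_XV]) c0
      · intro c hc
        obtain h4 | ⟨h4, h5⟩ := h2 c (mem_cs c)
        · exact absurd h4 hc
        · obtain ⟨b1, b2⟩ := h0 c (mem_cs c)
          obtain ⟨d1, d2⟩ := hB c
          have d1' : val (lo c) ≤ X c := by
            rcases d1 with d1 | d1
            · omega
            · exact d1
          have d2' : X c ≤ val (hi c) := by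
            rcases d2 with d2 | d2
            · omega
            · exact d2
          rw [← h4] at d2'
          show X c = val (rk k c)
          rw [h5]
          linarith
      · intro c
        exact val_pos _
    rcases h3 with (h3 | h3) | h3
    · exact ⟨k, h3, hXk⟩
    · exfalso
      obtain ⟨b1, b2⟩ := h0 c0 (mem_cs c0)
      obtain ⟨d1, -⟩ := hB c0
      have d1' : val (lo c0) ≤ X c0 := by
        rcases d1 with d1 | d1
        · omega
        · exact d1
      rw [hXk] at d1'
      have := val_lt (rk_bd k c0).1 h3 b1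
      have d3 : XV k c0 = val (rk k c0) := rfl
      linarith
    · exfalso
      obtain ⟨b1, b2⟩ := h0 c0 (mem_cs c0)
      obtain ⟨-, d2⟩ := hB c0
      have r := rk_bd k c0
      have d2' : X c0 ≤ val (hi c0) := by
        rcases d2 with d2 | d2
        · omega
        · exact d2
      rw [hXk] at d2'
      have := val_lt b2 h3 r.2
      have d3 : XV k c0 = val (rk k c0) := rfl
      linarith

/-- a vertex in a box -/
lemma bd_rk {lo hi : Fin 4 → ℕ} (h0 : ∀ c, lo c ≤ 6 ∧ 1 ≤ hi c) {k : Fin 19}
    (hB : Bd lo hi (XV k)) (c : Fin 4) : lo c ≤ rk k c ∧ rk k c ≤ hi c := by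
  have r := rk_bd k c
  obtain ⟨b1, b2⟩ := h0 c
  obtain ⟨d1, d2⟩ := hB c
  have d3 : XV k c = val (rk k c) := rfl
  rw [d3] at d1 d2
  constructor
  · by_contra h
    rw [not_le] at h
    have := val_lt r.1 h b1
    rcases d1 with d1 | d1
    · omega
    · linarith
  · by_contra h
    rw [not_le] at h
    have := val_lt b2 h r.2
    rcases d2 with d2 | d2
    · omega
    · linarith

/-- lower ranks of a direct edge -/
def lo1 (e : Fin 19 × Fin 19) (c : Fin 4) : ℕ := min (rk e.1 c) (rk e.2 c)

/-- upper ranks of a direct edge -/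
def hi1 (e : Fin 19 × Fin 19) (c : Fin 4) : ℕ := max (rk e.1 c) (rk e.2 c)

/-- lower ranks of a hub edge -/
def hlo (a c : Fin 4) : ℕ := if c = xi a then 0 else rk 18 c

/-- upper ranks of a hub edge -/
def hhi (a c : Fin 4) : ℕ := if c = a then 7 else rk 18 c

lemma val_mono {m n : ℕ} (hm : 1 ≤ m) (hmn : m ≤ n) (hn : n ≤ 6) : val m ≤ val n := by
  rcases Nat.eq_or_lt_of_le hmn with rfl | h
  · exact le_rfl
  · exact (val_lt hm h hn).le

lemma bd_box {u u' : Fin 19} {X : Fin 4 → ℝ} (h : InBox u u' X) :
    Bd (lo1 (u, u')) (hi1 (u, u')) X := by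
  intro c
  have h1 := h c
  rw [Set.mem_uIcc] at h1
  have r := rk_bd u c
  have r' := rk_bd u' c
  have e1 : XV u c = val (rk u c) := rfl
  have e2 : XV u' c = val (rk u' c) := rfl
  rw [e1, e2] at h1
  simp only [lo1, hi1]
  rcases h1 with ⟨h1, h2⟩ | ⟨h1, h2⟩
  · constructor
    · right
      exact (val_mono (le_min r.1 r'.1) (min_le_left _ _) r.2).trans h1
    · right
      exact h2.trans (val_mono r'.1 (le_max_right _ _) (max_le r.2 r'.2))
  · constructor
    · right
      exact (val_mono (le_min r.1 r'.1) (min_le_right _ _) r'.2).trans h1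
    · right
      exact h2.trans (val_mono r.1 (le_max_left _ _) (max_le r.2 r'.2))

lemma bd_hub {a : Fin 4} {X : Fin 4 → ℝ} (h : InHubBox a X) : Bd (hlo a) (hhi a) X := by
  obtain ⟨h1, h2, h3⟩ := h
  have hxi' : ∀ a : Fin 4, xi a ≠ a := by decide
  have hxi := hxi' a
  intro c
  simp only [hlo, hhi]
  by_cases hc : c = a
  · subst hc
    rw [if_neg (Ne.symm hxi), if_pos rfl]
    exact ⟨Or.inr h1, Or.inl rfl⟩
  · by_cases hx : c = xi a
    · subst hx
      rw [if_pos rfl, if_neg hc]
      exact ⟨Or.inl rfl, Or.inr h2⟩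
    · rw [if_neg hx, if_neg hc, h3 c hc hx]
      exact ⟨Or.inr le_rfl, Or.inr le_rfl⟩

/-! ### The finite computations -/

/-- the vertices of an edge -/
def inE (e : Fin 19 × Fin 19) (k : Fin 19) : Bool := decide (k = e.1) || decide (k = e.2)

/-- two direct edges -/
lemma comp1 : (pieceEdges.all fun e => pieceEdges.all fun e' => decide (e = e') ||
    chk (fun c => max (lo1 e c) (lo1 e' c)) (fun c => min (hi1 e c) (hi1 e' c))
      (fun k => inE e k && inE e' k)) = true := by decide +kernel

/-- a direct edge and a hub edge -/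
lemma comp2 : (pieceEdges.all fun e => cs.all fun a =>
    chk (fun c => max (lo1 e c) (hlo a c)) (fun c => min (hi1 e c) (hhi a c))
      (fun k => decide (k = 18) && inE e k)) = true := by decide +kernel

/-- two hub edges -/
lemma comp3 : (cs.all fun a => cs.all fun b => decide (a = b) ||
    chk (fun c => max (hlo a c) (hlo b c)) (fun c => min (hhi a c) (hhi b c))
      (fun k => decide (k = 18))) = true := by decide +kernel

/-- a direct edge and a vertex -/
lemma comp4 : (pieceEdges.all fun e => ks.all fun k =>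
    !(cs.all fun c => decide (lo1 e c ≤ rk k c) && decide (rk k c ≤ hi1 e c)) ||
      inE e k) = true := by decide +kernel

/-- a hub edge and a vertex -/
lemma comp5 : (cs.all fun a => ks.all fun k =>
    !(cs.all fun c => decide (hlo a c ≤ rk k c) && decide (rk k c ≤ hhi a c)) ||
      decide (k = 18)) = true := by decide +kernel

/-- adjacent vertices -/
lemma comp6 : (pieceEdges.all fun e => cs.any fun a => cs.any fun b =>
    (!decide (a = b) && !decide (rk e.1 a = rk e.2 a)) &&
      (cs.all fun c => (decide (c = a) || decide (c = b)) ||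
        decide (rk e.1 c = rk e.2 c))) = true := by decide +kernel

/-- different vertices -/
lemma comp7 : (ks.all fun k => ks.all fun k' => decide (k = k') ||
    !(cs.all fun c => decide (rk k c = rk k' c))) = true := by decide +kernel

lemma val_inj {m n : ℕ} (hm : 1 ≤ m ∧ m ≤ 6) (hn : 1 ≤ n ∧ n ≤ 6) (h : val m = val n) :
    m = n := by
  rcases lt_trichotomy m n with h1 | h1 | h1
  · exact absurd h (val_lt hm.1 h1 hn.2).ne
  · exact h1
  · exact absurd h.symm (val_lt hn.1 h1 hm.2).ne

lemma padj_cases {u u' : Fin 19} (h : PAdj u u') : ∃ e ∈ pieceEdges, s(e.1, e.2) = s(u, u') ∧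
    ∀ X, InBox u u' X → InBox e.1 e.2 X := by
  rcases h with h | h
  · exact ⟨(u, u'), h, rfl, fun X hX => hX⟩
  · refine ⟨(u', u), h, Sym2.eq_swap, fun X hX c => ?_⟩
    have := hX c
    rw [Set.uIcc_comm] at this
    exact this

lemma inE_iff {e : Fin 19 × Fin 19} {k : Fin 19} : inE e k = true ↔ k ∈ s(e.1, e.2) := by
  simp [inE]

lemma edge_bd (e : Fin 19 × Fin 19) (c : Fin 4) : lo1 e c ≤ 6 ∧ 1 ≤ hi1 e c := by
  have r := rk_bd e.1 c
  have r' := rk_bd e.2 c
  unfold lo1 hi1
  omega

lemma hub_bd (a c : Fin 4) : hlo a c ≤ 6 ∧ 1 ≤ hhi a c := by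
  have r := rk_bd 18 c
  unfold hlo hhi
  split_ifs <;> omega

end BoxAux

open BoxAux

/-- K1. -/
theorem stVert : StVert := by
  refine ⟨?_, ?_, ?_⟩
  · intro w
    refine ⟨e2_XV w, ?_⟩
    have h : ∀ c, 0 < XV w c := fun c => val_pos _
    have h0 := h 0
    have h1 := h 1
    have h2 := h 2
    have h3 := h 3
    unfold sm
    linarith
  · intro k k' h
    have h1 : ∀ c, rk k c = rk k' c := by
      intro c
      exact val_inj (rk_bd k c) (rk_bd k' c) (congrFun h c)
    have h2 := comp7
    rw [List.all_eq_true] at h2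
    have h3 := h2 k (mem_ks k)
    rw [List.all_eq_true] at h3
    have h4 := h3 k' (mem_ks k')
    simp only [Bool.or_eq_true, decide_eq_true_eq, Bool.not_eq_true', List.all_eq_false] at h4
    rcases h4 with h4 | ⟨c, -, h5⟩
    · exact h4
    · exact absurd (h1 c) (by simpa using h5)
  · intro w w' h
    obtain ⟨e, he, hee, -⟩ := padj_cases h
    have h2 := comp6
    rw [List.all_eq_true] at h2
    have h3 := h2 e he
    simp only [List.any_eq_true, Bool.and_eq_true, List.all_eq_true, Bool.or_eq_true,
      decide_eq_true_eq, Bool.not_eq_true', decide_eq_false_iff_not] at h3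
    obtain ⟨a, -, b, -, ⟨h6, h7⟩, h8'⟩ := h3
    have h8 : ∀ c, c ≠ a → c ≠ b → rk e.1 c = rk e.2 c := by
      intro c c1 c2
      rcases h8' c (mem_cs c) with (h9 | h9) | h9
      · exact absurd h9 c1
      · exact absurd h9 c2
      · exact h9
    refine ⟨a, b, h6, ?_, ?_⟩
    · intro h9
      rw [Sym2.eq_iff] at hee
      rcases hee with ⟨rfl, rfl⟩ | ⟨rfl, rfl⟩
      · exact h7 (val_inj (rk_bd _ _) (rk_bd _ _) h9)
      · exact h7 (val_inj (rk_bd _ _) (rk_bd _ _) h9.symm)
    · intro c hc1 hc2
      have h9 := h8 c hc1 hc2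
      rw [Sym2.eq_iff] at hee
      rcases hee with ⟨rfl, rfl⟩ | ⟨rfl, rfl⟩
      · exact congrArg val h9
      · exact congrArg val h9.symm

/-- K2. -/
theorem stBox : StBox := by
  refine ⟨?_, ?_, ?_, ?_, ?_⟩
  · intro u u' w w' hu hw hne X hX hb hb'
    obtain ⟨e, he, hee, heb⟩ := padj_cases hu
    obtain ⟨e', he', hee', heb'⟩ := padj_cases hw
    have h2 := comp1
    rw [List.all_eq_true] at h2
    have h3 := h2 e he
    rw [List.all_eq_true] at h3
    have h4 := h3 e' he'
    rw [Bool.or_eq_true, decide_eq_true_eq] at h4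
    rcases h4 with h4 | h4
    · subst h4
      exact absurd (hee.symm.trans hee') hne
    · obtain ⟨k, hk, hXk⟩ := chk_sound h4 hX
        ((bd_box (heb X hb)).inter (bd_box (heb' X hb')))
      rw [Bool.and_eq_true] at hk
      refine ⟨k, ?_, ?_, hXk⟩
      · rw [← hee]; exact inE_iff.mp hk.1
      · rw [← hee']; exact inE_iff.mp hk.2
  · intro u u' a hu X hX hb hb'
    obtain ⟨e, he, hee, heb⟩ := padj_cases hu
    have h2 := comp2
    rw [List.all_eq_true] at h2
    have h3 := h2 e he
    rw [List.all_eq_true] at h3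
    have h4 := h3 a (mem_cs a)
    obtain ⟨k, hk, hXk⟩ := chk_sound h4 hX ((bd_box (heb X hb)).inter (bd_hub hb'))
    rw [Bool.and_eq_true, decide_eq_true_eq] at hk
    obtain ⟨rfl, hk2⟩ := hk
    exact ⟨by rw [← hee]; exact inE_iff.mp hk2, hXk⟩
  · intro a b hab X hX hb hb'
    have h2 := comp3
    rw [List.all_eq_true] at h2
    have h3 := h2 a (mem_cs a)
    rw [List.all_eq_true] at h3
    have h4 := h3 b (mem_cs b)
    rw [Bool.or_eq_true, decide_eq_true_eq] at h4
    rcases h4 with h4 | h4
    · exact absurd h4 hab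
    · obtain ⟨k, hk, hXk⟩ := chk_sound h4 hX ((bd_hub hb).inter (bd_hub hb'))
      rw [decide_eq_true_eq] at hk
      subst hk
      exact hXk
  · intro u u' k hu hb
    obtain ⟨e, he, hee, heb⟩ := padj_cases hu
    have h2 := comp4
    rw [List.all_eq_true] at h2
    have h3 := h2 e he
    rw [List.all_eq_true] at h3
    have h4 := h3 k (mem_ks k)
    rw [Bool.or_eq_true, Bool.not_eq_true'] at h4
    rcases h4 with h4 | h4
    · exfalso
      have h5 := bd_rk (edge_bd (e.1, e.2)) (bd_box (heb _ hb))
      rw [List.all_eq_false] at h4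
      obtain ⟨c, -, h6⟩ := h4
      apply h6
      rw [Bool.and_eq_true, decide_eq_true_eq, decide_eq_true_eq]
      exact h5 c
    · rw [← hee]; exact inE_iff.mp h4
  · intro a k hb
    have h2 := comp5
    rw [List.all_eq_true] at h2
    have h3 := h2 a (mem_cs a)
    rw [List.all_eq_true] at h3
    have h4 := h3 k (mem_ks k)
    rw [Bool.or_eq_true, Bool.not_eq_true', decide_eq_true_eq] at h4
    rcases h4 with h4 | h4
    · exfalso
      have h5 := bd_rk (hub_bd a) (bd_hub hb)
      rw [List.all_eq_false] at h4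
      obtain ⟨c, -, h6⟩ := h4
      apply h6
      rw [Bool.and_eq_true, decide_eq_true_eq, decide_eq_true_eq]
      exact h5 c
    · exact h4

end Pool.Agent.Lib.MP_9f365b_co
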