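import Mathlib
import Pool.Agent.Lib.MP_9f365b_co.Stmts

/-!
A10 and L2: circles through three points; the circles through three hubs.
-/

open scoped RealInnerProductSpace

namespace Pool.Agent.Lib.MP_9f365b_co

theorem stCirc3 : StCirc3 := by
  intro d P A B h
  set s : Affine.Simplex ℝ (E d) 2 := ⟨![P, A, B], h⟩ with hs
  have hmem : ∀ i, s.points i ∈ {x | x ∈ affineSpan ℝ (Set.range s.points) ∧
      ‖x - s.circumcenter‖ = s.circumradius} := by
    intro i
    refine ⟨mem_affineSpan ℝ ⟨i, rfl⟩, ?_⟩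
    rw [← dist_eq_norm]
    exact s.dist_circumcenter_eq_circumradius i
  refine ⟨{x | x ∈ affineSpan ℝ (Set.range s.points) ∧ ‖x - s.circumcenter‖ = s.circumradius},
    ⟨affineSpan ℝ (Set.range s.points), s.circumcenter, s.circumradius, ?_, ?_, ?_, rfl⟩,
    hmem 0, hmem 1, hmem 2⟩
  · exact s.circumcenter_mem_affineSpan
  · rw [direction_affineSpan]
    exact h.finrank_vectorSpan (by simp)
  · exact s.circumradius_pos

namespace Circ3Aux

/-- the plane of the hubs -/
noncomputable def pl : Submodule ℝ (E 3) :=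
  LinearMap.ker ((EuclideanSpace.proj (𝕜 := ℝ) (2 : Fin 3) : E 3 →L[ℝ] ℝ).toLinearMap)

theorem mem_pl (x : E 3) : x ∈ pl ↔ x 2 = 0 := by
  unfold pl
  rw [LinearMap.mem_ker]
  rfl

theorem finrank_pl : Module.finrank ℝ pl = 2 := by
  have h1 := LinearMap.finrank_range_add_finrank_ker
    ((EuclideanSpace.proj (𝕜 := ℝ) (2 : Fin 3) : E 3 →L[ℝ] ℝ).toLinearMap)
  have h2 : LinearMap.range ((EuclideanSpace.proj (𝕜 := ℝ) (2 : Fin 3) : E 3 →L[ℝ] ℝ).toLinearMap)
      = ⊤ := by
    rw [LinearMap.range_eq_top]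
    intro t
    refine ⟨EuclideanSpace.single 2 t, ?_⟩
    simp
  rw [h2, finrank_top, Module.finrank_self, finrank_euclideanSpace_fin] at h1
  have h3 : Module.finrank ℝ pl = Module.finrank ℝ (LinearMap.ker
    ((EuclideanSpace.proj (𝕜 := ℝ) (2 : Fin 3) : E 3 →L[ℝ] ℝ).toLinearMap)) := rfl
  rw [h3]
  omega

/-- centre of the circle through the hubs other than `d` -/
noncomputable def cen (d : Fin 4) : E 3 :=
  if d = 0 then 0 else if d = 1 then !₂[-1, 0, 0] else if d = 2 then !₂[1 / 2, -√3 / 2, 0]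
    else !₂[1 / 2, √3 / 2, 0]

theorem nsq3 (x y z : ℝ) : ‖(!₂[x, y, z] : E 3)‖ ^ 2 = x ^ 2 + y ^ 2 + z ^ 2 := by
  rw [EuclideanSpace.norm_sq_eq]
  simp [Fin.sum_univ_three]

theorem dist_cen (a d : Fin 4) : ‖hubPt a - cen d‖ ^ 2 =
    if a ≠ d then 1 else if d = 0 then 0 else 4 := by
  have h3 : (√3 : ℝ) ^ 2 = 3 := Real.sq_sqrt (by norm_num)
  rw [EuclideanSpace.norm_sq_eq]
  fin_cases a <;> fin_cases d <;> simp [hubPt, cen, Fin.sum_univ_three, sq_abs] <;>
    first
      | nlinarith [h3]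
      | exact Or.inr (by norm_num)

theorem triple : StTriple := by
  intro d
  refine ⟨{x | x ∈ pl.toAffineSubspace ∧ ‖x - cen d‖ = 1},
    ⟨pl.toAffineSubspace, cen d, 1, ?_, ?_, one_pos, rfl⟩, ?_⟩
  · show cen d ∈ pl
    rw [mem_pl]
    fin_cases d <;> simp [cen]
  · rw [Submodule.toAffineSubspace_direction]
    exact finrank_pl
  · intro a
    have hpl : hubPt a ∈ pl.toAffineSubspace := by
      show hubPt a ∈ pl
      rw [mem_pl]
      fin_cases a <;> simp [hubPt]
    have h1 := dist_cen a d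
    constructor
    · rintro ⟨_, h2⟩ had
      rw [h2, if_neg (not_not.2 had)] at h1
      split_ifs at h1 <;> norm_num at h1
    · intro had
      refine ⟨hpl, ?_⟩
      rw [if_pos had] at h1
      have h2 : 0 ≤ ‖hubPt a - cen d‖ := norm_nonneg _
      nlinarith

end Circ3Aux

theorem stTriple (_ : StComb) (_ : StCirc3) : StTriple := Circ3Aux.triple

end Pool.Agent.Lib.MP_9f365b_co
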