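import Pool.Agent.Lib.MP_9f365b_co.Stmts

/-!
A circle through three points consists of the combinations of their lifts.
-/

open scoped RealInnerProductSpace

namespace Pool.Agent.Lib.MP_9f365b_co

theorem cb_sq {d : ℕ} {z c : E d} {r : ℝ} (hr : 0 < r) :
    ‖z - c‖ = r ↔ ‖z‖ ^ 2 - 2 * ⟪z, c⟫ + ‖c‖ ^ 2 = r ^ 2 := by
  rw [← norm_sub_sq_real]
  constructor
  · intro h; rw [h]
  · intro h
    exact (pow_left_inj₀ (norm_nonneg _) hr.le (by norm_num)).1 h

/-- three points of a sphere are not collinear -/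
theorem cb_indep {d : ℕ} {P A B c : E d} {r : ℝ} (hP : ‖P - c‖ = r) (hA : ‖A - c‖ = r)
    (hB : ‖B - c‖ = r) (hPA : P ≠ A) (hPB : P ≠ B) (hAB : A ≠ B) :
    LinearIndependent ℝ ![A - P, B - P] := by
  rw [LinearIndependent.pair_iff' (sub_ne_zero.2 hPA.symm)]
  intro t ht
  have e1 : A - c = (P - c) + (A - P) := by abel
  have e2 : B - c = (P - c) + t • (A - P) := by rw [ht]; abel
  have h1 : ‖A - c‖ ^ 2 = ‖P - c‖ ^ 2 + 2 * ⟪P - c, A - P⟫ + ‖A - P‖ ^ 2 := by
    rw [e1, norm_add_sq_real]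
  have h2 : ‖B - c‖ ^ 2 = ‖P - c‖ ^ 2 + 2 * (t * ⟪P - c, A - P⟫) + t ^ 2 * ‖A - P‖ ^ 2 := by
    rw [e2, norm_add_sq_real, real_inner_smul_right, norm_smul, mul_pow, Real.norm_eq_abs, sq_abs]
  rw [hA, hP] at h1
  rw [hB, hP] at h2
  have h3 : t * (t - 1) * ‖A - P‖ ^ 2 = 0 := by linear_combination t * h1 - h2
  have h4 : ‖A - P‖ ^ 2 ≠ 0 := by
    have : 0 < ‖A - P‖ := norm_pos_iff.2 (sub_ne_zero.2 hPA.symm)
    positivity
  rcases mul_eq_zero.1 h3 with h5 | h5
  · rcases mul_eq_zero.1 h5 with h6 | h6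
    · apply hPB
      rw [h6, zero_smul] at ht
      exact (sub_eq_zero.1 ht.symm).symm
    · apply hAB
      have h7 : t = 1 := by linarith
      rw [h7, one_smul] at ht
      exact sub_left_injective ht
  · exact h4 h5

theorem stComb : StComb := by
  intro d C P A B hC hP hA hB hPA hPB hAB z
  obtain ⟨S, c, r, hc, hfr, hr, rfl⟩ := hC
  obtain ⟨hPS, hPr⟩ := hP
  obtain ⟨hAS, hAr⟩ := hA
  obtain ⟨hBS, hBr⟩ := hB
  have qP := (cb_sq hr).1 hPr
  have qA := (cb_sq hr).1 hAr
  have qB := (cb_sq hr).1 hBr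
  have hind := cb_indep hPr hAr hBr hPA hPB hAB
  constructor
  · rintro ⟨hzS, hzr⟩
    have qz := (cb_sq hr).1 hzr
    have hspan : Submodule.span ℝ (Set.range ![A - P, B - P]) = S.direction := by
      apply Submodule.eq_of_le_of_finrank_eq
      · rw [Submodule.span_le]
        rintro _ ⟨i, rfl⟩
        fin_cases i
        · exact S.vsub_mem_direction hAS hPS
        · exact S.vsub_mem_direction hBS hPS
      · rw [finrank_span_eq_card hind, hfr]
        simp
    have hz : z - P ∈ Submodule.span ℝ (Set.range ![A - P, B - P]) := by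
      rw [hspan]
      exact S.vsub_mem_direction hzS hPS
    have hr2 : Set.range ![A - P, B - P] = {A - P, B - P} := by
      simp [Set.pair_comm]
    rw [hr2, Submodule.mem_span_pair] at hz
    obtain ⟨m, n, hmn⟩ := hz
    have hz' : z = (1 - m - n) • P + m • A + n • B := by
      have : z = P + (m • (A - P) + n • (B - P)) := by rw [hmn]; abel
      rw [this]
      module
    refine ⟨1 - m - n, m, n, by ring, hz', ?_⟩
    have hin : ⟪z, c⟫ = (1 - m - n) * ⟪P, c⟫ + m * ⟪A, c⟫ + n * ⟪B, c⟫ := by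
      rw [hz', inner_add_left, inner_add_left, real_inner_smul_left, real_inner_smul_left,
        real_inner_smul_left]
    linear_combination qz - (1 - m - n) * qP - m * qA - n * qB + 2 * hin
  · rintro ⟨l, m, n, hs, hz, hn⟩
    refine ⟨?_, ?_⟩
    · have h1 : z = (m • (A - P) + n • (B - P)) + P := by
        have hl : l = 1 - m - n := by linarith
        rw [hz, hl]
        module
      rw [h1]
      have h2 : m • (A - P) + n • (B - P) ∈ S.direction :=
        S.direction.add_mem (S.direction.smul_mem _ (S.vsub_mem_direction hAS hPS))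
          (S.direction.smul_mem _ (S.vsub_mem_direction hBS hPS))
      exact AffineSubspace.vadd_mem_of_mem_direction h2 hPS
    · rw [cb_sq hr]
      have hin : ⟪z, c⟫ = l * ⟪P, c⟫ + m * ⟪A, c⟫ + n * ⟪B, c⟫ := by
        rw [hz, inner_add_left, inner_add_left, real_inner_smul_left, real_inner_smul_left,
          real_inner_smul_left]
      rw [hn, hin]
      linear_combination l * qP + m * qA + n * qB + (r ^ 2 - ‖c‖ ^ 2) * hs

theorem stThree : StThree := by
  intro d C C' P Q R hC hC' hPQ hPR hQR h1 h2 h3 h4 h5 h6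
  ext z
  rw [stComb d C P Q R hC h1 h2 h3 hPQ hPR hQR z, stComb d C' P Q R hC' h4 h5 h6 hPQ hPR hQR z]

end Pool.Agent.Lib.MP_9f365b_co
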