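import Mathlib
import Pool.Agent.Lib.MP_9f365b_co.Stmts

/-!
B3: completion by pendant vertices.
-/

open scoped RealInnerProductSpace

namespace Pool.Agent.Lib.MP_9f365b_co

namespace ComplAux

theorem deg_pend_le {V : Type} [Finite V] (G : SimpleGraph V) (w y : V) :
    deg G y ≤ deg (Pend G w) (some y) := by
  unfold deg
  have h1 : (some '' G.neighborSet y) ⊆ (Pend G w).neighborSet (some y) := by
    rintro _ ⟨z, hz, rfl⟩
    exact Or.inl ⟨y, z, rfl, rfl, hz⟩
  calc (G.neighborSet y).ncard = (some '' G.neighborSet y).ncard :=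
        (Set.ncard_image_of_injective _ (Option.some_injective V)).symm
    _ ≤ _ := Set.ncard_le_ncard h1 (Set.toFinite _)

theorem deg_pend_lt {V : Type} [Finite V] (G : SimpleGraph V) (w : V) :
    deg G w < deg (Pend G w) (some w) := by
  unfold deg
  have h1 : insert none (some '' G.neighborSet w) ⊆ (Pend G w).neighborSet (some w) := by
    rintro z (rfl | ⟨z, hz, rfl⟩)
    · exact Or.inr (Or.inl ⟨rfl, rfl⟩)
    · exact Or.inl ⟨w, z, rfl, rfl, hz⟩
  have h2 : (insert none (some '' G.neighborSet w)).ncard = (G.neighborSet w).ncard + 1 := by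
    rw [Set.ncard_insert_of_notMem (by simp) (Set.toFinite _),
      Set.ncard_image_of_injective _ (Option.some_injective V)]
  have h3 := Set.ncard_le_ncard h1 (Set.toFinite _)
  omega

theorem main (hP : StPend) {V : Type} [Finite V] {d : ℕ} (F : Finset (Set (E d))) (p : V → E d) :
    ∀ (m : ℕ) (W : Type) (_ : Finite W) (H : SimpleGraph W) (j : V → W) (D : Drawing H d),
      Function.Injective j → Covers 1 D F → (∀ x, D.pos (j x) = p x) →
      (∑ᶠ x, (2 * nthru F (p x) - deg H (j x))) = m →
      ∃ (V' : Type) (_ : Finite V') (G' : SimpleGraph V') (ι : V → V') (D' : Drawing G' d),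
        Function.Injective ι ∧ (∀ x y, H.Adj (j x) (j y) → G'.Adj (ι x) (ι y)) ∧ Covers 1 D' F ∧
        ∀ x, 2 * nthru F (p x) ≤ deg G' (ι x) := by
  intro m
  induction m using Nat.strong_induction_on with
  | _ m ih =>
    intro W _ H j D hj hD hp hm
    by_cases hall : ∀ x, 2 * nthru F (p x) ≤ deg H (j x)
    · exact ⟨W, inferInstance, H, j, D, hj, fun _ _ h => h, hD, hall⟩
    · push Not at hall
      obtain ⟨x₀, hx₀⟩ := hall
      obtain ⟨D', hD', hpos⟩ := hP W inferInstance H d D F hD (j x₀) (by rw [hp]; exact hx₀)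
      have hlt : (∑ᶠ x, (2 * nthru F (p x) - deg (Pend H (j x₀)) (some (j x)))) < m := by
        rw [← hm]
        cases nonempty_fintype V
        rw [finsum_eq_sum_of_fintype, finsum_eq_sum_of_fintype]
        apply Finset.sum_lt_sum
        · intro x _
          have := deg_pend_le H (j x₀) (j x)
          omega
        · refine ⟨x₀, Finset.mem_univ _, ?_⟩
          have := deg_pend_lt H (j x₀)
          omega
      obtain ⟨V', hV', G', ι, D'', h1, h2, h3, h4⟩ := ih _ hlt (Option W) inferInstance
        (Pend H (j x₀)) (fun x => some (j x)) D' ((Option.some_injective W).comp hj) hD'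
        (fun x => by rw [hpos, hp]) rfl
      exact ⟨V', hV', G', ι, D'', h1, fun x y h => h2 x y (Or.inl ⟨_, _, rfl, rfl, h⟩), h3, h4⟩

end ComplAux

theorem stCompl (h : StPend) : StCompl := by
  intro V hV G d D F hD
  obtain ⟨V', hV', G', ι, D', h1, h2, h3, h4⟩ := ComplAux.main h F D.pos _ V hV G id D
    Function.injective_id hD (fun _ => rfl) rfl
  exact ⟨V', hV', G', ι, D', h1, h2, h3, h4⟩

end Pool.Agent.Lib.MP_9f365b_co
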