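import Mathlib
import Pool.Agent.Lib.MP_9f365b_co.Stmts

/-!
D. Conformal coordinates with respect to four hubs.
-/

open scoped RealInnerProductSpace

namespace Pool.Agent.Lib.MP_9f365b_co

namespace ConfAux

/-- The space of the lifts. -/
abbrev M := ℝ × E 3 × ℝ

/-- The lift of a point. -/
noncomputable def lift (p : E 3) : M := (‖p‖ ^ 2, p, 1)

/-- The bilinear form, as a linear map in the first argument. -/
noncomputable def bl (w : M) : M →ₗ[ℝ] ℝ where
  toFun v := v.1 * w.2.2 + v.2.2 * w.1 - 2 * ⟪v.2.1, w.2.1⟫
  map_add' v v' := by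
    simp only [Prod.fst_add, Prod.snd_add, inner_add_left]
    ring
  map_smul' c v := by
    simp only [Prod.smul_fst, Prod.smul_snd, smul_eq_mul, inner_smul_left, RingHom.id_apply,
      conj_trivial]
    ring

theorem bl_apply (v w : M) : bl w v = v.1 * w.2.2 + v.2.2 * w.1 - 2 * ⟪v.2.1, w.2.1⟫ := rfl

theorem bl_comm (v w : M) : bl w v = bl v w := by
  rw [bl_apply, bl_apply, real_inner_comm]
  ring

theorem bl_lift (p q : E 3) : bl (lift q) (lift p) = ‖p - q‖ ^ 2 := by
  rw [bl_apply, norm_sub_sq_real]
  simp only [lift]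
  ring

theorem comb_iff (z P A B : E 3) (l m n : ℝ) :
    Comb z P A B l m n ↔ lift z = l • lift P + m • lift A + n • lift B := by
  unfold Comb lift
  constructor
  · rintro ⟨h1, h2, h3⟩
    ext1
    · simpa using h3
    · ext1
      · simpa using h2
      · simpa using h1.symm
  · intro h
    have h1 := congrArg (fun v : M => v.1) h
    have h2 := congrArg (fun v : M => v.2.1) h
    have h3 := congrArg (fun v : M => v.2.2) h
    simp only [Prod.fst_add, Prod.snd_add, Prod.smul_fst, Prod.smul_snd, smul_eq_mul,
      mul_one] at h1 h2 h3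
    exact ⟨h3.symm, h2, h1⟩

theorem finrank_M : Module.finrank ℝ M = 5 := by
  rw [Module.finrank_prod, Module.finrank_prod]
  simp

theorem indep (hC : StComb) (h : Fin 4 → E 3) (hinj : Function.Injective h)
    (h3 : ∀ a b c, a ≠ b → a ≠ c → b ≠ c → ∃ C, IsSph 3 1 C ∧ h a ∈ C ∧ h b ∈ C ∧ h c ∈ C)
    (h4 : ¬ ∃ C, IsSph 3 1 C ∧ ∀ a, h a ∈ C) :
    LinearIndependent ℝ fun a => lift (h a) := by
  rw [Fintype.linearIndependent_iff]
  intro g hg d
  by_contra hd
  apply h4
  -- the general step
  have key : ∀ a b c : Fin 4, a ≠ b → a ≠ c → b ≠ c → (∀ i, i = a ∨ i = b ∨ i = c ∨ i = d) →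
      g a • lift (h a) + g b • lift (h b) + g c • lift (h c) + g d • lift (h d) = 0 →
      ∃ C, IsSph 3 1 C ∧ ∀ a, h a ∈ C := by
    intro a b c hab hac hbc hall hs
    obtain ⟨C, hSph, ha, hb, hc⟩ := h3 a b c hab hac hbc
    have hdC : h d ∈ C := by
      rw [hC 3 C (h a) (h b) (h c) hSph ha hb hc (hinj.ne hab) (hinj.ne hac) (hinj.ne hbc)]
      refine ⟨-(g a / g d), -(g b / g d), -(g c / g d), ?_⟩
      rw [comb_iff]
      have h5 : g d • lift (h d) = -(g a • lift (h a) + g b • lift (h b) + g c • lift (h c)) := by
        rw [← sub_eq_zero, ← hs]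
        abel
      have h6 : lift (h d) = (g d)⁻¹ • (g d • lift (h d)) := by
        rw [smul_smul, inv_mul_cancel₀ hd, one_smul]
      rw [h6, h5, smul_neg, smul_add, smul_add, smul_smul, smul_smul, smul_smul, neg_smul, neg_smul,
        neg_smul, div_eq_inv_mul, div_eq_inv_mul, div_eq_inv_mul]
      abel
    refine ⟨C, hSph, fun i => ?_⟩
    rcases hall i with rfl | rfl | rfl | rfl
    · exact ha
    · exact hb
    · exact hc
    · exact hdC
  rw [Fin.sum_univ_four] at hg
  have hd4 : ∀ d : Fin 4, d = 0 ∨ d = 1 ∨ d = 2 ∨ d = 3 := by decide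
  rcases hd4 d with rfl | rfl | rfl | rfl
  · exact key 1 2 3 (by decide) (by decide) (by decide) (by decide) (by rw [← hg]; abel)
  · exact key 0 2 3 (by decide) (by decide) (by decide) (by decide) (by rw [← hg]; abel)
  · exact key 0 1 3 (by decide) (by decide) (by decide) (by decide) (by rw [← hg]; abel)
  · exact key 0 1 2 (by decide) (by decide) (by decide) (by decide) (by rw [← hg])

theorem exists_normal (h : Fin 4 → E 3) (hinj : Function.Injective h) :
    ∃ e : M, (∀ a, bl (lift (h a)) e = 0) ∧ bl e e = -2 := by
  have h1 : LinearMap.ker (LinearMap.pi fun a => bl (lift (h a))) ≠ ⊥ := by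
    apply LinearMap.ker_ne_bot_of_finrank_lt
    rw [finrank_M]
    simp
  obtain ⟨e, he, he0⟩ := (Submodule.ne_bot_iff _).1 h1
  have he' : ∀ a, bl (lift (h a)) e = 0 := by
    intro a
    exact congrFun (LinearMap.mem_ker.1 he) a
  have hsq : ∀ a, bl e e = -2 * ‖e.2.2 • h a - e.2.1‖ ^ 2 := by
    intro a
    have h2 := he' a
    rw [bl_apply] at h2
    simp only [lift, mul_one] at h2
    rw [bl_apply, norm_sub_sq_real, norm_smul, mul_pow, real_inner_self_eq_norm_sq,
      inner_smul_left, Real.norm_eq_abs, sq_abs, conj_trivial, real_inner_comm]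
    linear_combination (2 * e.2.2) * h2
  have hneg : bl e e < 0 := by
    by_contra hcon
    have hz : ∀ a, e.2.2 • h a - e.2.1 = 0 := by
      intro a
      have h3 := hsq a
      have h4 : ‖e.2.2 • h a - e.2.1‖ ^ 2 = 0 := by
        have := sq_nonneg ‖e.2.2 • h a - e.2.1‖
        linarith
      simpa using h4
    have h01 : e.2.2 • (h 0 - h 1) = 0 := by
      rw [smul_sub, sub_eq_zero.1 (hz 0), sub_eq_zero.1 (hz 1), sub_self]
    have ht : e.2.2 = 0 := by
      rcases smul_eq_zero.1 h01 with h5 | h5
      · exact h5
      · exact absurd (hinj (sub_eq_zero.1 h5)) (by decide)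
    have hy : e.2.1 = 0 := by
      have := hz 0
      rw [ht, zero_smul, zero_sub, neg_eq_zero] at this
      exact this
    have ha : e.1 = 0 := by
      have := he' 0
      rw [bl_apply, ht, hy] at this
      simpa [lift] using this
    apply he0
    ext1
    · exact ha
    · ext1
      · exact hy
      · exact ht
  refine ⟨Real.sqrt (2 / (-bl e e)) • e, fun a => ?_, ?_⟩
  · rw [map_smul, he' a, smul_zero]
  · rw [map_smul, bl_comm e (Real.sqrt _ • e), map_smul, smul_smul, smul_eq_mul, Real.mul_self_sqrt]
    · rw [div_mul_eq_mul_div, div_eq_iff (by linarith)]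
      ring
    · exact div_nonneg (by norm_num) (by linarith)

end ConfAux

open ConfAux

theorem stConf (hC : StComb) : StConf := by
  intro h hinj h3 h4
  have hind := indep hC h hinj h3 h4
  obtain ⟨e, he, hee⟩ := exists_normal h hinj
  have hli : LinearIndependent ℝ (fun i : Option (Fin 4) => i.elim e fun a => lift (h a)) := by
    rw [Fintype.linearIndependent_iff] at hind ⊢
    intro g hg
    rw [Fintype.sum_option] at hg
    simp only [Option.elim_none, Option.elim_some] at hg
    have h1 := congrArg (bl e) hg
    rw [map_add, map_smul, map_sum, map_zero, hee] at h1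
    have h2 : ∀ a, bl e (g (some a) • lift (h a)) = 0 := by
      intro a
      rw [map_smul, bl_comm, he a, smul_zero]
    rw [Finset.sum_eq_zero fun a _ => h2 a, add_zero, smul_eq_mul] at h1
    have h3 : g none = 0 := by linarith
    rw [h3, zero_smul, zero_add] at hg
    have h4 := hind (fun a => g (some a)) hg
    intro i
    cases i with
    | none => exact h3
    | some a => exact h4 a
  let b := basisOfLinearIndependentOfCardEqFinrank hli (by rw [finrank_M]; simp)
  have hb : ∀ i, b i = i.elim e fun a => lift (h a) := by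
    intro i
    simp [b]
  have hrepr : ∀ v : M, v = b.repr v none • e + ∑ a, b.repr v (some a) • lift (h a) := by
    intro v
    conv_lhs => rw [← b.sum_repr v]
    rw [Fintype.sum_option]
    simp only [hb, Option.elim_none, Option.elim_some]
  refine ⟨fun p a => b.repr (lift p) (some a), fun p => b.repr (lift p) none, ?_, ?_, ?_, ?_, ?_, ?_⟩
  · intro p c
    have h1 := congrArg (bl (lift (h c))) (hrepr (lift p))
    rw [bl_lift, map_add, map_smul, he c, smul_zero, zero_add, map_sum] at h1
    rw [h1]
    refine Finset.sum_congr rfl fun a _ => ?_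
    rw [map_smul, bl_lift, smul_eq_mul, mul_comm]
  · intro p
    have h0 : bl (lift p) (lift p) = 0 := by rw [bl_lift]; simp
    have h1 := congrArg (bl (lift p)) (hrepr (lift p))
    rw [h0, map_add, map_smul, map_sum] at h1
    have h2 : bl (lift p) e = -2 * b.repr (lift p) none := by
      have h3 := congrArg (bl e) (hrepr (lift p))
      rw [map_add, map_smul, hee, map_sum] at h3
      have h4 : ∀ a, bl e (b.repr (lift p) (some a) • lift (h a)) = 0 := by
        intro a
        rw [map_smul, bl_comm, he a, smul_zero]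
      rw [Finset.sum_eq_zero fun a _ => h4 a, add_zero, smul_eq_mul] at h3
      rw [bl_comm, h3]
      ring
    have h5 : ∀ c, bl (lift p) (b.repr (lift p) (some c) • lift (h c)) =
        ∑ a, ‖h a - h c‖ ^ 2 * b.repr (lift p) (some a) * b.repr (lift p) (some c) := by
      intro c
      have h6 := congrArg (bl (lift (h c))) (hrepr (lift p))
      rw [map_add, map_smul, he c, smul_zero, zero_add, map_sum] at h6
      rw [map_smul, bl_comm, h6, smul_eq_mul, Finset.mul_sum]
      refine Finset.sum_congr rfl fun a _ => ?_
      rw [map_smul, bl_lift, smul_eq_mul]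
      ring
    rw [h2, Finset.sum_congr rfl fun c _ => h5 c, smul_eq_mul] at h1
    rw [Finset.sum_comm]
    linarith
  · intro a c
    have h1 : b.repr (lift (h a)) = Finsupp.single (some a) 1 := by
      have : b (some a) = lift (h a) := by rw [hb]; rfl
      rw [← this, b.repr_self]
    change b.repr (lift (h a)) (some c) = _
    rw [h1, Finsupp.single_apply]
    simp
  · intro a
    have h1 : b.repr (lift (h a)) = Finsupp.single (some a) 1 := by
      have : b (some a) = lift (h a) := by rw [hb]; rfl
      rw [← this, b.repr_self]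
    change b.repr (lift (h a)) none = _
    rw [h1, Finsupp.single_apply]
    simp
  · intro z P A B l m n hz
    rw [comb_iff] at hz
    constructor
    · intro a
      rw [hz]
      simp
    · rw [hz]
      simp
  · intro z P A B l m n h1 h2
    rw [comb_iff]
    apply b.repr.injective
    ext i
    cases i with
    | none => simpa using h2
    | some a => simpa using h1 a

end Pool.Agent.Lib.MP_9f365b_co
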