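import Mathlib
import Pool.Agent.Lib.MP_9f365b_co.Stmts

/-!
A9: rational parametrisation of a circle through three points, normalised by the points.
-/

open scoped RealInnerProductSpace

namespace Pool.Agent.Lib.MP_9f365b_co

namespace CoordAux

/-- image of an interval under an affine map -/
theorem aff_uIcc (a b s t : ℝ) :
    (fun x => a * x + b) '' Set.uIcc s t = Set.uIcc (a * s + b) (a * t + b) := by
  have h : (fun x => a * x + b) = (fun x => x + b) ∘ (fun x => a * x) := rfl
  rw [h, Set.image_comp, Set.image_const_mul_uIcc, Set.image_add_const_uIcc]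

theorem aff_Ici {a : ℝ} (ha : 0 < a) (b s : ℝ) :
    (fun x => a * x + b) '' Set.Ici s = Set.Ici (a * s + b) := by
  ext y
  simp only [Set.mem_image, Set.mem_Ici]
  constructor
  · rintro ⟨x, hx, rfl⟩
    have := mul_le_mul_of_nonneg_left hx ha.le
    linarith
  · intro hy
    refine ⟨(y - b) / a, ?_, by field_simp; ring⟩
    rw [le_div_iff₀ ha]
    linarith

theorem aff_Iic {a : ℝ} (ha : 0 < a) (b s : ℝ) :
    (fun x => a * x + b) '' Set.Iic s = Set.Iic (a * s + b) := by
  ext y
  simp only [Set.mem_image, Set.mem_Iic]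
  constructor
  · rintro ⟨x, hx, rfl⟩
    have := mul_le_mul_of_nonneg_left hx ha.le
    linarith
  · intro hy
    refine ⟨(y - b) / a, ?_, by field_simp; ring⟩
    rw [div_le_iff₀ ha]
    linarith

theorem aff_Ici' {a : ℝ} (ha : a < 0) (b s : ℝ) :
    (fun x => a * x + b) '' Set.Ici s = Set.Iic (a * s + b) := by
  ext y
  simp only [Set.mem_image, Set.mem_Ici, Set.mem_Iic]
  constructor
  · rintro ⟨x, hx, rfl⟩
    have := mul_le_mul_of_nonpos_left hx ha.le
    linarith
  · intro hy
    refine ⟨(y - b) / a, ?_, by rw [mul_div_cancel₀ _ ha.ne]; ring⟩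
    rw [le_div_iff_of_neg ha]
    linarith

theorem aff_Iic' {a : ℝ} (ha : a < 0) (b s : ℝ) :
    (fun x => a * x + b) '' Set.Iic s = Set.Ici (a * s + b) := by
  ext y
  simp only [Set.mem_image, Set.mem_Ici, Set.mem_Iic]
  constructor
  · rintro ⟨x, hx, rfl⟩
    have := mul_le_mul_of_nonpos_left hx ha.le
    linarith
  · intro hy
    refine ⟨(y - b) / a, ?_, by rw [mul_div_cancel₀ _ ha.ne]; ring⟩
    rw [div_le_iff_of_neg ha]
    linarith

/-- affine reparametrisation -/
theorem reparam {d : ℕ} {C : Set (E d)} {A : E d} {g : ℝ → E d} (h : CircPar C A g) {a : ℝ}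
    (ha : a ≠ 0) (b : ℝ) : CircPar C A (fun t => g (a * t + b)) := by
  have him : ∀ S : Set ℝ, (fun t => g (a * t + b)) '' S = g '' ((fun x => a * x + b) '' S) := by
    intro S
    rw [← Set.image_comp]
    rfl
  have hinv : ∀ s : ℝ, a * ((s - b) / a) + b = s := by
    intro s; field_simp; ring
  have hsur : Function.Surjective (fun x : ℝ => a * x + b) := fun s => ⟨(s - b) / a, hinv s⟩
  have hinj : Function.Injective (fun x : ℝ => a * x + b) := by
    intro x y hxy
    simp only [add_left_inj] at hxy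
    exact mul_left_cancel₀ ha hxy
  refine ⟨h.inj.comp hinj, h.cont.comp (by fun_prop), ?_, ?_, ?_, ?_, ?_, ?_⟩
  · rw [← h.range]
    exact hsur.range_comp g
  · intro J P Q hJ hJC hA
    obtain ⟨s, t, hst, hs, ht, hJ⟩ := h.arcMid J P Q hJ hJC hA
    refine ⟨(s - b) / a, (t - b) / a, ?_, ?_, ?_, ?_⟩
    · intro hh
      apply hst
      rw [← hinv s, ← hinv t, hh]
    · simp only [hinv]; exact hs
    · simp only [hinv]; exact ht
    · rw [him, aff_uIcc, hinv, hinv]; exact hJ
  · intro J P hJ hJC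
    obtain ⟨s, hs, hJ⟩ := h.arcEnd J P hJ hJC
    refine ⟨(s - b) / a, ?_, ?_⟩
    · simp only [hinv]; exact hs
    · rw [him, him]
      rcases lt_or_gt_of_ne ha with ha' | ha'
      · rw [aff_Ici' ha', aff_Iic' ha', hinv]
        exact hJ.symm
      · rw [aff_Ici ha', aff_Iic ha', hinv]
        exact hJ
  · intro s t hst
    have := h.mkMid (a * s + b) (a * t + b) (fun hh => hst (hinj hh))
    rw [him, aff_uIcc]
    exact this
  · intro s
    rw [him]
    rcases lt_or_gt_of_ne ha with ha' | ha'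
    · rw [aff_Ici' ha']; exact h.mkDown _
    · rw [aff_Ici ha']; exact h.mkUp _
  · intro s
    rw [him]
    rcases lt_or_gt_of_ne ha with ha' | ha'
    · rw [aff_Iic' ha']; exact h.mkUp _
    · rw [aff_Iic ha']; exact h.mkDown _

/-- first coordinate of the stereographic parametrisation -/
noncomputable def X (s : ℝ) : ℝ := (s ^ 2 - 1) / (1 + s ^ 2)
/-- second coordinate of the stereographic parametrisation -/
noncomputable def Y (s : ℝ) : ℝ := -(2 * s) / (1 + s ^ 2)

theorem cos_two_arctan (s : ℝ) : Real.cos (2 * Real.arctan s + Real.pi) = X s := by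
  rw [Real.cos_add_pi, Real.cos_two_mul, Real.cos_sq_arctan]
  unfold X
  have : (1 + s ^ 2) ≠ 0 := by positivity
  field_simp
  ring

theorem sin_two_arctan (s : ℝ) : Real.sin (2 * Real.arctan s + Real.pi) = Y s := by
  rw [Real.sin_add_pi, Real.sin_two_mul, Real.sin_arctan, Real.cos_arctan]
  unfold Y
  have h1 : 0 < 1 + s ^ 2 := by positivity
  have h2 : Real.sqrt (1 + s ^ 2) * Real.sqrt (1 + s ^ 2) = 1 + s ^ 2 :=
    Real.mul_self_sqrt h1.le
  have h3 : 0 < Real.sqrt (1 + s ^ 2) := Real.sqrt_pos.2 h1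
  have h4 : 2 * (s / Real.sqrt (1 + s ^ 2)) * (1 / Real.sqrt (1 + s ^ 2)) =
      2 * s / (Real.sqrt (1 + s ^ 2) * Real.sqrt (1 + s ^ 2)) := by
    field_simp
  rw [h4, h2]
  ring

/-- a point of the plane of the circle -/
noncomputable def lpt {d : ℕ} (c u v : E d) (r x y : ℝ) : E d := c + (r * x) • u + (r * y) • v

theorem XY (s : ℝ) : X s ^ 2 + Y s ^ 2 = 1 := by
  unfold X Y
  have : (1 + s ^ 2) ≠ 0 := by positivity
  field_simp
  ring

theorem norm_lpt {d : ℕ} {c u v : E d} (hf : Frame u v) (r x y : ℝ) (h : x ^ 2 + y ^ 2 = 1) :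
    ‖lpt c u v r x y‖ ^ 2 = ‖c‖ ^ 2 + r ^ 2 + 2 * r * x * ⟪c, u⟫ + 2 * r * y * ⟪c, v⟫ := by
  obtain ⟨h1, h2, h3⟩ := hf
  unfold lpt
  have hu : ⟪u, u⟫ = 1 := by rw [real_inner_self_eq_norm_sq, h1]; norm_num
  have hv : ⟪v, v⟫ = 1 := by rw [real_inner_self_eq_norm_sq, h2]; norm_num
  have h3' : ⟪v, u⟫ = 0 := by rw [real_inner_comm]; exact h3
  rw [← real_inner_self_eq_norm_sq, ← real_inner_self_eq_norm_sq]
  simp only [inner_add_left, inner_add_right, real_inner_smul_left, real_inner_smul_right]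
  rw [hu, hv, h3, h3', real_inner_comm c u, real_inner_comm c v]
  have : r ^ 2 * (x ^ 2 + y ^ 2) = r ^ 2 := by rw [h, mul_one]
  linear_combination this

/-- combination of points of a circle -/
theorem comb_lpt {d : ℕ} {c u v : E d} (hf : Frame u v) (r : ℝ) {x y x1 y1 x2 y2 x3 y3 l m n : ℝ}
    (h : x ^ 2 + y ^ 2 = 1) (h1 : x1 ^ 2 + y1 ^ 2 = 1) (h2 : x2 ^ 2 + y2 ^ 2 = 1)
    (h3 : x3 ^ 2 + y3 ^ 2 = 1) (hs : l + m + n = 1) (hx : x = l * x1 + m * x2 + n * x3)
    (hy : y = l * y1 + m * y2 + n * y3) :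
    Comb (lpt c u v r x y) (lpt c u v r x1 y1) (lpt c u v r x2 y2) (lpt c u v r x3 y3) l m n := by
  refine ⟨hs, ?_, ?_⟩
  · unfold lpt
    have hc : c = (l + m + n) • c := by rw [hs, one_smul]
    rw [hx, hy]
    nth_rewrite 1 [hc]
    module
  · rw [norm_lpt hf r x y h, norm_lpt hf r x1 y1 h1, norm_lpt hf r x2 y2 h2, norm_lpt hf r x3 y3 h3,
      hx, hy]
    have e : ‖c‖ ^ 2 + r ^ 2 = (l + m + n) * (‖c‖ ^ 2 + r ^ 2) := by rw [hs, one_mul]
    linear_combination e

end CoordAux

open CoordAux in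
theorem stCoord (hF : StFrame) (hP : StParFrame) : StCoord := by
  intro d C P A B hC hPC hAC hBC hPA hPB hAB
  obtain ⟨c, u, v, r, hfr, hr, hA0, hCr⟩ := hF d C A hC hAC
  have hpar := hP d c u v r hfr hr
  rw [← hCr, hA0] at hpar
  set g : ℝ → E d := fun s => cpt c u v r (2 * Real.arctan s + Real.pi) with hg
  have hgl : ∀ s, g s = lpt c u v r (X s) (Y s) := by
    intro s
    simp only [hg, cpt, lpt, cos_two_arctan, sin_two_arctan]
  have hAl : A = lpt c u v r 1 0 := by
    rw [← hA0]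
    simp [cpt, lpt]
  have hPr : P ∈ Set.range g := by rw [hpar.range]; exact ⟨hPC, hPA⟩
  have hBr : B ∈ Set.range g := by rw [hpar.range]; exact ⟨hBC, fun h => hAB h.symm⟩
  obtain ⟨p, hp⟩ := hPr
  obtain ⟨b, hb⟩ := hBr
  have hpb : p ≠ b := by
    rintro rfl
    exact hPB (hp.symm.trans hb)
  have hpb' : p - b ≠ 0 := sub_ne_zero.2 hpb
  have h1p : (0 : ℝ) < 1 + p ^ 2 := by positivity
  set a : ℝ := (1 + p ^ 2) / (p - b) with ha
  have ha0 : a ≠ 0 := div_ne_zero h1p.ne' hpb'
  set tB : ℝ := -((p - b) ^ 2 / (1 + p ^ 2)) with htB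
  have htBneg : tB < 0 := by
    rw [htB]
    have : 0 < (p - b) ^ 2 / (1 + p ^ 2) := by positivity
    linarith
  have hatB : a * tB = b - p := by
    rw [ha, htB]
    field_simp
    ring
  refine ⟨fun t => g (a * t + p), tB, htBneg, reparam hpar ha0 p, ?_, ?_, ?_⟩
  · simp only [mul_zero, zero_add]; exact hp
  · simp only [hatB, sub_add_cancel]; exact hb
  · intro t
    set s := a * t + p with hs
    have h1s : (0 : ℝ) < 1 + s ^ 2 := by positivity
    have h1b : (0 : ℝ) < 1 + b ^ 2 := by positivity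
    have hsb : s - b = a * (t - tB) := by
      rw [hs, mul_sub, hatB]; ring
    refine ⟨a ^ 2 * (t - tB) / (1 + s ^ 2), (1 + b ^ 2) * (s - p) / ((b - p) * (1 + s ^ 2)), ?_, ?_⟩
    · have hl : a ^ 2 * (t - tB) / (1 + s ^ 2) = (1 + p ^ 2) * (s - b) / ((p - b) * (1 + s ^ 2)) := by
        rw [hsb]
        have : a ^ 2 = a * ((1 + p ^ 2) / (p - b)) := by rw [← ha]; ring
        rw [this]
        field_simp
      have hlt : a ^ 2 * (t - tB) / (1 + s ^ 2) * t = (s - p) * (s - b) / (1 + s ^ 2) := by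
        rw [hsb]
        have : s - p = a * t := by rw [hs]; ring
        rw [this]
        ring
      rw [hlt, hl]
      have hbp : b - p ≠ 0 := sub_ne_zero.2 (Ne.symm hpb)
      show Comb (g s) P A B _ _ _
      rw [← hp, ← hb, hAl, hgl s, hgl p, hgl b]
      refine comb_lpt hfr r (XY s) (XY p) (by norm_num) (XY b) ?_ ?_ ?_
      · have e : b - p = -(p - b) := by ring
        rw [e]
        field_simp
        ring
      · unfold X
        have e : b - p = -(p - b) := by ring
        rw [e]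
        field_simp
        ring
      · unfold Y
        have e : b - p = -(p - b) := by ring
        rw [e]
        field_simp
        ring
    · rw [← sub_pos (a := t)]
      constructor
      · intro h
        by_contra hcon
        push Not at hcon
        have : a ^ 2 * (t - tB) / (1 + s ^ 2) ≤ 0 :=
          div_nonpos_of_nonpos_of_nonneg (mul_nonpos_of_nonneg_of_nonpos (sq_nonneg a) hcon) h1s.le
        linarith
      · intro h
        have : 0 < a ^ 2 := by positivity
        positivity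

end Pool.Agent.Lib.MP_9f365b_co
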