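import Mathlib
import Pool.Agent.Lib.MP_9f365b_co.Stmts

/-!
I2, I3. The copies of the piece in conformal coordinates.
-/

open scoped RealInnerProductSpace

namespace Pool.Agent.Lib.MP_9f365b_co

namespace CopyAux

/-- A neighbour of the vertex which is closer to the centre. -/
def par : Fin 19 → Fin 19 := ![0, 0, 0, 0, 0, 0, 0, 0, 0, 0, 0, 0, 0, 2, 1, 1, 4, 5, 14]

theorem par_adj : ∀ w : Fin 19, w = 0 ∨ PAdj (par w) w := by decide

theorem par3 : ∀ w : Fin 19, par (par (par w)) = 0 := by decide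

theorem padj_irrefl : ∀ w : Fin 19, ¬ PAdj w w := by decide

theorem four_cases : ∀ a b a' b' : Fin 4, a ≠ b → a' ≠ b' →
    (a = a' ∧ b = b') ∨ (a = b' ∧ b = a') ∨
    ∃ d, ∀ c, c = d ∨ (c ≠ a ∧ c ≠ b) ∨ (c ≠ a' ∧ c ≠ b') := by decide

/-- If two points have proportional coordinates then they are equal. -/
theorem eq_of_prop {h : Fin 4 → E 3} {x : E 3 → Fin 4 → ℝ} {φ : E 3 → ℝ} (hc : Conf h x φ)
    {P Q : E 3} (l : ℝ) (h1 : ∀ a, x P a = l * x Q a) (h2 : φ P = l * φ Q) : P = Q := by
  have h3 : Comb P Q Q Q l 0 0 := by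
    apply hc.comb'
    · intro a
      rw [h1]
      ring
    · rw [h2]
      ring
  obtain ⟨h4, h5, -⟩ := h3
  have h6 : l = 1 := by linarith
  rw [h6] at h5
  simpa using h5

end CopyAux

open CopyAux

theorem stCopy (hE : StEdge) (hA : StAnti) : StCopy := by
  intro N H P JD JH hS x φ hc k h0
  -- the edges
  have hedge : ∀ w w', PAdj w w' → ∃ (a b : Fin 4) (l : ℝ), a ≠ b ∧ 0 < l ∧
      (∀ c, c ≠ a → c ≠ b → x (P k w') c = l * x (P k w) c) ∧ φ (P k w') = l * φ (P k w) := by
    intro w w' hw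
    obtain ⟨C, a, b, hab, hCs, haC, hbC, hJC⟩ := hS.dir k w w' hw
    obtain ⟨l, hl, h1, h2, -⟩ := hE H x φ hc hS.injH C (JD k w w') (P k w) (P k w') a b hCs
      (hS.dirArc k w w' hw) hJC hab haC hbC (hS.dirHub k w w' hw a) (hS.dirHub k w w' hw b)
    exact ⟨a, b, l, hab, hl, h1, h2⟩
  have hstep : ∀ w, 0 < φ (P k (par w)) * φ (P k 0) → 0 < φ (P k w) * φ (P k 0) := by
    intro w hw
    rcases par_adj w with rfl | hadj
    · exact hw
    · obtain ⟨a, b, l, -, hl, -, h2⟩ := hedge _ _ hadj
      rw [h2, mul_assoc]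
      exact mul_pos hl hw
  have hsign : ∀ w, 0 < φ (P k w) * φ (P k 0) := by
    intro w
    apply hstep
    apply hstep
    apply hstep
    rw [par3]
    exact mul_self_pos.2 h0
  have hne : ∀ w, φ (P k w) ≠ 0 := by
    intro w h1
    have := hsign w
    rw [h1, zero_mul] at this
    exact lt_irrefl _ this
  have habs : ∀ w, 0 < |φ (P k w)| := fun w => abs_pos.2 (hne w)
  -- signs of two vertices
  have hsame : ∀ w w', φ (P k w) = |φ (P k w)| / |φ (P k w')| * φ (P k w') := by
    intro w w'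
    have h1 := hsign w
    have h2 := hsign w'
    have h3 := habs w'
    rw [div_mul_eq_mul_div, eq_div_iff h3.ne']
    rcases lt_or_gt_of_ne h0 with h4 | h4
    · have h5 : φ (P k w) < 0 := by
        by_contra hcon
        have := mul_nonpos_of_nonneg_of_nonpos (not_lt.1 hcon) h4.le
        linarith
      have h6 : φ (P k w') < 0 := by
        by_contra hcon
        have := mul_nonpos_of_nonneg_of_nonpos (not_lt.1 hcon) h4.le
        linarith
      rw [abs_of_neg h5, abs_of_neg h6]
      ring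
    · have h5 : 0 < φ (P k w) := pos_of_mul_pos_left h1 h4.le
      have h6 : 0 < φ (P k w') := pos_of_mul_pos_left h2 h4.le
      rw [abs_of_pos h5, abs_of_pos h6]
  have hok : GOK (fun a b => ‖H a - H b‖ ^ 2) := by
    refine ⟨fun a b => ?_, fun a => ?_, fun a b hab => ?_⟩
    · rw [norm_sub_rev]
    · simp
    · have : H a - H b ≠ 0 := sub_ne_zero.2 (hS.injH.ne hab)
      positivity
  have hquad : ∀ w, QQ (fun a b => ‖H a - H b‖ ^ 2) (fun c => x (P k w) c / |φ (P k w)|) = 2 := by
    intro w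
    have h1 := hc.quad (P k w)
    have h3 := (habs w).ne'
    unfold QQ
    have h4 : ∀ a b, ‖H a - H b‖ ^ 2 * (x (P k w) a / |φ (P k w)|) * (x (P k w) b / |φ (P k w)|) =
        (‖H a - H b‖ ^ 2 * x (P k w) a * x (P k w) b) / φ (P k w) ^ 2 := by
      intro a b
      rw [← sq_abs (φ (P k w))]
      field_simp
    simp only [h4, ← Finset.sum_div]
    rw [h1, div_eq_iff (pow_ne_zero _ (hne w))]
  have hpos : ∀ w a, 0 < LL (fun a b => ‖H a - H b‖ ^ 2) (fun c => x (P k w) c / |φ (P k w)|) a := by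
    intro w b
    have h1 := hc.dist_sq (P k w) b
    unfold LL
    have h4 : ∀ a, ‖H a - H b‖ ^ 2 * (x (P k w) a / |φ (P k w)|) =
        (‖H a - H b‖ ^ 2 * x (P k w) a) / |φ (P k w)| := by
      intro a
      ring
    simp only [h4, ← Finset.sum_div]
    rw [← h1]
    apply div_pos _ (habs w)
    have : P k w - H b ≠ 0 := sub_ne_zero.2 (hS.neHP b k w).symm
    positivity
  have hinj : Function.Injective fun (w : Fin 19) (c : Fin 4) => x (P k w) c / |φ (P k w)| := by
    intro w w' hww
    have h1 : P k w = P k w' := by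
      apply eq_of_prop hc (|φ (P k w)| / |φ (P k w')|)
      · intro a
        have h2 := congrFun hww a
        dsimp only at h2
        rw [div_eq_div_iff (habs w).ne' (habs w').ne'] at h2
        rw [div_mul_eq_mul_div, eq_div_iff (habs w').ne', h2]
        ring
      · exact hsame w w'
    exact (hS.injP k w k w' h1).2
  have hedge' : ∀ w w', PAdj w w' → ∃ a b, a ≠ b ∧ ∀ c, c ≠ a → c ≠ b →
      x (P k w) c / |φ (P k w)| = x (P k w') c / |φ (P k w')| := by
    intro w w' hw
    obtain ⟨a, b, l, hab, hl, h1, h2⟩ := hedge w w' hw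
    refine ⟨a, b, hab, fun c hca hcb => ?_⟩
    rw [h1 c hca hcb, h2, abs_mul, abs_of_pos hl]
    have h3 := (habs w).ne'
    field_simp
  refine ⟨hsign, ⟨hok, hquad, hpos, hinj, hedge', ?_⟩⟩
  intro w w' r hww hrw hrw' a b hab hcc hmem
  obtain ⟨C, a', b', hab', hCs, haC, hbC, hJC⟩ := hS.dir k w w' hww
  -- the pair of the circle
  have hpair : H a ∈ C ∧ H b ∈ C := by
    rcases four_cases a b a' b' hab hab' with ⟨rfl, rfl⟩ | ⟨rfl, rfl⟩ | ⟨d, hd⟩
    · exact ⟨haC, hbC⟩
    · exact ⟨hbC, haC⟩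
    · exfalso
      obtain ⟨l, hl, h1, h2, -⟩ := hE H x φ hc hS.injH C (JD k w w') (P k w) (P k w') a' b' hCs
        (hS.dirArc k w w' hww) hJC hab' haC hbC (hS.dirHub k w w' hww a') (hS.dirHub k w w' hww b')
      have hag : ∀ c, c ≠ d → x (P k w) c / |φ (P k w)| = x (P k w') c / |φ (P k w')| := by
        intro c hcd
        rcases hd c with h3 | ⟨h3, h4⟩ | ⟨h3, h4⟩
        · exact absurd h3 hcd
        · exact (hcc c h3 h4).1
        · rw [h1 c h3 h4, h2, abs_mul, abs_of_pos hl]
          have h3 := (habs w).ne'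
          field_simp
      have hQ : QQ (fun a b => ‖H a - H b‖ ^ 2) (fun c => x (P k w) c / |φ (P k w)|) =
          QQ (fun a b => ‖H a - H b‖ ^ 2) (fun c => x (P k w') c / |φ (P k w')|) := by
        rw [hquad, hquad]
      have hwne : w ≠ w' := by
        rintro rfl
        exact padj_irrefl w hww
      rcases le_total (x (P k w) d / |φ (P k w)|) (x (P k w') d / |φ (P k w')|) with h5 | h5
      · have h6 := hA _ _ _ hok hQ (hpos w) (hpos w') (by
          intro c
          by_cases hcd : c = d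
          · subst hcd
            exact h5
          · exact (hag c hcd).le)
        exact hwne (hinj h6)
      · have h6 := hA _ _ _ hok hQ.symm (hpos w') (hpos w) (by
          intro c
          by_cases hcd : c = d
          · subst hcd
            exact h5
          · exact (hag c hcd).ge)
        exact hwne (hinj h6).symm
  obtain ⟨l, hl, h1, h2, h3⟩ := hE H x φ hc hS.injH C (JD k w w') (P k w) (P k w') a b hCs
    (hS.dirArc k w w' hww) hJC hab hpair.1 hpair.2 (hS.dirHub k w w' hww a)
    (hS.dirHub k w w' hww b)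
  have hw0 := habs w
  have hr0 := habs r
  have h4 : P k r ∈ JD k w w' := by
    apply h3 (P k r) (|φ (P k r)| / |φ (P k w)|) (div_pos hr0 hw0)
    · intro c hca hcb
      have h5 := (hcc c hca hcb).2
      rw [div_eq_div_iff hr0.ne' hw0.ne'] at h5
      rw [div_mul_eq_mul_div, eq_div_iff hw0.ne', h5]
      ring
    · exact hsame r w
    · have e1 : x (P k r) a / (|φ (P k r)| / |φ (P k w)|) =
          x (P k r) a / |φ (P k r)| * |φ (P k w)| := by
        field_simp
      have e2 : x (P k w) a = x (P k w) a / |φ (P k w)| * |φ (P k w)| := by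
        field_simp
      have e3 : x (P k w') a / l = x (P k w') a / |φ (P k w')| * |φ (P k w)| := by
        rw [h2, abs_mul, abs_of_pos hl]
        field_simp
      rw [e1, e3, e2]
      rw [Set.mem_uIcc] at hmem ⊢
      rcases hmem with ⟨h5, h6⟩ | ⟨h5, h6⟩
      · left
        exact ⟨mul_le_mul_of_nonneg_right h5 hw0.le, mul_le_mul_of_nonneg_right h6 hw0.le⟩
      · right
        refine ⟨mul_le_mul_of_nonneg_right h5 hw0.le, mul_le_mul_of_nonneg_right h6 hw0.le⟩
  rcases (hS.dirThru k w w' hww k r h4).2 with h5 | h5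
  · exact hrw h5
  · exact hrw' h5

theorem stOn (hE : StEdge) (hC : StComb) : StOn := by
  intro N H P JD JH hS x φ hc k h0
  have hstep : ∀ w w', PAdj w w' → φ (P k w) = 0 → φ (P k w') = 0 := by
    intro w w' hw h1
    obtain ⟨C, a, b, hab, hCs, haC, hbC, hJC⟩ := hS.dir k w w' hw
    obtain ⟨l, hl, -, h2, -⟩ := hE H x φ hc hS.injH C (JD k w w') (P k w) (P k w') a b hCs
      (hS.dirArc k w w' hw) hJC hab haC hbC (hS.dirHub k w w' hw a) (hS.dirHub k w w' hw b)
    rw [h2, h1, mul_zero]
  have h18 : φ (P k 18) = 0 :=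
    hstep 14 18 (by decide) (hstep 1 14 (by decide) (hstep 0 1 (by decide) h0))
  refine ⟨h18, fun d hd => ?_⟩
  have key : ∀ a b c : Fin 4, a ≠ b → a ≠ c → b ≠ c →
      (∀ e, x (P k 18) e = x (P k 18) a * (if a = e then 1 else 0) +
        x (P k 18) b * (if b = e then 1 else 0) + x (P k 18) c * (if c = e then 1 else 0)) →
      False := by
    intro a b c hab hac hbc he
    obtain ⟨C, hSph, ha, hb, hc'⟩ := hS.three a b c hab hac hbc
    apply hS.full k 18 a b c hab hac hbc
    refine ⟨C, hSph, ?_, ha, hb, hc'⟩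
    rw [hC 3 C (H a) (H b) (H c) hSph ha hb hc' (hS.injH.ne hab) (hS.injH.ne hac)
      (hS.injH.ne hbc)]
    refine ⟨x (P k 18) a, x (P k 18) b, x (P k 18) c, ?_⟩
    apply hc.comb'
    · intro e
      rw [hc.hub, hc.hub, hc.hub]
      exact he e
    · rw [h18, hc.hubφ, hc.hubφ, hc.hubφ]
      ring
  have hd4 : ∀ d : Fin 4, d = 0 ∨ d = 1 ∨ d = 2 ∨ d = 3 := by decide
  rcases hd4 d with rfl | rfl | rfl | rfl
  · refine key 1 2 3 (by decide) (by decide) (by decide) fun e => ?_
    rcases hd4 e with rfl | rfl | rfl | rfl <;> simp [hd]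
  · refine key 0 2 3 (by decide) (by decide) (by decide) fun e => ?_
    rcases hd4 e with rfl | rfl | rfl | rfl <;> simp [hd]
  · refine key 0 1 3 (by decide) (by decide) (by decide) fun e => ?_
    rcases hd4 e with rfl | rfl | rfl | rfl <;> simp [hd]
  · refine key 0 1 2 (by decide) (by decide) (by decide) fun e => ?_
    rcases hd4 e with rfl | rfl | rfl | rfl <;> simp [hd]

end Pool.Agent.Lib.MP_9f365b_co
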