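import Pool.Agent.Lib.MP_9f365b_co.Stmts

/-!
An arc covered by finitely many circles lies in one of them.
-/

open scoped RealInnerProductSpace

namespace Pool.Agent.Lib.MP_9f365b_co

theorem cv_inner_u {d : ℕ} {c u v : E d} {r θ : ℝ} (hf : Frame u v) :
    ⟪cpt c u v r θ - c, u⟫ = r * Real.cos θ := by
  obtain ⟨h1, h2, h3⟩ := hf
  have h4 : ⟪v, u⟫ = 0 := by rw [real_inner_comm]; exact h3
  have h5 : cpt c u v r θ - c = (r * Real.cos θ) • u + (r * Real.sin θ) • v := by
    unfold cpt; abel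
  rw [h5, inner_add_left, real_inner_smul_left, real_inner_smul_left, h4,
    real_inner_self_eq_norm_sq, h1]
  ring

theorem cv_inner_v {d : ℕ} {c u v : E d} {r θ : ℝ} (hf : Frame u v) :
    ⟪cpt c u v r θ - c, v⟫ = r * Real.sin θ := by
  obtain ⟨h1, h2, h3⟩ := hf
  have h5 : cpt c u v r θ - c = (r * Real.cos θ) • u + (r * Real.sin θ) • v := by
    unfold cpt; abel
  rw [h5, inner_add_left, real_inner_smul_left, real_inner_smul_left, h3,
    real_inner_self_eq_norm_sq, h2]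
  ring

theorem cv_cpt_eq {d : ℕ} {c u v : E d} {r θ θ' : ℝ} (hf : Frame u v) (hr : 0 < r)
    (h : cpt c u v r θ = cpt c u v r θ') :
    Real.cos θ = Real.cos θ' ∧ Real.sin θ = Real.sin θ' := by
  have h1 := cv_inner_u (c := c) (r := r) (θ := θ) hf
  have h2 := cv_inner_v (c := c) (r := r) (θ := θ) hf
  rw [h] at h1 h2
  rw [cv_inner_u hf] at h1
  rw [cv_inner_v hf] at h2
  exact ⟨(mul_left_cancel₀ hr.ne' h1).symm, (mul_left_cancel₀ hr.ne' h2).symm⟩

theorem cv_injOn {d : ℕ} {c u v : E d} {r α β : ℝ} (hf : Frame u v) (hr : 0 < r)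
    (hβ : β < α + 2 * Real.pi) : Set.InjOn (cpt c u v r) (Set.Icc α β) := by
  intro θ hθ θ' hθ' h
  obtain ⟨hc, hs⟩ := cv_cpt_eq hf hr h
  have h1 : Real.cos (θ - θ') = 1 := by
    rw [Real.cos_sub, hc, hs]
    have := Real.sin_sq_add_cos_sq θ'
    nlinarith
  rw [Real.cos_eq_one_iff] at h1
  obtain ⟨n, hn⟩ := h1
  have hpi := Real.pi_pos
  have hlt : |θ - θ'| < 2 * Real.pi := by
    rw [abs_lt]
    constructor <;> linarith [hθ.1, hθ.2, hθ'.1, hθ'.2]
  have hn0 : n = 0 := by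
    by_contra hne
    have h2 : (1 : ℝ) ≤ |(n : ℝ)| := by
      have : (1 : ℤ) ≤ |n| := Int.one_le_abs hne
      exact_mod_cast this
    rw [← hn, abs_mul, abs_of_pos (by positivity : (0 : ℝ) < 2 * Real.pi)] at hlt
    nlinarith
  rw [hn0] at hn
  simp at hn
  linarith

theorem cv_infinite {d : ℕ} {J : Set (E d)} {P Q : E d} (hJ : IsArc J P Q) : J.Infinite := by
  obtain ⟨c, u, v, r, α, β, hf, hr, hαβ, hβ, hP, hQ, rfl⟩ := hJ
  exact (Set.Icc_infinite hαβ).image (cv_injOn hf hr hβ)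

theorem stCov (hR : StRange) (h3 : StThree) : StCov := by
  classical
  intro d J P Q F hJ hF hcov
  have hinf := cv_infinite hJ
  obtain ⟨c, u, v, r, α, β, hf, hr, hαβ, hβ, hP, hQ, hJe⟩ := hJ
  have hex : ∃ S ∈ F, (J ∩ S).Infinite := by
    by_contra hcon
    push Not at hcon
    apply hinf
    have h1 : J ⊆ ⋃ S ∈ F, J ∩ S := by
      intro z hz
      obtain ⟨S, hS, hzS⟩ := hcov z hz
      simp only [Set.mem_iUnion]
      exact ⟨S, hS, hz, hzS⟩
    refine Set.Finite.subset ?_ h1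
    refine Set.Finite.biUnion F.finite_toSet ?_
    intro S hS
    have := hcon S (by simpa using hS)
    first
      | exact this
      | exact Set.not_infinite.1 this
  obtain ⟨S, hS, hSinf⟩ := hex
  refine ⟨S, hS, ?_⟩
  obtain ⟨t, ht, htc⟩ := hSinf.exists_subset_card_eq 3
  rw [Finset.card_eq_three] at htc
  obtain ⟨x, y, z, hxy, hxz, hyz, rfl⟩ := htc
  have hx := ht (show x ∈ (({x, y, z} : Finset (E d)) : Set (E d)) by simp)
  have hy := ht (show y ∈ (({x, y, z} : Finset (E d)) : Set (E d)) by simp)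
  have hz := ht (show z ∈ (({x, y, z} : Finset (E d)) : Set (E d)) by simp)
  have hsub : J ⊆ Set.range (cpt c u v r) := by
    rw [hJe]
    exact Set.image_subset_range _ _
  have heq : Set.range (cpt c u v r) = S :=
    h3 d _ _ x y z (hR d c u v r hf hr) (hF S hS) hxy hxz hyz (hsub hx.1) (hsub hy.1)
      (hsub hz.1) hx.2 hy.2 hz.2
  rw [← heq]
  exact hsub

end Pool.Agent.Lib.MP_9f365b_co
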