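import Pool.Agent.Lib.MP_9f365b_co.Stmts

/-!
# B1. At most two edges at a vertex on each circle
-/

set_option autoImplicit false

namespace Pool.Agent.Lib.MP_9f365b_co

/-- B1. -/
theorem stDeg (hF : StFrame) (hP : StParFrame) (hS : StSymm) (hC : StCov) : StDeg := by
  classical
  intro V hV G d D F hcov w
  have hsph := hcov.1
  -- the parametrisations of the circles through `w`
  have hpar : ∀ S : Set (E d), ∃ γ : ℝ → E d, S ∈ F → D.pos w ∈ S → CircPar S (D.pos w) γ := by
    intro S
    by_cases h : S ∈ F ∧ D.pos w ∈ S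
    · obtain ⟨c, u, v, r, hf, hr, h0, hSr⟩ := hF d S (D.pos w) (hsph S h.1) h.2
      have := hP d c u v r hf hr
      rw [h0, ← hSr] at this
      exact ⟨_, fun _ _ => this⟩
    · exact ⟨fun _ => 0, fun h1 h2 => absurd ⟨h1, h2⟩ h⟩
  choose γ hγ using hpar
  -- the circle and the side of an edge
  have hside : ∀ y : V, ∃ (S : Set (E d)) (b : Bool), G.Adj w y → S ∈ F ∧ D.pos w ∈ S ∧
      ∃ s : ℝ, D.arc s(w, y) = insert (D.pos w) (γ S '' (if b then Set.Ici s else Set.Iic s)) := by
    intro y
    by_cases hy : G.Adj w y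
    · obtain ⟨S, hSF, hsub⟩ := hC d _ _ _ F (D.isArc w y hy) hsph (hcov.2.2 s(w, y) hy)
      have harc := hS _ _ _ _ (D.isArc w y hy)
      have hwS : D.pos w ∈ S := by
        apply hsub
        obtain ⟨c, u, v, r, α, β, -, -, hab, -, hP, -, hJ⟩ := D.isArc w y hy
        rw [hJ, ← hP]
        exact Set.mem_image_of_mem _ ⟨le_refl _, hab.le⟩
      obtain ⟨s, -, h | h⟩ := (hγ S hSF hwS).arcEnd _ _ harc hsub
      · exact ⟨S, true, fun _ => ⟨hSF, hwS, s, by simpa using h⟩⟩
      · exact ⟨S, false, fun _ => ⟨hSF, hwS, s, by simpa using h⟩⟩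
    · exact ⟨∅, true, fun h => absurd h hy⟩
  choose T b hTb using hside
  -- injectivity
  have hinj : Set.InjOn (fun y => (T y, b y)) (G.neighborSet w) := by
    intro y hy y' hy' heq
    by_contra hne
    have hyA : G.Adj w y := hy
    have hyA' : G.Adj w y' := hy'
    obtain ⟨hT1, hT2, s, hs⟩ := hTb y hyA
    obtain ⟨hT1', hT2', s', hs'⟩ := hTb y' hyA'
    have e1 : T y' = T y := (Prod.ext_iff.mp heq).1.symm
    have e2 : b y' = b y := (Prod.ext_iff.mp heq).2.symm
    rw [e1, e2] at hs'
    have hG := hγ (T y) hT1 hT2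
    -- a common point
    obtain ⟨t, ht, ht'⟩ : ∃ t : ℝ, t ∈ (if b y then Set.Ici s else Set.Iic s) ∧
        t ∈ (if b y then Set.Ici s' else Set.Iic s') := by
      cases b y
      · exact ⟨min s s', by simp, by simp⟩
      · exact ⟨max s s', by simp, by simp⟩
    have hz : γ (T y) t ∈ D.arc s(w, y) := by
      rw [hs]
      exact Or.inr (Set.mem_image_of_mem _ ht)
    have hz' : γ (T y) t ∈ D.arc s(w, y') := by
      rw [hs']
      exact Or.inr (Set.mem_image_of_mem _ ht')
    have hne' : s(w, y) ≠ s(w, y') := by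
      intro h
      rw [Sym2.congr_right] at h
      exact hne h
    obtain ⟨x, hx, hx', hzx⟩ := D.cross _ hyA _ hyA' hne' _ hz hz'
    have hxw : x = w := by
      rw [Sym2.mem_iff] at hx hx'
      rcases hx with rfl | rfl
      · rfl
      · rcases hx' with h | h
        · exact h
        · exact absurd h hne
    have hmem : γ (T y) t ∈ T y \ {D.pos w} := by
      rw [← hG.range]
      exact Set.mem_range_self t
    apply hmem.2
    rw [hzx, hxw]
    exact rfl
  -- counting
  have hfin : ({S | S ∈ F ∧ D.pos w ∈ S} : Set (Set (E d))).Finite :=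
    (F.finite_toSet).subset fun S hS => hS.1
  have hmaps : ∀ y ∈ G.neighborSet w,
      (T y, b y) ∈ ({S | S ∈ F ∧ D.pos w ∈ S} : Set (Set (E d))) ×ˢ (Set.univ : Set Bool) := by
    intro y hy
    have hyA : G.Adj w y := hy
    exact ⟨⟨(hTb y hyA).1, (hTb y hyA).2.1⟩, Set.mem_univ _⟩
  have hle := Set.ncard_le_ncard_of_injOn (fun y => (T y, b y)) hmaps hinj
    (hfin.prod (Set.toFinite _))
  rw [Set.ncard_prod, Set.ncard_univ] at hle
  unfold deg nthru
  simp only [Nat.card_eq_fintype_card, Fintype.card_bool] at hle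
  omega

end Pool.Agent.Lib.MP_9f365b_co
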