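import Mathlib
import Pool.Agent.Lib.MP_9f365b_co.Stmts

/-!
E: direct edges and hub edges in conformal coordinates.
-/

open scoped RealInnerProductSpace

namespace Pool.Agent.Lib.MP_9f365b_co

namespace EdgeAux

/-- points determined by three coordinates and `φ`, up to a factor -/
theorem eq_of_prop {h : Fin 4 → E 3} {x : E 3 → Fin 4 → ℝ} {φ : E 3 → ℝ} (hc : Conf h x φ)
    {z R : E 3} {b : Fin 4} {μ : ℝ} (hμ : μ ≠ 0) (h1 : ∀ c, c ≠ b → x R c = μ * x z c)
    (h2 : φ R = μ * φ z) (hz : z ≠ h b) : R = z := by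
  have hq1 := hc.quad R
  have hq2 := hc.quad z
  set G : Fin 4 → Fin 4 → ℝ := fun a b => ‖h a - h b‖ ^ 2 with hG
  have hsym : ∀ a b, G a b = G b a := by
    intro a b; simp only [hG]; rw [norm_sub_rev]
  have hdiag : ∀ a, G a a = 0 := by intro a; simp [hG]
  set y : Fin 4 → ℝ := x R with hy
  set w : Fin 4 → ℝ := fun c => μ * x z c with hw
  have hyw : ∀ c, c ≠ b → y c = w c := h1
  have hQy : ∑ a, ∑ c, G a c * y a * y c = 2 * (μ * φ z) ^ 2 := by rw [← h2]; exact hq1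
  have hQw : ∑ a, ∑ c, G a c * w a * w c = 2 * (μ * φ z) ^ 2 := by
    have e : ∑ a, ∑ c, G a c * w a * w c = μ ^ 2 * ∑ a, ∑ c, G a c * x z a * x z c := by
      rw [Finset.mul_sum]
      refine Finset.sum_congr rfl fun a _ => ?_
      rw [Finset.mul_sum]
      refine Finset.sum_congr rfl fun c _ => ?_
      simp only [hw]; ring
    rw [e]
    have : ∑ a, ∑ c, G a c * x z a * x z c = 2 * φ z ^ 2 := hq2
    rw [this]; ring
  have hid : (∑ a, ∑ c, G a c * y a * y c) - ∑ a, ∑ c, G a c * w a * w c =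
      ∑ a, (y a - w a) * ∑ c, G a c * (y c + w c) := by
    have e1 : ∑ a, ∑ c, G a c * (y a * w c) = ∑ a, ∑ c, G a c * (w a * y c) := by
      rw [Finset.sum_comm]
      refine Finset.sum_congr rfl fun a _ => Finset.sum_congr rfl fun c _ => ?_
      rw [hsym]; ring
    have e2 : ∑ a, (y a - w a) * ∑ c, G a c * (y c + w c) =
        (∑ a, ∑ c, G a c * y a * y c) - (∑ a, ∑ c, G a c * w a * w c) +
        ((∑ a, ∑ c, G a c * (y a * w c)) - ∑ a, ∑ c, G a c * (w a * y c)) := by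
      simp only [← Finset.sum_sub_distrib, ← Finset.sum_add_distrib, Finset.mul_sum]
      refine Finset.sum_congr rfl fun a _ => Finset.sum_congr rfl fun c _ => ?_
      ring
    rw [e2, e1]; ring
  rw [hQy, hQw, sub_self] at hid
  have hsingle : ∑ a, (y a - w a) * ∑ c, G a c * (y c + w c) =
      (y b - w b) * ∑ c, G b c * (y c + w c) := by
    apply Finset.sum_eq_single b
    · intro a _ ha
      rw [hyw a ha, sub_self, zero_mul]
    · intro hb; exact absurd (Finset.mem_univ _) hb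
  rw [hsingle] at hid
  have hL : ∑ c, G b c * (y c + w c) = 2 * (μ * ‖z - h b‖ ^ 2) := by
    have e1 : ∀ c, G b c * (y c + w c) = 2 * (μ * (‖h c - h b‖ ^ 2 * x z c)) := by
      intro c
      by_cases hcb : c = b
      · subst hcb; simp [hG]
      · rw [hyw c hcb, hsym b c]
        simp only [hw, hG]; ring
    simp only [e1]
    rw [← Finset.mul_sum, ← Finset.mul_sum, ← hc.dist_sq z b]
  have hLne : ∑ c, G b c * (y c + w c) ≠ 0 := by
    rw [hL]
    have : 0 < ‖z - h b‖ := norm_pos_iff.2 (sub_ne_zero.2 hz)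
    have h3 : ‖z - h b‖ ^ 2 ≠ 0 := by positivity
    exact mul_ne_zero two_ne_zero (mul_ne_zero hμ h3)
  have hyb : y b = w b := by
    rcases mul_eq_zero.1 hid.symm with h3 | h3
    · linarith
    · exact absurd h3 hLne
  have hall : ∀ c, x R c = μ * x z c := by
    intro c
    by_cases hcb : c = b
    · subst hcb; exact hyb
    · exact h1 c hcb
  obtain ⟨g1, g2, _⟩ := hc.comb' R z z z μ 0 0 (fun c => by rw [hall c]; ring) (by rw [h2]; ring)
  have hμ1 : μ = 1 := by linarith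
  rw [g2, hμ1]
  simp

theorem arc_left {d : ℕ} {J : Set (E d)} {P Q : E d} (hJ : IsArc J P Q) : P ∈ J := by
  obtain ⟨c, u, v, r, α, β, _, _, h1, _, hP, _, rfl⟩ := hJ
  exact ⟨α, ⟨le_rfl, h1.le⟩, hP⟩

theorem arc_right {d : ℕ} {J : Set (E d)} {P Q : E d} (hJ : IsArc J P Q) : Q ∈ J := by
  obtain ⟨c, u, v, r, α, β, _, _, h1, _, _, hQ, rfl⟩ := hJ
  exact ⟨β, ⟨h1.le, le_rfl⟩, hQ⟩

theorem arc_ne {d : ℕ} {J : Set (E d)} {P Q : E d} (hJ : IsArc J P Q) : P ≠ Q := by
  obtain ⟨c, u, v, r, α, β, hf, hr, h1, h2, hP, hQ, _⟩ := hJ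
  obtain ⟨f1, f2, f3⟩ := hf
  intro hPQ
  rw [← hP, ← hQ] at hPQ
  unfold cpt at hPQ
  have hu : ⟪u, u⟫ = 1 := by rw [real_inner_self_eq_norm_sq, f1]; norm_num
  have hv : ⟪v, v⟫ = 1 := by rw [real_inner_self_eq_norm_sq, f2]; norm_num
  have f3' : ⟪v, u⟫ = 0 := by rw [real_inner_comm]; exact f3
  have e1 := congrArg (fun y => ⟪y, u⟫) hPQ
  have e2 := congrArg (fun y => ⟪y, v⟫) hPQ
  simp only [inner_add_left, real_inner_smul_left, hu, hv, f3, f3', mul_one, mul_zero,
    add_zero] at e1 e2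
  have c1 : Real.cos α = Real.cos β := by
    have : r * Real.cos α = r * Real.cos β := by linarith
    exact mul_left_cancel₀ hr.ne' this
  have c2 : Real.sin α = Real.sin β := by
    have : r * Real.sin α = r * Real.sin β := by linarith
    exact mul_left_cancel₀ hr.ne' this
  have c3 : Real.cos (β - α) = 1 := by
    rw [Real.cos_sub, ← c1, ← c2]
    have := Real.cos_sq_add_sin_sq α
    nlinarith
  have hpi := Real.pi_pos
  rw [Real.cos_eq_one_iff_of_lt_of_lt (by linarith) (by linarith)] at c3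
  linarith

end EdgeAux

open EdgeAux in
theorem stEdge (hC : StCoord) : StEdge := by
  intro h x φ hc hinj C J P Q a b hCs hJ hJC hab haC hbC haJ hbJ
  have hPJ := arc_left hJ
  have hPa : P ≠ h a := fun hh => haJ (hh ▸ hPJ)
  have hPb : P ≠ h b := fun hh => hbJ (hh ▸ hPJ)
  obtain ⟨γ, tB, htB, hpar, hγ0, hγB, hcomb⟩ := hC 3 C P (h a) (h b) hCs (hJC hPJ) haC hbC hPa hPb
    (fun hh => hab (hinj hh))
  obtain ⟨s, tQ, _, hs, htQ, hJe⟩ := hpar.arcMid J P Q hJ hJC haJ
  have hs0 : s = 0 := hpar.inj (hs.trans hγ0.symm)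
  subst hs0
  have hnot : ∀ t ∈ Set.uIcc 0 tQ, tB < t := by
    have h1 : tB ∉ Set.uIcc 0 tQ := by
      intro hh
      apply hbJ
      rw [hJe, ← hγB]
      exact ⟨tB, hh, rfl⟩
    have h2 : tB < tQ := by
      by_contra hcon
      push Not at hcon
      apply h1
      rw [Set.mem_uIcc]
      exact Or.inr ⟨hcon, htB.le⟩
    intro t ht
    rw [Set.mem_uIcc] at ht
    rcases ht with ⟨h3, _⟩ | ⟨h3, _⟩
    · linarith
    · linarith
  have hxa : ∀ c, x (h a) c = if a = c then 1 else 0 := fun c => hc.hub a c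
  have hxb : ∀ c, x (h b) c = if b = c then 1 else 0 := fun c => hc.hub b c
  have hpt : ∀ t ∈ Set.uIcc 0 tQ, ∃ l : ℝ, 0 < l ∧
      (∀ c, c ≠ a → c ≠ b → x (γ t) c = l * x P c) ∧ φ (γ t) = l * φ P ∧
      x (γ t) a = l * (x P a + t) := by
    intro t ht
    obtain ⟨l, n, hcb, hl⟩ := hcomb t
    obtain ⟨g1, g2⟩ := hc.comb _ _ _ _ _ _ _ hcb
    refine ⟨l, hl.2 (hnot t ht), ?_, ?_, ?_⟩
    · intro c hca hcb'
      rw [g1 c, hxa, hxb, if_neg (Ne.symm hca), if_neg (Ne.symm hcb')]; ring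
    · rw [g2, hc.hubφ, hc.hubφ]; ring
    · rw [g1 a, hxa, hxb, if_pos rfl, if_neg (Ne.symm hab)]; ring
  obtain ⟨l, hl, k1, k2, k3⟩ := hpt tQ Set.right_mem_uIcc
  rw [htQ] at k1 k2 k3
  refine ⟨l, hl, k1, k2, ?_⟩
  intro R k hk r1 r2 r3
  have hxQ : x Q a / l = x P a + tQ := by rw [k3]; field_simp
  rw [hxQ] at r3
  set tR := x R a / k - x P a with htR
  have htRm : tR ∈ Set.uIcc 0 tQ := by
    rw [Set.mem_uIcc] at r3 ⊢
    rcases r3 with ⟨h1, h2⟩ | ⟨h1, h2⟩
    · left; constructor <;> linarith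
    · right; constructor <;> linarith
  have hzJ : γ tR ∈ J := by rw [hJe]; exact ⟨tR, htRm, rfl⟩
  obtain ⟨l', hl', m1, m2, m3⟩ := hpt tR htRm
  have hRz : R = γ tR := by
    refine eq_of_prop hc (b := b) (μ := k / l') (by positivity) ?_ ?_ ?_
    · intro c hcb
      by_cases hca : c = a
      · subst hca
        rw [m3, htR]
        field_simp
        ring
      · rw [r1 c hca hcb, m1 c hca hcb]
        field_simp
    · rw [r2, m2]
      field_simp
    · intro hh
      exact hbJ (hh ▸ hzJ)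
  rw [hRz]
  exact hzJ

open EdgeAux in
theorem stHubEdge (hC : StCoord) : StHubEdge := by
  intro h x φ hc hinj C J P a b hCs hJ hJC hab haC hbC hbJ hPb t ht
  have hPJ := arc_left hJ
  have hPa : P ≠ h a := arc_ne hJ
  obtain ⟨γ, tB, htB, hpar, hγ0, hγB, hcomb⟩ := hC 3 C P (h a) (h b) hCs (hJC hPJ) haC hbC hPa hPb
    (fun hh => hab (hinj hh))
  obtain ⟨s, hs, hJe⟩ := hpar.arcEnd J P hJ hJC
  have hs0 : s = 0 := hpar.inj (hs.trans hγ0.symm)
  subst hs0
  have hJe' : J = insert (h a) (γ '' Set.Ici 0) := by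
    rcases hJe with h1 | h1
    · exact h1
    · exfalso
      apply hbJ
      rw [h1, ← hγB]
      exact Or.inr ⟨tB, htB.le, rfl⟩
  refine ⟨γ t, ?_, ?_, ?_⟩
  · rw [hJe']
    exact Or.inr ⟨t, ht, rfl⟩
  · have : γ t ∈ C \ {h a} := by rw [← hpar.range]; exact ⟨t, rfl⟩
    exact this.2
  · obtain ⟨l, n, hcb, hl⟩ := hcomb t
    have hl0 : 0 < l := hl.2 (by linarith)
    obtain ⟨g1, g2⟩ := hc.comb _ _ _ _ _ _ _ hcb
    refine ⟨l, n / l, hl0, ?_, ?_⟩
    · rw [g2, hc.hubφ, hc.hubφ]; ring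
    · intro c
      rw [g1 c, hc.hub, hc.hub]
      by_cases h1 : c = a
      · subst h1
        by_cases h2 : c = b
        · exact absurd h2 hab
        · simp only [if_true, if_neg h2, if_neg (Ne.symm h2)]; ring
      · by_cases h2 : c = b
        · subst h2
          simp only [if_true, if_neg h1, if_neg (Ne.symm h1)]
          field_simp
          ring
        · simp only [if_neg h1, if_neg (Ne.symm h1), if_neg h2, if_neg (Ne.symm h2)]; ring

end Pool.Agent.Lib.MP_9f365b_co
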