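import Mathlib
import Pool.Agent.Lib.MP_9f365b_co.Stmts

/-! Every finite graph has a crossing-free circular-arc drawing in `ℝ^3` covered by finitely many
circles: vertices on a line, every edge a half circle in its own half-plane. -/

open scoped RealInnerProductSpace

namespace Pool.Agent.Lib.MP_9f365b_co

namespace FinCov

/-- a vertex on the first axis -/
noncomputable def px (t : ℝ) : E 3 := !₂[t, 0, 0]

/-- unit vector -/
noncomputable def uu : E 3 := !₂[1, 0, 0]

/-- unit vector of the half-plane -/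
noncomputable def vv (θ : ℝ) : E 3 := !₂[0, Real.cos θ, Real.sin θ]

theorem frame (θ : ℝ) : Frame uu (vv θ) := by
  refine ⟨?_, ?_, ?_⟩
  · simp [uu, EuclideanSpace.norm_eq, Fin.sum_univ_three]
  · simp [vv, EuclideanSpace.norm_eq, Fin.sum_univ_three]
  · simp [uu, vv, PiLp.inner_apply, Fin.sum_univ_three]

/-- the circle of an edge -/
noncomputable def cc (s t θ : ℝ) (α : ℝ) : E 3 := cpt (px ((s + t) / 2)) uu (vv θ) (|s - t| / 2) α

theorem cc0 (s t θ α : ℝ) : cc s t θ α 0 = (s + t) / 2 + |s - t| / 2 * Real.cos α := by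
  simp [cc, cpt, px, uu, vv]

theorem cc1 (s t θ α : ℝ) : cc s t θ α 1 = |s - t| / 2 * Real.sin α * Real.cos θ := by
  simp [cc, cpt, px, uu, vv]

theorem cc2 (s t θ α : ℝ) : cc s t θ α 2 = |s - t| / 2 * Real.sin α * Real.sin θ := by
  simp [cc, cpt, px, uu, vv]

theorem cc_swap (s t θ α : ℝ) : cc s t θ α = cc t s θ α := by
  unfold cc
  rw [add_comm s t, abs_sub_comm s t]

theorem ext3 {p q : E 3} (h0 : p 0 = q 0) (h1 : p 1 = q 1) (h2 : p 2 = q 2) : p = q := by
  ext i
  fin_cases i
  · exact h0
  · exact h1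
  · exact h2

theorem end_pt {s t θ α : ℝ} (hα : α ∈ Set.Icc 0 Real.pi) (h : Real.sin α = 0) :
    cc s t θ α = px s ∨ cc s t θ α = px t := by
  have hα' : α = 0 ∨ α = Real.pi := by
    by_contra hcon
    push Not at hcon
    have : 0 < Real.sin α := Real.sin_pos_of_pos_of_lt_pi
      (lt_of_le_of_ne hα.1 (Ne.symm hcon.1)) (lt_of_le_of_ne hα.2 hcon.2)
    exact this.ne' h
  have key : ∀ c, cc s t θ α 0 = c → cc s t θ α = px c := by
    intro c hc
    apply ext3
    · rw [hc]; simp [px]
    · rw [cc1, h]; simp [px]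
    · rw [cc2, h]; simp [px]
  rcases hα' with rfl | rfl
  · rcases abs_cases (s - t) with ⟨h1, _⟩ | ⟨h1, _⟩
    · left; apply key; rw [cc0, h1, Real.cos_zero]; ring
    · right; apply key; rw [cc0, h1, Real.cos_zero]; ring
  · rcases abs_cases (s - t) with ⟨h1, _⟩ | ⟨h1, _⟩
    · right; apply key; rw [cc0, h1, Real.cos_pi]; ring
    · left; apply key; rw [cc0, h1, Real.cos_pi]; ring

theorem isArc (hS : StSymm) {s t : ℝ} (θ : ℝ) (hst : s ≠ t) :
    IsArc (cc s t θ '' Set.Icc 0 Real.pi) (px s) (px t) := by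
  have hr : 0 < |s - t| / 2 := by
    have := abs_pos.2 (sub_ne_zero.2 hst)
    linarith
  have h1 : IsArc (cc s t θ '' Set.Icc 0 Real.pi) (cc s t θ 0) (cc s t θ Real.pi) :=
    ⟨px ((s + t) / 2), uu, vv θ, |s - t| / 2, 0, Real.pi, frame θ, hr, Real.pi_pos,
      by linarith [Real.pi_pos], rfl, rfl, rfl⟩
  have k0 : cc s t θ 0 = px ((s + t) / 2 + |s - t| / 2) := by
    apply ext3
    · rw [cc0]; simp [px]
    · rw [cc1]; simp [px]
    · rw [cc2]; simp [px]
  have k1 : cc s t θ Real.pi = px ((s + t) / 2 - |s - t| / 2) := by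
    apply ext3
    · rw [cc0]; simp [px]; ring
    · rw [cc1]; simp [px]
    · rw [cc2]; simp [px]
  rcases abs_cases (s - t) with ⟨h2, _⟩ | ⟨h2, _⟩
  · rw [h2] at k0 k1
    rw [k0, k1] at h1
    have e1 : (s + t) / 2 + (s - t) / 2 = s := by ring
    have e2 : (s + t) / 2 - (s - t) / 2 = t := by ring
    rwa [e1, e2] at h1
  · rw [h2] at k0 k1
    rw [k0, k1] at h1
    have e1 : (s + t) / 2 + -(s - t) / 2 = t := by ring
    have e2 : (s + t) / 2 - -(s - t) / 2 = s := by ring
    rw [e1, e2] at h1
    exact hS _ _ _ _ h1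

theorem px_inj {s t : ℝ} (h : px s = px t) : s = t := by
  have := congrArg (fun p : E 3 => p 0) h
  simpa [px] using this

end FinCov

open FinCov in
/-- Every finite graph has finite spherical cover number in `ℝ^3`. -/
theorem cover_lt_top (hS : StSymm) (hR : StRange) (V : Type) (_ : Finite V) (G : SimpleGraph V) :
    sphericalCover 3 1 G < ⊤ := by
  classical
  have := Fintype.ofFinite V
  obtain ⟨n, ⟨eV⟩⟩ := Finite.exists_equiv_fin V
  obtain ⟨m, ⟨eS⟩⟩ := Finite.exists_equiv_fin (Sym2 V)
  let i : V → ℝ := fun x => ((eV x).val : ℝ)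
  have hi : Function.Injective i := by
    intro x y h
    have h' : ((eV x).val : ℝ) = (eV y).val := h
    have : (eV x).val = (eV y).val := by exact_mod_cast h'
    exact eV.injective (Fin.ext this)
  let ang : Sym2 V → ℝ := fun e => 1 / ((eS e).val + 1 : ℝ)
  have hang0 : ∀ e, ang e ∈ Set.Icc 0 Real.pi := by
    intro e
    constructor
    · positivity
    · have h1 : ang e ≤ 1 := by
        have h2 : (1:ℝ) ≤ (eS e).val + 1 := by
          have : (0:ℝ) ≤ (eS e).val := Nat.cast_nonneg _
          linarith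
        exact (div_le_one (by linarith)).2 h2
      linarith [Real.pi_gt_three]
  have hang : Function.Injective ang := by
    intro e e' h
    have h1 : ((eS e).val + 1 : ℝ) = (eS e').val + 1 := by
      have h2 : (0:ℝ) < (eS e).val + 1 := by positivity
      have h3 : (0:ℝ) < (eS e').val + 1 := by positivity
      have h4 : 1 / ((eS e).val + 1 : ℝ) = 1 / ((eS e').val + 1 : ℝ) := h
      rw [one_div, one_div] at h4
      exact inv_injective h4
    have : (eS e).val = (eS e').val := by
      have : ((eS e).val : ℝ) = (eS e').val := by linarith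
      exact_mod_cast this
    exact eS.injective (Fin.ext this)
  let arc : Sym2 V → Set (E 3) := fun e =>
    {z | ∃ x y, e = s(x, y) ∧ z ∈ cc (i x) (i y) (ang e) '' Set.Icc 0 Real.pi}
  have harc : ∀ x y, arc s(x, y) = cc (i x) (i y) (ang s(x, y)) '' Set.Icc 0 Real.pi := by
    intro x y
    ext z
    constructor
    · rintro ⟨x', y', h, hz⟩
      rw [Sym2.eq_iff] at h
      rcases h with ⟨rfl, rfl⟩ | ⟨rfl, rfl⟩
      · exact hz
      · obtain ⟨α, hα, rfl⟩ := hz
        exact ⟨α, hα, cc_swap _ _ _ _⟩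
    · intro hz
      exact ⟨x, y, rfl, hz⟩
  have hpar : ∀ (x y : V) (_ α : ℝ), x ≠ y → α ∈ Set.Icc 0 Real.pi → Real.sin α ≠ 0 →
      0 < |i x - i y| / 2 * Real.sin α := by
    intro x y _ α hxy hα h
    have h1 : 0 < |i x - i y| := abs_pos.2 (sub_ne_zero.2 (hi.ne hxy))
    have h2 : 0 < Real.sin α :=
      lt_of_le_of_ne (Real.sin_nonneg_of_nonneg_of_le_pi hα.1 hα.2) (Ne.symm h)
    positivity
  have hzero : ∀ (x y : V) (θ α : ℝ), x ≠ y → α ∈ Set.Icc 0 Real.pi → cc (i x) (i y) θ α 1 = 0 →
      cc (i x) (i y) θ α 2 = 0 → Real.sin α = 0 := by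
    intro x y θ α hxy hα h1 h2
    by_contra hne
    have h3 := hpar x y θ α hxy hα hne
    rw [cc1] at h1
    rw [cc2] at h2
    have h4 : Real.cos θ = 0 := (mul_eq_zero.1 h1).resolve_left h3.ne'
    have h5 : Real.sin θ = 0 := (mul_eq_zero.1 h2).resolve_left h3.ne'
    have := Real.sin_sq_add_cos_sq θ
    rw [h4, h5] at this
    norm_num at this
  have hends : ∀ (x y : V) (θ α : ℝ), α ∈ Set.Icc 0 Real.pi → Real.sin α = 0 →
      ∃ w, w ∈ s(x, y) ∧ cc (i x) (i y) θ α = px (i w) := by
    intro x y θ α hα h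
    rcases end_pt (s := i x) (t := i y) (θ := θ) hα h with h1 | h1
    · exact ⟨x, by simp, h1⟩
    · exact ⟨y, by simp, h1⟩
  let D : Drawing G 3 := {
    pos := fun x => px (i x)
    arc := arc
    inj := fun x y h => hi (px_inj h)
    isArc := by
      intro x y h
      rw [harc]
      exact isArc hS _ (hi.ne h.ne)
    cross := by
      intro e he e' he' hne z hz hz'
      induction e using Sym2.ind with
      | _ x y =>
      induction e' using Sym2.ind with
      | _ x' y' =>
      rw [SimpleGraph.mem_edgeSet] at he he'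
      rw [harc] at hz hz'
      obtain ⟨α, hα, rfl⟩ := hz
      obtain ⟨α', hα', h⟩ := hz'
      by_cases h0 : Real.sin α = 0
      · have e1 : cc (i x) (i y) (ang s(x, y)) α 1 = 0 := by rw [cc1, h0]; ring
        have e2 : cc (i x) (i y) (ang s(x, y)) α 2 = 0 := by rw [cc2, h0]; ring
        rw [← h] at e1 e2
        have h0' := hzero x' y' _ α' he'.ne hα' e1 e2
        obtain ⟨w, hw, hw2⟩ := hends x y (ang s(x, y)) α hα h0
        obtain ⟨w', hw', hw2'⟩ := hends x' y' (ang s(x', y')) α' hα' h0'
        have : w = w' := hi (px_inj (hw2.symm.trans (h.symm.trans hw2')))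
        subst this
        exact ⟨w, hw, hw', hw2⟩
      · exfalso
        have h0' : Real.sin α' ≠ 0 := by
          intro h1
          apply h0
          have e1 : cc (i x') (i y') (ang s(x', y')) α' 1 = 0 := by rw [cc1, h1]; ring
          have e2 : cc (i x') (i y') (ang s(x', y')) α' 2 = 0 := by rw [cc2, h1]; ring
          rw [h] at e1 e2
          exact hzero x y _ α he.ne hα e1 e2
        have p1 := hpar x y 0 α he.ne hα h0
        have p2 := hpar x' y' 0 α' he'.ne hα' h0'
        have q1 := congrArg (fun p : E 3 => p 1) h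
        have q2 := congrArg (fun p : E 3 => p 2) h
        simp only [cc1, cc2] at q1 q2
        set a := |i x - i y| / 2 * Real.sin α
        set b := |i x' - i y'| / 2 * Real.sin α'
        set θ := ang s(x, y)
        set θ' := ang s(x', y')
        have hab : a = b := by
          have h1 := Real.sin_sq_add_cos_sq θ
          have h2 := Real.sin_sq_add_cos_sq θ'
          have h3 : a ^ 2 = b ^ 2 := by
            have : a ^ 2 * (Real.sin θ ^ 2 + Real.cos θ ^ 2) =
                b ^ 2 * (Real.sin θ' ^ 2 + Real.cos θ' ^ 2) := by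
              have e1 : (b * Real.cos θ') ^ 2 = (a * Real.cos θ) ^ 2 := by rw [q1]
              have e2 : (b * Real.sin θ') ^ 2 = (a * Real.sin θ) ^ 2 := by rw [q2]
              nlinarith
            rwa [h1, h2, mul_one, mul_one] at this
          exact (pow_left_inj₀ p1.le p2.le two_ne_zero).1 h3
        rw [← hab] at q1
        have h4 : Real.cos θ' = Real.cos θ := mul_left_cancel₀ p1.ne' q1
        have h5 : θ' = θ := Real.injOn_cos (hang0 _) (hang0 _) h4
        exact hne (hang h5).symm
    thru := by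
      intro e he w hw
      induction e using Sym2.ind with
      | _ x y =>
      rw [SimpleGraph.mem_edgeSet] at he
      rw [harc] at hw
      obtain ⟨α, hα, h⟩ := hw
      have e1 : cc (i x) (i y) (ang s(x, y)) α 1 = 0 := by rw [h]; simp [px]
      have e2 : cc (i x) (i y) (ang s(x, y)) α 2 = 0 := by rw [h]; simp [px]
      obtain ⟨w', hw', hw2⟩ := hends x y (ang s(x, y)) α hα (hzero x y _ α he.ne hα e1 e2)
      have : w = w' := hi (px_inj (h.symm.trans hw2))
      rwa [this] }
  let F : Finset (Set (E 3)) :=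
    ((Finset.univ : Finset (V × V)).filter (fun q => q.1 ≠ q.2)).image
      (fun q => Set.range (cc (i q.1) (i q.2) (ang s(q.1, q.2)))) ∪
    Finset.univ.image (fun x : V => Set.range (cpt (px (i x) - uu) uu (vv 0) 1))
  have hF : Covers 1 D F := by
    refine ⟨?_, ?_, ?_⟩
    · intro S hS'
      simp only [F, Finset.mem_union, Finset.mem_image, Finset.mem_filter, Finset.mem_univ,
        true_and] at hS'
      rcases hS' with ⟨q, hq, rfl⟩ | ⟨x, rfl⟩
      · refine hR 3 _ _ _ _ (frame _) ?_
        have := abs_pos.2 (sub_ne_zero.2 (hi.ne hq))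
        linarith
      · exact hR 3 _ _ _ _ (frame _) one_pos
    · intro w
      refine ⟨Set.range (cpt (px (i w) - uu) uu (vv 0) 1), ?_, ⟨0, ?_⟩⟩
      · exact Finset.mem_union_right _ (Finset.mem_image_of_mem _ (Finset.mem_univ w))
      · simp [cpt, D]
    · intro e he z hz
      induction e using Sym2.ind with
      | _ x y =>
      rw [SimpleGraph.mem_edgeSet] at he
      change z ∈ arc s(x, y) at hz
      rw [harc] at hz
      obtain ⟨α, hα, rfl⟩ := hz
      refine ⟨Set.range (cc (i x) (i y) (ang s(x, y))), ?_, ⟨α, rfl⟩⟩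
      apply Finset.mem_union_left
      exact Finset.mem_image.2 ⟨(x, y), by simp [he.ne], rfl⟩
  calc sphericalCover 3 1 G ≤ F.card := sInf_le ⟨D, F, hF, rfl⟩
    _ < ⊤ := ENat.coe_lt_top _

end Pool.Agent.Lib.MP_9f365b_co
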