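import Pool.Agent.Lib.MP_9f365b_co.Stmts

/-!
A1, A2, A6, A7: frames of circles, reversal of arcs, linear isometries.
-/

open scoped RealInnerProductSpace

namespace Pool.Agent.Lib.MP_9f365b_co

namespace FrameAux

variable {d : ℕ}

theorem norm_comb {u v : E d} (h : Frame u v) (a b : ℝ) : ‖a • u + b • v‖ ^ 2 = a ^ 2 + b ^ 2 := by
  obtain ⟨hu, hv, huv⟩ := h
  rw [norm_add_sq_real, norm_smul, norm_smul, hu, hv, inner_smul_left, inner_smul_right, huv]
  simp

theorem linInd {u v : E d} (h : Frame u v) : LinearIndependent ℝ ![u, v] := by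
  rw [LinearIndependent.pair_iff]
  intro s t hst
  have h1 := norm_comb h s t
  rw [hst, norm_zero] at h1
  constructor <;> nlinarith [sq_nonneg s, sq_nonneg t]

theorem range_pair (u v : E d) : Set.range ![u, v] = {u, v} := by
  simp [Set.pair_comm]

theorem finrank_span {u v : E d} (h : Frame u v) :
    Module.finrank ℝ (Submodule.span ℝ ({u, v} : Set (E d))) = 2 := by
  rw [← range_pair, finrank_span_eq_card (linInd h)]
  simp

theorem exists_angle {a b r : ℝ} (hr : 0 < r) (h : a ^ 2 + b ^ 2 = r ^ 2) :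
    ∃ θ, a = r * Real.cos θ ∧ b = r * Real.sin θ := by
  set z : ℂ := ⟨a, b⟩ with hz
  have hn : ‖z‖ = r := by
    have h1 : ‖z‖ ^ 2 = r ^ 2 := by
      rw [← Complex.normSq_eq_norm_sq, Complex.normSq_apply, ← h]
      simp only [hz]
      ring
    nlinarith [norm_nonneg z]
  refine ⟨z.arg, ?_, ?_⟩
  · have := Complex.norm_mul_cos_arg z
    rw [hn] at this
    exact this.symm
  · have := Complex.norm_mul_sin_arg z
    rw [hn] at this
    exact this.symm

theorem circle_eq {u v : E d} (h : Frame u v) (c : E d) {r : ℝ} (hr : 0 < r) :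
    {x | x - c ∈ Submodule.span ℝ ({u, v} : Set (E d)) ∧ ‖x - c‖ = r} =
      Set.range (cpt c u v r) := by
  ext x
  simp only [Set.mem_setOf_eq, Set.mem_range]
  constructor
  · rintro ⟨h1, h2⟩
    obtain ⟨a, b, hab⟩ := Submodule.mem_span_pair.1 h1
    have h3 := norm_comb h a b
    rw [hab, h2] at h3
    obtain ⟨θ, ha, hb⟩ := exists_angle hr h3.symm
    refine ⟨θ, ?_⟩
    unfold cpt
    rw [← ha, ← hb, add_assoc, hab]
    abel
  · rintro ⟨θ, rfl⟩
    have h1 : cpt c u v r θ - c = (r * Real.cos θ) • u + (r * Real.sin θ) • v := by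
      unfold cpt
      abel
    rw [h1]
    refine ⟨Submodule.mem_span_pair.2 ⟨_, _, rfl⟩, ?_⟩
    have h2 := norm_comb h (r * Real.cos θ) (r * Real.sin θ)
    have h3 : (r * Real.cos θ) ^ 2 + (r * Real.sin θ) ^ 2 = r ^ 2 := by
      have := Real.sin_sq_add_cos_sq θ
      nlinarith
    rw [h3] at h2
    exact (pow_left_inj₀ (norm_nonneg _) hr.le two_ne_zero).1 h2

theorem exists_orth {D : Submodule ℝ (E d)} (hD : Module.finrank ℝ D = 2) {u : E d} (hu : u ∈ D)
    (hu1 : ‖u‖ = 1) : ∃ v ∈ D, Frame u v := by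
  have h1 : Submodule.span ℝ {u} ≤ D := by
    rw [Submodule.span_singleton_le_iff_mem]; exact hu
  have h2 := Submodule.finrank_add_inf_finrank_orthogonal h1
  have hu0 : u ≠ 0 := by
    rintro rfl
    rw [norm_zero] at hu1
    exact zero_ne_one hu1
  rw [hD, finrank_span_singleton hu0] at h2
  have h3 : Module.finrank ℝ ↥((Submodule.span ℝ {u})ᗮ ⊓ D) = 1 := by omega
  have h4 : (Submodule.span ℝ {u})ᗮ ⊓ D ≠ ⊥ := by
    intro h
    rw [h, finrank_bot] at h3
    exact absurd h3 (by norm_num)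
  obtain ⟨w, hw, hw0⟩ := Submodule.exists_mem_ne_zero_of_ne_bot h4
  have hn : ‖w‖ ≠ 0 := norm_ne_zero_iff.2 hw0
  refine ⟨‖w‖⁻¹ • w, D.smul_mem _ hw.2, hu1, ?_, ?_⟩
  · rw [norm_smul, norm_inv, norm_norm, inv_mul_cancel₀ hn]
  · rw [inner_smul_right]
    have h5 := (Submodule.mem_orthogonal_singleton_iff_inner_right.1 hw.1)
    rw [h5, mul_zero]

/-- circles have frames -/
theorem frame_of {C : Set (E d)} {A : AffineSubspace ℝ (E d)} {c : E d} {r : ℝ} (hc : c ∈ A)
    (hA : Module.finrank ℝ A.direction = 2) (hr : 0 < r) (hC : C = {x | x ∈ A ∧ ‖x - c‖ = r})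
    {u v : E d} (huv : Frame u v) (hu : u ∈ A.direction) (hv : v ∈ A.direction) :
    C = Set.range (cpt c u v r) := by
  have h1 : Submodule.span ℝ ({u, v} : Set (E d)) ≤ A.direction := by
    rw [Submodule.span_le]
    rintro x (rfl | rfl)
    · exact hu
    · exact hv
  have h2 : Submodule.span ℝ ({u, v} : Set (E d)) = A.direction :=
    Submodule.eq_of_le_of_finrank_eq h1 (by rw [hA, finrank_span huv])
  rw [← circle_eq huv c hr, hC, h2]
  ext x
  simp only [Set.mem_setOf_eq]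
  rw [← AffineSubspace.vsub_right_mem_direction_iff_mem hc x, vsub_eq_sub]

theorem exists_unit {D : Submodule ℝ (E d)} (hD : Module.finrank ℝ D = 2) :
    ∃ u ∈ D, ‖u‖ = 1 := by
  have h4 : D ≠ ⊥ := by
    intro h
    rw [h, finrank_bot] at hD
    exact absurd hD (by norm_num)
  obtain ⟨w, hw, hw0⟩ := Submodule.exists_mem_ne_zero_of_ne_bot h4
  have hn : ‖w‖ ≠ 0 := norm_ne_zero_iff.2 hw0
  refine ⟨‖w‖⁻¹ • w, D.smul_mem _ hw, ?_⟩
  rw [norm_smul, norm_inv, norm_norm, inv_mul_cancel₀ hn]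

theorem exists_frame {C : Set (E d)} (h : IsSph d 1 C) :
    ∃ (c u v : E d) (r : ℝ), Frame u v ∧ 0 < r ∧ C = Set.range (cpt c u v r) := by
  obtain ⟨A, c, r, hc, hA, hr, hC⟩ := h
  have hA' : Module.finrank ℝ A.direction = 2 := by rw [hA]
  obtain ⟨u, hu, hu1⟩ := exists_unit hA'
  obtain ⟨v, hv, huv⟩ := exists_orth hA' hu hu1
  exact ⟨c, u, v, r, huv, hr, frame_of hc hA' hr hC huv hu hv⟩

theorem map_cpt {d d' : ℕ} (f : E d →ₗᵢ[ℝ] E d') (c u v : E d) (r θ : ℝ) :
    f (cpt c u v r θ) = cpt (f c) (f u) (f v) r θ := by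
  unfold cpt
  simp

theorem map_frame {d d' : ℕ} (f : E d →ₗᵢ[ℝ] E d') {u v : E d} (h : Frame u v) :
    Frame (f u) (f v) :=
  ⟨by rw [f.norm_map]; exact h.1, by rw [f.norm_map]; exact h.2.1, by
    rw [f.inner_map_map]; exact h.2.2⟩

end FrameAux

open FrameAux

/-- A1. -/
theorem stFrame : StFrame := by
  intro d C A0 h hA0
  obtain ⟨A, c, r, hc, hA, hr, hC⟩ := h
  have hA' : Module.finrank ℝ A.direction = 2 := by rw [hA]
  rw [hC] at hA0
  obtain ⟨h1, h2⟩ := hA0
  have hu : r⁻¹ • (A0 - c) ∈ A.direction := by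
    refine A.direction.smul_mem _ ?_
    rw [← vsub_eq_sub]
    exact AffineSubspace.vsub_mem_direction h1 hc
  have hu1 : ‖r⁻¹ • (A0 - c)‖ = 1 := by
    rw [norm_smul, h2, norm_inv, Real.norm_of_nonneg hr.le, inv_mul_cancel₀ hr.ne']
  obtain ⟨v, hv, huv⟩ := exists_orth hA' hu hu1
  refine ⟨c, r⁻¹ • (A0 - c), v, r, huv, hr, ?_, frame_of hc hA' hr hC huv hu hv⟩
  unfold cpt
  rw [Real.cos_zero, Real.sin_zero, mul_one, mul_zero, zero_smul, add_zero, smul_smul,
    mul_inv_cancel₀ hr.ne', one_smul]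
  abel

/-- A2. -/
theorem stRange : StRange := by
  intro d c u v r h hr
  refine ⟨AffineSubspace.mk' c (Submodule.span ℝ {u, v}), c, r, AffineSubspace.self_mem_mk' _ _,
    ?_, hr, ?_⟩
  · rw [AffineSubspace.direction_mk', finrank_span h]
  · rw [← circle_eq h c hr]
    ext x
    simp only [Set.mem_setOf_eq, AffineSubspace.mem_mk', vsub_eq_sub]

/-- A6. -/
theorem stSymm : StSymm := by
  rintro d J P Q ⟨c, u, v, r, α, β, h, hr, hαβ, hβ, hP, hQ, rfl⟩
  have e : ∀ θ, cpt c u (-v) r θ = cpt c u v r (-θ) := by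
    intro θ
    unfold cpt
    rw [Real.cos_neg, Real.sin_neg]
    simp
  refine ⟨c, u, -v, r, -β, -α, ⟨h.1, by rw [norm_neg]; exact h.2.1, by
    rw [inner_neg_right, h.2.2, neg_zero]⟩, hr, by linarith, by linarith, ?_, ?_, ?_⟩
  · rw [e, neg_neg, hQ]
  · rw [e, neg_neg, hP]
  · ext x
    constructor
    · rintro ⟨θ, ⟨h1, h2⟩, rfl⟩
      exact ⟨-θ, ⟨by linarith, by linarith⟩, by rw [e, neg_neg]⟩
    · rintro ⟨θ, ⟨h1, h2⟩, rfl⟩
      exact ⟨-θ, ⟨by linarith, by linarith⟩, by rw [e]⟩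

/-- A7. -/
theorem stMap : StMap := by
  intro d d' f
  refine ⟨?_, ?_⟩
  · rintro J P Q ⟨c, u, v, r, α, β, h, hr, hαβ, hβ, rfl, rfl, rfl⟩
    refine ⟨f c, f u, f v, r, α, β, map_frame f h, hr, hαβ, hβ, (map_cpt f c u v r α).symm,
      (map_cpt f c u v r β).symm, ?_⟩
    rw [Set.image_image]
    exact Set.image_congr fun θ _ => map_cpt f c u v r θ
  · intro C hC
    obtain ⟨c, u, v, r, h, hr, rfl⟩ := exists_frame hC
    have h1 : f '' Set.range (cpt c u v r) = Set.range (cpt (f c) (f u) (f v) r) := by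
      rw [← Set.range_comp]
      congr 1
      funext θ
      exact map_cpt f c u v r θ
    rw [h1]
    exact stRange d' _ _ _ r (map_frame f h) hr

end Pool.Agent.Lib.MP_9f365b_co
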