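import Pool.Agent.Lib.MP_9f365b_co.Stmts

/-!
Counting circles through the hubs.
-/

namespace Pool.Agent.Lib.MP_9f365b_co

open Finset

open Classical in
/-- the hubs on `S` -/
noncomputable def hubSet {d : ℕ} (h : Fin 4 → E d) (S : Set (E d)) : Finset (Fin 4) :=
  Finset.univ.filter (fun a => h a ∈ S)

theorem mem_hubSet {d : ℕ} {h : Fin 4 → E d} {S : Set (E d)} {a : Fin 4} :
    a ∈ hubSet h S ↔ h a ∈ S := by
  simp [hubSet]

theorem ncard_hub {d : ℕ} (h : Fin 4 → E d) (S : Set (E d)) :
    {a | h a ∈ S}.ncard = (hubSet h S).card := by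
  rw [← Set.ncard_coe_finset]
  congr 1
  ext a
  simp [mem_hubSet]

open Classical in
theorem nthru_eq {d : ℕ} (F : Finset (Set (E d))) (z : E d) :
    nthru F z = (F.filter (fun S => z ∈ S)).card := by
  unfold nthru
  rw [← Set.ncard_coe_finset]
  congr 1
  ext S
  simp

theorem double_one {d : ℕ} (F : Finset (Set (E d))) (h : Fin 4 → E d) :
    ∑ a, nthru F (h a) = ∑ S ∈ F, {a | h a ∈ S}.ncard := by
  classical
  simp only [nthru_eq, ncard_hub]
  simp only [hubSet, Finset.card_filter]
  rw [Finset.sum_comm]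

theorem stDouble : StDouble := by
  classical
  intro d F h
  refine ⟨double_one F h, ?_⟩
  intro h2 T hT hT3
  rw [double_one]
  have h1 : ∑ S ∈ F, (2 + (if S ∈ Finset.univ.image T then 1 else 0))
      ≤ ∑ S ∈ F, {a | h a ∈ S}.ncard := by
    refine Finset.sum_le_sum ?_
    intro S hS
    split_ifs with hST
    · rw [Finset.mem_image] at hST
      obtain ⟨i, _, rfl⟩ := hST
      exact (hT3 i).2
    · exact h2 S hS
  refine le_trans (le_of_eq ?_) h1
  rw [Finset.sum_add_distrib, Finset.sum_const, ← Finset.sum_filter, Finset.sum_const]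
  have h3 : F.filter (fun S => S ∈ Finset.univ.image T) = Finset.univ.image T := by
    ext S
    simp only [Finset.mem_filter, Finset.mem_image, Finset.mem_univ, true_and]
    constructor
    · exact fun h => h.2
    · rintro ⟨i, rfl⟩
      exact ⟨(hT3 i).1, i, rfl⟩
  rw [h3, Finset.card_image_of_injective _ hT]
  simp
  ring

theorem inter_le_two (h3 : StThree) {d : ℕ} {F : Finset (Set (E d))} {h : Fin 4 → E d}
    (hF : ∀ S ∈ F, IsSph d 1 S) (hh : Function.Injective h) {S S' : Set (E d)} (hS : S ∈ F)
    (hS' : S' ∈ F) (hne : S ≠ S') : (hubSet h S ∩ hubSet h S').card ≤ 2 := by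
  by_contra hcon
  push Not at hcon
  rw [Finset.two_lt_card] at hcon
  obtain ⟨a, ha, b, hb, c, hc, hab, hac, hbc⟩ := hcon
  simp only [Finset.mem_inter, mem_hubSet] at ha hb hc
  exact hne (h3 d S S' (h a) (h b) (h c) (hF S hS) (hF S' hS') (hh.ne hab) (hh.ne hac)
    (hh.ne hbc) ha.1 hb.1 hc.1 ha.2 hb.2 hc.2)

theorem card_hubSet_le {d : ℕ} (h : Fin 4 → E d) (S : Set (E d)) : (hubSet h S).card ≤ 4 := by
  have := Finset.card_le_univ (hubSet h S)
  simpa using this

theorem stHub (h3 : StThree) : StHub := by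
  classical
  intro d F h R hF hh hR hsum
  rw [double_one] at hsum
  simp only [ncard_hub] at hsum ⊢
  -- no circle through all the hubs
  have hno4 : ∀ S ∈ F, (hubSet h S).card ≤ 3 := by
    intro S0 hS0
    by_contra hcon
    push Not at hcon
    have hS0u : hubSet h S0 = Finset.univ := by
      rw [← Finset.card_eq_iff_eq_univ]
      have := card_hubSet_le h S0
      simp only [Fintype.card_fin]
      omega
    have hothers : ∀ S ∈ F.erase S0, (hubSet h S).card ≤ 2 := by
      intro S hS
      rw [Finset.mem_erase] at hS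
      have := inter_le_two h3 hF hh hS.2 hS0 hS.1
      rwa [hS0u, Finset.inter_univ] at this
    have h5 : ∑ S ∈ F, (hubSet h S).card ≤ 4 + 2 * (F.card - 1) := by
      rw [← Finset.add_sum_erase F _ hS0]
      refine add_le_add (card_hubSet_le h S0) ?_
      refine (Finset.sum_le_card_nsmul _ _ 2 hothers).trans ?_
      rw [Finset.card_erase_of_mem hS0]
      simp [mul_comm]
    have hpos : 0 < F.card := Finset.card_pos.2 ⟨S0, hS0⟩
    omega
  set F3 := F.filter (fun S => (hubSet h S).card = 3) with hF3
  have hinj : Set.InjOn (fun S => hubSet h S) (F3 : Set (Set (E d))) := by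
    intro S hS S' hS' heq
    simp only [hF3, Finset.coe_filter, Set.mem_setOf_eq] at hS hS'
    by_contra hne
    have := inter_le_two h3 hF hh hS.1 hS'.1 hne
    have heq' : hubSet h S = hubSet h S' := heq
    rw [← heq', Finset.inter_self] at this
    omega
  have hmaps : ∀ S ∈ F3, hubSet h S ∈ Finset.powersetCard 3 (Finset.univ : Finset (Fin 4)) := by
    intro S hS
    rw [hF3, Finset.mem_filter] at hS
    rw [Finset.mem_powersetCard]
    exact ⟨Finset.subset_univ _, hS.2⟩
  have hcardP : (Finset.powersetCard 3 (Finset.univ : Finset (Fin 4))).card = 4 := by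
    rw [Finset.card_powersetCard]
    rfl
  have hF3le : F3.card ≤ 4 := by
    rw [← hcardP]
    exact Finset.card_le_card_of_injOn _ hmaps hinj
  have hle : ∀ S ∈ F, (hubSet h S).card ≤ 2 + (if (hubSet h S).card = 3 then 1 else 0) := by
    intro S hS
    have := hno4 S hS
    split_ifs with h5
    · omega
    · omega
  have hsum2 : ∑ S ∈ F, (2 + (if (hubSet h S).card = 3 then 1 else 0)) = 2 * F.card + F3.card := by
    rw [Finset.sum_add_distrib, Finset.sum_const, ← Finset.sum_filter, Finset.sum_const]
    simp [mul_comm]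
    rfl
  have hsum3 := Finset.sum_le_sum hle
  rw [hsum2] at hsum3
  have heqs : ∑ S ∈ F, (hubSet h S).card
      = ∑ S ∈ F, (2 + (if (hubSet h S).card = 3 then 1 else 0)) := by
    rw [hsum2]
    omega
  have hF3card : F3.card = 4 := by omega
  have heach := (Finset.sum_eq_sum_iff_of_le hle).1 heqs
  refine ⟨?_, ?_⟩
  · intro S hS
    have h6 := heach S hS
    split_ifs at h6 with h7
    · exact Or.inr h7
    · exact Or.inl h6
  · intro a b c hab hac hbc
    have hmem : ({a, b, c} : Finset (Fin 4)) ∈ Finset.powersetCard 3 Finset.univ := by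
      rw [Finset.mem_powersetCard]
      refine ⟨Finset.subset_univ _, ?_⟩
      rw [Finset.card_eq_three]
      exact ⟨a, b, c, hab, hac, hbc, rfl⟩
    have himg : F3.image (fun S => hubSet h S) = Finset.powersetCard 3 Finset.univ := by
      refine Finset.eq_of_subset_of_card_le ?_ ?_
      · intro s hs
        rw [Finset.mem_image] at hs
        obtain ⟨S, hS, rfl⟩ := hs
        exact hmaps S hS
      · rw [hcardP, Finset.card_image_of_injOn hinj, hF3card]
    rw [← himg, Finset.mem_image] at hmem
    obtain ⟨S, hS, hSabc⟩ := hmem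
    have hS' : S ∈ F := (Finset.mem_filter.1 hS).1
    refine ⟨S, hS', ?_, ?_, ?_⟩
    · rw [← mem_hubSet, hSabc]; simp
    · rw [← mem_hubSet, hSabc]; simp
    · rw [← mem_hubSet, hSabc]; simp

theorem stHub2 (h3 : StThree) : StHub2 := by
  classical
  intro d F h w hF hh hw h23 h6 S hS hwS
  simp only [ncard_hub] at h23 ⊢
  rw [nthru_eq] at h6
  set Fw := F.filter (fun S => w ∈ S) with hFw
  have hle1 : ∀ S ∈ Fw, ∀ S' ∈ Fw, S ≠ S' → (hubSet h S ∩ hubSet h S').card ≤ 1 := by
    intro S hS S' hS' hne
    rw [hFw, Finset.mem_filter] at hS hS'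
    by_contra hcon
    push Not at hcon
    rw [Finset.one_lt_card] at hcon
    obtain ⟨a, ha, b, hb, hab⟩ := hcon
    simp only [Finset.mem_inter, mem_hubSet] at ha hb
    exact hne (h3 d S S' w (h a) (h b) (hF S hS.1) (hF S' hS'.1) (hw a) (hw b) (hh.ne hab)
      hS.2 ha.1 hb.1 hS'.2 ha.2 hb.2)
  have hdisj : (Fw : Set (Set (E d))).PairwiseDisjoint
      (fun S => Finset.powersetCard 2 (hubSet h S)) := by
    intro S hS S' hS' hne
    rw [Function.onFun, Finset.disjoint_left]
    intro p hp hp'
    rw [Finset.mem_powersetCard] at hp hp'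
    have h5 := hle1 S hS S' hS' hne
    have h7 : p.card ≤ (hubSet h S ∩ hubSet h S').card :=
      Finset.card_le_card (Finset.subset_inter hp.1 hp'.1)
    omega
  have hsum : ∑ S ∈ Fw, (hubSet h S).card.choose 2 ≤ 6 := by
    have h8 : (Fw.biUnion (fun S => Finset.powersetCard 2 (hubSet h S))).card
        = ∑ S ∈ Fw, (hubSet h S).card.choose 2 := by
      rw [Finset.card_biUnion hdisj]
      refine Finset.sum_congr rfl ?_
      intro S _
      rw [Finset.card_powersetCard]
    rw [← h8]
    have h9 : Fw.biUnion (fun S => Finset.powersetCard 2 (hubSet h S))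
        ⊆ Finset.powersetCard 2 (Finset.univ : Finset (Fin 4)) := by
      intro p hp
      rw [Finset.mem_biUnion] at hp
      obtain ⟨S, _, hp⟩ := hp
      rw [Finset.mem_powersetCard] at hp ⊢
      exact ⟨Finset.subset_univ _, hp.2⟩
    refine (Finset.card_le_card h9).trans ?_
    rw [Finset.card_powersetCard]
    decide
  have hone : ∀ S ∈ Fw, 1 ≤ (hubSet h S).card.choose 2 := by
    intro S hS
    rw [hFw, Finset.mem_filter] at hS
    rcases h23 S hS.1 with h5 | h5 <;> rw [h5] <;> decide
  have hSw : S ∈ Fw := by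
    rw [hFw, Finset.mem_filter]
    exact ⟨hS, hwS⟩
  rcases h23 S hS with h5 | h5
  · exact h5
  · exfalso
    have h10 : ∑ S ∈ Fw.erase S, (hubSet h S).card.choose 2 + (hubSet h S).card.choose 2 ≤ 6 := by
      rw [Finset.sum_erase_add _ _ hSw]
      exact hsum
    have h11 : (Fw.erase S).card ≤ ∑ S ∈ Fw.erase S, (hubSet h S).card.choose 2 := by
      have := Finset.card_nsmul_le_sum (Fw.erase S) (fun S => (hubSet h S).card.choose 2) 1
        (fun S' hS' => hone S' (Finset.mem_of_mem_erase hS'))
      simpa using this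
    rw [Finset.card_erase_of_mem hSw] at h11
    have h12 : (hubSet h S).card.choose 2 = 3 := by rw [h5]; decide
    omega

end Pool.Agent.Lib.MP_9f365b_co
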