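import Pool.Agent.Lib.MP_9f365b_co.Stmts

/-!
F0, F1: the antichain property and four pairwise adjacent vertices.
-/

namespace Pool.Agent.Lib.MP_9f365b_co

namespace K4Aux

lemma qq_sub {G : Fin 4 → Fin 4 → ℝ} (h : GOK G) (X Y : Fin 4 → ℝ) :
    QQ G Y - QQ G X = ∑ b, (Y b - X b) * (LL G X b + LL G Y b) := by
  have s10 := h.symm 1 0
  have s20 := h.symm 2 0
  have s30 := h.symm 3 0
  have s21 := h.symm 2 1
  have s31 := h.symm 3 1
  have s32 := h.symm 3 2
  simp only [QQ, LL, Fin.sum_univ_four]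
  rw [s10, s20, s30, s21, s31, s32]
  ring

/-- two different points which agree off `a, b` differ at `a` and at `b`, in opposite
directions -/
lemma opp (hA : StAnti) {G : Fin 4 → Fin 4 → ℝ} (h : GOK G) {X Y : Fin 4 → ℝ}
    (hq : QQ G X = QQ G Y) (hX : ∀ a, 0 < LL G X a) (hY : ∀ a, 0 < LL G Y a) (hne : X ≠ Y)
    {a b : Fin 4} (hab : ∀ c, c ≠ a → c ≠ b → X c = Y c) : (X a - Y a) * (X b - Y b) < 0 := by
  have key1 : ¬ (X a ≤ Y a ∧ X b ≤ Y b) := by
    rintro ⟨h1, h2⟩
    apply hne
    apply hA G X Y h hq hX hY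
    intro c
    by_cases hca : c = a
    · rw [hca]; exact h1
    · by_cases hcb : c = b
      · rw [hcb]; exact h2
      · exact (hab c hca hcb).le
  have key2 : ¬ (Y a ≤ X a ∧ Y b ≤ X b) := by
    rintro ⟨h1, h2⟩
    apply hne
    symm
    apply hA G Y X h hq.symm hY hX
    intro c
    by_cases hca : c = a
    · rw [hca]; exact h1
    · by_cases hcb : c = b
      · rw [hcb]; exact h2
      · exact (hab c hca hcb).ge
  rcases le_total (X a) (Y a) with h1 | h1
  · have h2 : Y b < X b := by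
      by_contra h3
      exact key1 ⟨h1, not_lt.mp h3⟩
    have h4 : X a < Y a := by
      by_contra h3
      exact key2 ⟨not_lt.mp h3, h2.le⟩
    nlinarith
  · have h2 : X b < Y b := by
      by_contra h3
      exact key2 ⟨h1, not_lt.mp h3⟩
    have h4 : Y a < X a := by
      by_contra h3
      exact key1 ⟨not_lt.mp h3, h2.le⟩
    nlinarith

end K4Aux

open K4Aux

/-- F0. -/
theorem stAnti : StAnti := by
  intro G X Y h hq hX hY hle
  have h1 := qq_sub h X Y
  rw [hq, sub_self] at h1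
  have h2 : ∀ b ∈ (Finset.univ : Finset (Fin 4)), 0 ≤ (Y b - X b) * (LL G X b + LL G Y b) := by
    intro b _
    have := hX b
    have := hY b
    have := hle b
    exact mul_nonneg (by linarith) (by linarith)
  have h3 := (Finset.sum_eq_zero_iff_of_nonneg h2).mp h1.symm
  funext b
  have h4 := h3 b (Finset.mem_univ b)
  have h5 : LL G X b + LL G Y b ≠ 0 := by
    have := hX b
    have := hY b
    linarith
  rcases mul_eq_zero.mp h4 with h6 | h6
  · linarith
  · exact absurd h6 h5

/-- F1. -/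
theorem stK4 : StK4 := by
  intro G W hG hq hL hinj hedge htri
  -- edges: exactly two coordinates differ, in opposite directions
  have hopp : ∀ i j, i ≠ j → ∀ a b, (∀ c, c ≠ a → c ≠ b → W i c = W j c) →
      (W i a - W j a) * (W i b - W j b) < 0 := by
    intro i j hij a b hab
    exact opp stAnti hG (by rw [hq, hq]) (hL i) (hL j) (fun h => hij (hinj h)) hab
  have hex : ∀ i j, i ≠ j → ∃ a b, a ≠ b ∧ (∀ c, c ≠ a → c ≠ b → W i c = W j c) ∧
      W i a ≠ W j a ∧ W i b ≠ W j b := by
    intro i j hij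
    obtain ⟨a, b, hab, h1⟩ := hedge i j hij
    have h2 := hopp i j hij a b h1
    refine ⟨a, b, hab, h1, ?_, ?_⟩
    · intro h
      rw [h, sub_self, zero_mul] at h2
      exact lt_irrefl _ h2
    · intro h
      rw [h, sub_self, mul_zero] at h2
      exact lt_irrefl _ h2
  -- three vertices agree in some coordinate
  have hfree : ∀ a b a' b' : Fin 4, (a = a' ∨ a = b' ∨ b = a' ∨ b = b') →
      ∃ c, c ≠ a ∧ c ≠ b ∧ c ≠ a' ∧ c ≠ b' := by decide
  have hfree2 : ∀ a b : Fin 4, ∃ c, c ≠ a ∧ c ≠ b := by decide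
  have htrip : ∀ i j k, i ≠ j → j ≠ k → i ≠ k → ∃ c, W i c = W j c ∧ W j c = W k c := by
    intro i j k hij hjk hik
    obtain ⟨a, b, -, h1, -, -⟩ := hex i j hij
    obtain ⟨a', b', -, h2, -, -⟩ := hex j k hjk
    obtain ⟨a'', b'', -, h3, -, -⟩ := hex i k hik
    obtain ⟨c, hc1, hc2⟩ := hfree2 a'' b''
    have h4 := h3 c hc1 hc2
    by_cases g1 : c ≠ a ∧ c ≠ b
    · have h5 := h1 c g1.1 g1.2
      exact ⟨c, h5, by rw [← h5, h4]⟩
    by_cases g2 : c ≠ a' ∧ c ≠ b'
    · have h5 := h2 c g2.1 g2.2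
      exact ⟨c, by rw [h4, h5], h5⟩
    obtain ⟨d, d1, d2, d3, d4⟩ := hfree a b a' b' (by
      by_contra hno
      push Not at hno g1 g2
      by_cases e1 : c = a
      · by_cases e2 : c = a'
        · exact hno.1 (e1.symm.trans e2)
        · exact hno.2.1 (e1.symm.trans (g2 e2))
      · have e3 := g1 e1
        by_cases e2 : c = a'
        · exact hno.2.2.1 (e3.symm.trans e2)
        · exact hno.2.2.2 (e3.symm.trans (g2 e2)))
    exact ⟨d, h1 d d1 d2, h2 d d3 d4⟩
  -- the coordinate of the three vertices other than `l`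
  have hT : ∀ l : Fin 4, ∃ c, ∀ i j, i ≠ l → j ≠ l → W i c = W j c := by
    intro l
    have h3 : ∀ l : Fin 4, ∃ i j k : Fin 4, i ≠ j ∧ j ≠ k ∧ i ≠ k ∧
        ∀ x, x ≠ l → x = i ∨ x = j ∨ x = k := by decide
    obtain ⟨i, j, k, hij, hjk, hik, hall⟩ := h3 l
    obtain ⟨c, c1, c2⟩ := htrip i j k hij hjk hik
    refine ⟨c, ?_⟩
    intro x y hx hy
    have e : ∀ x, x ≠ l → W x c = W i c := by
      intro x hx
      rcases hall x hx with rfl | rfl | rfl
      · rfl
      · exact c1.symm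
      · exact (c1.trans c2).symm
    rw [e x hx, e y hy]
  choose T hT using hT
  -- no coordinate in which all four agree
  have hnoall : ∀ k, ¬ ∀ i j, W i k = W j k := by
    intro k hk
    -- second common coordinate
    have hx : ∀ i j, i ≠ j → ∃ x, x ≠ k ∧ W i x = W j x ∧
        ∀ c, c ≠ k → c ≠ x → W i c ≠ W j c := by
      intro i j hij
      obtain ⟨a, b, hab, h1, h2, h3⟩ := hex i j hij
      have ka : k ≠ a := by rintro rfl; exact h2 (hk i j)
      have kb : k ≠ b := by rintro rfl; exact h3 (hk i j)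
      have h4 : ∀ a b k : Fin 4, a ≠ b → k ≠ a → k ≠ b → ∃ x, x ≠ k ∧ x ≠ a ∧ x ≠ b ∧
          ∀ c, c ≠ k → c ≠ x → c = a ∨ c = b := by decide
      obtain ⟨x, x1, x2, x3, x4⟩ := h4 a b k hab ka kb
      refine ⟨x, x1, h1 x x2 x3, ?_⟩
      intro c c1 c2
      rcases x4 c c1 c2 with rfl | rfl
      · exact h2
      · exact h3
    obtain ⟨x1, p1, q1, r1⟩ := hx 0 1 (by decide)
    obtain ⟨x2, p2, q2, r2⟩ := hx 0 2 (by decide)
    obtain ⟨x3, p3, q3, r3⟩ := hx 0 3 (by decide)
    obtain ⟨y12, s12, t12, -⟩ := hx 1 2 (by decide)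
    obtain ⟨y13, s13, t13, -⟩ := hx 1 3 (by decide)
    obtain ⟨y23, s23, t23, -⟩ := hx 2 3 (by decide)
    have n12 : x1 ≠ x2 := by
      rintro rfl
      exact htri 1 0 2 (by decide) (by decide) (by decide) k x1 p1.symm
        ⟨hk _ _, hk _ _, q1.symm, q2⟩
    have n13 : x1 ≠ x3 := by
      rintro rfl
      exact htri 1 0 3 (by decide) (by decide) (by decide) k x1 p1.symm
        ⟨hk _ _, hk _ _, q1.symm, q3⟩
    have n23 : x2 ≠ x3 := by
      rintro rfl
      exact htri 2 0 3 (by decide) (by decide) (by decide) k x2 p2.symm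
        ⟨hk _ _, hk _ _, q2.symm, q3⟩
    have h5 : ∀ k x1 x2 x3 y : Fin 4, x1 ≠ k → x2 ≠ k → x3 ≠ k → x1 ≠ x2 → x1 ≠ x3 → x2 ≠ x3 →
        y ≠ k → y = x1 ∨ y = x2 ∨ y = x3 := by decide
    have e12 : y12 = x3 := by
      rcases h5 k x1 x2 x3 y12 p1 p2 p3 n12 n13 n23 s12 with rfl | rfl | rfl
      · exact absurd (q1.trans t12) (r2 y12 p1 n12)
      · exact absurd (q2.trans t12.symm) (r1 y12 p2 n12.symm)
      · rfl
    have e13 : y13 = x2 := by
      rcases h5 k x1 x2 x3 y13 p1 p2 p3 n12 n13 n23 s13 with rfl | rfl | rfl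
      · exact absurd (q1.trans t13) (r3 y13 p1 n13)
      · rfl
      · exact absurd (q3.trans t13.symm) (r1 y13 p3 n13.symm)
    have e23 : y23 = x1 := by
      rcases h5 k x1 x2 x3 y23 p1 p2 p3 n12 n13 n23 s23 with rfl | rfl | rfl
      · rfl
      · exact absurd (q2.trans t23) (r3 y23 p2 n23)
      · exact absurd (q3.trans t23.symm) (r2 y23 p3 n23.symm)
    rw [e12] at t12
    rw [e13] at t13
    rw [e23] at t23
    have hoff' : ∀ k x y z c : Fin 4, x ≠ k → y ≠ k → z ≠ k → x ≠ y → x ≠ z → y ≠ z →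
        c ≠ y → c ≠ z → c = k ∨ c = x := by decide
    have hoff := hoff' k
    have o1 := hopp 0 1 (by decide) x2 x3 (by
      intro c c2 c3
      rcases hoff x1 x2 x3 c p1 p2 p3 n12 n13 n23 c2 c3 with rfl | rfl
      · exact hk _ _
      · exact q1)
    have o2 := hopp 0 2 (by decide) x1 x3 (by
      intro c c2 c3
      rcases hoff x2 x1 x3 c p2 p1 p3 n12.symm n23 n13 c2 c3 with rfl | rfl
      · exact hk _ _
      · exact q2)
    have o3 := hopp 0 3 (by decide) x1 x2 (by
      intro c c2 c3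
      rcases hoff x3 x1 x2 c p3 p1 p2 n13.symm n23.symm n12 c2 c3 with rfl | rfl
      · exact hk _ _
      · exact q3)
    rw [← t12] at o2
    rw [← t23, ← t13] at o3
    set u := W 0 x1 - W 2 x1
    set v := W 0 x2 - W 1 x2
    set w := W 0 x3 - W 1 x3
    have h6 : 0 ≤ (v * w) * (u * w) * (u * v) := by
      have : (v * w) * (u * w) * (u * v) = (u * v * w) ^ 2 := by ring
      rw [this]
      positivity
    have h7 : 0 < (v * w) * (u * w) := mul_pos_of_neg_of_neg o1 o2
    have h8 : (v * w) * (u * w) * (u * v) < 0 := mul_neg_of_pos_of_neg h7 o3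
    linarith
  -- `T` is injective
  have hTinj : Function.Injective T := by
    intro l l' hl
    by_contra hne
    apply hnoall (T l)
    have h1 : ∀ l l' : Fin 4, l ≠ l' → ∃ m, m ≠ l ∧ m ≠ l' := by decide
    obtain ⟨m, m1, m2⟩ := h1 l l' hne
    have h2 : ∀ x, W x (T l) = W m (T l) := by
      intro x
      by_cases hx : x = l
      · rw [hl]
        exact hT l' x m (by rw [hx]; exact hne) m2
      · exact hT l x m hx m1
    intro i j
    rw [h2 i, h2 j]
  let π : Equiv.Perm (Fin 4) := Equiv.ofBijective T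
    ⟨hTinj, Finite.surjective_of_injective hTinj⟩
  have hπ : ∀ i, π i = T i := fun i => rfl
  -- base point
  have hoth : ∀ l : Fin 4, ∃ m, m ≠ l := by decide
  choose o ho using hoth
  refine ⟨fun c => W (o (π.symm c)) c, π, ?_⟩
  intro i
  constructor
  · simp only [Equiv.symm_apply_apply]
    intro h
    apply hnoall (T i)
    have h2 : ∀ x, W x (T i) = W (o i) (T i) := by
      intro x
      by_cases hx : x = i
      · rw [hx]
        exact h
      · exact hT i x (o i) hx (ho i)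
    intro a b
    rw [h2 a, h2 b]
  · intro c hc
    simp only
    have h1 : c = T (π.symm c) := by
      rw [← hπ, Equiv.apply_symm_apply]
    have h2 : i ≠ π.symm c := by
      intro h
      apply hc
      rw [h, Equiv.apply_symm_apply]
    have h3 := hT (π.symm c) i (o (π.symm c)) h2 (ho _)
    rw [← h1] at h3
    exact h3

end Pool.Agent.Lib.MP_9f365b_co
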