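import Pool.Agent.Lib.MP_9f365b_co.Stmts

/-!
I5. There is no scene with `4099` or more copies (pigeonhole).
-/

open scoped RealInnerProductSpace

namespace Pool.Agent.Lib.MP_9f365b_co

namespace NoSceneAux

theorem gok {H : Fin 4 → E 3} (hH : Function.Injective H) :
    GOK (fun a b => ‖H a - H b‖ ^ 2) := by
  refine ⟨fun a b => ?_, fun a => ?_, fun a b hab => ?_⟩
  · rw [norm_sub_rev]
  · simp
  · have h1 : H a - H b ≠ 0 := fun h => hab (hH (sub_eq_zero.1 h))
    have := norm_pos_iff.2 h1
    positivity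

/-- two points with proportional coordinates are equal -/
theorem eq_of_prop {H : Fin 4 → E 3} {x : E 3 → Fin 4 → ℝ} {φ : E 3 → ℝ} (hc : Conf H x φ)
    (z p : E 3) (l : ℝ) (h1 : ∀ a, x z a = l * x p a) (h2 : φ z = l * φ p) : z = p := by
  obtain ⟨hl, hz, _⟩ := hc.comb' z p p p l 0 0 (fun a => by rw [h1 a]; ring) (by rw [h2]; ring)
  have hl1 : l = 1 := by linarith
  rw [hz, hl1]
  simp

/-- the copies with the centre on a given side of the sphere of the hubs -/
theorem off (hCo : StCopy) (hR : StRigid) (hCe : StCentre) {N : ℕ} {H : Fin 4 → E 3}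
    {P : Fin N → Fin 19 → E 3} {JD : Fin N → Fin 19 → Fin 19 → Set (E 3)}
    {JH : Fin N → Fin 4 → Set (E 3)} (hs : Scene N H P JD JH) {x : E 3 → Fin 4 → ℝ}
    {φ : E 3 → ℝ} (hc : Conf H x φ) (k k' : Fin N) (h : φ (P k 0) ≠ 0) (h' : φ (P k' 0) ≠ 0)
    (hsame : 0 < φ (P k 0) ↔ 0 < φ (P k' 0)) : k = k' := by
  obtain ⟨-, hp⟩ := hCo N H P JD JH hs x φ hc k h
  obtain ⟨-, hp'⟩ := hCo N H P JD JH hs x φ hc k' h'
  obtain ⟨t, ht⟩ := hR _ _ hp
  obtain ⟨t', ht'⟩ := hR _ _ hp'
  have he := hCe _ _ _ t t' (gok hs.injH) (hp.quad 0) (hp'.quad 0) (hp.pos 0) (hp'.pos 0) ht ht'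
  have ha : 0 < |φ (P k 0)| := abs_pos.2 h
  have ha' : 0 < |φ (P k' 0)| := abs_pos.2 h'
  have hz : P k 0 = P k' 0 := by
    refine eq_of_prop hc _ _ (|φ (P k 0)| / |φ (P k' 0)|) (fun a => ?_) ?_
    · have h1 : x (P k 0) a / |φ (P k 0)| = x (P k' 0) a / |φ (P k' 0)| := congrFun he a
      rw [div_eq_div_iff ha.ne' ha'.ne'] at h1
      field_simp
      linarith
    · rcases lt_or_gt_of_ne h with hn | hpos
      · have hn' : φ (P k' 0) < 0 := by
          rcases lt_or_gt_of_ne h' with h1 | h1
          · exact h1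
          · exact absurd (hsame.2 h1) (not_lt.2 hn.le)
        rw [abs_of_neg hn, abs_of_neg hn']
        field_simp
      · have hpos' := hsame.1 hpos
        rw [abs_of_pos hpos, abs_of_pos hpos']
        field_simp
  exact (hs.injP k 0 k' 0 hz).1

end NoSceneAux

open NoSceneAux in
/-- I5. -/
theorem stNoScene (hC : StConf) (hCo : StCopy) (hR : StRigid) (hCe : StCentre) (hO : StOn)
    (hT : StOnTwo) : StNoScene := by
  classical
  intro N H P JD JH hN hs
  obtain ⟨x, φ, hc⟩ := hC H hs.injH hs.three hs.four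
  choose C ξ hξ using hs.hub
  let g : Fin N → Bool ⊕ ((Fin 4 → Bool) × (Fin 4 → Fin 4)) := fun k =>
    if φ (P k 0) = 0 then Sum.inr (fun a => decide (0 < x (P k 18) a), ξ k)
    else Sum.inl (decide (0 < φ (P k 0)))
  have hg : Function.Injective g := by
    intro k k' hkk
    by_cases h : φ (P k 0) = 0
    · by_cases h' : φ (P k' 0) = 0
      · have h1 : g k = Sum.inr (fun a => decide (0 < x (P k 18) a), ξ k) := if_pos h
        have h2 : g k' = Sum.inr (fun a => decide (0 < x (P k' 18) a), ξ k') := if_pos h'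
        rw [h1, h2] at hkk
        have h3 := Sum.inr_injective hkk
        simp only [Prod.mk.injEq] at h3
        obtain ⟨h4, h5⟩ := h3
        by_contra hne
        obtain ⟨hk1, hk2⟩ := hO N H P JD JH hs x φ hc k h
        obtain ⟨hk1', hk2'⟩ := hO N H P JD JH hs x φ hc k' h'
        refine hT N H P JD JH hs x φ hc k k' hne hk1 hk1' (fun a => ?_) (ξ k)
          (fun a => (hξ k a).1) (fun a => ?_) (fun a => ?_)
        · have h6 := congrFun h4 a
          simp only [decide_eq_decide] at h6
          rcases lt_or_gt_of_ne (hk2 a) with hn | hp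
          · have hn' : x (P k' 18) a < 0 := by
              rcases lt_or_gt_of_ne (hk2' a) with h7 | h7
              · exact h7
              · exact absurd (h6.2 h7) (not_lt.2 hn.le)
            exact mul_pos_of_neg_of_neg hn hn'
          · exact mul_pos hp (h6.1 hp)
        · exact ⟨C k a, (hξ k a).2.1, (hξ k a).2.2.1, (hξ k a).2.2.2.1, (hξ k a).2.2.2.2⟩
        · rw [h5]
          exact ⟨C k' a, (hξ k' a).2.1, (hξ k' a).2.2.1, (hξ k' a).2.2.2.1,
            (hξ k' a).2.2.2.2⟩
      · have h1 : g k = Sum.inr _ := if_pos h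
        have h2 : g k' = Sum.inl _ := if_neg h'
        rw [h1, h2] at hkk
        exact absurd hkk (by simp)
    · by_cases h' : φ (P k' 0) = 0
      · have h1 : g k = Sum.inl _ := if_neg h
        have h2 : g k' = Sum.inr _ := if_pos h'
        rw [h1, h2] at hkk
        exact absurd hkk (by simp)
      · have h1 : g k = Sum.inl (decide (0 < φ (P k 0))) := if_neg h
        have h2 : g k' = Sum.inl (decide (0 < φ (P k' 0))) := if_neg h'
        rw [h1, h2] at hkk
        have h3 := Sum.inl_injective hkk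
        rw [decide_eq_decide] at h3
        exact off hCo hR hCe hs hc k k' h h' h3
  have hcard := Fintype.card_le_of_injective g hg
  simp only [Fintype.card_fin, Fintype.card_sum, Fintype.card_bool, Fintype.card_prod,
    Fintype.card_pi, Finset.prod_const, Finset.card_univ] at hcard
  norm_num at hcard
  omega

end Pool.Agent.Lib.MP_9f365b_co
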