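import Pool.Agent.Lib.MP_9f365b_co.Stmts

/-!
I4: two copies on the sphere of the hubs.
-/

open scoped RealInnerProductSpace

namespace Pool.Agent.Lib.MP_9f365b_co

namespace OnTwoAux

variable {G : Fin 4 → Fin 4 → ℝ}

theorem QQ_pert (hG : GOK G) (X : Fin 4 → ℝ) (a b : Fin 4) (hab : a ≠ b) (t s : ℝ) :
    QQ G (fun c => X c + (if c = a then t else 0) + (if c = b then s else 0)) =
      QQ G X + 2 * (t * LL G X a + s * (LL G X b + G a b * t)) := by
  have s10 := hG.symm 1 0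
  have s20 := hG.symm 2 0
  have s30 := hG.symm 3 0
  have s21 := hG.symm 2 1
  have s31 := hG.symm 3 1
  have s32 := hG.symm 3 2
  have d0 := hG.diag 0
  have d1 := hG.diag 1
  have d2 := hG.diag 2
  have d3 := hG.diag 3
  fin_cases a <;> fin_cases b <;> first
    | exact absurd rfl hab
    | (simp [QQ, LL, Fin.sum_univ_four, s10, s20, s30, s21, s31, s32, d0, d1, d2, d3]; ring)

theorem QQ_smul (l : ℝ) (X : Fin 4 → ℝ) : QQ G (fun c => l * X c) = l ^ 2 * QQ G X := by
  unfold QQ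
  simp only [Finset.mul_sum]
  refine Finset.sum_congr rfl fun a _ => Finset.sum_congr rfl fun b _ => ?_
  ring

theorem LL_smul (l : ℝ) (X : Fin 4 → ℝ) (b : Fin 4) : LL G (fun c => l * X c) b = l * LL G X b := by
  unfold LL
  simp only [Finset.mul_sum]
  refine Finset.sum_congr rfl fun a _ => ?_
  ring

end OnTwoAux

open OnTwoAux

theorem stOnTwo (hE : StHubEdge) (hS : StS0alg) : StOnTwo := by
  intro N H P JD JH sc x φ hx k k' hkk hφ hφ' hsg ξ hξ hc hc'
  set G : Fin 4 → Fin 4 → ℝ := fun a b => ‖H a - H b‖ ^ 2 with hGdef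
  have hG : GOK G := by
    refine ⟨fun a b => ?_, fun a => ?_, fun a b hab => ?_⟩
    · simp only [hGdef]
      rw [norm_sub_rev]
    · simp [hGdef]
    · simp only [hGdef]
      have : 0 < ‖H a - H b‖ := norm_pos_iff.2 (sub_ne_zero.2 fun h => hab (sc.injH h))
      positivity
  have hLL : ∀ z b, LL G (x z) b = ‖z - H b‖ ^ 2 := fun z b => (hx.dist_sq z b).symm
  have hQQ : ∀ z, QQ G (x z) = 2 * φ z ^ 2 := fun z => hx.quad z
  -- the points of the hub edges
  have key : ∀ q : Fin N, φ (P q 18) = 0 →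
      (∀ a, ∃ C, IsSph 3 1 C ∧ H a ∈ C ∧ H (ξ a) ∈ C ∧ JH q a ⊆ C) →
      ∀ a (t : ℝ), 0 ≤ t → ∃ z ∈ JH q a, z ≠ H a ∧ φ z = 0 ∧ ∃ l : ℝ, 0 < l ∧
        (∀ c, x z c = l * pathPt G (x (P q 18)) a (ξ a) t c) ∧
        ∀ c, 0 < LL G (pathPt G (x (P q 18)) a (ξ a) t) c := by
    intro q hq hcq a t ht
    obtain ⟨C, c1, c2, c3, c4⟩ := hcq a
    have hb : H (ξ a) ∉ JH q a := sc.hubHub q a (ξ a) (hξ a)
    obtain ⟨z, z1, z2, l, s, hl, hz, hxz⟩ := hE H x φ hx sc.injH C (JH q a) (P q 18) a (ξ a) c1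
      (sc.hubArc q a) c4 (hξ a).symm c2 c3 hb (sc.neHP (ξ a) q 18).symm t ht
    rw [hq, mul_zero] at hz
    set F := x (P q 18) with hF
    have hxz' : x z = fun c => l * (F c + (if c = a then t else 0) + (if c = ξ a then s else 0)) :=
      funext hxz
    have e1 := hQQ z
    rw [hxz', QQ_smul, QQ_pert hG F a (ξ a) (hξ a).symm, hQQ, hz, hq] at e1
    have hLb : 0 < LL G F (ξ a) := by
      rw [hF, hLL]
      have : 0 < ‖P q 18 - H (ξ a)‖ :=
        norm_pos_iff.2 (sub_ne_zero.2 (sc.neHP (ξ a) q 18).symm)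
      positivity
    have hGab : 0 < G a (ξ a) := hG.pos _ _ (hξ a).symm
    have hden : 0 < LL G F (ξ a) + G a (ξ a) * t := by positivity
    have hs : s = -(t * LL G F a / (LL G F (ξ a) + G a (ξ a) * t)) := by
      have hl2 : l ^ 2 ≠ 0 := by positivity
      have e2 : t * LL G F a + s * (LL G F (ξ a) + G a (ξ a) * t) = 0 := by
        have e3 : l ^ 2 * (t * LL G F a + s * (LL G F (ξ a) + G a (ξ a) * t)) = 0 := by
          nlinarith
        exact (mul_eq_zero.1 e3).resolve_left hl2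
      field_simp
      linarith
    have hpath : ∀ c, x z c = l * pathPt G F a (ξ a) t c := by
      intro c
      rw [hxz c, hs]
      rfl
    refine ⟨z, z1, z2, hz, l, hl, hpath, fun c => ?_⟩
    have e4 : 0 < LL G (x z) c := by
      rw [hLL]
      have hne : z ≠ H c := by
        by_cases hca : c = a
        · rw [hca]; exact z2
        · rintro rfl
          exact sc.hubHub q a c hca z1
      have : 0 < ‖z - H c‖ := norm_pos_iff.2 (sub_ne_zero.2 hne)
      positivity
    have e5 : x z = fun c => l * pathPt G F a (ξ a) t c := funext hpath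
    rw [e5, LL_smul] at e4
    exact (mul_pos_iff_of_pos_left hl).1 e4
  have Q1 : QQ G (x (P k 18)) = 0 := by rw [hQQ, hφ]; ring
  have Q2 : QQ G (x (P k' 18)) = 0 := by rw [hQQ, hφ']; ring
  obtain ⟨a, b, t, t', l, ht, ht', hl, heq⟩ := hS G (x (P k 18)) (x (P k' 18)) ξ hG hξ Q1 Q2 hsg
    (fun a t ht c => by
      obtain ⟨_, _, _, _, _, _, _, h⟩ := key k hφ hc a t ht
      exact h c)
    (fun a t ht c => by
      obtain ⟨_, _, _, _, _, _, _, h⟩ := key k' hφ' hc' a t ht
      exact h c)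
  obtain ⟨z, z1, z2, z3, m, hm, z4, _⟩ := key k hφ hc a t ht
  obtain ⟨z', z1', _, z3', m', hm', z4', _⟩ := key k' hφ' hc' b t' ht'
  have hcomb := hx.comb' z z' (H 0) (H 1) (m * l / m') 0 0 (fun c => by
    rw [z4, heq, z4']
    field_simp
    ring) (by rw [z3, z3']; ring)
  obtain ⟨g1, g2, _⟩ := hcomb
  have g3 : m * l / m' = 1 := by linarith
  have g4 : z = z' := by
    rw [g2, g3]
    simp
  rw [← g4] at z1'
  exact z2 (sc.hubCross k k' a b hkk z z1 z1').2

end Pool.Agent.Lib.MP_9f365b_co
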