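import Pool.Agent.Lib.MP_9f365b_co.Stmts

/-!
L3: the drawing of one copy of the piece in a page.
-/

open scoped RealInnerProductSpace

namespace Pool.Agent.Lib.MP_9f365b_co

namespace PageDAux

theorem hub_two (a : Fin 4) : hubPt a 2 = 0 := by
  unfold hubPt
  split_ifs <;> simp

theorem hub_inj : Function.Injective hubPt := by
  have h3 : (0 : ℝ) < √3 := Real.sqrt_pos.2 (by norm_num)
  have e0 : ∀ a, hubPt a 0 = if a = 0 then 0 else if a = 1 then 1 else -1 / 2 := by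
    intro a
    unfold hubPt
    split_ifs <;> simp
  have e1 : ∀ a, hubPt a 1 = if a = 0 then 0 else if a = 1 then 0 else if a = 2 then √3 / 2
      else -√3 / 2 := by
    intro a
    unfold hubPt
    split_ifs <;> simp
  intro a b hab
  have h0 : hubPt a 0 = hubPt b 0 := by rw [hab]
  have h1 : hubPt a 1 = hubPt b 1 := by rw [hab]
  rw [e0, e0] at h0
  rw [e1, e1] at h1
  fin_cases a <;> fin_cases b <;> simp at h0 h1 ⊢ <;> linarith

theorem padj_symm {u u' : Fin 19} (h : PAdj u u') : PAdj u' u := Or.symm h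

theorem xi_ne (a : Fin 4) : a ≠ xi a := by
  revert a; decide

end PageDAux

open PageDAux

theorem stPageD (hP : StCoPt) (hC : StUpCirc) (hA : StUpArc) (hH : StUpHub) (hV : StVert)
    (hB : StBox) (hS : StSymm) : StPageD := by
  classical
  have hx6 : ∀ w, e2 (XV w) = 6 := fun w => (hV.1 w).1
  have hsm : ∀ w, 0 < sm (XV w) := fun w => (hV.1 w).2
  obtain ⟨P, hPdef⟩ : ∃ P : Fin 19 → E 3, ∀ w, P w = pt (XV w) := ⟨fun w => pt (XV w), fun _ => rfl⟩
  have hPup : ∀ w, 0 < P w 2 := fun w => by rw [hPdef]; exact (hP.2 _ (hx6 w) (hsm w)).1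
  have hPco : ∀ w, co (P w) = XV w := fun w => by rw [hPdef]; exact (hP.2 _ (hx6 w) (hsm w)).2
  -- circles
  have hcc : ∀ (w : Fin 19) (a b : Fin 4), ∃ C : Set (E 3), a ≠ b → IsSph 3 1 C ∧ P w ∈ C ∧
      hubPt a ∈ C ∧ hubPt b ∈ C ∧ (∀ z ∈ C, z 2 = 0 → z = hubPt a ∨ z = hubPt b) := by
    intro w a b
    by_cases h : a = b
    · exact ⟨∅, fun h' => absurd h h'⟩
    · obtain ⟨C, h1, h2, h3, h4, h5⟩ := hC (XV w) (hx6 w) (hsm w) a b h
      exact ⟨C, fun _ => ⟨h1, by rw [hPdef]; exact h2, h3, h4, h5⟩⟩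
  choose cc hcc using hcc
  set CF : Finset (Set (E 3)) := ((Finset.univ : Finset (Fin 19 × Fin 4 × Fin 4)).filter
    (fun p => p.2.1 ≠ p.2.2)).image (fun p => cc p.1 p.2.1 p.2.2) with hCF
  have memCF : ∀ w a b, a ≠ b → cc w a b ∈ CF := by
    intro w a b h
    rw [hCF, Finset.mem_image]
    exact ⟨(w, a, b), by simpa using h, rfl⟩
  -- direct arcs
  have h1 : ∀ u u', PAdj u u' → ∃ J : Set (E 3), (∃ S ∈ CF, J ⊆ S) ∧ IsArc J (P u) (P u') ∧
      ∀ z ∈ J, 0 < z 2 ∧ InBox u u' (co z) := by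
    intro u u' h
    obtain ⟨a, b, hab, hne, heq⟩ := hV.2.2 u u' h
    obtain ⟨c1, c2, c3, c4, _⟩ := hcc u a b hab
    obtain ⟨J, j1, j2, j3⟩ := hA (XV u) (XV u') (hx6 u) (hsm u) (hx6 u') (hsm u') a b hab hne heq
      (cc u a b) c1 (by rw [← hPdef]; exact c2) c3 c4
    refine ⟨J, ⟨cc u a b, memCF u a b hab, j1⟩, by rw [hPdef, hPdef]; exact j2, ?_⟩
    intro z hz
    obtain ⟨z1, z2, z3, z4⟩ := j3 z hz
    refine ⟨z1, fun c => ?_⟩
    by_cases ha : c = a
    · rw [ha]; exact z3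
    by_cases hb : c = b
    · rw [hb]; exact z4
    · rw [z2 c ha hb]
      exact Set.left_mem_uIcc
  have h2 : ∀ e : Sym2 (Fin 19), ∃ J : Set (E 3), ∀ u u', e = s(u, u') → PAdj u u' →
      (∃ S ∈ CF, J ⊆ S) ∧ IsArc J (P u) (P u') ∧ ∀ z ∈ J, 0 < z 2 ∧ InBox u u' (co z) := by
    intro e
    induction e using Sym2.ind with
    | _ a b =>
      by_cases h : PAdj a b
      · obtain ⟨J, j1, j2, j3⟩ := h1 a b h
        refine ⟨J, fun u u' he _ => ?_⟩
        rcases Sym2.eq_iff.1 he with ⟨rfl, rfl⟩ | ⟨rfl, rfl⟩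
        · exact ⟨j1, j2, j3⟩
        · refine ⟨j1, hS _ _ _ _ j2, fun z hz => ⟨(j3 z hz).1, fun c => ?_⟩⟩
          rw [Set.uIcc_comm]
          exact (j3 z hz).2 c
      · refine ⟨∅, fun u u' he hu => ?_⟩
        rcases Sym2.eq_iff.1 he with ⟨rfl, rfl⟩ | ⟨rfl, rfl⟩
        · exact absurd hu h
        · exact absurd (padj_symm hu) h
  choose JD hJD using h2
  have hJD' : ∀ u u', PAdj u u' → (∃ S ∈ CF, JD s(u, u') ⊆ S) ∧ IsArc (JD s(u, u')) (P u) (P u') ∧
      ∀ z ∈ JD s(u, u'), 0 < z 2 ∧ InBox u u' (co z) := fun u u' h => hJD _ u u' rfl h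
  -- hub arcs
  have h3 : ∀ a : Fin 4, ∃ J : Set (E 3), (∃ S ∈ CF, J ⊆ S) ∧ IsArc J (P 18) (hubPt a) ∧
      ∀ z ∈ J, z = hubPt a ∨ (0 < z 2 ∧ InHubBox a (co z)) := by
    intro a
    obtain ⟨c1, c2, c3, c4, _⟩ := hcc 18 a (xi a) (xi_ne a)
    obtain ⟨J, j1, j2, j3⟩ := hH (XV 18) (hx6 18) (hsm 18) a (xi a) (xi_ne a)
      (cc 18 a (xi a)) c1 (by rw [← hPdef]; exact c2) c3 c4
    refine ⟨J, ⟨cc 18 a (xi a), memCF 18 a (xi a) (xi_ne a), j1⟩, by rw [hPdef]; exact j2, ?_⟩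
    intro z hz
    rcases j3 z hz with h | ⟨z1, z2, z3, z4⟩
    · exact Or.inl h
    · exact Or.inr ⟨z1, z3, z4, z2⟩
  choose JH hJH using h3
  have hz6 : ∀ z : E 3, 0 < z 2 → e2 (co z) = 6 := fun z hz => (hP.1 z hz).1
  have hzk : ∀ (z : E 3) (k : Fin 19), 0 < z 2 → co z = XV k → z = P k := by
    intro z k hz h
    rw [hPdef, ← h, (hP.1 z hz).2.2]
  have hhub : ∀ (z : E 3) (a : Fin 4), 0 < z 2 → z ≠ hubPt a := by
    rintro z a hz rfl
    rw [hub_two] at hz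
    exact lt_irrefl _ hz
  obtain ⟨B1, B2, B3, B4, B5⟩ := hB
  refine ⟨P, JD, JH, CF, ?_⟩
  constructor
  · intro w w' h
    apply hV.2.1
    rw [← hPco, ← hPco, h]
  · exact hPup
  · exact fun u u' h => (hJD' u u' h).2.1
  · exact fun u u' h z hz => ((hJD' u u' h).2.2 z hz).1
  · exact fun a => (hJH a).2.1
  · intro a z hz
    rcases (hJH a).2.2 z hz with h | h
    · exact Or.inl h
    · exact Or.inr h.1
  · intro u u' w w' hu hw hne z hz hz'
    obtain ⟨z1, z2⟩ := (hJD' u u' hu).2.2 z hz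
    obtain ⟨z3, z4⟩ := (hJD' w w' hw).2.2 z hz'
    obtain ⟨k, k1, k2, k3⟩ := B1 u u' w w' hu hw hne (co z) (hz6 z z1) z2 z4
    exact ⟨k, k1, k2, hzk z k z1 k3⟩
  · intro u u' a hu z hz hz'
    obtain ⟨z1, z2⟩ := (hJD' u u' hu).2.2 z hz
    rcases (hJH a).2.2 z hz' with h | ⟨_, h⟩
    · exact absurd h (hhub z a z1)
    · obtain ⟨k1, k2⟩ := B2 u u' a hu (co z) (hz6 z z1) z2 h
      exact ⟨k1, hzk z 18 z1 k2⟩
  · intro a b hab z hz hz'
    rcases (hJH a).2.2 z hz with h | ⟨z1, h⟩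
    · rcases (hJH b).2.2 z hz' with h' | ⟨z1, _⟩
      · exact absurd (hub_inj (h.symm.trans h')) hab
      · exact absurd h (hhub z a z1)
    · rcases (hJH b).2.2 z hz' with h' | ⟨_, h'⟩
      · exact absurd h' (hhub z b z1)
      · exact hzk z 18 z1 (B3 a b hab (co z) (hz6 z z1) h h')
  · intro u u' k hu hz
    obtain ⟨_, z2⟩ := (hJD' u u' hu).2.2 _ hz
    rw [hPco] at z2
    exact B4 u u' k hu z2
  · intro a k hz
    rcases (hJH a).2.2 _ hz with h | ⟨_, h⟩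
    · exact absurd h (hhub _ a (hPup k))
    · rw [hPco] at h
      exact B5 a k h
  · intro S hS'
    rw [hCF, Finset.mem_image] at hS'
    obtain ⟨⟨w, a, b⟩, h, rfl⟩ := hS'
    have hab : a ≠ b := by simpa using h
    obtain ⟨c1, _, c3, c4, _⟩ := hcc w a b hab
    exact ⟨c1, a, b, hab, c3, c4⟩
  · exact fun u u' h => (hJD' u u' h).1
  · exact fun a => (hJH a).1
  · intro w
    unfold nthru
    set pr : Finset (Fin 4 × Fin 4) := Finset.univ.filter (fun p => p.1 < p.2) with hpr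
    have hcard : pr.card = 6 := by rw [hpr]; decide
    have hinj : Set.InjOn (fun p : Fin 4 × Fin 4 => cc w p.1 p.2) pr := by
      rintro ⟨a, b⟩ hab ⟨a', b'⟩ hab' h
      have hab : a < b := by simpa [hpr] using hab
      have hab' : a' < b' := by simpa [hpr] using hab'
      have h : cc w a b = cc w a' b' := h
      obtain ⟨_, _, c3, c4, c5⟩ := hcc w a b hab.ne
      obtain ⟨_, _, d3, d4, d5⟩ := hcc w a' b' hab'.ne
      rw [← h] at d3 d4
      have f1 := c5 _ d3 (hub_two _)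
      have f2 := c5 _ d4 (hub_two _)
      rw [hub_inj.eq_iff, hub_inj.eq_iff] at f1 f2
      rcases f1 with rfl | rfl <;> rcases f2 with rfl | rfl
      · exact absurd hab' (lt_irrefl _)
      · rfl
      · exact absurd (hab.trans hab') (lt_irrefl _)
      · exact absurd hab' (lt_irrefl _)
    have hfin : {S | S ∈ CF ∧ P w ∈ S}.Finite := CF.finite_toSet.subset fun S h => h.1
    have hsub : ((pr.image fun p : Fin 4 × Fin 4 => cc w p.1 p.2 : Finset (Set (E 3))) :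
        Set (Set (E 3))) ⊆ {S | S ∈ CF ∧ P w ∈ S} := by
      intro S hS'
      rw [Finset.mem_coe, Finset.mem_image] at hS'
      obtain ⟨⟨a, b⟩, hab, rfl⟩ := hS'
      have hab : a < b := by simpa [hpr] using hab
      exact ⟨memCF w a b hab.ne, (hcc w a b hab.ne).2.1⟩
    have h4 := Set.ncard_le_ncard hsub hfin
    rw [Set.ncard_coe_finset, Finset.card_image_of_injOn hinj, hcard] at h4
    exact h4

end Pool.Agent.Lib.MP_9f365b_co
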