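import Mathlib
import Pool.Agent.Lib.MP_9f365b_co.Stmts

/-!
The pages of `ℝ^4` (L1) and monotonicity in the dimension (M1) for the problem MP_9f365b_co.
-/

open scoped RealInnerProductSpace

namespace Pool.Agent.Lib.MP_9f365b_co

/-- the page map as a linear map -/
noncomputable def pageLin (θ : ℝ) : E 3 →ₗ[ℝ] E 4 where
  toFun := pageMap θ
  map_add' x y := by
    ext i
    fin_cases i <;> simp [pageMap] <;> ring
  map_smul' c x := by
    ext i
    fin_cases i <;> simp [pageMap] <;> ring

theorem pageMap_norm (θ : ℝ) (p : E 3) : ‖pageMap θ p‖ = ‖p‖ := by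
  rw [EuclideanSpace.norm_eq, EuclideanSpace.norm_eq]
  congr 1
  simp only [Fin.sum_univ_four, Fin.sum_univ_three, Real.norm_eq_abs, sq_abs]
  simp only [pageMap, PiLp.toLp_apply]
  simp
  linear_combination (p 2) ^ 2 * Real.cos_sq_add_sin_sq θ

/-- L1. The pages are isometric copies of `ℝ^3`, and the open half pages are disjoint. -/
theorem stPage : StPage := by
  refine ⟨fun θ => ⟨⟨pageLin θ, fun x => pageMap_norm θ x⟩, fun p => rfl⟩, ?_, ?_⟩
  · intro θ θ' p hp
    simp [pageMap, hp]
  · intro θ θ' p p' h0 h1 h0' h1' hp hp' h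
    have e0 : p 0 = p' 0 := by
      have := congrArg (fun q : E 4 => q 0) h
      simpa [pageMap] using this
    have e1 : p 1 = p' 1 := by
      have := congrArg (fun q : E 4 => q 1) h
      simpa [pageMap] using this
    have e2 : p 2 * Real.cos θ = p' 2 * Real.cos θ' := by
      have := congrArg (fun q : E 4 => q 2) h
      simpa [pageMap] using this
    have e3 : p 2 * Real.sin θ = p' 2 * Real.sin θ' := by
      have := congrArg (fun q : E 4 => q 3) h
      simpa [pageMap] using this
    have e4 : p 2 ^ 2 = p' 2 ^ 2 := by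
      have a1 := Real.cos_sq_add_sin_sq θ
      have a2 := Real.cos_sq_add_sin_sq θ'
      calc p 2 ^ 2 = (p 2 * Real.cos θ) ^ 2 + (p 2 * Real.sin θ) ^ 2 := by
            linear_combination - (p 2) ^ 2 * a1
        _ = (p' 2 * Real.cos θ') ^ 2 + (p' 2 * Real.sin θ') ^ 2 := by rw [e2, e3]
        _ = p' 2 ^ 2 := by linear_combination (p' 2) ^ 2 * a2
    have e5 : p 2 = p' 2 := by
      rwa [sq_eq_sq₀ hp hp'] at e4
    refine ⟨?_, ?_⟩
    · ext i
      fin_cases i
      · exact e0
      · exact e1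
      · exact e5
    · intro hpos
      rw [← e5] at e2
      have e6 : Real.cos θ = Real.cos θ' := mul_left_cancel₀ hpos.ne' e2
      exact Real.injOn_cos ⟨h0, h1.le⟩ ⟨h0', h1'.le⟩ e6

/-- `ℝ^d` embeds isometrically in `ℝ^d'` for `d ≤ d'`. -/
theorem exists_isometry {d d' : ℕ} (h : d ≤ d') : ∃ _ : E d →ₗᵢ[ℝ] E d', True := by
  classical
  let v := (EuclideanSpace.basisFun (Fin d) ℝ).toBasis
  have hv : Orthonormal ℝ v := by
    simp [v]
  let w : Fin d → E d' := fun i => EuclideanSpace.basisFun (Fin d') ℝ (Fin.castLE h i)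
  have hw : Orthonormal ℝ w :=
    (EuclideanSpace.basisFun (Fin d') ℝ).orthonormal.comp _ (Fin.castLE_injective h)
  let f : E d →ₗ[ℝ] E d' := v.constr ℝ w
  have hf : Orthonormal ℝ (f ∘ v) := by
    have : (f ∘ v) = w := by
      funext i
      simp [f]
    rw [this]
    exact hw
  exact ⟨f.isometryOfOrthonormal hv hf, trivial⟩

/-- The image of a drawing under a linear isometry. -/
noncomputable def Drawing.mapIso {V : Type} {G : SimpleGraph V} {d d' : ℕ} (hM : StMap) (D : Drawing G d)
    (f : E d →ₗᵢ[ℝ] E d') : Drawing G d' where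
  pos x := f (D.pos x)
  arc e := f '' D.arc e
  inj := f.injective.comp D.inj
  isArc x y h := (hM d d' f).1 _ _ _ (D.isArc x y h)
  cross := by
    rintro e he e' he' hne z ⟨a, ha, rfl⟩ ⟨b, hb, hab⟩
    have hba : b = a := f.injective hab
    subst hba
    obtain ⟨w, h1, h2, h3⟩ := D.cross e he e' he' hne b ha hb
    exact ⟨w, h1, h2, by rw [h3]⟩
  thru := by
    rintro e he w ⟨a, ha, hab⟩
    have hba : a = D.pos w := f.injective hab
    subst hba
    exact D.thru e he w ha

/-- M1. Drawings in `ℝ^d` embed in `ℝ^d'` for `d ≤ d'`. -/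
theorem stMono (hM : StMap) : StMono := by
  classical
  intro V G d d' hd
  obtain ⟨f, -⟩ := exists_isometry hd
  apply sInf_le_sInf
  rintro n ⟨D, F, ⟨h1, h2, h3⟩, hn⟩
  refine ⟨D.mapIso hM f, F.image (fun S => f '' S), ⟨?_, ?_, ?_⟩, ?_⟩
  · intro S hS
    rw [Finset.mem_image] at hS
    obtain ⟨T, hT, rfl⟩ := hS
    exact (hM d d' f).2 T (h1 T hT)
  · intro w
    obtain ⟨S, hS, hw⟩ := h2 w
    exact ⟨f '' S, Finset.mem_image_of_mem _ hS, Set.mem_image_of_mem _ hw⟩
  · rintro e he z ⟨a, ha, rfl⟩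
    obtain ⟨S, hS, haS⟩ := h3 e he a ha
    exact ⟨f '' S, Finset.mem_image_of_mem _ hS, Set.mem_image_of_mem _ haS⟩
  · rw [Finset.card_image_of_injective _ f.injective.image_injective]
    exact hn

end Pool.Agent.Lib.MP_9f365b_co
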