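import Pool.Agent.Lib.MP_9f365b_co.Stmts

/-!
# MP_9f365b_co: A5, the angle parametrisation of a circle without a point
-/

open scoped RealInnerProductSpace
open Real Set

namespace Pool.Agent.Lib.MP_9f365b_co

namespace ParAux

variable {d : ℕ} {c u v : E d} {r : ℝ}

theorem inner_u (h : Frame u v) (θ : ℝ) : ⟪cpt c u v r θ - c, u⟫ = r * cos θ := by
  obtain ⟨hu, hv, huv⟩ := h
  have e : cpt c u v r θ - c = (r * cos θ) • u + (r * sin θ) • v := by
    simp only [cpt]; abel
  rw [e, inner_add_left, real_inner_smul_left, real_inner_smul_left, real_inner_self_eq_norm_sq, hu,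
    real_inner_comm, huv]
  ring

theorem inner_v (h : Frame u v) (θ : ℝ) : ⟪cpt c u v r θ - c, v⟫ = r * sin θ := by
  obtain ⟨hu, hv, huv⟩ := h
  have e : cpt c u v r θ - c = (r * cos θ) • u + (r * sin θ) • v := by
    simp only [cpt]; abel
  rw [e, inner_add_left, real_inner_smul_left, real_inner_smul_left, real_inner_self_eq_norm_sq, hv,
    huv]
  ring

theorem norm_cpt (h : Frame u v) (hr : 0 < r) (θ : ℝ) : ‖cpt c u v r θ - c‖ = r := by
  have h0 := h
  obtain ⟨hu, hv, huv⟩ := h
  have e : cpt c u v r θ - c = (r * cos θ) • u + (r * sin θ) • v := by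
    simp only [cpt]; abel
  have h1 : ‖cpt c u v r θ - c‖ ^ 2 = r ^ 2 := by
    rw [← real_inner_self_eq_norm_sq]
    conv_lhs => rw [e]
    rw [inner_add_left, real_inner_smul_left, real_inner_smul_left, inner_add_right, inner_add_right,
      real_inner_smul_right, real_inner_smul_right, real_inner_smul_right, real_inner_smul_right,
      real_inner_self_eq_norm_sq, real_inner_self_eq_norm_sq, hu, hv, real_inner_comm u v, huv]
    have := cos_sq_add_sin_sq θ
    nlinarith
  exact (pow_left_inj₀ (norm_nonneg _) hr.le two_ne_zero).mp h1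

theorem cpt_eq (h : Frame u v) (hr : 0 < r) {θ θ' : ℝ} (he : cpt c u v r θ = cpt c u v r θ') :
    ∃ n : ℤ, (n : ℝ) * (2 * π) = θ - θ' := by
  have h1 := inner_u (c := c) (r := r) h θ
  rw [he, inner_u h] at h1
  have h2 := inner_v (c := c) (r := r) h θ
  rw [he, inner_v h] at h2
  have hc : cos θ' = cos θ := mul_left_cancel₀ hr.ne' h1
  have hs : sin θ' = sin θ := mul_left_cancel₀ hr.ne' h2
  have h3 : cos (θ - θ') = 1 := by
    rw [cos_sub, hc, hs]
    have := cos_sq_add_sin_sq θ
    nlinarith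
  exact (cos_eq_one_iff _).mp h3

theorem cpt_add (θ : ℝ) (n : ℤ) : cpt c u v r (θ + n * (2 * π)) = cpt c u v r θ := by
  simp only [cpt]
  rw [cos_add_int_mul_two_pi, sin_add_int_mul_two_pi]

/-- integers between -1 and 1 -/
theorem cpt_inj (h : Frame u v) (hr : 0 < r) {θ θ' : ℝ} (h0 : |θ - θ'| < 2 * π)
    (he : cpt c u v r θ = cpt c u v r θ') : θ = θ' := by
  obtain ⟨n, hn⟩ := cpt_eq h hr he
  have hp : 0 < 2 * π := by positivity
  rw [← hn, abs_mul, abs_of_pos hp] at h0
  have h1 : |(n : ℝ)| < 1 := by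
    by_contra hc
    push Not at hc
    nlinarith
  have h2 : |n| < 1 := by exact_mod_cast h1
  have h3 : n = 0 := Int.abs_lt_one_iff.mp h2
  rw [h3] at hn
  simp at hn
  linarith

/-- the angle -/
noncomputable def th (s : ℝ) : ℝ := 2 * arctan s + π

theorem th_mono : StrictMono th := by
  intro a b hab
  have := arctan_strictMono hab
  unfold th; linarith

theorem th_pos (s : ℝ) : 0 < th s := by
  have := neg_pi_div_two_lt_arctan s
  unfold th; linarith

theorem th_lt (s : ℝ) : th s < 2 * π := by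
  have := arctan_lt_pi_div_two s
  unfold th; linarith

theorem th_surj {t : ℝ} (h0 : 0 < t) (h1 : t < 2 * π) : ∃ s, th s = t := by
  refine ⟨tan ((t - π) / 2), ?_⟩
  unfold th
  rw [arctan_tan (by linarith) (by linarith)]
  ring

theorem image_Icc (s t : ℝ) : cpt c u v r '' Icc (th s) (th t) =
    (fun s => cpt c u v r (th s)) '' Icc s t := by
  ext z
  constructor
  · rintro ⟨x, hx, rfl⟩
    obtain ⟨y, rfl⟩ := th_surj (lt_of_lt_of_le (th_pos s) hx.1) (lt_of_le_of_lt hx.2 (th_lt t))
    exact ⟨y, ⟨th_mono.le_iff_le.mp hx.1, th_mono.le_iff_le.mp hx.2⟩, rfl⟩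
  · rintro ⟨x, hx, rfl⟩
    exact ⟨th x, ⟨th_mono.le_iff_le.mpr hx.1, th_mono.le_iff_le.mpr hx.2⟩, rfl⟩

theorem cpt_two_pi : cpt c u v r (2 * π) = cpt c u v r 0 := by
  have := cpt_add (c := c) (u := u) (v := v) (r := r) 0 1
  simpa using this

theorem image_up (s : ℝ) : cpt c u v r '' Icc (th s) (2 * π) =
    insert (cpt c u v r 0) ((fun s => cpt c u v r (th s)) '' Ici s) := by
  ext z
  constructor
  · rintro ⟨x, hx, rfl⟩
    rcases hx.2.eq_or_lt with h | h
    · rw [h, cpt_two_pi]; exact mem_insert _ _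
    · obtain ⟨y, rfl⟩ := th_surj (lt_of_lt_of_le (th_pos s) hx.1) h
      exact mem_insert_of_mem _ ⟨y, th_mono.le_iff_le.mp hx.1, rfl⟩
  · rintro (rfl | ⟨x, hx, rfl⟩)
    · exact ⟨2 * π, ⟨(th_lt s).le, le_rfl⟩, cpt_two_pi⟩
    · exact ⟨th x, ⟨th_mono.le_iff_le.mpr hx, (th_lt x).le⟩, rfl⟩

theorem image_down (s : ℝ) : cpt c u v r '' Icc 0 (th s) =
    insert (cpt c u v r 0) ((fun s => cpt c u v r (th s)) '' Iic s) := by
  ext z
  constructor
  · rintro ⟨x, hx, rfl⟩
    rcases hx.1.eq_or_lt with h | h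
    · rw [← h]; exact mem_insert _ _
    · obtain ⟨y, rfl⟩ := th_surj h (lt_of_le_of_lt hx.2 (th_lt s))
      exact mem_insert_of_mem _ ⟨y, th_mono.le_iff_le.mp hx.2, rfl⟩
  · rintro (rfl | ⟨x, hx, rfl⟩)
    · exact ⟨0, ⟨le_rfl, (th_pos s).le⟩, rfl⟩
    · exact ⟨th x, ⟨(th_pos x).le, th_mono.le_iff_le.mpr hx⟩, rfl⟩

/-- two frames of the same circle -/
theorem reframe {c' u' v' : E d} {r' : ℝ} (h : Frame u v) (hr : 0 < r) (h' : Frame u' v')
    (hr' : 0 < r') (hC : range (cpt c' u' v' r') = range (cpt c u v r)) :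
    ∃ (k ε : ℝ), (ε = 1 ∨ ε = -1) ∧ ∀ θ, cpt c' u' v' r' θ = cpt c u v r (k + ε * θ) := by
  -- distances
  have key : ∀ {c c' u v u' v' : E d} {r r' : ℝ}, Frame u v → 0 < r → Frame u' v' → 0 < r' →
      range (cpt c' u' v' r') = range (cpt c u v r) →
      ⟪c' - c, u'⟫ = 0 ∧ ⟪c' - c, v'⟫ = 0 ∧ ‖c' - c‖ ^ 2 + r' ^ 2 = r ^ 2 := by
    intro c c' u v u' v' r r' h hr h' hr' hC
    have hd : ∀ θ, ‖cpt c' u' v' r' θ - c‖ ^ 2 = r ^ 2 := by
      intro θ
      have : cpt c' u' v' r' θ ∈ range (cpt c u v r) := by rw [← hC]; exact ⟨θ, rfl⟩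
      obtain ⟨k, hk⟩ := this
      rw [← hk, norm_cpt h hr]
    obtain ⟨hu, hv, huv⟩ := h'
    have hexp : ∀ θ, ‖cpt c' u' v' r' θ - c‖ ^ 2 = ‖c' - c‖ ^ 2 + r' ^ 2 +
        2 * (r' * cos θ * ⟪c' - c, u'⟫ + r' * sin θ * ⟪c' - c, v'⟫) := by
      intro θ
      have e : cpt c' u' v' r' θ - c = (c' - c) + (cpt c' u' v' r' θ - c') := by abel
      rw [e, norm_add_sq_real, norm_cpt ⟨hu, hv, huv⟩ hr']
      have e2 : cpt c' u' v' r' θ - c' = (r' * cos θ) • u' + (r' * sin θ) • v' := by
        simp only [cpt]; abel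
      rw [e2, inner_add_right, real_inner_smul_right, real_inner_smul_right]
      ring
    have h1 := hexp 0
    have h2 := hexp π
    have h3 := hexp (π / 2)
    have h4 := hexp (-(π / 2))
    rw [hd] at h1 h2 h3 h4
    simp only [cos_zero, sin_zero, cos_pi, sin_pi, cos_pi_div_two, sin_pi_div_two, cos_neg, sin_neg]
      at h1 h2 h3 h4
    have h5 : r' * ⟪c' - c, u'⟫ = 0 := by linarith
    have h6 : r' * ⟪c' - c, v'⟫ = 0 := by linarith
    refine ⟨?_, ?_, ?_⟩
    · exact (mul_eq_zero.mp h5).resolve_left hr'.ne'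
    · exact (mul_eq_zero.mp h6).resolve_left hr'.ne'
    · nlinarith
  obtain ⟨-, -, e1⟩ := key h hr h' hr' hC
  obtain ⟨-, -, e2⟩ := key h' hr' h hr hC.symm
  have e3 : ‖c' - c‖ ^ 2 = 0 := by
    rw [norm_sub_rev] at e2
    nlinarith [sq_nonneg ‖c' - c‖]
  have hcc : c' = c := by
    have : ‖c' - c‖ = 0 := by nlinarith [norm_nonneg (c' - c)]
    exact sub_eq_zero.mp (norm_eq_zero.mp this)
  have hrr : r' = r := by
    rw [e3, zero_add] at e1
    exact (pow_left_inj₀ hr'.le hr.le two_ne_zero).mp e1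
  subst hcc hrr
  obtain ⟨k, hk⟩ : cpt c' u' v' r' 0 ∈ range (cpt c' u v r') := by rw [← hC]; exact ⟨0, rfl⟩
  obtain ⟨m, hm⟩ : cpt c' u' v' r' (π / 2) ∈ range (cpt c' u v r') := by rw [← hC]; exact ⟨_, rfl⟩
  have hu' : u' = cos k • u + sin k • v := by
    have e : r' • u' = r' • (cos k • u + sin k • v) := by
      simp only [cpt, cos_zero, sin_zero, mul_one, mul_zero, zero_smul, add_zero] at hk
      rw [smul_add, smul_smul, smul_smul]
      rw [add_assoc] at hk
      exact (add_left_cancel hk).symm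
    exact smul_right_injective _ hr'.ne' e
  have hv' : v' = cos m • u + sin m • v := by
    have e : r' • v' = r' • (cos m • u + sin m • v) := by
      simp only [cpt, cos_pi_div_two, sin_pi_div_two, mul_one, mul_zero, zero_smul, add_zero] at hm
      rw [smul_add, smul_smul, smul_smul]
      rw [add_assoc] at hm
      exact (add_left_cancel hm).symm
    exact smul_right_injective _ hr'.ne' e
  obtain ⟨hu, hv, huv⟩ := h
  have horth : cos k * cos m + sin k * sin m = 0 := by
    have := h'.2.2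
    rw [hu', hv', inner_add_left, inner_add_right, inner_add_right, real_inner_smul_left,
      real_inner_smul_left, real_inner_smul_left, real_inner_smul_left, real_inner_smul_right,
      real_inner_smul_right, real_inner_smul_right, real_inner_smul_right,
      real_inner_self_eq_norm_sq, real_inner_self_eq_norm_sq, hu, hv, real_inner_comm u v, huv] at this
    nlinarith
  have hcos : cos (m - k) = 0 := by rw [cos_sub]; linarith
  have hsin : sin (m - k) = 1 ∨ sin (m - k) = -1 := by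
    have := sin_sq_add_cos_sq (m - k)
    rw [hcos] at this
    have h1 : (sin (m - k) - 1) * (sin (m - k) + 1) = 0 := by nlinarith
    rcases mul_eq_zero.mp h1 with h | h
    · left; linarith
    · right; linarith
  refine ⟨k, sin (m - k), hsin, fun θ => ?_⟩
  have hcm : cos m = - (sin (m - k) * sin k) := by
    have : m = k + (m - k) := by ring
    conv_lhs => rw [this]
    rw [cos_add, hcos]; ring
  have hsm : sin m = sin (m - k) * cos k := by
    have : m = k + (m - k) := by ring
    conv_lhs => rw [this]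
    rw [sin_add, hcos]; ring
  have hce : cos (k + sin (m - k) * θ) = cos θ * cos k - sin (m - k) * sin θ * sin k := by
    rcases hsin with h | h
    · rw [h, cos_add, one_mul]; ring
    · rw [h, cos_add, neg_one_mul, cos_neg, sin_neg]; ring
  have hse : sin (k + sin (m - k) * θ) = cos θ * sin k + sin (m - k) * sin θ * cos k := by
    rcases hsin with h | h
    · rw [h, sin_add, one_mul]; ring
    · rw [h, sin_add, neg_one_mul, cos_neg, sin_neg]; ring
  simp only [cpt]
  rw [hce, hse, hu', hv', hcm, hsm]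
  module

/-- normal form of an arc on the circle of a frame -/
theorem norm_arc (hR : StRange) (h3 : StThree) (h : Frame u v) (hr : 0 < r) {J : Set (E d)}
    {P Q : E d} (hJ : IsArc J P Q) (hJC : J ⊆ range (cpt c u v r)) :
    ∃ a b : ℝ, 0 ≤ a ∧ a < 2 * π ∧ a < b ∧ b < a + 2 * π ∧ J = cpt c u v r '' Icc a b ∧
      ((cpt c u v r a = P ∧ cpt c u v r b = Q) ∨ (cpt c u v r a = Q ∧ cpt c u v r b = P)) := by
  obtain ⟨c', u', v', r', α, β, hF, hr', hab, hba, hP, hQ, hJe⟩ := hJ
  have hp : 0 < 2 * π := by positivity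
  have hC : range (cpt c' u' v' r') = range (cpt c u v r) := by
    have hmem : ∀ t ∈ Icc α β, cpt c' u' v' r' t ∈ range (cpt c u v r) := fun t ht =>
      hJC (by rw [hJe]; exact ⟨t, ht, rfl⟩)
    have hne : ∀ t ∈ Icc α β, ∀ t' ∈ Icc α β, t ≠ t' → cpt c' u' v' r' t ≠ cpt c' u' v' r' t' := by
      intro t ht t' ht' hne he
      refine hne (cpt_inj hF hr' ?_ he)
      rw [abs_lt]
      constructor <;> linarith [ht.1, ht.2, ht'.1, ht'.2]
    have m1 : α ∈ Icc α β := ⟨le_rfl, hab.le⟩
    have m2 : β ∈ Icc α β := ⟨hab.le, le_rfl⟩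
    have m3 : (α + β) / 2 ∈ Icc α β := ⟨by linarith, by linarith⟩
    exact h3 d _ _ _ _ _ (hR d c' u' v' r' hF hr') (hR d c u v r h hr)
      (hne α m1 β m2 hab.ne) (hne α m1 _ m3 (by intro h; linarith))
      (hne β m2 _ m3 (by intro h; linarith)) ⟨_, rfl⟩ ⟨_, rfl⟩ ⟨_, rfl⟩
      (hmem _ m1) (hmem _ m2) (hmem _ m3)
  obtain ⟨k, ε, hε, hk⟩ := reframe h hr hF hr' hC
  -- an interval
  have step : ∃ a b : ℝ, a < b ∧ b < a + 2 * π ∧ J = cpt c u v r '' Icc a b ∧
      ((cpt c u v r a = P ∧ cpt c u v r b = Q) ∨ (cpt c u v r a = Q ∧ cpt c u v r b = P)) := by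
    rcases hε with rfl | rfl
    · refine ⟨k + α, k + β, by linarith, by linarith, ?_, Or.inl ⟨?_, ?_⟩⟩
      · rw [hJe]
        ext z
        constructor
        · rintro ⟨t, ht, rfl⟩
          exact ⟨k + t, ⟨by linarith [ht.1], by linarith [ht.2]⟩, by rw [hk, one_mul]⟩
        · rintro ⟨t, ht, rfl⟩
          exact ⟨t - k, ⟨by linarith [ht.1], by linarith [ht.2]⟩, by rw [hk]; congr 1; ring⟩
      · rw [← hP, hk, one_mul]
      · rw [← hQ, hk, one_mul]
    · refine ⟨k - β, k - α, by linarith, by linarith, ?_, Or.inr ⟨?_, ?_⟩⟩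
      · rw [hJe]
        ext z
        constructor
        · rintro ⟨t, ht, rfl⟩
          exact ⟨k - t, ⟨by linarith [ht.2], by linarith [ht.1]⟩, by rw [hk]; congr 1; ring⟩
        · rintro ⟨t, ht, rfl⟩
          exact ⟨k - t, ⟨by linarith [ht.2], by linarith [ht.1]⟩, by rw [hk]; congr 1; ring⟩
      · rw [← hQ, hk]; congr 1; ring
      · rw [← hP, hk]; congr 1; ring
  obtain ⟨a, b, h1, h2, h3', h4⟩ := step
  -- shift
  set n : ℤ := ⌊a / (2 * π)⌋ with hn
  have hn1 : (n : ℝ) * (2 * π) ≤ a := by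
    have := Int.floor_le (a / (2 * π))
    rwa [le_div_iff₀ hp] at this
  have hn2 : a < (n : ℝ) * (2 * π) + 2 * π := by
    have := Int.lt_floor_add_one (a / (2 * π))
    rw [div_lt_iff₀ hp] at this
    linarith
  have hsh : ∀ t, cpt c u v r (t - n * (2 * π)) = cpt c u v r t := by
    intro t
    have := cpt_add (c := c) (u := u) (v := v) (r := r) (t - n * (2 * π)) n
    rw [← this]; congr 1; ring
  refine ⟨a - n * (2 * π), b - n * (2 * π), by linarith, by linarith, by linarith, by linarith, ?_, ?_⟩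
  · rw [h3']
    ext z
    constructor
    · rintro ⟨t, ht, rfl⟩
      exact ⟨t - n * (2 * π), ⟨by linarith [ht.1], by linarith [ht.2]⟩, hsh t⟩
    · rintro ⟨t, ht, rfl⟩
      refine ⟨t + n * (2 * π), ⟨by linarith [ht.1], by linarith [ht.2]⟩, ?_⟩
      exact cpt_add t n
  · rw [hsh, hsh]; exact h4

end ParAux

open ParAux

theorem stParFrame (hS : StSymm) (hR : StRange) (h3 : StThree) : StParFrame := by
  intro d c u v r h hr
  have hγ : (fun s => cpt c u v r (2 * Real.arctan s + Real.pi)) = fun s => cpt c u v r (th s) := rfl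
  have hp : 0 < 2 * π := by positivity
  rw [hγ]
  refine ⟨?_, ?_, ?_, ?_, ?_, ?_, ?_, ?_⟩
  · intro s t hst
    refine th_mono.injective (cpt_inj h hr ?_ hst)
    rw [abs_lt]
    have := th_pos s; have := th_pos t; have := th_lt s; have := th_lt t
    constructor <;> linarith
  · unfold cpt th
    fun_prop
  · ext z
    constructor
    · rintro ⟨s, rfl⟩
      refine ⟨⟨_, rfl⟩, ?_⟩
      intro he
      rw [mem_singleton_iff] at he
      have := cpt_inj h hr (by
        rw [abs_lt]; have := th_pos s; have := th_lt s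
        constructor <;> linarith) he
      exact absurd this (th_pos s).ne'
    · rintro ⟨⟨t, rfl⟩, hne⟩
      rw [mem_singleton_iff] at hne
      set n : ℤ := ⌊t / (2 * π)⌋ with hn
      have hn1 : (n : ℝ) * (2 * π) ≤ t := by
        have := Int.floor_le (t / (2 * π))
        rwa [le_div_iff₀ hp] at this
      have hn2 : t < (n : ℝ) * (2 * π) + 2 * π := by
        have := Int.lt_floor_add_one (t / (2 * π))
        rw [div_lt_iff₀ hp] at this
        linarith
      have hsh : cpt c u v r (t - n * (2 * π)) = cpt c u v r t := by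
        have := cpt_add (c := c) (u := u) (v := v) (r := r) (t - n * (2 * π)) n
        rw [← this]; congr 1; ring
      have hpos : 0 < t - n * (2 * π) := by
        rcases (sub_nonneg.mpr hn1).eq_or_lt with h0 | h0
        · exact absurd (by rw [← hsh, ← h0]) hne
        · exact h0
      obtain ⟨s, hs⟩ := th_surj hpos (by linarith)
      exact ⟨s, by show cpt c u v r (th s) = _; rw [hs, hsh]⟩
  · -- arcMid
    intro J P Q hJ hJC hA
    obtain ⟨a, b, ha0, ha2, hab, hb, hJe, hPQ⟩ := norm_arc hR h3 h hr hJ hJC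
    have ha : 0 < a := by
      rcases ha0.eq_or_lt with h0 | h0
      · exact absurd (by rw [hJe]; exact ⟨0, ⟨h0.symm.le, by linarith⟩, rfl⟩) hA
      · exact h0
    have hb2 : b < 2 * π := by
      by_contra hc
      push Not at hc
      exact hA (by rw [hJe]; exact ⟨2 * π, ⟨ha2.le, hc⟩, cpt_two_pi⟩)
    obtain ⟨s, rfl⟩ := th_surj ha ha2
    obtain ⟨t, rfl⟩ := th_surj (ha.trans hab) hb2
    have hst : s < t := th_mono.lt_iff_lt.mp hab
    rw [image_Icc] at hJe
    rcases hPQ with ⟨hP, hQ⟩ | ⟨hQ, hP⟩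
    · exact ⟨s, t, hst.ne, hP, hQ, by rw [uIcc_of_le hst.le]; exact hJe⟩
    · exact ⟨t, s, hst.ne', hP, hQ, by rw [uIcc_of_ge hst.le]; exact hJe⟩
  · -- arcEnd
    intro J P hJ hJC
    obtain ⟨a, b, ha0, ha2, hab, hb, hJe, hPQ⟩ := norm_arc hR h3 h hr hJ hJC
    rcases hPQ with ⟨hP, hQ⟩ | ⟨hQ, hP⟩
    · -- `b = 2π`
      obtain ⟨n, hn⟩ := cpt_eq h hr hQ
      rw [sub_zero] at hn
      have hn1 : n = 1 := by
        have h1 : 0 < (n : ℝ) := by
          by_contra hc
          push Not at hc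
          nlinarith
        have h2 : (n : ℝ) < 2 := by
          by_contra hc
          push Not at hc
          nlinarith
        have h3 : 0 < n := by exact_mod_cast h1
        have h4 : n < 2 := by exact_mod_cast h2
        omega
      have hb2 : b = 2 * π := by rw [← hn, hn1]; simp
      have ha : 0 < a := by
        rcases ha0.eq_or_lt with h0 | h0
        · rw [hb2, ← h0] at hb; linarith
        · exact h0
      obtain ⟨s, rfl⟩ := th_surj ha ha2
      rw [hb2, image_up] at hJe
      exact ⟨s, hP, Or.inl hJe⟩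
    · -- `a = 0`
      have ha : a = 0 := cpt_inj h hr (by rw [sub_zero, abs_of_nonneg ha0]; exact ha2) hQ
      subst ha
      obtain ⟨s, rfl⟩ := th_surj hab (by linarith)
      rw [image_down] at hJe
      exact ⟨s, hP, Or.inr hJe⟩
  · -- mkMid
    have hlt : ∀ s t, s < t → IsArc ((fun s => cpt c u v r (th s)) '' Icc s t)
        (cpt c u v r (th s)) (cpt c u v r (th t)) := by
      intro s t hst
      have := th_pos s; have := th_lt t
      exact ⟨c, u, v, r, th s, th t, h, hr, th_mono hst, by linarith, rfl, rfl, (image_Icc s t).symm⟩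
    intro s t hst
    rcases lt_or_gt_of_ne hst with h1 | h1
    · rw [uIcc_of_le h1.le]; exact hlt s t h1
    · rw [uIcc_of_ge h1.le]; exact hS d _ _ _ (hlt t s h1)
  · intro s
    have := th_pos s
    exact ⟨c, u, v, r, th s, 2 * π, h, hr, th_lt s, by linarith, rfl, cpt_two_pi, (image_up s).symm⟩
  · intro s
    refine hS d _ _ _ ⟨c, u, v, r, 0, th s, h, hr, th_pos s, ?_, rfl, rfl, (image_down s).symm⟩
    have := th_lt s
    linarith

end Pool.Agent.Lib.MP_9f365b_co
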