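import Pool.Agent.Lib.MP_9f365b_co.Stmts

/-!
B2. Adding a pendant edge on one of the given circles.
-/

open scoped RealInnerProductSpace

namespace Pool.Agent.Lib.MP_9f365b_co

namespace PendAux

/-- reversal of the parametrisation of a circle -/
theorem circPar_neg {d : ℕ} {C : Set (E d)} {A : E d} {γ : ℝ → E d} (h : CircPar C A γ) :
    CircPar C A (fun s => γ (-s)) := by
  have himg : ∀ R : Set ℝ, (fun s => γ (-s)) '' R = γ '' (Neg.neg '' R) := by
    intro R
    rw [Set.image_image]
  have hIci : ∀ s : ℝ, (fun s => γ (-s)) '' Set.Ici s = γ '' Set.Iic (-s) := by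
    intro s
    rw [himg, Set.image_neg_eq_neg, Set.neg_Ici]
  have hIic : ∀ s : ℝ, (fun s => γ (-s)) '' Set.Iic s = γ '' Set.Ici (-s) := by
    intro s
    rw [himg, Set.image_neg_eq_neg, Set.neg_Iic]
  have hIcc : ∀ s t : ℝ, (fun s => γ (-s)) '' Set.uIcc s t = γ '' Set.uIcc (-s) (-t) := by
    intro s t
    rw [himg]
    congr 1
    rw [Set.image_neg_eq_neg]
    ext x
    simp only [Set.mem_neg, Set.mem_uIcc]
    constructor
    · rintro (⟨h1, h2⟩ | ⟨h1, h2⟩)
      · right; constructor <;> linarith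
      · left; constructor <;> linarith
    · rintro (⟨h1, h2⟩ | ⟨h1, h2⟩)
      · right; constructor <;> linarith
      · left; constructor <;> linarith
  refine ⟨?_, ?_, ?_, ?_, ?_, ?_, ?_, ?_⟩
  · intro s t hst
    have := h.inj hst
    linarith
  · exact h.cont.comp continuous_neg
  · rw [← h.range]
    ext x
    constructor
    · rintro ⟨s, rfl⟩
      exact ⟨-s, rfl⟩
    · rintro ⟨s, rfl⟩
      exact ⟨-s, by simp⟩
  · intro J P Q hJ hJC hA
    obtain ⟨s, t, hst, h1, h2, h3⟩ := h.arcMid J P Q hJ hJC hA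
    refine ⟨-s, -t, fun h => hst (neg_injective h), by simpa using h1, by simpa using h2, ?_⟩
    rw [hIcc, neg_neg, neg_neg, h3]
  · intro J P hJ hJC
    obtain ⟨s, h1, h2⟩ := h.arcEnd J P hJ hJC
    refine ⟨-s, by simpa using h1, ?_⟩
    rw [hIci, hIic, neg_neg]
    exact h2.symm
  · intro s t hst
    rw [hIcc]
    exact h.mkMid (-s) (-t) fun h => hst (neg_injective h)
  · intro s
    rw [hIci]
    exact h.mkDown (-s)
  · intro s
    rw [hIic]
    exact h.mkUp (-s)

theorem par_ne {d : ℕ} {C : Set (E d)} {A : E d} {γ : ℝ → E d} (h : CircPar C A γ) (s : ℝ) :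
    γ s ≠ A := by
  have h1 : γ s ∈ C \ {A} := by
    rw [← h.range]
    exact ⟨s, rfl⟩
  exact h1.2

theorem par_mem {d : ℕ} {C : Set (E d)} {A : E d} {γ : ℝ → E d} (h : CircPar C A γ) (s : ℝ) :
    γ s ∈ C := by
  have h1 : γ s ∈ C \ {A} := by
    rw [← h.range]
    exact ⟨s, rfl⟩
  exact h1.1

/-- a set of parameters with at most two elements is bounded above -/
theorem bdd_of_three (R : Set ℝ) (h : ∀ a ∈ R, ∀ b ∈ R, ∀ c ∈ R, a ≠ b → a ≠ c → b ≠ c → False) :
    ∃ M, ∀ t ∈ R, t ≤ M := by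
  by_cases h1 : ∃ a, a ∈ R
  · obtain ⟨a, ha⟩ := h1
    by_cases h2 : ∃ b, b ∈ R ∧ a ≠ b
    · obtain ⟨b, hb, hab⟩ := h2
      refine ⟨max a b, fun t ht => ?_⟩
      by_cases hta : a = t
      · rw [← hta]; exact le_max_left _ _
      · by_cases htb : b = t
        · rw [← htb]; exact le_max_right _ _
        · exact (h a ha b hb t ht hab hta htb).elim
    · refine ⟨a, fun t ht => ?_⟩
      by_contra hcon
      exact h2 ⟨t, ht, fun h => hcon (by rw [h])⟩
  · exact ⟨0, fun t ht => (h1 ⟨t, ht⟩).elim⟩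

/-- far out on the unused side of the circle there is nothing -/
theorem core (hS : StSymm) (hC : StCov) (h3 : StThree) {V : Type} [Finite V]
    {G : SimpleGraph V} {d : ℕ} (D : Drawing G d) (F : Finset (Set (E d))) (hcov : Covers 1 D F)
    (w : V) (S : Set (E d)) (hSF : S ∈ F) (γ : ℝ → E d) (hγ : CircPar S (D.pos w) γ)
    (hun : ∀ x, G.Adj w x → ∀ s, D.arc s(w, x) ≠ insert (D.pos w) (γ '' Set.Ici s)) :
    ∃ s1, (∀ y t, s1 ≤ t → D.pos y ≠ γ t) ∧ ∀ e ∈ G.edgeSet, ∀ t, s1 ≤ t → γ t ∉ D.arc e := by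
  classical
  have hv : ∀ y, ∃ M, ∀ t, D.pos y = γ t → t ≤ M := by
    intro y
    by_cases hy : ∃ t, D.pos y = γ t
    · obtain ⟨t0, ht0⟩ := hy
      refine ⟨t0, fun t ht => ?_⟩
      rw [ht0] at ht
      rw [hγ.inj ht]
    · exact ⟨0, fun t ht => (hy ⟨t, ht⟩).elim⟩
  have he : ∀ e : Sym2 V, ∃ M, e ∈ G.edgeSet → ∀ t, γ t ∈ D.arc e → t ≤ M := by
    intro e
    by_cases heG : e ∈ G.edgeSet
    · have harc : ∃ P Q, IsArc (D.arc e) P Q := by
        induction e with
        | _ x y => exact ⟨_, _, D.isArc x y heG⟩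
      obtain ⟨P, Q, hPQ⟩ := harc
      obtain ⟨S', hS'F, hS'⟩ := hC d (D.arc e) P Q F hPQ hcov.1 (hcov.2.2 e heG)
      by_cases hSS : S' = S
      · rw [hSS] at hS'
        by_cases hA : D.pos w ∈ D.arc e
        · have hwe := D.thru e heG w hA
          obtain ⟨x, rfl⟩ := Sym2.mem_iff_exists.1 hwe
          have hadj : G.Adj w x := heG
          obtain ⟨s, _, h2 | h2⟩ := hγ.arcEnd _ _ (hS d _ _ _ (D.isArc w x hadj)) hS'
          · exact (hun x hadj s h2).elim
          · refine ⟨s, fun _ t ht => ?_⟩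
            rw [h2] at ht
            rcases ht with ht | ⟨t', ht', htt⟩
            · exact (par_ne hγ t ht).elim
            · rw [← hγ.inj htt]
              exact ht'
        · obtain ⟨s, t0, _, _, _, h2⟩ := hγ.arcMid _ _ _ hPQ hS' hA
          refine ⟨max s t0, fun _ t ht => ?_⟩
          rw [h2] at ht
          obtain ⟨t', ht', htt⟩ := ht
          rw [← hγ.inj htt]
          exact ht'.2
      · obtain ⟨M, hM⟩ := bdd_of_three {t | γ t ∈ D.arc e} (by
          intro a ha b hb c hc hab hac hbc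
          apply hSS
          refine h3 d S' S (γ a) (γ b) (γ c) (hcov.1 S' hS'F) (hcov.1 S hSF)
            (fun h => hab (hγ.inj h)) (fun h => hac (hγ.inj h)) (fun h => hbc (hγ.inj h))
            (hS' ha) (hS' hb) (hS' hc) (par_mem hγ a) (par_mem hγ b) (par_mem hγ c))
        exact ⟨M, fun _ t ht => hM t ht⟩
    · exact ⟨0, fun h => (heG h).elim⟩
  choose M1 hM1 using hv
  choose M2 hM2 using he
  obtain ⟨B1, hB1⟩ := (Set.finite_range M1).bddAbove
  obtain ⟨B2, hB2⟩ := (Set.finite_range M2).bddAbove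
  refine ⟨max B1 B2 + 1, ?_, ?_⟩
  · intro y t ht hyt
    have h1 := hM1 y t hyt
    have h2 : M1 y ≤ B1 := hB1 ⟨y, rfl⟩
    have h3 := le_max_left B1 B2
    linarith
  · intro e he t ht hyt
    have h1 := hM2 e he t hyt
    have h2 : M2 e ≤ B2 := hB2 ⟨e, rfl⟩
    have h3 := le_max_right B1 B2
    linarith

/-- some side of some circle through the vertex is not used -/
theorem unused (h3 : StThree) {V : Type} [Finite V]
    {G : SimpleGraph V} {d : ℕ} (D : Drawing G d) (F : Finset (Set (E d)))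
    (hF1 : ∀ S ∈ F, IsSph d 1 S) (hpar : ∀ S ∈ F, ∀ w, D.pos w ∈ S → ∃ γ, CircPar S (D.pos w) γ)
    (w : V) (hdeg : deg G w < 2 * nthru F (D.pos w)) :
    ∃ S ∈ F, ∃ γ, D.pos w ∈ S ∧ CircPar S (D.pos w) γ ∧
      ∀ x, G.Adj w x → ∀ s, D.arc s(w, x) ≠ insert (D.pos w) (γ '' Set.Ici s) := by
  classical
  let T : Set (Set (E d)) := {S | S ∈ F ∧ D.pos w ∈ S}
  have hTfin : T.Finite := F.finite_toSet.subset fun S hS => hS.1
  have hex : ∀ S : T, ∃ γ, CircPar (S : Set (E d)) (D.pos w) γ := fun S => hpar S S.2.1 w S.2.2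
  choose γ hγ using hex
  by_contra hcon
  have hall : ∀ p : T × Bool, ∃ x, G.Adj w x ∧ ∃ s, D.arc s(w, x) =
      insert (D.pos w) (γ p.1 '' (if p.2 then Set.Ici s else Set.Iic s)) := by
    rintro ⟨S, b⟩
    by_contra hn
    apply hcon
    cases b with
    | true =>
      refine ⟨S, S.2.1, γ S, S.2.2, hγ S, fun x hx s hs => hn ⟨x, hx, s, ?_⟩⟩
      simpa using hs
    | false =>
      refine ⟨S, S.2.1, fun s => γ S (-s), S.2.2, circPar_neg (hγ S), fun x hx s hs =>
        hn ⟨x, hx, -s, ?_⟩⟩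
      have e : (fun s => γ S (-s)) '' Set.Ici s = γ S '' Set.Iic (-s) := by
        have : (fun s => γ S (-s)) '' Set.Ici s = γ S '' (Neg.neg '' Set.Ici s) := by
          rw [Set.image_image]
        rw [this, Set.image_neg_eq_neg, Set.neg_Ici]
      rw [hs, e]
      simp
  choose x hx s hs using hall
  let f : T × Bool → G.neighborSet w := fun p => ⟨x p, hx p⟩
  have hfinj : Function.Injective f := by
    rintro ⟨S, b⟩ ⟨S', b'⟩ hff
    have hxx : x (S, b) = x (S', b') := congrArg Subtype.val hff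
    have h1 := hs (S, b)
    have h2 := hs (S', b')
    rw [← hxx] at h2
    simp only at h1 h2
    have hsub : ∀ (S : T) (b : Bool) (s : ℝ), insert (D.pos w)
        (γ S '' (if b then Set.Ici s else Set.Iic s)) ⊆ (S : Set (E d)) := by
      intro S b s z hz
      rcases hz with rfl | ⟨t, _, rfl⟩
      · exact S.2.2
      · exact par_mem (hγ S) t
    have hJS' : D.arc s(w, x (S, b)) ⊆ (S' : Set (E d)) := by
      rw [h2]
      exact hsub S' b' _
    have hthree : ∃ a1 a2 a3 : ℝ, a1 ≠ a2 ∧ a1 ≠ a3 ∧ a2 ≠ a3 ∧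
        ∀ a ∈ ({a1, a2, a3} : Set ℝ), a ∈ (if b then Set.Ici (s (S, b)) else Set.Iic (s (S, b))) := by
      cases b with
      | true =>
        refine ⟨s (S, true), s (S, true) + 1, s (S, true) + 2, by linarith, by linarith,
          by linarith, ?_⟩
        rintro a (rfl | rfl | rfl) <;> simp
      | false =>
        refine ⟨s (S, false), s (S, false) - 1, s (S, false) - 2, by linarith, by linarith,
          by linarith, ?_⟩
        rintro a (rfl | rfl | rfl) <;> simp
    obtain ⟨a1, a2, a3, h12, h13, h23, hmem⟩ := hthree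
    have hJ : ∀ a ∈ ({a1, a2, a3} : Set ℝ), γ S a ∈ D.arc s(w, x (S, b)) := by
      intro a ha
      rw [h1]
      exact Or.inr ⟨a, hmem a ha, rfl⟩
    have hSS : (S : Set (E d)) = S' := by
      refine h3 d S S' (γ S a1) (γ S a2) (γ S a3) (hF1 S S.2.1) (hF1 S' S'.2.1)
        (fun h => h12 ((hγ S).inj h)) (fun h => h13 ((hγ S).inj h)) (fun h => h23 ((hγ S).inj h))
        (par_mem (hγ S) _) (par_mem (hγ S) _) (par_mem (hγ S) _)
        (hJS' (hJ a1 (by simp))) (hJS' (hJ a2 (by simp))) (hJS' (hJ a3 (by simp)))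
    have hSS' : S = S' := Subtype.ext hSS
    subst hSS'
    have key : ∀ s s' : ℝ, insert (D.pos w) (γ S '' Set.Ici s) ≠
        insert (D.pos w) (γ S '' Set.Iic s') := by
      intro s s' he
      have hm : γ S (max s s' + 1) ∈ insert (D.pos w) (γ S '' Set.Ici s) :=
        Or.inr ⟨_, by
          change s ≤ max s s' + 1
          have := le_max_left s s'
          linarith, rfl⟩
      rw [he] at hm
      rcases hm with hm | ⟨t, ht, htt⟩
      · exact par_ne (hγ S) _ hm
      · have h5 := (hγ S).inj htt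
        have h6 : t ≤ s' := ht
        have h7 := le_max_right s s'
        linarith
    have hbb : b = b' := by
      rw [h1] at h2
      cases b <;> cases b' <;> simp only [if_true, Bool.false_eq_true, if_false] at h2
      · rfl
      · exact (key _ _ h2.symm).elim
      · exact (key _ _ h2).elim
      · rfl
    rw [hbb]
  have : Finite T := hTfin
  have hcard := Nat.card_le_card_of_injective f hfinj
  rw [Nat.card_prod, Nat.card_eq_fintype_card (α := Bool), Fintype.card_bool] at hcard
  have e1 : Nat.card T = nthru F (D.pos w) := Nat.card_coe_set_eq T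
  have e2 : Nat.card (G.neighborSet w) = deg G w := Nat.card_coe_set_eq _
  rw [e1, e2] at hcard
  omega

end PendAux

open PendAux in
/-- B2. -/
theorem stPend (hF : StFrame) (hP : StParFrame) (hS : StSymm) (hC : StCov) (h3 : StThree) :
    StPend := by
  classical
  intro V _ G d D F hcov w hdeg
  have hpar : ∀ S ∈ F, ∀ w, D.pos w ∈ S → ∃ γ, CircPar S (D.pos w) γ := by
    intro S hS w hw
    obtain ⟨c, u, v, r, hfr, hr, h0, hC'⟩ := hF d S (D.pos w) (hcov.1 S hS) hw
    have h1 := hP d c u v r hfr hr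
    rw [h0, ← hC'] at h1
    exact ⟨_, h1⟩
  obtain ⟨S, hSF, γ, hAS, hγ, hun⟩ := unused h3 D F hcov.1 hpar w hdeg
  obtain ⟨s1, hs1, hs2⟩ := core hS hC h3 D F hcov w S hSF γ hγ hun
  set J : Set (E d) := insert (D.pos w) (γ '' Set.Ici s1) with hJ
  set Q : E d := γ s1 with hQ
  have hinjs : Function.Injective (Sym2.map (some : V → Option V)) :=
    Sym2.map.injective (Option.some_injective V)
  let arc' : Sym2 (Option V) → Set (E d) := fun e =>
    if h : ∃ e0 : Sym2 V, e0.map some = e then D.arc h.choose else J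
  have harc : ∀ e0 : Sym2 V, arc' (e0.map some) = D.arc e0 := by
    intro e0
    have hex : ∃ e1 : Sym2 V, e1.map some = e0.map some := ⟨e0, rfl⟩
    have h1 : arc' (e0.map some) = D.arc hex.choose := dif_pos hex
    rw [h1, hinjs hex.choose_spec]
  have harcn : arc' s(some w, none) = J := by
    refine dif_neg ?_
    rintro ⟨e0, he⟩
    have h1 : (none : Option V) ∈ e0.map some := by
      rw [he]
      simp
    obtain ⟨y, _, hy⟩ := Sym2.mem_map.1 h1
    exact absurd hy (by simp)
  let pos' : Option V → E d := fun o => o.elim Q D.pos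
  have hmemJ : ∀ z ∈ J, z = D.pos w ∨ ∃ t, s1 ≤ t ∧ z = γ t := by
    rintro z (rfl | ⟨t, ht, rfl⟩)
    · exact Or.inl rfl
    · exact Or.inr ⟨t, ht, rfl⟩
  have hedge : ∀ e ∈ (Pend G w).edgeSet, (∃ e0 ∈ G.edgeSet, e = e0.map some) ∨
      e = s(some w, none) := by
    intro e he
    induction e with
    | _ a b =>
      rcases he with ⟨x, y, rfl, rfl, h⟩ | ⟨rfl, rfl⟩ | ⟨rfl, rfl⟩
      · exact Or.inl ⟨s(x, y), h, rfl⟩
      · exact Or.inr rfl
      · exact Or.inr Sym2.eq_swap
  let D' : Drawing (Pend G w) d :=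
    { pos := pos'
      arc := arc'
      inj := by
        rintro (_ | x) (_ | y) h
        · rfl
        · exact (hs1 y s1 le_rfl h.symm).elim
        · exact (hs1 x s1 le_rfl h).elim
        · exact congrArg some (D.inj h)
      isArc := by
        rintro a b (⟨x, y, rfl, rfl, h⟩ | ⟨rfl, rfl⟩ | ⟨rfl, rfl⟩)
        · have h1 := harc s(x, y)
          have h2 : arc' s(some x, some y) = D.arc s(x, y) := h1
          rw [h2]
          exact D.isArc x y h
        · rw [harcn]
          exact hS d _ _ _ (hγ.mkUp s1)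
        · rw [Sym2.eq_swap, harcn]
          exact hγ.mkUp s1
      cross := by
        intro e he e' he' hne z hz hz'
        rcases hedge e he with ⟨e0, he0, rfl⟩ | rfl
        · rcases hedge e' he' with ⟨e1, he1, rfl⟩ | rfl
          · rw [harc] at hz hz'
            obtain ⟨y, hy, hy', hzy⟩ := D.cross e0 he0 e1 he1 (fun h => hne (by rw [h])) z hz hz'
            exact ⟨some y, Sym2.mem_map.2 ⟨y, hy, rfl⟩, Sym2.mem_map.2 ⟨y, hy', rfl⟩, hzy⟩
          · rw [harc] at hz
            rw [harcn] at hz'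
            rcases hmemJ z hz' with rfl | ⟨t, ht, rfl⟩
            · exact ⟨some w, Sym2.mem_map.2 ⟨w, D.thru e0 he0 w hz, rfl⟩, by simp, rfl⟩
            · exact (hs2 e0 he0 t ht hz).elim
        · rcases hedge e' he' with ⟨e1, he1, rfl⟩ | rfl
          · rw [harc] at hz'
            rw [harcn] at hz
            rcases hmemJ z hz with rfl | ⟨t, ht, rfl⟩
            · exact ⟨some w, by simp, Sym2.mem_map.2 ⟨w, D.thru e1 he1 w hz', rfl⟩, rfl⟩
            · exact (hs2 e1 he1 t ht hz').elim
          · exact (hne rfl).elim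
      thru := by
        intro e he a ha
        rcases hedge e he with ⟨e0, he0, rfl⟩ | rfl
        · rw [harc] at ha
          cases a with
          | none => exact (hs2 e0 he0 s1 le_rfl ha).elim
          | some y => exact Sym2.mem_map.2 ⟨y, D.thru e0 he0 y ha, rfl⟩
        · rw [harcn] at ha
          cases a with
          | none => simp
          | some y =>
            rcases hmemJ _ ha with h | ⟨t, ht, h⟩
            · have : y = w := D.inj h
              subst this
              simp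
            · exact (hs1 y t ht h).elim }
  refine ⟨D', ⟨hcov.1, ?_, ?_⟩, fun x => rfl⟩
  · rintro (_ | x)
    · exact ⟨S, hSF, par_mem hγ s1⟩
    · exact hcov.2.1 x
  · intro e he z hz
    rcases hedge e he with ⟨e0, he0, rfl⟩ | rfl
    · change z ∈ arc' _ at hz
      rw [harc] at hz
      exact hcov.2.2 e0 he0 z hz
    · change z ∈ arc' _ at hz
      rw [harcn] at hz
      refine ⟨S, hSF, ?_⟩
      rcases hmemJ z hz with rfl | ⟨t, _, rfl⟩
      · exact hAS
      · exact par_mem hγ t

end Pool.Agent.Lib.MP_9f365b_co
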