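import Mathlib
import Pool.Agent.Lib.MP_9f365b_co.Stmts

/-!
H1: crossings on the sphere of the hubs.
-/

namespace Pool.Agent.Lib.MP_9f365b_co

namespace S0

variable {G : Fin 4 → Fin 4 → ℝ}

/-! ### Expansions -/

lemma LL_add (X : Fin 4 → ℝ) (a b : Fin 4) (t : ℝ) :
    LL G (fun c => X c + if c = a then t else 0) b = LL G X b + G a b * t := by
  unfold LL
  simp only [mul_add, Finset.sum_add_distrib, mul_ite, mul_zero, Finset.sum_ite_eq',
    Finset.mem_univ, if_true]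

lemma QQ_eq (X : Fin 4 → ℝ) : QQ G X = ∑ b, LL G X b * X b := by
  unfold QQ LL
  rw [Finset.sum_comm]
  refine Finset.sum_congr rfl fun b _ => ?_
  rw [Finset.sum_mul]

lemma QQ_add (hG : GOK G) (X : Fin 4 → ℝ) (a : Fin 4) (t : ℝ) :
    QQ G (fun c => X c + if c = a then t else 0) = QQ G X + 2 * t * LL G X a := by
  rw [QQ_eq, QQ_eq]
  simp only [LL_add]
  have h1 : ∀ b, (LL G X b + G a b * t) * (X b + if b = a then t else 0) =
      LL G X b * X b + (if b = a then LL G X b * t else 0) + t * (G b a * X b) +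
        (if b = a then G a b * t * t else 0) := by
    intro b
    rw [hG.symm b a]
    split_ifs <;> ring
  simp only [h1, Finset.sum_add_distrib, Finset.sum_ite_eq', Finset.mem_univ, if_true,
    ← Finset.mul_sum]
  rw [hG.diag a]
  unfold LL
  ring

/-- On the quadric, and all linear forms are positive. -/
def Good (G : Fin 4 → Fin 4 → ℝ) (Y : Fin 4 → ℝ) : Prop := QQ G Y = 0 ∧ ∀ a, 0 < LL G Y a

/-- The hypotheses on `F`. -/
def P (G : Fin 4 → Fin 4 → ℝ) (ξ : Fin 4 → Fin 4) (F : Fin 4 → ℝ) : Prop :=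
  QQ G F = 0 ∧ ∀ a t, 0 ≤ t → ∀ c, 0 < LL G (pathPt G F a (ξ a) t) c

/-- The conclusion. -/
def Meet (G : Fin 4 → Fin 4 → ℝ) (ξ : Fin 4 → Fin 4) (F F' : Fin 4 → ℝ) : Prop :=
  ∃ (a b : Fin 4) (t t' l : ℝ), 0 ≤ t ∧ 0 ≤ t' ∧ 0 < l ∧
    ∀ c, pathPt G F a (ξ a) t c = l * pathPt G F' b (ξ b) t' c

variable {ξ : Fin 4 → Fin 4} {F F' : Fin 4 → ℝ}

lemma Meet.symm (h : Meet G ξ F F') : Meet G ξ F' F := by
  obtain ⟨a, b, t, t', l, h1, h2, h3, h4⟩ := h
  refine ⟨b, a, t', t, l⁻¹, h2, h1, inv_pos.2 h3, fun c => ?_⟩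
  rw [h4 c, ← mul_assoc, inv_mul_cancel₀ h3.ne', one_mul]

lemma pathPt_zero (F : Fin 4 → ℝ) (a b : Fin 4) : pathPt G F a b 0 = F := by
  funext c
  unfold pathPt
  simp

lemma P.good (h : P G ξ F) : Good G F := by
  refine ⟨h.1, fun c => ?_⟩
  have := h.2 0 0 le_rfl c
  rwa [pathPt_zero] at this

lemma P.den (h : P G ξ F) (hG : GOK G) {a b : Fin 4} (hab : a ≠ b) {t : ℝ} (ht : 0 ≤ t) :
    0 < LL G F b + G a b * t := by
  have h1 := h.good.2 b
  have h2 := hG.pos a b hab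
  positivity

lemma QQ_path (hG : GOK G) (hF : QQ G F = 0) {a b : Fin 4} {t : ℝ}
    (hd : LL G F b + G a b * t ≠ 0) : QQ G (pathPt G F a b t) = 0 := by
  have h1 : pathPt G F a b t = fun c => (fun c => F c + if c = a then t else 0) c +
      if c = b then -(t * LL G F a / (LL G F b + G a b * t)) else 0 := rfl
  rw [h1, QQ_add hG, QQ_add hG, LL_add, hF]
  have h2 : t * LL G F a / (LL G F b + G a b * t) * (LL G F b + G a b * t) = t * LL G F a :=
    div_mul_cancel₀ _ hd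
  linear_combination (-2) * h2

lemma P.path (h : P G ξ F) (hG : GOK G) (hξ : ∀ a, ξ a ≠ a) (a : Fin 4) {t : ℝ} (ht : 0 ≤ t) :
    Good G (pathPt G F a (ξ a) t) :=
  ⟨QQ_path hG h.1 (h.den hG (hξ a).symm ht).ne', h.2 a t ht⟩

lemma pathPt_a (F : Fin 4 → ℝ) {a b : Fin 4} (hab : a ≠ b) (t : ℝ) :
    pathPt G F a b t a = F a + t := by
  unfold pathPt
  simp [hab]

lemma pathPt_b (F : Fin 4 → ℝ) {a b : Fin 4} (hab : a ≠ b) (t : ℝ) :
    pathPt G F a b t b = F b - t * LL G F a / (LL G F b + G a b * t) := by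
  unfold pathPt
  simp [hab.symm, sub_eq_add_neg]

lemma pathPt_o (F : Fin 4 → ℝ) {a b c : Fin 4} (hca : c ≠ a) (hcb : c ≠ b) (t : ℝ) :
    pathPt G F a b t c = F c := by
  unfold pathPt
  simp [hca, hcb]

/-- The points of a hub edge. -/
lemma mem_path (hG : GOK G) (hξ : ∀ a, ξ a ≠ a) (h : P G ξ F) (a : Fin 4) {Y : Fin 4 → ℝ}
    (hY : Good G Y) (ho : ∀ c, c ≠ a → c ≠ ξ a → Y c = F c) (ha : F a ≤ Y a) :
    Y = pathPt G F a (ξ a) (Y a - F a) := by
  set X := pathPt G F a (ξ a) (Y a - F a) with hX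
  have hgX : Good G X := h.path hG hξ a (sub_nonneg.2 ha)
  have hXo : ∀ c, c ≠ ξ a → Y c = X c := by
    intro c hc
    by_cases hca : c = a
    · subst hca
      rw [hX, pathPt_a F (hξ c).symm]
      ring
    · rw [hX, pathPt_o F hca hc, ho c hca hc]
  have h1 : Y = fun c => X c + if c = ξ a then Y (ξ a) - X (ξ a) else 0 := by
    funext c
    by_cases hc : c = ξ a
    · rw [hc, if_pos rfl]
      ring
    · rw [if_neg hc, hXo c hc, add_zero]
  have h2 := QQ_add hG X (ξ a) (Y (ξ a) - X (ξ a))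
  rw [← h1, hY.1, hgX.1, zero_add] at h2
  have h3 := hgX.2 (ξ a)
  have h4 : Y (ξ a) - X (ξ a) = 0 := by
    by_contra h4
    have : 2 * (Y (ξ a) - X (ξ a)) * LL G X (ξ a) ≠ 0 := by
      apply mul_ne_zero (mul_ne_zero two_ne_zero h4) h3.ne'
    exact this h2.symm
  rw [h4] at h1
  rw [h1]
  funext c
  simp

/-! ### The antichain property -/

lemma anti (hA : StAnti) (hG : GOK G) {X Y : Fin 4 → ℝ} (hX : Good G X) (hY : Good G Y)
    (h : ∀ a, X a ≤ Y a) : X = Y :=
  hA G X Y hG (by rw [hX.1, hY.1]) hX.2 hY.2 h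

/-- Four different indices. -/
structure Four (a b c d : Fin 4) : Prop where
  ab : a ≠ b
  ac : a ≠ c
  ad : a ≠ d
  bc : b ≠ c
  bd : b ≠ d
  cd : c ≠ d
  all : ∀ x, x = a ∨ x = b ∨ x = c ∨ x = d

lemma Four.swap {a b c d : Fin 4} (h : Four a b c d) : Four b a c d :=
  ⟨h.ab.symm, h.bc, h.bd, h.ac, h.ad, h.cd, fun x => by
    rcases h.all x with h | h | h | h
    · exact Or.inr (Or.inl h)
    · exact Or.inl h
    · exact Or.inr (Or.inr (Or.inl h))
    · exact Or.inr (Or.inr (Or.inr h))⟩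

lemma anti4 (hA : StAnti) (hG : GOK G) {a b c d : Fin 4} (h4 : Four a b c d)
    {X Y : Fin 4 → ℝ} (hX : Good G X) (hY : Good G Y)
    (h1 : X a ≤ Y a) (h2 : X b ≤ Y b) (h3 : X c ≤ Y c) (h5 : X d ≤ Y d) : X = Y := by
  refine anti hA hG hX hY fun x => ?_
  rcases h4.all x with h | h | h | h <;> rw [h] <;> assumption

/-! ### Curves -/

/-- The point `Y` is on a hub edge of `F'`. -/
def On (G : Fin 4 → Fin 4 → ℝ) (ξ : Fin 4 → Fin 4) (F' Y : Fin 4 → ℝ) : Prop :=
  ∃ (c : Fin 4) (t l : ℝ), 0 ≤ t ∧ 0 < l ∧ ∀ x, Y x = l * pathPt G F' c (ξ c) t x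

lemma On.self (F' : Fin 4 → ℝ) : On G ξ F' F' :=
  ⟨0, 0, 1, le_rfl, one_pos, fun x => by rw [pathPt_zero, one_mul]⟩

lemma meet_of (hG : GOK G) (hξ : ∀ a, ξ a ≠ a) (h : P G ξ F) (a : Fin 4) {Y : Fin 4 → ℝ}
    (hY : Good G Y) (ho : ∀ c, c ≠ a → c ≠ ξ a → Y c = F c) (ha : F a ≤ Y a)
    (hOn : On G ξ F' Y) : Meet G ξ F F' := by
  obtain ⟨c, t, l, ht, hl, hx⟩ := hOn
  refine ⟨a, c, Y a - F a, t, l, sub_nonneg.2 ha, ht, hl, fun x => ?_⟩
  rw [← mem_path hG hξ h a hY ho ha, hx]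

lemma pathPt_cont (hG : GOK G) (hξ : ∀ a, ξ a ≠ a) (h : P G ξ F) (c x : Fin 4) (T : ℝ) :
    ContinuousOn (fun t => pathPt G F c (ξ c) t x) (Set.Icc 0 T) := by
  unfold pathPt
  refine ContinuousOn.add (ContinuousOn.add continuousOn_const ?_) ?_
  · split_ifs
    · exact continuousOn_id
    · exact continuousOn_const
  · split_ifs
    · refine ContinuousOn.neg (ContinuousOn.div (by fun_prop) (by fun_prop) ?_)
      intro t ht
      exact (h.den hG (hξ c).symm ht.1).ne'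
    · exact continuousOn_const

lemma Good.smul {Y : Fin 4 → ℝ} (h : Good G Y) {k : ℝ} (hk : 0 < k) :
    Good G (fun x => k * Y x) := by
  have h1 : ∀ a, LL G (fun x => k * Y x) a = k * LL G Y a := by
    intro a
    unfold LL
    rw [Finset.mul_sum]
    exact Finset.sum_congr rfl fun _ _ => by ring
  refine ⟨?_, fun a => ?_⟩
  · rw [QQ_eq]
    have h2 := h.1
    rw [QQ_eq] at h2
    have h3 : ∑ b, LL G (fun x => k * Y x) b * (k * Y b) = k ^ 2 * ∑ b, LL G Y b * Y b := by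
      rw [Finset.mul_sum]
      exact Finset.sum_congr rfl fun b _ => by rw [h1]; ring
    rw [h3, h2, mul_zero]
  · rw [h1]
    exact mul_pos hk (h.2 a)

/-- The third hub edge of `F'`, normalised at `d`. -/
lemma curve (hG : GOK G) (hξ : ∀ a, ξ a ≠ a) (h : P G ξ F') {c d : Fin 4} (hcd : c ≠ d)
    (hc : ξ c ≠ d ∨ F' d < 0) (M : ℝ) :
    ∃ (Y : ℝ → Fin 4 → ℝ) (T : ℝ), 0 ≤ T ∧
      (∀ x, ContinuousOn (fun t => Y t x) (Set.Icc 0 T)) ∧ Y 0 = F' ∧
      (∀ t ∈ Set.Icc 0 T, Good G (Y t) ∧ Y t d = F' d ∧ On G ξ F' (Y t)) ∧ M ≤ Y T c := by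
  by_cases hξd : ξ c = d
  · have hd : F' d < 0 := hc.resolve_left fun h => h hξd
    have hLc := h.good.2 c
    have hLd := h.good.2 d
    have hGp := hG.pos c d hcd
    set X := fun t : ℝ => pathPt G F' c (ξ c) t with hX
    have hXd : ∀ t, X t d = F' d - t * LL G F' c / (LL G F' d + G c d * t) := by
      intro t
      have := pathPt_b (G := G) F' hcd t
      rw [← hξd] at this ⊢
      exact this
    have hXd0 : ∀ t, 0 ≤ t → X t d ≤ F' d := by
      intro t ht
      rw [hXd]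
      have : 0 ≤ t * LL G F' c / (LL G F' d + G c d * t) := by positivity
      linarith
    set B := -F' d + LL G F' c / G c d with hB
    have hBpos : 0 < B := by
      have : 0 < LL G F' c / G c d := by positivity
      rw [hB]
      linarith
    have hXdB : ∀ t, 0 ≤ t → -X t d ≤ B := by
      intro t ht
      rw [hXd, hB]
      have : t * LL G F' c / (LL G F' d + G c d * t) ≤ LL G F' c / G c d := by
        rw [div_le_div_iff₀ (by positivity) hGp]
        have : 0 ≤ LL G F' c * LL G F' d := by positivity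
        nlinarith
      linarith
    set T := max 0 (|M| * B / (-F' d) - F' c) with hT
    have hT0 : 0 ≤ T := le_max_left _ _
    refine ⟨fun t x => F' d / X t d * X t x, T, hT0, ?_, ?_, ?_, ?_⟩
    · intro x
      refine ContinuousOn.mul (ContinuousOn.div continuousOn_const
        (pathPt_cont hG hξ h c d T) ?_) (pathPt_cont hG hξ h c x T)
      intro t ht
      have := hXd0 t ht.1
      exact (lt_of_le_of_lt this hd).ne
    · funext x
      have h0 : X 0 = F' := pathPt_zero F' c (ξ c)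
      show F' d / X 0 d * X 0 x = F' x
      rw [h0, div_self hd.ne, one_mul]
    · intro t ht
      have h1 := hXd0 t ht.1
      have h2 : X t d < 0 := lt_of_le_of_lt h1 hd
      have h3 : 0 < F' d / X t d := div_pos_of_neg_of_neg hd h2
      refine ⟨(h.path hG hξ c ht.1).smul h3, ?_, c, t, F' d / X t d, ht.1, h3, fun x => rfl⟩
      show F' d / X t d * X t d = F' d
      rw [div_mul_cancel₀ _ h2.ne]
    · show M ≤ F' d / X T d * X T c
      have h1 := hXd0 T hT0
      have h2 : X T d < 0 := lt_of_le_of_lt h1 hd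
      have h3 : X T c = F' c + T := pathPt_a F' (hξ c).symm T
      have h4 : |M| * B / (-F' d) ≤ X T c := by
        rw [h3]
        have := le_max_right 0 (|M| * B / (-F' d) - F' c)
        rw [← hT] at this
        linarith
      have h5 := hXdB T hT0
      have h6 : 0 < -F' d := by linarith
      have h7 : 0 < -X T d := by linarith
      have h8 : F' d / X T d = (-F' d) / (-X T d) := by rw [neg_div_neg_eq]
      rw [h8]
      have h9 : (-F' d) / B ≤ (-F' d) / (-X T d) := div_le_div_of_nonneg_left h6.le h7 h5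
      have h10 : 0 ≤ |M| * B / (-F' d) := by positivity
      have h11 : (-F' d) / B * (|M| * B / (-F' d)) = |M| := by
        rw [div_mul_div_comm, div_eq_iff (mul_pos hBpos h6).ne']
        ring
      calc M ≤ |M| := le_abs_self M
        _ = (-F' d) / B * (|M| * B / (-F' d)) := h11.symm
        _ ≤ (-F' d) / (-X T d) * X T c := by
          apply mul_le_mul h9 h4 h10
          positivity
  · refine ⟨fun t => pathPt G F' c (ξ c) t, max 0 (M - F' c), le_max_left _ _, ?_,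
      pathPt_zero F' c (ξ c), ?_, ?_⟩
    · intro x
      exact pathPt_cont hG hξ h c x _
    · intro t ht
      refine ⟨h.path hG hξ c ht.1, pathPt_o F' hcd.symm (fun e => hξd e.symm) t, c, t, 1, ht.1,
        one_pos, fun x => by rw [one_mul]⟩
    · show M ≤ pathPt G F' c (ξ c) _ c
      rw [pathPt_a F' (hξ c).symm]
      have := le_max_right 0 (M - F' c)
      linarith

/-- A zero of a continuous function. -/
lemma exists_zero {g : ℝ → ℝ} {T : ℝ} (hT : 0 ≤ T) (hg : ContinuousOn g (Set.Icc 0 T))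
    (h0 : 0 ≤ g 0) (h1 : g T ≤ 0) : ∃ t ∈ Set.Icc 0 T, g t = 0 := by
  obtain ⟨t, ht, e⟩ := intermediate_value_Icc' hT hg ⟨h1, h0⟩
  exact ⟨t, ht, e⟩

/-! ### The cases -/

variable {a b c d : Fin 4}

/-- In the case `ξ a = b`, `ξ b = a` the two hub edges are the section with `c` fixed. -/
lemma sec1 (hA : StAnti) (hG : GOK G) (hξ : ∀ a, ξ a ≠ a) (h4 : Four a b c d) (hF : P G ξ F)
    (ha : ξ a = b) (hb : ξ b = a) {Y : Fin 4 → ℝ} (hY : Good G Y) (hc : Y c = F c)
    (hd : Y d = F d) (hOn : On G ξ F' Y) : Meet G ξ F F' := by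
  rcases le_total (F a) (Y a) with h | h
  · refine meet_of hG hξ hF a hY ?_ h hOn
    intro x h1 h2
    rw [ha] at h2
    rcases h4.all x with e | e | e | e
    · exact absurd e h1
    · exact absurd e h2
    · rw [e, hc]
    · rw [e, hd]
  · refine meet_of hG hξ hF b hY ?_ ?_ hOn
    · intro x h1 h2
      rw [hb] at h2
      rcases h4.all x with e | e | e | e
      · exact absurd e h2
      · exact absurd e h1
      · rw [e, hc]
      · rw [e, hd]
    · by_contra h5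
      push Not at h5
      have := anti4 hA hG h4 hY hF.good h h5.le hc.le hd.le
      rw [this] at h5
      exact lt_irrefl _ h5

lemma half1 (hA : StAnti) (hG : GOK G) (hξ : ∀ a, ξ a ≠ a) (h4 : Four a b c d) (hF : P G ξ F)
    (hF' : P G ξ F') (hd : F d = F' d) (ha : ξ a = b) (hb : ξ b = a)
    (hcd : ξ c ≠ d ∨ F' d < 0) (h : F' c < F c) : Meet G ξ F F' := by
  obtain ⟨Y, T, hT, hcont, hY0, hY, hYT⟩ := curve hG hξ hF' h4.cd hcd (F c)
  obtain ⟨t, ht, e⟩ := exists_zero (g := fun t => F c - Y t c) hT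
    (continuousOn_const.sub (hcont c)) (by
      show 0 ≤ F c - Y 0 c
      rw [hY0]
      linarith) (by
      show F c - Y T c ≤ 0
      linarith)
  obtain ⟨g1, g2, g3⟩ := hY t ht
  have e' : F c - Y t c = 0 := e
  exact sec1 hA hG hξ h4 hF ha hb g1 (by linarith) (by rw [g2, hd]) g3

/-- The hub edge to `b` in the case `ξ b = c`. -/
lemma edgeB (hA : StAnti) (hG : GOK G) (hξ : ∀ a, ξ a ≠ a) (h4 : Four a b c d) (hF : P G ξ F)
    (hb : ξ b = c) {Y : Fin 4 → ℝ} (hY : Good G Y) (ha : Y a = F a) (hd : Y d = F d)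
    (h : Y c ≤ F c ∨ F b ≤ Y b) (hOn : On G ξ F' Y) : Meet G ξ F F' := by
  refine meet_of hG hξ hF b hY ?_ ?_ hOn
  · intro x h1 h2
    rw [hb] at h2
    rcases h4.all x with e | e | e | e
    · rw [e, ha]
    · exact absurd e h1
    · exact absurd e h2
    · rw [e, hd]
  · rcases h with h | h
    · by_contra h5
      push Not at h5
      have := anti4 hA hG h4 hY hF.good ha.le h5.le h hd.le
      rw [this] at h5
      exact lt_irrefl _ h5
    · exact h

/-- The hub edge to `a` in the case `ξ a = b`. -/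
lemma edgeAb (hG : GOK G) (hξ : ∀ a, ξ a ≠ a) (h4 : Four a b c d) (hF : P G ξ F)
    (ha : ξ a = b) {Y : Fin 4 → ℝ} (hY : Good G Y) (hc : Y c = F c) (hd : Y d = F d)
    (h : F a ≤ Y a) (hOn : On G ξ F' Y) : Meet G ξ F F' := by
  refine meet_of hG hξ hF a hY ?_ h hOn
  intro x h1 h2
  rw [ha] at h2
  rcases h4.all x with e | e | e | e
  · exact absurd e h1
  · exact absurd e h2
  · rw [e, hc]
  · rw [e, hd]

/-- The hub edge to `a` in the case `ξ a = c`. -/
lemma edgeAc (hG : GOK G) (hξ : ∀ a, ξ a ≠ a) (h4 : Four a b c d) (hF : P G ξ F)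
    (ha : ξ a = c) {Y : Fin 4 → ℝ} (hY : Good G Y) (hb : Y b = F b) (hd : Y d = F d)
    (h : F a ≤ Y a) (hOn : On G ξ F' Y) : Meet G ξ F F' := by
  refine meet_of hG hξ hF a hY ?_ h hOn
  intro x h1 h2
  rw [ha] at h2
  rcases h4.all x with e | e | e | e
  · exact absurd e h1
  · rw [e, hb]
  · exact absurd e h2
  · rw [e, hd]

lemma half2 (hA : StAnti) (hG : GOK G) (hξ : ∀ a, ξ a ≠ a) (h4 : Four a b c d) (hF : P G ξ F)
    (hF' : P G ξ F') (hd : F d = F' d) (ha : ξ a = b) (hb : ξ b = c)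
    (hcd : ξ c ≠ d ∨ F' d < 0) (h1 : F a < F' a) (h2 : F' c < F c) : Meet G ξ F F' := by
  obtain ⟨Y, T, hT, hcont, hY0, hY, hYT⟩ := curve hG hξ hF' h4.cd hcd (F c)
  obtain ⟨t, ht, e⟩ := exists_zero (g := fun t => min (F c - Y t c) (Y t a - F a)) hT
    (ContinuousOn.inf (continuousOn_const.sub (hcont c)) ((hcont a).sub continuousOn_const)) (by
      show 0 ≤ min (F c - Y 0 c) (Y 0 a - F a)
      rw [hY0]
      exact le_min (by linarith) (by linarith)) (by
      show min (F c - Y T c) (Y T a - F a) ≤ 0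
      exact (min_le_left _ _).trans (by linarith))
  obtain ⟨g1, g2, g3⟩ := hY t ht
  have e' : min (F c - Y t c) (Y t a - F a) = 0 := e
  have l1 : 0 ≤ F c - Y t c := by rw [← e']; exact min_le_left _ _
  have l2 : 0 ≤ Y t a - F a := by rw [← e']; exact min_le_right _ _
  rcases min_choice (F c - Y t c) (Y t a - F a) with e2 | e2
  · rw [e2] at e'
    exact edgeAb hG hξ h4 hF ha g1 (by linarith) (by rw [g2, hd]) (by linarith) g3
  · rw [e2] at e'
    exact edgeB hA hG hξ h4 hF hb g1 (by linarith) (by rw [g2, hd]) (Or.inl (by linarith)) g3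

lemma half4 (hA : StAnti) (hG : GOK G) (hξ : ∀ a, ξ a ≠ a) (h4 : Four a b c d) (hF : P G ξ F)
    (hF' : P G ξ F') (hd : F d = F' d) (ha : ξ a = c) (hb : ξ b = c)
    (hcd : ξ c ≠ d ∨ F' d < 0) (h1 : F a < F' a) (h2 : F b < F' b) : Meet G ξ F F' := by
  obtain ⟨Y, T, hT, hcont, hY0, hY, hYT⟩ := curve hG hξ hF' h4.cd hcd (F c)
  obtain ⟨t, ht, e⟩ := exists_zero (g := fun t => min (Y t a - F a) (Y t b - F b)) hT
    (ContinuousOn.inf ((hcont a).sub continuousOn_const) ((hcont b).sub continuousOn_const)) (by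
      show 0 ≤ min (Y 0 a - F a) (Y 0 b - F b)
      rw [hY0]
      exact le_min (by linarith) (by linarith)) (by
      show min (Y T a - F a) (Y T b - F b) ≤ 0
      by_contra h5
      push Not at h5
      rw [lt_min_iff] at h5
      obtain ⟨g1, g2, -⟩ := hY T ⟨hT, le_rfl⟩
      have := anti4 hA hG h4 hF.good g1 (by linarith [h5.1]) (by linarith [h5.2]) hYT
        (by rw [g2, hd])
      rw [← this] at h5
      linarith [h5.1])
  obtain ⟨g1, g2, g3⟩ := hY t ht
  have e' : min (Y t a - F a) (Y t b - F b) = 0 := e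
  have l1 : 0 ≤ Y t a - F a := by rw [← e']; exact min_le_left _ _
  have l2 : 0 ≤ Y t b - F b := by rw [← e']; exact min_le_right _ _
  rcases min_choice (Y t a - F a) (Y t b - F b) with e2 | e2
  · rw [e2] at e'
    exact edgeB hA hG hξ h4 hF hb g1 (by linarith) (by rw [g2, hd]) (Or.inr (by linarith)) g3
  · rw [e2] at e'
    exact edgeAc hG hξ h4 hF ha g1 (by linarith) (by rw [g2, hd]) (by linarith) g3

/-- A direct crossing in the case `ξ a = b`, `ξ b = c`. -/
lemma cross2 (hA : StAnti) (hG : GOK G) (hξ : ∀ a, ξ a ≠ a) (h4 : Four a b c d) (hF : P G ξ F)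
    (hF' : P G ξ F') (hd : F d = F' d) (ha : ξ a = b) (hb : ξ b = c)
    (h1 : F a ≤ F' a) (h2 : F c ≤ F' c) : Meet G ξ F F' := by
  have ht : 0 ≤ F' a - F a := sub_nonneg.2 h1
  have hg := hF.path hG hξ a ht
  refine Meet.symm (edgeB hA hG hξ h4 hF' hb hg ?_ ?_ (Or.inl ?_) ?_)
  · rw [pathPt_a F (hξ a).symm]
    ring
  · rw [pathPt_o F h4.ad.symm (by rw [ha]; exact h4.bd.symm), hd]
  · rw [pathPt_o F h4.ac.symm (by rw [ha]; exact h4.bc.symm)]
    exact h2
  · exact ⟨a, _, 1, ht, one_pos, fun x => by rw [one_mul]⟩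

/-- A direct crossing in the case `ξ a = c`, `ξ b = c`. -/
lemma cross4 (hA : StAnti) (hG : GOK G) (hξ : ∀ a, ξ a ≠ a) (h4 : Four a b c d) (hF : P G ξ F)
    (hF' : P G ξ F') (hd : F d = F' d) (ha : ξ a = c) (hb : ξ b = c)
    (h1 : F a ≤ F' a) (h2 : F' b ≤ F b) : Meet G ξ F F' := by
  have ht : 0 ≤ F' a - F a := sub_nonneg.2 h1
  have hg := hF.path hG hξ a ht
  refine Meet.symm (edgeB hA hG hξ h4 hF' hb hg ?_ ?_ (Or.inr ?_) ?_)
  · rw [pathPt_a F (hξ a).symm]
    ring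
  · rw [pathPt_o F h4.ad.symm (by rw [ha]; exact h4.cd.symm), hd]
  · rw [pathPt_o F h4.ab.symm (by rw [ha]; exact h4.bc)]
    exact h2
  · exact ⟨a, _, 1, ht, one_pos, fun x => by rw [one_mul]⟩

lemma key2 (hA : StAnti) (hG : GOK G) (hξ : ∀ a, ξ a ≠ a) (h4 : Four a b c d) (hF : P G ξ F)
    (hF' : P G ξ F') (hd : F d = F' d) (ha : ξ a = b) (hb : ξ b = c)
    (hcd : ξ c ≠ d ∨ F' d < 0) : Meet G ξ F F' := by
  have hcd' : ξ c ≠ d ∨ F d < 0 := by rwa [hd]
  rcases lt_or_ge (F a) (F' a) with h1 | h1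
  · rcases lt_or_ge (F' c) (F c) with h2 | h2
    · exact half2 hA hG hξ h4 hF hF' hd ha hb hcd h1 h2
    · exact cross2 hA hG hξ h4 hF hF' hd ha hb h1.le h2
  · rcases le_or_gt (F' c) (F c) with h2 | h2
    · exact (cross2 hA hG hξ h4 hF' hF hd.symm ha hb h1 h2).symm
    · rcases h1.lt_or_eq with h3 | h3
      · exact (half2 hA hG hξ h4 hF' hF hd.symm ha hb hcd' h3 h2).symm
      · exact cross2 hA hG hξ h4 hF hF' hd ha hb h3.symm.le h2.le

lemma key4 (hA : StAnti) (hG : GOK G) (hξ : ∀ a, ξ a ≠ a) (h4 : Four a b c d) (hF : P G ξ F)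
    (hF' : P G ξ F') (hd : F d = F' d) (ha : ξ a = c) (hb : ξ b = c)
    (hcd : ξ c ≠ d ∨ F' d < 0) : Meet G ξ F F' := by
  have hcd' : ξ c ≠ d ∨ F d < 0 := by rwa [hd]
  rcases lt_or_ge (F a) (F' a) with h1 | h1
  · rcases lt_or_ge (F b) (F' b) with h2 | h2
    · exact half4 hA hG hξ h4 hF hF' hd ha hb hcd h1 h2
    · exact cross4 hA hG hξ h4 hF hF' hd ha hb h1.le h2
  · rcases le_or_gt (F b) (F' b) with h2 | h2
    · exact (cross4 hA hG hξ h4 hF' hF hd.symm ha hb h1 h2).symm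
    · rcases h1.lt_or_eq with h3 | h3
      · exact (half4 hA hG hξ h4 hF' hF hd.symm ha hb hcd' h3 h2).symm
      · exact cross4 hA hG hξ h4 hF hF' hd ha hb h3.symm.le h2.le

lemma key1 (hA : StAnti) (hG : GOK G) (hξ : ∀ a, ξ a ≠ a) (h4 : Four a b c d) (hF : P G ξ F)
    (hF' : P G ξ F') (hd : F d = F' d) (ha : ξ a = b) (hb : ξ b = a)
    (hcd : ξ c ≠ d ∨ F' d < 0) : Meet G ξ F F' := by
  have hcd' : ξ c ≠ d ∨ F d < 0 := by rwa [hd]
  rcases lt_trichotomy (F' c) (F c) with h | h | h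
  · exact half1 hA hG hξ h4 hF hF' hd ha hb hcd h
  · exact sec1 hA hG hξ h4 hF ha hb hF'.good h hd.symm (On.self F')
  · exact (half1 hA hG hξ h4 hF' hF hd.symm ha hb hcd' h).symm

/-- The key lemma. -/
lemma key (hA : StAnti) (hG : GOK G) (hξ : ∀ a, ξ a ≠ a) (h4 : Four a b c d) (hF : P G ξ F)
    (hF' : P G ξ F') (hd : F d = F' d) (ha : ξ a ≠ d) (hb : ξ b ≠ d)
    (hcd : ξ c ≠ d ∨ F' d < 0) : Meet G ξ F F' := by
  have ha' : ξ a = b ∨ ξ a = c := by
    rcases h4.all (ξ a) with h | h | h | h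
    · exact absurd h (hξ a)
    · exact Or.inl h
    · exact Or.inr h
    · exact absurd h ha
  have hb' : ξ b = a ∨ ξ b = c := by
    rcases h4.all (ξ b) with h | h | h | h
    · exact Or.inl h
    · exact absurd h (hξ b)
    · exact Or.inr h
    · exact absurd h hb
  rcases ha' with ha' | ha' <;> rcases hb' with hb' | hb'
  · exact key1 hA hG hξ h4 hF hF' hd ha' hb' hcd
  · exact key2 hA hG hξ h4 hF hF' hd ha' hb' hcd
  · exact key2 hA hG hξ h4.swap hF hF' hd hb' ha' hcd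
  · exact key4 hA hG hξ h4 hF hF' hd ha' hb' hcd

/-! ### Scaling -/

lemma LL_smul (F : Fin 4 → ℝ) (k : ℝ) (a : Fin 4) :
    LL G (fun x => k * F x) a = k * LL G F a := by
  unfold LL
  rw [Finset.mul_sum]
  exact Finset.sum_congr rfl fun _ _ => by ring

lemma pathPt_smul (F : Fin 4 → ℝ) {k : ℝ} (hk : 0 < k) (a b : Fin 4) (t : ℝ) (c : Fin 4) :
    pathPt G (fun x => k * F x) a b (k * t) c = k * pathPt G F a b t c := by
  unfold pathPt
  rw [LL_smul, LL_smul]
  have h1 : k * t * (k * LL G F a) / (k * LL G F b + G a b * (k * t)) =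
      k * (t * LL G F a / (LL G F b + G a b * t)) := by
    have h2 : k * LL G F b + G a b * (k * t) = k * (LL G F b + G a b * t) := by ring
    have h3 : k * t * (k * LL G F a) = k * (k * (t * LL G F a)) := by ring
    rw [h2, h3, mul_div_mul_left _ _ hk.ne', mul_div_assoc]
  rw [h1]
  split_ifs <;> ring

lemma P.smul (h : P G ξ F) {k : ℝ} (hk : 0 < k) : P G ξ (fun x => k * F x) := by
  refine ⟨(h.good.smul hk).1, fun a t ht c => ?_⟩
  have h1 : pathPt G (fun x => k * F x) a (ξ a) t =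
      fun x => k * pathPt G F a (ξ a) (t / k) x := by
    funext x
    rw [← pathPt_smul F hk, mul_div_cancel₀ _ hk.ne']
  rw [h1, LL_smul]
  exact mul_pos hk (h.2 a _ (div_nonneg ht hk.le) c)

lemma Meet.of_smul {k : ℝ} (hk : 0 < k) (h : Meet G ξ F (fun x => k * F' x)) :
    Meet G ξ F F' := by
  obtain ⟨a, b, t, t', l, h1, h2, h3, h4⟩ := h
  refine ⟨a, b, t, t' / k, l * k, h1, div_nonneg h2 hk.le, mul_pos h3 hk, fun c => ?_⟩
  rw [h4 c, mul_assoc, ← pathPt_smul F' hk, mul_div_cancel₀ _ hk.ne']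

/-- The key lemma without normalisation. -/
lemma key' (hA : StAnti) (hG : GOK G) (hξ : ∀ a, ξ a ≠ a) (h4 : Four a b c d) (hF : P G ξ F)
    (hF' : P G ξ F') (hd : 0 < F d * F' d) (ha : ξ a ≠ d) (hb : ξ b ≠ d)
    (hcd : ξ c ≠ d ∨ F d < 0) : Meet G ξ F F' := by
  have hne : F' d ≠ 0 := by
    intro h
    rw [h, mul_zero] at hd
    exact lt_irrefl _ hd
  have hk : 0 < F d / F' d := by
    have h1 : F d / F' d = F d * F' d / (F' d) ^ 2 := by
      field_simp
    rw [h1]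
    positivity
  have he : F d / F' d * F' d = F d := div_mul_cancel₀ _ hne
  refine Meet.of_smul hk (key hA hG hξ h4 hF (hF'.smul hk) he.symm ha hb ?_)
  rwa [he]

end S0

open S0

/-- H1. -/
theorem stS0alg (hA : StAnti) : StS0alg := by
  intro G F F' ξ hG hξ hF hF' hs h h'
  have hP : P G ξ F := ⟨hF, h⟩
  have hP' : P G ξ F' := ⟨hF', h'⟩
  have e3 : ∀ d : Fin 4, ∃ a b c, Four a b c d := by
    intro d
    have : ∀ d : Fin 4, ∃ a b c, a ≠ b ∧ a ≠ c ∧ a ≠ d ∧ b ≠ c ∧ b ≠ d ∧ c ≠ d ∧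
        ∀ x, x = a ∨ x = b ∨ x = c ∨ x = d := by decide
    obtain ⟨a, b, c, h1, h2, h3, h4, h5, h6, h7⟩ := this d
    exact ⟨a, b, c, h1, h2, h3, h4, h5, h6, h7⟩
  have e2 : ∀ c d : Fin 4, c ≠ d → ∃ a b, Four a b c d := by
    intro c d hcd
    have : ∀ c d : Fin 4, c ≠ d → ∃ a b, a ≠ b ∧ a ≠ c ∧ a ≠ d ∧ b ≠ c ∧ b ≠ d ∧ c ≠ d ∧
        ∀ x, x = a ∨ x = b ∨ x = c ∨ x = d := by decide
    obtain ⟨a, b, h1, h2, h3, h4, h5, h6, h7⟩ := this c d hcd
    exact ⟨a, b, h1, h2, h3, h4, h5, h6, h7⟩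
  by_cases hsurj : Function.Surjective ξ
  · have hinj : Function.Injective ξ := Finite.injective_iff_surjective.2 hsurj
    by_cases hneg : ∃ d, F d < 0
    · obtain ⟨d, hd⟩ := hneg
      obtain ⟨c, hc⟩ := hsurj d
      have hcd : c ≠ d := by
        intro e
        rw [e] at hc
        exact hξ d hc
      obtain ⟨a, b, h4⟩ := e2 c d hcd
      refine key' hA hG hξ h4 hP hP' (hs d) ?_ ?_ (Or.inr hd)
      · intro e
        exact h4.ac (hinj (e.trans hc.symm))
      · intro e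
        exact h4.bc (hinj (e.trans hc.symm))
    · exfalso
      push Not at hneg
      have hpos : ∀ d, 0 < F d := by
        intro d
        refine lt_of_le_of_ne (hneg d) fun e => ?_
        have := hs d
        rw [← e, zero_mul] at this
        exact lt_irrefl _ this
      have h1 : ∀ b, 0 < LL G F b := hP.good.2
      have h2 : 0 < QQ G F := by
        rw [QQ_eq]
        exact Finset.sum_pos (fun b _ => mul_pos (h1 b) (hpos b)) ⟨0, Finset.mem_univ _⟩
      rw [hF] at h2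
      exact lt_irrefl _ h2
  · unfold Function.Surjective at hsurj
    push Not at hsurj
    obtain ⟨d, hd⟩ := hsurj
    obtain ⟨a, b, c, h4⟩ := e3 d
    exact key' hA hG hξ h4 hP hP' (hs d) (hd a) (hd b) (Or.inl (hd c))

end Pool.Agent.Lib.MP_9f365b_co
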