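import Pool.Agent.Lib.MP_9f365b_co.Stmts

/-!
# I1. The scene given by a drawing on few circles
-/

set_option autoImplicit false

namespace Pool.Agent.Lib.MP_9f365b_co

namespace SceneAux

theorem arc_left {d : ℕ} {J : Set (E d)} {P Q : E d} (h : IsArc J P Q) : P ∈ J := by
  obtain ⟨c, u, v, r, α, β, -, -, hab, -, hP, -, hJ⟩ := h
  rw [hJ, ← hP]
  exact Set.mem_image_of_mem _ ⟨le_refl _, hab.le⟩

theorem arc_right {d : ℕ} {J : Set (E d)} {P Q : E d} (h : IsArc J P Q) : Q ∈ J := by
  obtain ⟨c, u, v, r, α, β, -, -, hab, -, -, hQ, hJ⟩ := h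
  rw [hJ, ← hQ]
  exact Set.mem_image_of_mem _ ⟨hab.le, le_refl _⟩

theorem three_le {s : Set (Fin 4)} {a b c : Fin 4} (hab : a ≠ b) (hac : a ≠ c) (hbc : b ≠ c)
    (ha : a ∈ s) (hb : b ∈ s) (hc : c ∈ s) : 3 ≤ s.ncard := by
  have h1 : ({a, b, c} : Set (Fin 4)).ncard = 3 :=
    Set.ncard_eq_three.mpr ⟨a, b, c, hab, hac, hbc, rfl⟩
  rw [← h1]
  apply Set.ncard_le_ncard
  · rintro x (rfl | rfl | rfl)
    · exact ha
    · exact hb
    · exact hc
  · exact Set.toFinite _

end SceneAux

open SceneAux in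
/-- I1. -/
theorem stScene (hD : StDeg) (hH : StHub) (hH2 : StHub2) (hC : StCov) (h3 : StThree) :
    StScene := by
  intro N R V hV G ι hι hadj hsum hdeg D F hcov hFR
  have hsph := hcov.1
  have hadjD : ∀ k w w', PAdj w w' → G.Adj (ι (Sum.inr (k, w))) (ι (Sum.inr (k, w'))) :=
    fun k w w' h => hadj _ _ (Or.inl ⟨k, w, w', rfl, rfl, h⟩)
  have hadjH : ∀ k a, G.Adj (ι (Sum.inr (k, 18))) (ι (Sum.inl a)) :=
    fun k a => hadj _ _ (Or.inr (Or.inr ⟨a, k, rfl, rfl⟩))
  have hinjH : Function.Injective fun a => D.pos (ι (Sum.inl a)) := by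
    intro a b h
    exact Sum.inl_injective (hι (D.inj h))
  have hne : ∀ a k w, D.pos (ι (Sum.inl a)) ≠ D.pos (ι (Sum.inr (k, w))) := by
    intro a k w h
    have := hι (D.inj h)
    simp at this
  have hdeg' := hD V hV G 3 D F hcov
  have hcount : 2 * R + 4 ≤ ∑ a, nthru F (D.pos (ι (Sum.inl a))) := by
    have h1 : ∑ a, deg G (ι (Sum.inl a)) ≤ ∑ a, 2 * nthru F (D.pos (ι (Sum.inl a))) :=
      Finset.sum_le_sum fun a _ => hdeg' _
    rw [← Finset.mul_sum] at h1
    omega
  obtain ⟨h23, htri⟩ := hH 3 F (fun a => D.pos (ι (Sum.inl a))) R hsph hinjH hFR hcount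
  have htwo : ∀ k w, ∀ S ∈ F, D.pos (ι (Sum.inr (k, w))) ∈ S →
      {a | D.pos (ι (Sum.inl a)) ∈ S}.ncard = 2 := by
    intro k w
    refine hH2 3 F (fun a => D.pos (ι (Sum.inl a))) _ hsph hinjH
      (fun a => (hne a k w).symm) h23 ?_
    have h1 := hdeg k w
    have h2 := hdeg' (ι (Sum.inr (k, w)))
    omega
  have htriple : ∀ C : Set (E 3), IsSph 3 1 C → ∀ a b c, a ≠ b → a ≠ c → b ≠ c →
      D.pos (ι (Sum.inl a)) ∈ C → D.pos (ι (Sum.inl b)) ∈ C → D.pos (ι (Sum.inl c)) ∈ C →
      C ∈ F := by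
    intro C hCs a b c hab hac hbc ha hb hc
    obtain ⟨S, hS, hSa, hSb, hSc⟩ := htri a b c hab hac hbc
    have := h3 3 C S _ _ _ hCs (hsph S hS) (fun h => hab (hinjH h)) (fun h => hac (hinjH h))
      (fun h => hbc (hinjH h)) ha hb hc hSa hSb hSc
    rw [this]
    exact hS
  have hcovArc : ∀ x y, G.Adj x y → ∃ S ∈ F, D.arc s(x, y) ⊆ S := by
    intro x y hxy
    exact hC 3 _ _ _ F (D.isArc x y hxy) hsph (hcov.2.2 s(x, y) hxy)
  refine ⟨fun a => D.pos (ι (Sum.inl a)), fun k w => D.pos (ι (Sum.inr (k, w))),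
    fun k w w' => D.arc s(ι (Sum.inr (k, w)), ι (Sum.inr (k, w'))),
    fun k a => D.arc s(ι (Sum.inr (k, 18)), ι (Sum.inl a)), ?_⟩
  refine
    { injH := hinjH
      injP := ?_
      neHP := hne
      three := ?_
      four := ?_
      full := ?_
      dir := ?_
      dirArc := ?_
      dirHub := ?_
      dirThru := ?_
      hub := ?_
      hubArc := ?_
      hubHub := ?_
      hubCross := ?_ }
  · intro k w k' w' h
    have := hι (D.inj h)
    simpa using this
  · intro a b c hab hac hbc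
    obtain ⟨S, hS, hSa, hSb, hSc⟩ := htri a b c hab hac hbc
    exact ⟨S, hsph S hS, hSa, hSb, hSc⟩
  · rintro ⟨C, hCs, hall⟩
    have hF : C ∈ F := htriple C hCs 0 1 2 (by decide) (by decide) (by decide) (hall 0) (hall 1)
      (hall 2)
    have h4 : {a | D.pos (ι (Sum.inl a)) ∈ C}.ncard = 4 := by
      have : {a | D.pos (ι (Sum.inl a)) ∈ C} = Set.univ := by
        ext a
        simpa using hall a
      rw [this, Set.ncard_univ]
      simp
    rcases h23 C hF with h | h
    · exact absurd (h.symm.trans h4) (by norm_num)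
    · exact absurd (h.symm.trans h4) (by norm_num)
  · rintro k w a b c hab hac hbc ⟨C, hCs, hP, ha, hb, hc⟩
    have hF : C ∈ F := htriple C hCs a b c hab hac hbc ha hb hc
    have h2 := htwo k w C hF hP
    have h3' := three_le (s := {a | D.pos (ι (Sum.inl a)) ∈ C}) hab hac hbc ha hb hc
    omega
  · intro k w w' hw
    obtain ⟨S, hS, hsub⟩ := hcovArc _ _ (hadjD k w w' hw)
    have hP : D.pos (ι (Sum.inr (k, w))) ∈ S :=
      hsub (arc_left (D.isArc _ _ (hadjD k w w' hw)))
    obtain ⟨a, b, hab, hset⟩ := Set.ncard_eq_two.mp (htwo k w S hS hP)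
    refine ⟨S, a, b, hab, hsph S hS, ?_, ?_, hsub⟩
    · have : a ∈ {a | D.pos (ι (Sum.inl a)) ∈ S} := by rw [hset]; exact Or.inl rfl
      exact this
    · have : b ∈ {a | D.pos (ι (Sum.inl a)) ∈ S} := by rw [hset]; exact Or.inr rfl
      exact this
  · intro k w w' hw
    exact D.isArc _ _ (hadjD k w w' hw)
  · intro k w w' hw a ha
    have := D.thru _ (hadjD k w w' hw) _ ha
    rw [Sym2.mem_iff] at this
    rcases this with h | h
    · have := hι h
      simp at this
    · have := hι h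
      simp at this
  · intro k w w' hw k' r hr
    have := D.thru _ (hadjD k w w' hw) _ hr
    rw [Sym2.mem_iff] at this
    rcases this with h | h
    · have := hι h
      simp only [Sum.inr.injEq, Prod.mk.injEq] at this
      exact ⟨this.1, Or.inl this.2⟩
    · have := hι h
      simp only [Sum.inr.injEq, Prod.mk.injEq] at this
      exact ⟨this.1, Or.inr this.2⟩
  · intro k a
    obtain ⟨S, hS, hsub⟩ := hcovArc _ _ (hadjH k a)
    have hP : D.pos (ι (Sum.inr (k, 18))) ∈ S :=
      hsub (arc_left (D.isArc _ _ (hadjH k a)))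
    have hA : D.pos (ι (Sum.inl a)) ∈ S :=
      hsub (arc_right (D.isArc _ _ (hadjH k a)))
    obtain ⟨b, c, hbc, hset⟩ := Set.ncard_eq_two.mp (htwo k 18 S hS hP)
    have hb : D.pos (ι (Sum.inl b)) ∈ S := by
      have : b ∈ {a | D.pos (ι (Sum.inl a)) ∈ S} := by rw [hset]; exact Or.inl rfl
      exact this
    have hc : D.pos (ι (Sum.inl c)) ∈ S := by
      have : c ∈ {a | D.pos (ι (Sum.inl a)) ∈ S} := by rw [hset]; exact Or.inr rfl
      exact this
    by_cases hba : b = a
    · refine ⟨S, c, ?_, hsph S hS, hA, hc, hsub⟩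
      rw [← hba]
      exact hbc.symm
    · exact ⟨S, b, hba, hsph S hS, hA, hb, hsub⟩
  · intro k a
    exact D.isArc _ _ (hadjH k a)
  · intro k a b hba hb
    have := D.thru _ (hadjH k a) _ hb
    rw [Sym2.mem_iff] at this
    rcases this with h | h
    · have := hι h
      simp at this
    · have := hι h
      simp only [Sum.inl.injEq] at this
      exact hba this
  · intro k k' a a' hk z hz hz'
    obtain ⟨w, hw, hw', hzw⟩ := D.cross _ (hadjH k a) _ (hadjH k' a') (by
      intro h
      rw [Sym2.eq_iff] at h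
      rcases h with ⟨h, -⟩ | ⟨h, -⟩
      · have := hι h
        simp only [Sum.inr.injEq, Prod.mk.injEq] at this
        exact hk this.1
      · have := hι h
        simp at this) z hz hz'
    rw [Sym2.mem_iff] at hw hw'
    rcases hw with rfl | rfl
    · rcases hw' with h | h
      · have := hι h
        simp only [Sum.inr.injEq, Prod.mk.injEq] at this
        exact absurd this.1 hk
      · have := hι h
        simp at this
    · rcases hw' with h | h
      · have := hι h
        simp at this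
      · have := hι h
        simp only [Sum.inl.injEq] at this
        exact ⟨this, hzw⟩

end Pool.Agent.Lib.MP_9f365b_co
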