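import Mathlib
import Pool.Agent.Lib.MP_9f365b_co.Stmts

/-!
Common lemmas for the combinatorics of the piece: antichain property for two vertices, triangles.
-/

namespace Pool.Agent.Lib.MP_9f365b_co

lemma PAdj.symm' {i j : Fin 19} (h : PAdj i j) : PAdj j i := Or.symm h

/-- Comparable vertices are equal. -/
lemma PieceConf.anti {G : Fin 4 → Fin 4 → ℝ} {X : Fin 19 → Fin 4 → ℝ} (hA : StAnti)
    (h : PieceConf G X) {w w' : Fin 19} (hle : ∀ c, X w c ≤ X w' c) : w = w' :=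
  h.inj (hA G (X w) (X w') h.ok ((h.quad w).trans (h.quad w').symm) (h.pos w) (h.pos w') hle)

lemma exists_mid (x y z : ℝ) : x ∈ Set.uIcc y z ∨ y ∈ Set.uIcc x z ∨ z ∈ Set.uIcc x y := by
  simp only [Set.mem_uIcc]
  rcases le_total x y with h1 | h1 <;> rcases le_total y z with h2 | h2 <;>
    rcases le_total x z with h3 | h3 <;> simp [h1, h2, h3]

lemma exists_compl2 : ∀ c c' : Fin 4, c ≠ c' →
    ∃ a b : Fin 4, a ≠ b ∧ ∀ x, x ≠ a → x ≠ b → x = c ∨ x = c' := by decide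

/-- Three pairwise adjacent vertices never agree in two coordinates. -/
lemma PieceConf.tri {G : Fin 4 → Fin 4 → ℝ} {X : Fin 19 → Fin 4 → ℝ}
    (h : PieceConf G X) {w1 w2 w3 : Fin 19} (h12 : PAdj w1 w2) (h13 : PAdj w1 w3)
    (h23 : PAdj w2 w3) (n12 : w1 ≠ w2) (n13 : w1 ≠ w3) (n23 : w2 ≠ w3) (c c' : Fin 4)
    (hc : c ≠ c') :
    ¬ (X w1 c = X w2 c ∧ X w2 c = X w3 c ∧ X w1 c' = X w2 c' ∧ X w2 c' = X w3 c') := by
  rintro ⟨e1, e2, e3, e4⟩
  obtain ⟨a, b, hab, hx⟩ := exists_compl2 c c' hc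
  rcases exists_mid (X w1 a) (X w2 a) (X w3 a) with hm | hm | hm
  · refine h.between w2 w3 w1 h23 n12 n13 a b hab (fun x hxa hxb => ?_) hm
    rcases hx x hxa hxb with rfl | rfl
    · exact ⟨e2, e1⟩
    · exact ⟨e4, e3⟩
  · refine h.between w1 w3 w2 h13 n12.symm n23 a b hab (fun x hxa hxb => ?_) hm
    rcases hx x hxa hxb with rfl | rfl
    · exact ⟨e1.trans e2, e1.symm⟩
    · exact ⟨e3.trans e4, e3.symm⟩
  · refine h.between w1 w2 w3 h12 n13.symm n23.symm a b hab (fun x hxa hxb => ?_) hm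
    rcases hx x hxa hxb with rfl | rfl
    · exact ⟨e1, (e1.trans e2).symm⟩
    · exact ⟨e3, (e3.trans e4).symm⟩

end Pool.Agent.Lib.MP_9f365b_co
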