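import Mathlib
import Pool.Agent.Lib.MP_9f365b_co.ShellAux

/-!
F2. The shell of the piece is standard.
-/

namespace Pool.Agent.Lib.MP_9f365b_co

/-- vertices of the row `a`: the centre and the `p a b` -/
def rowV (a i : Fin 4) : Fin 19 := if i = a then 0 else pI a i

/-- vertices of the column `b`: the centre and the `p a b` -/
def colV (b i : Fin 4) : Fin 19 := if i = b then 0 else pI i b

set_option maxRecDepth 100000 in
lemma rowV_adj : ∀ a i j, i ≠ j → PAdj (rowV a i) (rowV a j) := by decide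

set_option maxRecDepth 100000 in
lemma colV_adj : ∀ a i j, i ≠ j → PAdj (colV a i) (colV a j) := by decide

lemma rowV_inj : ∀ a i j, i ≠ j → rowV a i ≠ rowV a j := by decide

lemma colV_inj : ∀ a i j, i ≠ j → colV a i ≠ colV a j := by decide

lemma pI_inj : ∀ a b a' b' : Fin 4, a ≠ b → a' ≠ b' → (a ≠ a' ∨ b ≠ b') → pI a b ≠ pI a' b' := by
  decide

lemma pI_ne_zero : ∀ a b : Fin 4, a ≠ b → pI a b ≠ 0 := by decide

set_option maxRecDepth 100000 in
lemma pI_adj_zero : ∀ a b : Fin 4, a ≠ b → PAdj 0 (pI a b) := by decide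

lemma exists_ne2 : ∀ a b : Fin 4, ∃ e : Fin 4, e ≠ a ∧ e ≠ b := by decide

/-- F1 applied to four pairwise adjacent vertices. -/
lemma PieceConf.k4 {G : Fin 4 → Fin 4 → ℝ} {X : Fin 19 → Fin 4 → ℝ} (hK : StK4)
    (h : PieceConf G X) (V : Fin 4 → Fin 19) (hadj : ∀ i j, i ≠ j → PAdj (V i) (V j))
    (hne : ∀ i j, i ≠ j → V i ≠ V j) :
    ∃ (β : Fin 4 → ℝ) (π : Equiv.Perm (Fin 4)),
      ∀ i, X (V i) (π i) ≠ β (π i) ∧ ∀ c, c ≠ π i → X (V i) c = β c := by
  refine hK G (fun i => X (V i)) h.ok (fun i => h.quad _) (fun i => h.pos _) ?_ ?_ ?_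
  · intro i j hij
    by_contra hne'
    exact hne i j hne' (h.inj hij)
  · intro i j hij
    exact h.edge _ _ (hadj i j hij)
  · intro i j k hij hik hjk c c' hc
    exact h.tri (hadj i j hij) (hadj i k hik) (hadj j k hjk) (hne i j hij) (hne i k hik)
      (hne j k hjk) c c' hc

/-- `(*)`: two shell vertices which differ from the centre in the same coordinates. -/
lemma PieceConf.opp {G : Fin 4 → Fin 4 → ℝ} {X : Fin 19 → Fin 4 → ℝ}
    (h : PieceConf G X) {p q : Fin 19} (hp : PAdj 0 p) (hq : PAdj 0 q) (p0 : p ≠ 0) (q0 : q ≠ 0)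
    (hpq : p ≠ q) {s t : Fin 4} (hst : s ≠ t) (h1 : ∀ c, c ≠ s → c ≠ t → X p c = X 0 c)
    (h2 : ∀ c, c ≠ s → c ≠ t → X q c = X 0 c) :
    (X p s - X 0 s) * (X q s - X 0 s) < 0 := by
  have b1 := h.between 0 p q hp q0 hpq.symm s t hst
    (fun c hc hc' => ⟨(h1 c hc hc').symm, h2 c hc hc'⟩)
  have b2 := h.between 0 q p hq p0 hpq s t hst
    (fun c hc hc' => ⟨(h2 c hc hc').symm, h1 c hc hc'⟩)
  rw [Set.mem_uIcc] at b1 b2
  push Not at b1 b2
  by_contra hcon
  push Not at hcon
  rcases mul_nonneg_iff.1 hcon with ⟨k1, k2⟩ | ⟨k1, k2⟩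
  · rcases le_total (X p s) (X q s) with hle | hle
    · have := b2.1 (by linarith)
      linarith
    · have := b1.1 (by linarith)
      linarith
  · rcases le_total (X p s) (X q s) with hle | hle
    · have := b1.2 (by linarith)
      linarith
    · have := b2.2 (by linarith)
      linarith

theorem stShell (hA : StAnti) (hK : StK4) : StShell := by
  intro G X h
  have hrow : ∀ a, ∃ (β : Fin 4 → ℝ) (π : Equiv.Perm (Fin 4)),
      ∀ i, X (rowV a i) (π i) ≠ β (π i) ∧ ∀ c, c ≠ π i → X (rowV a i) c = β c :=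
    fun a => h.k4 hK (rowV a) (rowV_adj a) (rowV_inj a)
  have hcol : ∀ a, ∃ (β : Fin 4 → ℝ) (π : Equiv.Perm (Fin 4)),
      ∀ i, X (colV a i) (π i) ≠ β (π i) ∧ ∀ c, c ≠ π i → X (colV a i) c = β c :=
    fun a => h.k4 hK (colV a) (colV_adj a) (colV_inj a)
  choose β ρ hρ using hrow
  choose β' κ hκ using hcol
  -- rows
  have r0 : ∀ a, X 0 (ρ a a) ≠ β a (ρ a a) ∧ ∀ c, c ≠ ρ a a → X 0 c = β a c := by
    intro a
    have := hρ a a
    simpa [rowV] using this
  have r1 : ∀ a b, a ≠ b → X (pI a b) (ρ a b) ≠ β a (ρ a b) ∧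
      ∀ c, c ≠ ρ a b → X (pI a b) c = β a c := by
    intro a b hab
    have := hρ a b
    simpa [rowV, hab.symm] using this
  have c0 : ∀ a, X 0 (κ a a) ≠ β' a (κ a a) ∧ ∀ c, c ≠ κ a a → X 0 c = β' a c := by
    intro a
    have := hκ a a
    simpa [colV] using this
  have c1 : ∀ a b, a ≠ b → X (pI a b) (κ b a) ≠ β' b (κ b a) ∧
      ∀ c, c ≠ κ b a → X (pI a b) c = β' b c := by
    intro a b hab
    have := hκ b a
    simpa [colV, hab] using this
  obtain ⟨al, hal⟩ : ∃ al : Fin 4 → ℝ, ∀ a, al a = β a (ρ a a) - X 0 (ρ a a) := ⟨_, fun _ => rfl⟩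
  obtain ⟨al', hal'⟩ : ∃ al' : Fin 4 → ℝ, ∀ a, al' a = β' a (κ a a) - X 0 (κ a a) :=
    ⟨_, fun _ => rfl⟩
  have hal0 : ∀ a, al a ≠ 0 := fun a => by
    rw [hal]; exact sub_ne_zero.2 (r0 a).1.symm
  have hal0' : ∀ a, al' a ≠ 0 := fun a => by
    rw [hal']; exact sub_ne_zero.2 (c0 a).1.symm
  -- differences
  have s1 : ∀ a b, a ≠ b → X (pI a b) (ρ a a) - X 0 (ρ a a) = al a := by
    intro a b hab
    rw [hal, (r1 a b hab).2 _ (fun e => hab ((ρ a).injective e))]
  have s2 : ∀ a b, a ≠ b → X (pI a b) (κ b b) - X 0 (κ b b) = al' b := by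
    intro a b hab
    rw [hal', (c1 a b hab).2 _ (fun e => hab ((κ b).injective e.symm))]
  have off1 : ∀ a b, a ≠ b → ∀ c, c ≠ ρ a a → c ≠ ρ a b → X (pI a b) c = X 0 c := by
    intro a b hab c hc hc'
    rw [(r1 a b hab).2 c hc', (r0 a).2 c hc]
  have off2 : ∀ a b, a ≠ b → ∀ c, c ≠ κ b b → c ≠ κ b a → X (pI a b) c = X 0 c := by
    intro a b hab c hc hc'
    rw [(c1 a b hab).2 c hc', (c0 b).2 c hc]
  -- claim K
  have hK1 : ∀ a b, a ≠ b → ρ a a ≠ κ b b := by
    intro a b hab heq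
    have e1 : al a = al' b := by
      rw [← s1 a b hab, ← s2 a b hab, heq]
    obtain ⟨e, he1, he2⟩ := exists_ne2 (ρ a a) (ρ a b)
    have hx : ρ a ((ρ a).symm e) = e := (ρ a).apply_symm_apply e
    have hy : κ b ((κ b).symm e) = e := (κ b).apply_symm_apply e
    set x := (ρ a).symm e
    set y := (κ b).symm e
    have hxa : a ≠ x := by
      intro hh
      rw [← hh] at hx
      exact he1 hx.symm
    have hxb : x ≠ b := by
      intro hh
      rw [hh] at hx
      exact he2 hx.symm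
    have hyb : y ≠ b := by
      intro hh
      rw [hh] at hy
      exact he1 (hy.symm.trans heq.symm)
    have hst := h.opp (pI_adj_zero a x hxa) (pI_adj_zero y b hyb) (pI_ne_zero a x hxa)
      (pI_ne_zero y b hyb) (pI_inj a x y b hxa hyb (Or.inr hxb)) (s := ρ a a) (t := e) he1.symm
      (fun c hc hc' => off1 a x hxa c hc (by rw [hx]; exact hc'))
      (fun c hc hc' => off2 y b hyb c (by rw [← heq]; exact hc) (by rw [hy]; exact hc'))
    rw [s1 a x hxa] at hst
    have s2' := s2 y b hyb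
    rw [← heq] at s2'
    rw [s2', ← e1] at hst
    nlinarith [mul_self_nonneg (al a)]
  have hmem1 : ∀ a b, a ≠ b → κ b b = ρ a b := by
    intro a b hab
    by_contra hne
    have := off1 a b hab (κ b b) (hK1 a b hab).symm hne
    have s2' := s2 a b hab
    rw [this, sub_self] at s2'
    exact hal0' b s2'.symm
  have hminj : ∀ b b', b ≠ b' → κ b b ≠ κ b' b' := by
    intro b b' hbb heq
    obtain ⟨a, ha, ha'⟩ := exists_ne2 b b'
    rw [hmem1 a b ha, hmem1 a b' ha'] at heq
    exact hbb ((ρ a).injective heq)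
  have hlm : ∀ a, ρ a a = κ a a := by
    intro a
    have hz : ρ a ((ρ a).symm (κ a a)) = κ a a := (ρ a).apply_symm_apply _
    set z := (ρ a).symm (κ a a)
    by_cases hza : z = a
    · rw [hza] at hz
      exact hz
    · exfalso
      rw [← hmem1 a z (Ne.symm hza)] at hz
      exact hminj z a hza hz
  have hbij : Function.Bijective (fun b => κ b b) := by
    rw [Fintype.bijective_iff_injective_and_card]
    refine ⟨fun b b' hbb => ?_, rfl⟩
    by_contra hne
    exact hminj b b' hne hbb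
  obtain ⟨σ, hσ⟩ : ∃ σ : Equiv.Perm (Fin 4), ∀ b, σ b = κ b b :=
    ⟨Equiv.ofBijective _ hbij, fun b => rfl⟩
  have t1 : ∀ a b, a ≠ b → X (pI a b) (σ a) - X 0 (σ a) = al a := by
    intro a b hab
    rw [hσ, ← hlm]
    exact s1 a b hab
  have t2 : ∀ a b, a ≠ b → X (pI a b) (σ b) - X 0 (σ b) = al' b := by
    intro a b hab
    rw [hσ]
    exact s2 a b hab
  have toff : ∀ a b, a ≠ b → ∀ c, c ≠ σ a → c ≠ σ b → X (pI a b) c = X 0 c := by
    intro a b hab c hc hc'
    refine off1 a b hab c ?_ ?_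
    · rw [hlm, ← hσ]; exact hc
    · rw [← hmem1 a b hab, ← hσ]; exact hc'
  refine ⟨σ, al, al', ?_, ?_⟩
  · intro a b
    by_cases hab : a = b
    · subst hab
      obtain ⟨b, hb, _⟩ := exists_ne2 a a
      have hσab : σ a ≠ σ b := fun e => hb (σ.injective e).symm
      have hst := h.opp (pI_adj_zero a b hb.symm) (pI_adj_zero b a hb) (pI_ne_zero a b hb.symm)
        (pI_ne_zero b a hb) (pI_inj a b b a hb.symm hb (Or.inl hb.symm)) (s := σ a) (t := σ b)
        hσab (fun c hc hc' => toff a b hb.symm c hc hc')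
        (fun c hc hc' => toff b a hb c hc' hc)
      rw [t1 a b hb.symm, t2 b a hb] at hst
      exact hst
    · have hσab : σ a ≠ σ b := fun e => hab (σ.injective e)
      by_contra hcon
      push Not at hcon
      have u1 := t1 a b hab
      have u2 := t2 a b hab
      rcases mul_nonneg_iff.1 hcon with ⟨k1, k2⟩ | ⟨k1, k2⟩
      · refine pI_ne_zero a b hab (h.anti hA (w := 0) (w' := pI a b) fun c => ?_).symm
        by_cases hc : c = σ a
        · rw [hc]; linarith
        · by_cases hc' : c = σ b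
          · rw [hc']; linarith
          · rw [toff a b hab c hc hc']
      · refine pI_ne_zero a b hab (h.anti hA (w := pI a b) (w' := 0) fun c => ?_)
        by_cases hc : c = σ a
        · rw [hc]; linarith
        · by_cases hc' : c = σ b
          · rw [hc']; linarith
          · rw [toff a b hab c hc hc']
  · intro a b hab c
    have hσab : σ a ≠ σ b := fun e => hab (σ.injective e)
    by_cases hc : c = σ a
    · rw [if_pos hc, if_neg (by rw [hc]; exact hσab), hc, ← t1 a b hab]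
      ring
    · rw [if_neg hc]
      by_cases hc' : c = σ b
      · rw [if_pos hc', hc', ← t2 a b hab]
        ring
      · rw [if_neg hc', toff a b hab c hc hc']
        ring

end Pool.Agent.Lib.MP_9f365b_co
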