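import Pool.Agent.Lib.MP_9f365b_co.Stmts

/-!
F4, G1: the piece off the sphere of the hubs is equifacial up to scaling, and its centre is unique.
-/

namespace Pool.Agent.Lib.MP_9f365b_co

namespace SigmaAux

/-- symmetric with zero diagonal -/
structure SD (G : Fin 4 → Fin 4 → ℝ) : Prop where
  symm : ∀ a b, G a b = G b a
  diag : ∀ a, G a a = 0

lemma qq_add {G : Fin 4 → Fin 4 → ℝ} (h : SD G) (v δ : Fin 4 → ℝ) :
    QQ G (fun c => v c + δ c) = QQ G v + 2 * ∑ c, δ c * LL G v c + QQ G δ := by
  have s10 := h.symm 1 0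
  have s20 := h.symm 2 0
  have s30 := h.symm 3 0
  have s21 := h.symm 2 1
  have s31 := h.symm 3 1
  have s32 := h.symm 3 2
  simp only [QQ, LL, Fin.sum_univ_four]
  rw [s10, s20, s30, s21, s31, s32]
  ring

lemma sum_two (a b : Fin 4) (x y : ℝ) (k : Fin 4 → ℝ) :
    ∑ c, ((if c = a then x else 0) + (if c = b then y else 0)) * k c = x * k a + y * k b := by
  simp [add_mul, Finset.sum_add_distrib]

lemma sum_three (a b d : Fin 4) (x y z : ℝ) (k : Fin 4 → ℝ) :
    ∑ c, ((if c = a then x else 0) + (if c = b then y else 0) + (if c = d then z else 0)) * k c =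
      x * k a + y * k b + z * k d := by
  simp [add_mul, Finset.sum_add_distrib]

lemma qq_eq (G : Fin 4 → Fin 4 → ℝ) (δ : Fin 4 → ℝ) :
    QQ G δ = ∑ a, δ a * ∑ b, δ b * G a b := by
  unfold QQ
  apply Finset.sum_congr rfl
  intro a _
  rw [Finset.mul_sum]
  apply Finset.sum_congr rfl
  intro b _
  ring

lemma rel2 {G : Fin 4 → Fin 4 → ℝ} (h : SD G) (v : Fin 4 → ℝ) (x y : ℝ) (a b : Fin 4) :
    QQ G (fun c => v c + ((if c = a then x else 0) + (if c = b then y else 0))) =
      QQ G v + 2 * (x * LL G v a + y * LL G v b + G a b * x * y) := by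
  rw [qq_add h, sum_two, qq_eq G (fun c => (if c = a then x else 0) + (if c = b then y else 0))]
  have e : ∀ a', ∑ b', ((if b' = a then x else 0) + (if b' = b then y else 0)) * G a' b' =
      x * G a' a + y * G a' b := fun a' => sum_two a b x y (G a')
  simp only [e]
  rw [sum_two a b x y (fun a' => x * G a' a + y * G a' b)]
  rw [h.diag a, h.diag b, h.symm b a]
  ring

lemma rel3 {G : Fin 4 → Fin 4 → ℝ} (h : SD G) (v : Fin 4 → ℝ) (x y z : ℝ) (a b d : Fin 4) :
    QQ G (fun c => v c + ((if c = a then x else 0) + (if c = b then y else 0) +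
        (if c = d then z else 0))) =
      QQ G v + 2 * (x * LL G v a + y * LL G v b + z * LL G v d + G a b * x * y + G a d * x * z +
        G b d * y * z) := by
  rw [qq_add h, sum_three, qq_eq G (fun c => (if c = a then x else 0) +
    (if c = b then y else 0) + (if c = d then z else 0))]
  have e : ∀ a', ∑ b', ((if b' = a then x else 0) + (if b' = b then y else 0) +
      (if b' = d then z else 0)) * G a' b' = x * G a' a + y * G a' b + z * G a' d :=
    fun a' => sum_three a b d x y z (G a')
  simp only [e]
  rw [sum_three a b d x y z (fun a' => x * G a' a + y * G a' b + z * G a' d)]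
  rw [h.diag a, h.diag b, h.diag d, h.symm b a, h.symm d a, h.symm d b]
  ring

/-- the algebra of one relation of a vertex `y^c_a` -/
lemma yrel {ga gd gb E Db Dd ta tb td κ : ℝ} (hb : tb * Db = -1) (hd : td * Dd = -1)
    (h1 : ga = ta + tb + κ) (h2 : gd = ta + td + κ) (h3 : gb = tb + td + κ)
    (h : E + Db + Dd + ga * E * Db + gd * E * Dd + gb * Db * Dd = 0) :
    E * (tb * td + ta * tb + ta * td + κ * (tb + td)) = κ := by
  have h4 : tb * td * (E + Db + Dd + ga * E * Db + gd * E * Dd + gb * Db * Dd) = 0 := by
    rw [h, mul_zero]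
  have h5 : tb * td * (E + Db + Dd + ga * E * Db + gd * E * Dd + gb * Db * Dd) =
      E * (tb * td) + (tb * Db) * td + (td * Dd) * tb + ga * E * (tb * Db) * td +
        gd * E * (td * Dd) * tb + gb * (tb * Db) * (td * Dd) := by ring
  rw [h5, hb, hd, h1, h2, h3] at h4
  linarith

end SigmaAux

open SigmaAux

/-- F4. -/
theorem stSigma : StSigma := by
  intro G X hP σ α α' hS hY0 hY1
  -- rename the coordinates
  set H : Fin 4 → Fin 4 → ℝ := fun a b => G (σ a) (σ b) with hH
  have hSD : SD H := ⟨fun a b => hP.ok.symm _ _, fun a => hP.ok.diag _⟩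
  have hLL : ∀ (x : Fin 4 → ℝ) (a : Fin 4), LL H (fun c => x (σ c)) a = LL G x (σ a) := by
    intro x a
    unfold LL
    exact Equiv.sum_comp σ (fun c => G c (σ a) * x c)
  have hQQ : ∀ x : Fin 4 → ℝ, QQ H (fun c => x (σ c)) = QQ G x := by
    intro x
    unfold QQ
    rw [← Equiv.sum_comp σ (fun a => ∑ b, G a b * x a * x b)]
    apply Finset.sum_congr rfl
    intro a _
    exact Equiv.sum_comp σ (fun b => G (σ a) b * x (σ a) * x b)
  set v : Fin 4 → ℝ := fun c => X 0 (σ c) with hv
  set L : Fin 4 → ℝ := fun a => LL G (X 0) (σ a) with hL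
  have hLpos : ∀ a, 0 < L a := fun a => hP.pos 0 _
  have hLv : ∀ a, LL H v a = L a := fun a => hLL (X 0) a
  have hQv : QQ H v = 2 := by rw [hv, hQQ, hP.quad]
  obtain ⟨hneg, hsh⟩ := hS
  -- the relations of the shell
  have hrel : ∀ a b, a ≠ b → α a * L a + α' b * L b + H a b * α a * α' b = 0 := by
    intro a b hab
    have h1 : QQ H (fun c => X (pI a b) (σ c)) = 2 := by rw [hQQ, hP.quad]
    have h2 : (fun c => X (pI a b) (σ c)) =
        fun c => v c + ((if c = a then α a else 0) + (if c = b then α' b else 0)) := by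
      funext c
      rw [hsh a b hab (σ c)]
      simp only [EmbeddingLike.apply_eq_iff_eq, hv]
      ring
    rw [h2, rel2 hSD, hQv, hLv, hLv] at h1
    linarith
  have hα : ∀ a, α a ≠ 0 := by
    intro a h
    have := hneg a a
    rw [h, zero_mul] at this
    exact lt_irrefl _ this
  have hα' : ∀ a, α' a ≠ 0 := by
    intro a h
    have := hneg a a
    rw [h, mul_zero] at this
    exact lt_irrefl _ this
  set D : Fin 4 → ℝ := fun a => α a * L a with hD
  set D' : Fin 4 → ℝ := fun a => α' a * L a with hD'
  have hD0 : ∀ a, D a ≠ 0 := fun a => mul_ne_zero (hα a) (hLpos a).ne'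
  have hD0' : ∀ a, D' a ≠ 0 := fun a => mul_ne_zero (hα' a) (hLpos a).ne'
  set g : Fin 4 → Fin 4 → ℝ := fun a b => H a b / (L a * L b) with hg
  have hgs : ∀ a b, g a b = g b a := by
    intro a b
    simp only [hg]
    rw [hSD.symm a b, mul_comm (L a)]
  have hHg : ∀ a b, H a b = g a b * (L a * L b) := by
    intro a b
    simp only [hg]
    have := (hLpos a).ne'
    have := (hLpos b).ne'
    field_simp
  have hgpos : ∀ a b, a ≠ b → 0 < g a b := by
    intro a b hab
    have h1 : 0 < H a b := hP.ok.pos _ _ (fun h => hab (σ.injective h))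
    exact div_pos h1 (mul_pos (hLpos a) (hLpos b))
  have hrel2 : ∀ a b, a ≠ b → D a + D' b + g a b * D a * D' b = 0 := by
    intro a b hab
    have h1 := hrel a b hab
    rw [hHg] at h1
    simp only [hD, hD']
    linarith
  -- reciprocals
  set s : Fin 4 → ℝ := fun a => -1 / D a with hs
  set t : Fin 4 → ℝ := fun a => -1 / D' a with ht
  have hsD : ∀ a, s a * D a = -1 := by
    intro a
    simp only [hs]
    have := hD0 a
    field_simp
  have htD : ∀ a, t a * D' a = -1 := by
    intro a
    simp only [ht]
    have := hD0' a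
    field_simp
  have hgst : ∀ a b, a ≠ b → g a b = s a + t b := by
    intro a b hab
    have h1 := hrel2 a b hab
    have h2 : s a * t b * (D a + D' b + g a b * D a * D' b) = 0 := by rw [h1, mul_zero]
    have h3 : s a * t b * (D a + D' b + g a b * D a * D' b) =
        (s a * D a) * t b + (t b * D' b) * s a + g a b * (s a * D a) * (t b * D' b) := by ring
    rw [h3, hsD, htD] at h2
    linarith
  -- the constant difference
  set κ : ℝ := s 0 - t 0 with hκ
  have hst : ∀ a, s a = t a + κ := by
    intro a
    by_cases ha : a = 0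
    · rw [ha, hκ]; ring
    · have h1 := hgst a 0 ha
      have h2 := hgst 0 a (Ne.symm ha)
      have h3 := hgs a 0
      rw [h1, h2] at h3
      rw [hκ]
      linarith
  have hκ0 : κ ≠ 0 := by
    intro h
    have h1 : s 0 = t 0 := by rw [hst 0, h, add_zero]
    have h2 : s 0 * t 0 < 0 := by
      have h3 : s 0 * t 0 * (D 0 * D' 0) = 1 := by
        have : s 0 * t 0 * (D 0 * D' 0) = (s 0 * D 0) * (t 0 * D' 0) := by ring
        rw [this, hsD, htD]
        norm_num
      have h4 : D 0 * D' 0 < 0 := by
        have : D 0 * D' 0 = (α 0 * α' 0) * (L 0 * L 0) := by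
          simp only [hD, hD']
          ring
        rw [this]
        exact mul_neg_of_neg_of_pos (hneg 0 0) (mul_pos (hLpos 0) (hLpos 0))
      by_contra h5
      rw [not_lt] at h5
      have := mul_nonpos_of_nonneg_of_nonpos h5 h4.le
      linarith
    rw [h1] at h2
    have := mul_self_nonneg (t 0)
    linarith
  have hgt : ∀ a b, a ≠ b → g a b = t a + t b + κ := by
    intro a b hab
    rw [hgst a b hab, hst a]
    ring
  -- the relations of the vertices `y`
  have hyrel : ∀ a b d c, a ≠ b → a ≠ d → b ≠ d → c ≠ a → c ≠ b → c ≠ d → ∀ Y,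
      YStd X σ α' a c Y → (Y - v a) * L a * (t b * t d + t a * t b + t a * t d +
        κ * (t b + t d)) = κ := by
    intro a b d c hab had hbd hca hcb hcd Y hY
    obtain ⟨y1, y2, y3⟩ := hY
    have h1 : QQ H (fun e => X (yI a c) (σ e)) = 2 := by rw [hQQ, hP.quad]
    have h2 : (fun e => X (yI a c) (σ e)) =
        fun e => v e + ((if e = a then Y - v a else 0) + (if e = b then α' b else 0) +
          (if e = d then α' d else 0)) := by
      funext e
      have hall : ∀ a b d c e : Fin 4, a ≠ b → a ≠ d → b ≠ d → c ≠ a → c ≠ b → c ≠ d →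
          e = a ∨ e = b ∨ e = d ∨ e = c := by decide
      rcases hall a b d c e hab had hbd hca hcb hcd with rfl | rfl | rfl | rfl
      · rw [y1, if_pos rfl, if_neg hab, if_neg had]
        ring
      · rw [y3 e hab.symm hcb.symm, if_neg hab.symm, if_pos rfl, if_neg hbd]
        simp only [hv]
        ring
      · rw [y3 e had.symm hcd.symm, if_neg had.symm, if_neg hbd.symm, if_pos rfl]
        simp only [hv]
        ring
      · rw [y2, if_neg hca, if_neg hcb, if_neg hcd]
        simp only [hv]
        ring
    rw [h2, rel3 hSD, hQv, hLv, hLv, hLv, hHg, hHg, hHg] at h1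
    have h3 : (Y - v a) * L a + D' b + D' d + g a b * ((Y - v a) * L a) * D' b +
        g a d * ((Y - v a) * L a) * D' d + g b d * D' b * D' d = 0 := by
      simp only [hD']
      linarith
    exact yrel (htD b) (htD d) (hgt a b hab) (hgt a d had) (hgt b d hbd) h3
  -- comparison of two vertices with the same new coordinate
  have hcomp : ∀ E a c e d, a ≠ d → E * (t e * t d + t a * t e + t a * t d +
      κ * (t e + t d)) = κ → E * (t c * t d + t a * t c + t a * t d + κ * (t c + t d)) = κ →
      t e = t c := by
    intro E a c e d had h1 h2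
    have hE : E ≠ 0 := by
      rintro rfl
      rw [zero_mul] at h1
      exact hκ0 h1.symm
    have h3 : E * ((t e - t c) * (t a + t d + κ)) = 0 := by
      have : E * ((t e - t c) * (t a + t d + κ)) =
          E * (t e * t d + t a * t e + t a * t d + κ * (t e + t d)) -
          E * (t c * t d + t a * t c + t a * t d + κ * (t c + t d)) := by ring
      rw [this, h1, h2, sub_self]
    have h4 : 0 < t a + t d + κ := by
      rw [← hgt a d had]
      exact hgpos a d had
    rcases mul_eq_zero.mp h3 with h5 | h5
    · exact absurd h5 hE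
    · rcases mul_eq_zero.mp h5 with h6 | h6
      · linarith
      · exact absurd h6 h4.ne'
  obtain ⟨Y, hY2, hY3, hY1'⟩ := hY0
  obtain ⟨Z, hZ2, hZ0⟩ := hY1
  -- a = 0: c = 2, 3, 1
  have e2' := hyrel 0 3 1 2 (by decide) (by decide) (by decide) (by decide) (by decide)
    (by decide) Y hY2
  have e3' := hyrel 0 2 1 3 (by decide) (by decide) (by decide) (by decide) (by decide)
    (by decide) Y hY3
  have t23 : t 3 = t 2 := hcomp _ 0 2 3 1 (by decide) e2' e3'
  have e2'' := hyrel 0 1 3 2 (by decide) (by decide) (by decide) (by decide) (by decide)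
    (by decide) Y hY2
  have e1'' := hyrel 0 2 3 1 (by decide) (by decide) (by decide) (by decide) (by decide)
    (by decide) Y hY1'
  have t12 : t 1 = t 2 := hcomp _ 0 2 1 3 (by decide) e2'' e1''
  have f2 := hyrel 1 0 3 2 (by decide) (by decide) (by decide) (by decide) (by decide)
    (by decide) Z hZ2
  have f0 := hyrel 1 2 3 0 (by decide) (by decide) (by decide) (by decide) (by decide)
    (by decide) Z hZ0
  have t02 : t 0 = t 2 := hcomp _ 1 2 0 3 (by decide) f2 f0
  have htall : ∀ a, t a = t 2 := by
    intro a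
    fin_cases a
    · exact t02
    · exact t12
    · rfl
    · exact t23
  refine ⟨2 * t 2 + κ, ?_⟩
  intro a b hab
  have h1 : σ.symm a ≠ σ.symm b := fun h => hab (σ.symm.injective h)
  have h2 := hHg (σ.symm a) (σ.symm b)
  rw [hgt _ _ h1, htall (σ.symm a), htall (σ.symm b)] at h2
  simp only [hH, hL, Equiv.apply_symm_apply] at h2
  rw [h2]
  ring

/-- G1. -/
theorem stCentre : StCentre := by
  intro G X Y t s hG hqX hqY hX hY ht hs
  -- the products
  have key : ∀ (X : Fin 4 → ℝ) (t : ℝ), QQ G X = 2 → (∀ a, 0 < LL G X a) →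
      (∀ a b, a ≠ b → G a b = t * (LL G X a * LL G X b)) →
      (∀ a, LL G X a * X a = 1 / 2) ∧ t = 2 / 3 := by
    intro X t hq hX ht
    have hsum : ∀ a, t * (∑ b, LL G X b * X b - LL G X a * X a) = 1 := by
      intro a
      have h1 : LL G X a = t * LL G X a * (∑ b, LL G X b * X b - LL G X a * X a) := by
        have h2 : ∀ b, G b a * X b = t * LL G X a * (LL G X b * X b) -
            (if b = a then t * LL G X a * (LL G X a * X a) else 0) := by
          intro b
          by_cases hb : b = a
          · rw [hb, hG.diag, if_pos rfl]; ring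
          · rw [ht b a hb, if_neg hb]; ring
        calc LL G X a = ∑ b, G b a * X b := rfl
          _ = ∑ b, (t * LL G X a * (LL G X b * X b) -
            (if b = a then t * LL G X a * (LL G X a * X a) else 0)) :=
              Finset.sum_congr rfl (fun b _ => h2 b)
          _ = _ := by
            rw [Finset.sum_sub_distrib, ← Finset.mul_sum, Finset.sum_ite_eq']
            simp only [Finset.mem_univ, if_true]
            ring
      have h3 := (hX a).ne'
      have h4 : LL G X a * 1 = LL G X a *
          (t * (∑ b, LL G X b * X b - LL G X a * X a)) := by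
        rw [mul_one]
        calc LL G X a = t * LL G X a * (∑ b, LL G X b * X b - LL G X a * X a) := h1
          _ = _ := by ring
      exact (mul_left_cancel₀ h3 h4).symm
    have ht0 : t ≠ 0 := by
      rintro rfl
      have := hsum 0
      rw [zero_mul] at this
      exact zero_ne_one this
    have heq : ∀ a, LL G X a * X a = LL G X 0 * X 0 := by
      intro a
      have h1 := hsum a
      rw [← hsum 0] at h1
      have := mul_left_cancel₀ ht0 h1
      linarith
    have hq2 : ∑ b, LL G X b * X b = 2 := by
      rw [← hq]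
      unfold QQ LL
      rw [Finset.sum_comm]
      apply Finset.sum_congr rfl
      intro b _
      rw [Finset.sum_mul]
    have h5 : ∑ b, LL G X b * X b = 4 * (LL G X 0 * X 0) := by
      rw [Finset.sum_congr rfl (fun b _ => heq b)]
      simp
    have h6 : LL G X 0 * X 0 = 1 / 2 := by linarith
    refine ⟨fun a => by rw [heq a, h6], ?_⟩
    have h7 := hsum 0
    rw [hq2, h6] at h7
    linarith
  obtain ⟨kX, tX⟩ := key X t hqX hX ht
  obtain ⟨kY, tY⟩ := key Y s hqY hY hs
  have hprod : ∀ a b, a ≠ b → LL G X a * LL G X b = LL G Y a * LL G Y b := by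
    intro a b hab
    have h1 := ht a b hab
    rw [hs a b hab, tX, tY] at h1
    linarith
  funext a
  obtain ⟨b, c, hab, hac, hbc⟩ : ∃ b c : Fin 4, a ≠ b ∧ a ≠ c ∧ b ≠ c := by
    revert a
    decide
  have h1 := hprod a b hab
  have h2 := hprod a c hac
  have h3 := hprod b c hbc
  have h4 : LL G X a = LL G Y a := by
    have pa := hX a
    have pb := hX b
    have pc := hX c
    have qa := hY a
    have qb := hY b
    have qc := hY c
    have h5 : LL G X a ^ 2 * (LL G X b * LL G X c) = LL G Y a ^ 2 * (LL G X b * LL G X c) := by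
      calc LL G X a ^ 2 * (LL G X b * LL G X c) =
          (LL G X a * LL G X b) * (LL G X a * LL G X c) := by ring
        _ = (LL G Y a * LL G Y b) * (LL G Y a * LL G Y c) := by rw [h1, h2]
        _ = LL G Y a ^ 2 * (LL G Y b * LL G Y c) := by ring
        _ = _ := by rw [← h3]
    have h6 := mul_right_cancel₀ (mul_pos pb pc).ne' h5
    exact (pow_left_inj₀ pa.le qa.le two_ne_zero).mp h6
  have h7 := kX a
  rw [← kY a, h4] at h7
  exact mul_left_cancel₀ (hY a).ne' h7

end Pool.Agent.Lib.MP_9f365b_co
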