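import Mathlib
import Pool.Agent.Lib.MP_9f365b_co.Stmts

/-! The drawing of the base graph in `ℝ^4` (module L). -/

namespace Pool.Agent.Lib.MP_9f365b_co

namespace UB

theorem hubPt_two (a : Fin 4) : hubPt a 2 = 0 := by
  unfold hubPt
  split_ifs <;> simp

theorem hubPt_inj : Function.Injective hubPt := by
  have h3 : (0:ℝ) < √3 := by positivity
  intro a b hab
  have h0 := congrArg (fun p : E 3 => p 0) hab
  have h1 := congrArg (fun p : E 3 => p 1) hab
  simp only [hubPt] at h0 h1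
  fin_cases a <;> fin_cases b <;> simp at h0 h1 ⊢ <;> linarith

/-- the angle of page `k` -/
noncomputable def th (N : ℕ) (k : Fin N) : ℝ := (k.val : ℝ) * Real.pi / N

theorem th_nonneg (N : ℕ) (k : Fin N) : 0 ≤ th N k := by
  unfold th; positivity

theorem th_lt (N : ℕ) (k : Fin N) : th N k < Real.pi := by
  unfold th
  have hN : (0:ℝ) < N := by exact_mod_cast (Nat.zero_le _).trans_lt k.isLt
  rw [div_lt_iff₀ hN, mul_comm]
  have : (k.val : ℝ) < N := by exact_mod_cast k.isLt
  exact mul_lt_mul_of_pos_left this Real.pi_pos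

theorem th_inj (N : ℕ) (k k' : Fin N) (h : th N k = th N k') : k = k' := by
  unfold th at h
  have hN : (0:ℝ) < N := by exact_mod_cast (Nat.zero_le _).trans_lt k.isLt
  have h1 : (k.val : ℝ) * Real.pi = k'.val * Real.pi := by
    field_simp at h
    rw [h]
  have h2 : (k.val : ℝ) = k'.val := mul_right_cancel₀ Real.pi_pos.ne' h1
  exact Fin.ext (by exact_mod_cast h2)

variable {N : ℕ}

theorem edge_cases {e : Sym2 (Fin 4 ⊕ (Fin N × Fin 19))} (he : e ∈ (baseG N).edgeSet) :
    (∃ k w w', PAdj w w' ∧ e = s(Sum.inr (k, w), Sum.inr (k, w'))) ∨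
      ∃ k a, e = s(Sum.inl a, Sum.inr (k, (18 : Fin 19))) := by
  induction e using Sym2.ind with
  | _ x y =>
    rw [SimpleGraph.mem_edgeSet] at he
    rcases he with ⟨k, w, w', rfl, rfl, h⟩ | ⟨a, k, rfl, rfl⟩ | ⟨a, k, rfl, rfl⟩
    · exact Or.inl ⟨k, w, w', h, rfl⟩
    · exact Or.inr ⟨k, a, rfl⟩
    · exact Or.inr ⟨k, a, Sym2.eq_swap⟩

/-- the arcs of the drawing -/
def arcs (JD : Sym2 (Fin 19) → Set (E 3)) (JH : Fin 4 → Set (E 3))
    (e : Sym2 (Fin 4 ⊕ (Fin N × Fin 19))) : Set (E 4) :=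
  {z | (∃ k w w', PAdj w w' ∧ e = s(Sum.inr (k, w), Sum.inr (k, w')) ∧
      z ∈ pageMap (th N k) '' JD s(w, w')) ∨
    ∃ k a, e = s(Sum.inl a, Sum.inr (k, (18 : Fin 19))) ∧ z ∈ pageMap (th N k) '' JH a}

theorem arcs_dir (JD : Sym2 (Fin 19) → Set (E 3)) (JH : Fin 4 → Set (E 3)) (k : Fin N)
    (w w' : Fin 19) (h : PAdj w w') :
    arcs JD JH s(Sum.inr (k, w), Sum.inr (k, w')) = pageMap (th N k) '' JD s(w, w') := by
  ext z
  constructor
  · rintro (⟨k1, u, u', hu, he, hz⟩ | ⟨k1, a, he, hz⟩)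
    · rw [Sym2.eq_iff] at he
      rcases he with ⟨h1, h2⟩ | ⟨h1, h2⟩
      · simp only [Sum.inr.injEq, Prod.mk.injEq] at h1 h2
        obtain ⟨rfl, rfl⟩ := h1
        obtain ⟨_, rfl⟩ := h2
        exact hz
      · simp only [Sum.inr.injEq, Prod.mk.injEq] at h1 h2
        obtain ⟨rfl, rfl⟩ := h1
        obtain ⟨_, rfl⟩ := h2
        rw [Sym2.eq_swap]; exact hz
    · rw [Sym2.eq_iff] at he
      rcases he with ⟨h1, h2⟩ | ⟨h1, h2⟩
      · simp at h1
      · simp at h2
  · intro hz
    exact Or.inl ⟨k, w, w', h, rfl, hz⟩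

theorem fin_ne (d : Fin 4) : d + 1 ≠ d ∧ d + 2 ≠ d ∧ d + 3 ≠ d ∧ d + 1 ≠ d + 2 ∧
    d + 1 ≠ d + 3 ∧ d + 2 ≠ d + 3 ∧ d ≠ d + 1 := by
  revert d; decide

theorem arcs_hub (JD : Sym2 (Fin 19) → Set (E 3)) (JH : Fin 4 → Set (E 3)) (k : Fin N)
    (a : Fin 4) :
    arcs JD JH s(Sum.inl a, Sum.inr (k, (18 : Fin 19))) = pageMap (th N k) '' JH a := by
  ext z
  constructor
  · rintro (⟨k1, u, u', hu, he, hz⟩ | ⟨k1, b, he, hz⟩)
    · rw [Sym2.eq_iff] at he
      rcases he with ⟨h1, h2⟩ | ⟨h1, h2⟩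
      · simp at h1
      · simp at h1
    · rw [Sym2.eq_iff] at he
      rcases he with ⟨h1, h2⟩ | ⟨h1, h2⟩
      · simp only [Sum.inl.injEq] at h1
        simp only [Sum.inr.injEq, Prod.mk.injEq] at h2
        obtain rfl := h1
        obtain ⟨rfl, _⟩ := h2
        exact hz
      · simp at h1
  · intro hz
    exact Or.inr ⟨k, a, rfl, hz⟩

end UB

open UB in
theorem stUB (hP : StPage) (hD : StPageD) (hT : StTriple) (hM : StMap) (hC : StDouble)
    (hS : StSymm) : StUB := by
  classical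
  intro N
  obtain ⟨hP1, hP2, hP3⟩ := hP
  obtain ⟨P, JD, JH, CF, pd⟩ := hD
  choose C hCs hCh using hT
  choose f hf using hP1
  have hfe : ∀ θ, (f θ : E 3 → E 4) = pageMap θ := fun θ => funext (hf θ)
  -- key fact on two points of pages
  have key : ∀ (k k' : Fin N) (p p' : E 3), 0 ≤ p 2 → 0 ≤ p' 2 →
      pageMap (th N k) p = pageMap (th N k') p' → p = p' ∧ (0 < p 2 → k = k') := by
    intro k k' p p' h1 h2 h
    obtain ⟨h3, h4⟩ := hP3 _ _ p p' (th_nonneg N k) (th_lt N k) (th_nonneg N k') (th_lt N k') h1 h2 h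
    exact ⟨h3, fun h5 => th_inj N k k' (h4 h5)⟩
  have key0 : ∀ (k : Fin N) (p p' : E 3), 0 ≤ p 2 → 0 ≤ p' 2 →
      pageMap 0 p = pageMap (th N k) p' → p = p' := by
    intro k p p' h1 h2 h
    exact (hP3 _ _ p p' le_rfl Real.pi_pos (th_nonneg N k) (th_lt N k) h1 h2 h).1
  have key00 : ∀ (p p' : E 3), 0 ≤ p 2 → 0 ≤ p' 2 → pageMap 0 p = pageMap 0 p' → p = p' := by
    intro p p' h1 h2 h
    exact (hP3 _ _ p p' le_rfl Real.pi_pos le_rfl Real.pi_pos h1 h2 h).1
  have hub0 : ∀ (k : Fin N) a, pageMap (th N k) (hubPt a) = pageMap 0 (hubPt a) :=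
    fun k a => hP2 _ _ _ (hubPt_two a)
  have dirNN : ∀ u u', PAdj u u' → ∀ z ∈ JD s(u, u'), 0 ≤ z 2 :=
    fun u u' h z hz => (pd.dirUp u u' h z hz).le
  have hubNN : ∀ a, ∀ z ∈ JH a, 0 ≤ z 2 := by
    intro a z hz
    rcases pd.hubUp a z hz with rfl | h
    · exact (hubPt_two a).ge
    · exact h.le
  let pos : Fin 4 ⊕ (Fin N × Fin 19) → E 4 := fun x =>
    Sum.elim (fun a => pageMap 0 (hubPt a)) (fun q => pageMap (th N q.1) (P q.2)) x
  have posl : ∀ a, pos (Sum.inl a) = pageMap 0 (hubPt a) := fun a => rfl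
  have posr : ∀ k w, pos (Sum.inr (k, w)) = pageMap (th N k) (P w) := fun k w => rfl
  have adir : ∀ (k : Fin N) w w', PAdj w w' →
      arcs JD JH s(Sum.inr (k, w), Sum.inr (k, w')) = pageMap (th N k) '' JD s(w, w') :=
    fun k w w' h => arcs_dir JD JH k w w' h
  have ahub : ∀ (k : Fin N) a,
      arcs JD JH s(Sum.inl a, Sum.inr (k, (18 : Fin 19))) = pageMap (th N k) '' JH a :=
    fun k a => arcs_hub JD JH k a
  -- the drawing
  let D : Drawing (baseG N) 4 := {
    pos := pos
    arc := arcs JD JH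
    inj := by
      rintro (a | ⟨k, w⟩) (b | ⟨k', w'⟩) h
      · rw [posl, posl] at h
        have := key00 _ _ (hubPt_two a).ge (hubPt_two b).ge h
        rw [hubPt_inj this]
      · rw [posl, posr] at h
        have := key0 k' _ _ (hubPt_two a).ge (pd.up w').le h
        have h2 := pd.up w'
        rw [← this, hubPt_two] at h2
        exact absurd h2 (lt_irrefl _)
      · rw [posl, posr] at h
        have := key0 k _ _ (hubPt_two b).ge (pd.up w).le h.symm
        have h2 := pd.up w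
        rw [← this, hubPt_two] at h2
        exact absurd h2 (lt_irrefl _)
      · rw [posr, posr] at h
        obtain ⟨h1, h2⟩ := key k k' _ _ (pd.up w).le (pd.up w').le h
        rw [h2 (pd.up w), pd.inj h1]
    isArc := by
      rintro x y (⟨k, w, w', rfl, rfl, h⟩ | ⟨a, k, rfl, rfl⟩ | ⟨a, k, rfl, rfl⟩)
      · rw [adir k w w' h, posr, posr]
        have := (hM 3 4 (f (th N k))).1 _ _ _ (pd.dirArc w w' h)
        rwa [hfe] at this
      · rw [ahub k a, posr, posl, ← hub0 k a]
        have := (hM 3 4 (f (th N k))).1 _ _ _ (pd.hubArc a)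
        rw [hfe] at this
        exact hS _ _ _ _ this
      · rw [Sym2.eq_swap, ahub k a, posr, posl, ← hub0 k a]
        have := (hM 3 4 (f (th N k))).1 _ _ _ (pd.hubArc a)
        rwa [hfe] at this
    cross := by
      intro e he e' he' hne z hz hz'
      rcases edge_cases he with ⟨k, u, u', hu, rfl⟩ | ⟨k, a, rfl⟩
      · rcases edge_cases he' with ⟨k', w, w', hw, rfl⟩ | ⟨k', b, rfl⟩
        · rw [adir k u u' hu] at hz
          rw [adir k' w w' hw] at hz'
          obtain ⟨p, hp, rfl⟩ := hz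
          obtain ⟨p', hp', h⟩ := hz'
          obtain ⟨h1, h2⟩ := key k' k _ _ (dirNN w w' hw p' hp') (dirNN u u' hu p hp) h
          obtain rfl := h2 (pd.dirUp w w' hw p' hp')
          subst h1
          have hne' : s(u, u') ≠ s(w, w') := by
            intro h3
            apply hne
            rw [Sym2.eq_iff] at h3 ⊢
            rcases h3 with ⟨rfl, rfl⟩ | ⟨rfl, rfl⟩
            · exact Or.inl ⟨rfl, rfl⟩
            · exact Or.inr ⟨rfl, rfl⟩
          obtain ⟨r, hr1, hr2, hr3⟩ := pd.cross1 u u' w w' hu hw hne' p' hp hp'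
          refine ⟨Sum.inr (k', r), ?_, ?_, ?_⟩
          · rw [Sym2.mem_iff] at hr1 ⊢
            rcases hr1 with rfl | rfl <;> simp
          · rw [Sym2.mem_iff] at hr2 ⊢
            rcases hr2 with rfl | rfl <;> simp
          · rw [posr, hr3]
        · rw [adir k u u' hu] at hz
          rw [ahub k' b] at hz'
          obtain ⟨p, hp, rfl⟩ := hz
          obtain ⟨p', hp', h⟩ := hz'
          obtain ⟨h1, h2⟩ := key k k' _ _ (dirNN u u' hu p hp) (hubNN b p' hp') h.symm
          obtain rfl := h2 (pd.dirUp u u' hu p hp)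
          subst h1
          obtain ⟨h3, h4⟩ := pd.cross2 u u' b hu p hp hp'
          refine ⟨Sum.inr (k, 18), ?_, by simp, by rw [posr, h4]⟩
          rw [Sym2.mem_iff] at h3 ⊢
          rcases h3 with h3 | h3 <;> simp [← h3]
      · rcases edge_cases he' with ⟨k', w, w', hw, rfl⟩ | ⟨k', b, rfl⟩
        · rw [ahub k a] at hz
          rw [adir k' w w' hw] at hz'
          obtain ⟨p, hp, rfl⟩ := hz
          obtain ⟨p', hp', h⟩ := hz'
          obtain ⟨h1, h2⟩ := key k' k _ _ (dirNN w w' hw p' hp') (hubNN a p hp) h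
          obtain rfl := h2 (pd.dirUp w w' hw p' hp')
          subst h1
          obtain ⟨h3, h4⟩ := pd.cross2 w w' a hw p' hp' hp
          refine ⟨Sum.inr (k', 18), by simp, ?_, by rw [posr, h4]⟩
          rw [Sym2.mem_iff] at h3 ⊢
          rcases h3 with h3 | h3 <;> simp [← h3]
        · rw [ahub k a] at hz
          rw [ahub k' b] at hz'
          obtain ⟨p, hp, rfl⟩ := hz
          obtain ⟨p', hp', h⟩ := hz'
          obtain ⟨h1, h2⟩ := key k k' _ _ (hubNN a p hp) (hubNN b p' hp') h.symm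
          subst h1
          by_cases hpos : 0 < p 2
          · obtain rfl := h2 hpos
            have hab : a ≠ b := by
              rintro rfl; exact hne rfl
            have h3 := pd.cross3 a b hab p hp hp'
            exact ⟨Sum.inr (k, 18), by simp, by simp, by rw [posr, h3]⟩
          · have e1 : p = hubPt a := (pd.hubUp a p hp).resolve_right hpos
            have e2 : p = hubPt b := (pd.hubUp b p hp').resolve_right hpos
            have hab : a = b := hubPt_inj (e1.symm.trans e2)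
            subst hab
            exact ⟨Sum.inl a, by simp, by simp, by rw [posl, e1, hub0]⟩
    thru := by
      intro e he x hx
      rcases edge_cases he with ⟨k, u, u', hu, rfl⟩ | ⟨k, a, rfl⟩
      · rw [adir k u u' hu] at hx
        obtain ⟨p, hp, h⟩ := hx
        rcases x with b | ⟨k', r⟩
        · rw [posl] at h
          have := key0 k _ _ (hubPt_two b).ge (dirNN u u' hu p hp) h.symm
          have h2 := pd.dirUp u u' hu p hp
          rw [← this, hubPt_two] at h2
          exact absurd h2 (lt_irrefl _)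
        · rw [posr] at h
          obtain ⟨h1, h2⟩ := key k k' _ _ (dirNN u u' hu p hp) (pd.up r).le h
          obtain rfl := h2 (pd.dirUp u u' hu p hp)
          subst h1
          have h3 := pd.thru1 u u' r hu hp
          rw [Sym2.mem_iff] at h3 ⊢
          rcases h3 with rfl | rfl <;> simp
      · rw [ahub k a] at hx
        obtain ⟨p, hp, h⟩ := hx
        rcases x with b | ⟨k', r⟩
        · rw [posl] at h
          have h1 := key0 k _ _ (hubPt_two b).ge (hubNN a p hp) h.symm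
          have h2 : p = hubPt a := by
            rcases pd.hubUp a p hp with h2 | h2
            · exact h2
            · rw [← h1, hubPt_two] at h2
              exact absurd h2 (lt_irrefl _)
          rw [hubPt_inj (h1.trans h2)]
          simp
        · rw [posr] at h
          obtain ⟨h1, h2⟩ := key k' k _ _ (pd.up r).le (hubNN a p hp) h.symm
          obtain rfl := h2 (pd.up r)
          subst h1
          rw [pd.thru2 a r hp]
          simp }
  -- the circles
  let F : Finset (Set (E 4)) :=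
    (Finset.univ ×ˢ CF).image (fun q : Fin N × Set (E 3) => pageMap (th N q.1) '' q.2) ∪
      Finset.univ.image (fun d : Fin 4 => pageMap 0 '' C d)
  have memF : ∀ S, S ∈ F ↔ (∃ k, ∃ T ∈ CF, pageMap (th N k) '' T = S) ∨
      ∃ d, pageMap 0 '' C d = S := by
    intro S
    simp only [F, Finset.mem_union, Finset.mem_image, Finset.mem_product, Finset.mem_univ,
      true_and, Prod.exists]
  have F1 : ∀ (k : Fin N), ∀ T ∈ CF, pageMap (th N k) '' T ∈ F :=
    fun k T hT' => (memF _).2 (Or.inl ⟨k, T, hT', rfl⟩)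
  have F2 : ∀ d, pageMap 0 '' C d ∈ F := fun d => (memF _).2 (Or.inr ⟨d, rfl⟩)
  have pmInj : ∀ θ, Function.Injective (pageMap θ) := fun θ => by
    rw [← hfe θ]; exact (f θ).injective
  refine ⟨D, F, ⟨?_, ?_, ?_⟩, ?_, ?_⟩
  · intro S hS'
    rcases (memF S).1 hS' with ⟨k, T, hT', rfl⟩ | ⟨d, rfl⟩
    · have := (hM 3 4 (f (th N k))).2 T (pd.circ T hT').1
      rwa [hfe] at this
    · have := (hM 3 4 (f 0)).2 (C d) (hCs d)
      rwa [hfe] at this
  · rintro (a | ⟨k, w⟩)
    · refine ⟨_, F2 (a + 1), ?_⟩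
      exact ⟨hubPt a, (hCh _ _).2 (fin_ne a).2.2.2.2.2.2, rfl⟩
    · have h6 := pd.six w
      have : {S | S ∈ CF ∧ P w ∈ S}.Nonempty := by
        by_contra hne
        rw [Set.not_nonempty_iff_eq_empty] at hne
        rw [nthru, hne, Set.ncard_empty] at h6
        omega
      obtain ⟨S, hS1, hS2⟩ := this
      exact ⟨_, F1 k S hS1, P w, hS2, rfl⟩
  · intro e he z hz
    rcases edge_cases he with ⟨k, u, u', hu, rfl⟩ | ⟨k, a, rfl⟩
    · change z ∈ arcs JD JH _ at hz
      rw [adir k u u' hu] at hz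
      obtain ⟨p, hp, rfl⟩ := hz
      obtain ⟨S, hS1, hS2⟩ := pd.cov1 u u' hu
      exact ⟨_, F1 k S hS1, p, hS2 hp, rfl⟩
    · change z ∈ arcs JD JH _ at hz
      rw [ahub k a] at hz
      obtain ⟨p, hp, rfl⟩ := hz
      obtain ⟨S, hS1, hS2⟩ := pd.cov2 a
      exact ⟨_, F1 k S hS1, p, hS2 hp, rfl⟩
  · refine (hC 4 F (fun a => D.pos (Sum.inl a))).2 ?_ (fun d => pageMap 0 '' C d) ?_ ?_
    · intro S hS'
      rcases (memF S).1 hS' with ⟨k, T, hT', rfl⟩ | ⟨d, rfl⟩
      · obtain ⟨_, a, b, hab, ha, hb⟩ := pd.circ T hT'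
        have hsub : ({a, b} : Set (Fin 4)) ⊆ {c | D.pos (Sum.inl c) ∈ pageMap (th N k) '' T} := by
          rintro c (rfl | rfl)
          · exact ⟨hubPt c, ha, hub0 k c⟩
          · exact ⟨hubPt c, hb, hub0 k c⟩
        calc 2 = ({a, b} : Set (Fin 4)).ncard := (Set.ncard_pair hab).symm
          _ ≤ _ := Set.ncard_le_ncard hsub (Set.toFinite _)
      · have hsub : ({d + 1, d + 2} : Set (Fin 4)) ⊆
            {c | D.pos (Sum.inl c) ∈ pageMap 0 '' C d} := by
          rintro c (rfl | rfl)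
          · exact ⟨hubPt _, (hCh _ _).2 (fin_ne d).1, rfl⟩
          · exact ⟨hubPt _, (hCh _ _).2 (fin_ne d).2.1, rfl⟩
        calc 2 = ({d + 1, d + 2} : Set (Fin 4)).ncard :=
              (Set.ncard_pair (fin_ne d).2.2.2.1).symm
          _ ≤ _ := Set.ncard_le_ncard hsub (Set.toFinite _)
    · intro d d' h
      by_contra hne
      have h1 : hubPt d ∈ C d' := (hCh d' d).2 hne
      have h2 : pageMap 0 (hubPt d) ∈ pageMap 0 '' C d := by
        have h' : pageMap 0 '' C d = pageMap 0 '' C d' := h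
        rw [h']; exact ⟨_, h1, rfl⟩
      obtain ⟨p, hp, hpe⟩ := h2
      rw [pmInj 0 hpe] at hp
      exact (hCh d d).1 hp rfl
    · intro d
      refine ⟨F2 d, ?_⟩
      have hsub : ({d + 1, d + 2, d + 3} : Set (Fin 4)) ⊆
            {c | D.pos (Sum.inl c) ∈ pageMap 0 '' C d} := by
        rintro c (rfl | rfl | rfl)
        · exact ⟨hubPt _, (hCh _ _).2 (fin_ne d).1, rfl⟩
        · exact ⟨hubPt _, (hCh _ _).2 (fin_ne d).2.1, rfl⟩
        · exact ⟨hubPt _, (hCh _ _).2 (fin_ne d).2.2.1, rfl⟩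
      calc 3 = ({d + 1, d + 2, d + 3} : Set (Fin 4)).ncard := by
              rw [Set.ncard_eq_three.2 ⟨d + 1, d + 2, d + 3, (fin_ne d).2.2.2.1,
                (fin_ne d).2.2.2.2.1, (fin_ne d).2.2.2.2.2.1, rfl⟩]
        _ ≤ _ := Set.ncard_le_ncard hsub (Set.toFinite _)
  · intro k w
    refine (pd.six w).trans ?_
    unfold nthru
    have hinj : Set.InjOn (fun S : Set (E 3) => pageMap (th N k) '' S)
        {S | S ∈ CF ∧ P w ∈ S} := (Set.image_injective.2 (pmInj _)).injOn
    rw [← hinj.ncard_image]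
    refine Set.ncard_le_ncard ?_ ?_
    · rintro _ ⟨S, ⟨hS1, hS2⟩, rfl⟩
      exact ⟨F1 k S hS1, P w, hS2, rfl⟩
    · exact F.finite_toSet.subset (fun S hS' => hS'.1)

end Pool.Agent.Lib.MP_9f365b_co
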