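import Pool.Agent.Lib.MP_9f365b_co.Stmts

/-!
J. The half-space model: circles and arcs through two hubs.
-/

open scoped RealInnerProductSpace

namespace Pool.Agent.Lib.MP_9f365b_co

namespace Up

theorem norm_sq (p : E 3) : ‖p‖ ^ 2 = p 0 ^ 2 + p 1 ^ 2 + p 2 ^ 2 := by
  rw [EuclideanSpace.real_norm_sq_eq, Fin.sum_univ_three]

theorem s2 : (√2 : ℝ) ^ 2 = 2 := Real.sq_sqrt (by norm_num)

theorem s3 : (√3 : ℝ) ^ 2 = 3 := Real.sq_sqrt (by norm_num)

theorem s2pos : (0 : ℝ) < √2 := by positivity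

theorem s3pos : (0 : ℝ) < √3 := by positivity

end Up

open Up in
theorem stCoPt : StCoPt := by
  constructor
  · intro p hp
    have hp' : p 2 ≠ 0 := hp.ne'
    have h2 := s2
    have h3 := s3
    have h2p := s2pos
    have hN := norm_sq p
    set N := ‖p‖ ^ 2 with hNdef
    have hsm : sm (co p) = 3 * √2 / p 2 := by
      simp only [sm, co, Matrix.cons_val]
      rw [← hNdef]
      field_simp
      ring
    refine ⟨?_, ?_, ?_⟩
    · simp only [e2, co, Matrix.cons_val]
      rw [← hNdef]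
      field_simp
      rw [h2]
      have : (√3 * p 1) ^ 2 = 3 * p 1 ^ 2 := by rw [mul_pow, h3]
      nlinarith
    · rw [hsm]
      positivity
    · have hsm0 : sm (co p) ≠ 0 := by
        rw [hsm]
        positivity
      ext i
      fin_cases i
      · simp only [pt, hsm]
        simp only [co, Matrix.cons_val]
        rw [← hNdef]
        simp
        field_simp
        ring
      · simp only [pt, hsm]
        simp only [co, Matrix.cons_val]
        rw [← hNdef]
        simp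
        field_simp
        linear_combination 2 * p 1 * h3
      · simp only [pt, hsm]
        simp
  · intro X hX hs
    have h2 := s2
    have h3 := s3
    have h2p := s2pos
    have hs' : sm X ≠ 0 := hs.ne'
    have e0 : pt X 0 = (X 1 - (X 2 + X 3) / 2) / sm X := rfl
    have e1 : pt X 1 = √3 / 2 * (X 2 - X 3) / sm X := rfl
    have ez : pt X 2 = 3 * √2 / sm X := rfl
    have hz : 0 < pt X 2 := by
      rw [ez]
      positivity
    refine ⟨hz, ?_⟩
    have hN : ‖pt X‖ ^ 2 = (X 1 + X 2 + X 3) / sm X := by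
      rw [norm_sq, e0, e1, ez]
      have h4 : sm X = 3 * X 0 + (X 1 + X 2 + X 3) := by unfold sm; ring
      rw [div_pow, div_pow, div_pow, mul_pow, mul_pow, div_pow, h2, h3, ← add_div, ← add_div,
        div_eq_div_iff (by positivity) hs']
      have h5 : (X 1 - (X 2 + X 3) / 2) ^ 2 + 3 / 2 ^ 2 * (X 2 - X 3) ^ 2 + 3 ^ 2 * 2 =
          (X 1 + X 2 + X 3) * sm X := by
        unfold e2 at hX
        rw [h4]
        nlinarith
      rw [h5]
      ring
    ext c
    fin_cases c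
    · simp only [co, Matrix.cons_val, Fin.zero_eta]
      rw [hN, ez]
      field_simp
      unfold sm
      ring
    · simp only [co, Matrix.cons_val, Fin.mk_one]
      rw [hN, ez, e0]
      field_simp
      ring
    · change √2 * (‖pt X‖ ^ 2 - pt X 0 + √3 * pt X 1) / pt X 2 = X 2
      rw [hN, ez, e0, e1]
      field_simp
      rw [h3]
      ring
    · change √2 * (‖pt X‖ ^ 2 - pt X 0 - √3 * pt X 1) / pt X 2 = X 3
      rw [hN, ez, e0, e1]
      field_simp
      rw [h3]
      ring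

namespace Up

/-- the numerators of the coordinates -/
noncomputable def cc (p : E 3) : Fin 4 → ℝ :=
  ![√2 * (1 - ‖p‖ ^ 2), √2 * (‖p‖ ^ 2 + 2 * p 0), √2 * (‖p‖ ^ 2 - p 0 + √3 * p 1),
    √2 * (‖p‖ ^ 2 - p 0 - √3 * p 1)]

/-- the constants `κ` -/
noncomputable def kap (a : Fin 4) : ℝ := if a = 0 then √2 else 3 * √2

theorem kap_pos (a : Fin 4) : 0 < kap a := by
  unfold kap
  split_ifs <;> positivity

theorem co_eq (p : E 3) (c : Fin 4) : co p c = cc p c / p 2 := by
  fin_cases c <;> rfl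

theorem hub_z (a : Fin 4) : hubPt a 2 = 0 := by
  unfold hubPt
  split_ifs <;> simp

theorem hub0 : hubPt 0 = 0 := rfl

theorem hub1 : hubPt 1 = !₂[1, 0, 0] := rfl

theorem hub2 : hubPt 2 = !₂[-1 / 2, √3 / 2, 0] := rfl

theorem hub3 : hubPt 3 = !₂[-1 / 2, -√3 / 2, 0] := rfl

theorem cc_hub (a c : Fin 4) : cc (hubPt a) c = if c = a then kap a else 0 := by
  have h3 := s3
  fin_cases a
  · fin_cases c <;> simp [cc, hub0, kap]
  · fin_cases c <;> simp [cc, hub1, kap, norm_sq] <;> ring_nf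
  · change cc (hubPt 2) c = _
    fin_cases c
    · simp [cc, hub2, kap, norm_sq, div_pow, h3]
      norm_num
    · simp [cc, hub2, kap, norm_sq, div_pow, h3]
      norm_num
    · simp [cc, hub2, kap, norm_sq, div_pow, h3]
      linear_combination (√2 / 2) * h3
    · simp [cc, hub2, kap, norm_sq, div_pow, h3]
      nlinarith
  · change cc (hubPt 3) c = _
    fin_cases c
    · simp [cc, hub3, kap, norm_sq, div_pow, h3]
      norm_num
    · simp [cc, hub3, kap, norm_sq, div_pow, h3]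
      norm_num
    · simp [cc, hub3, kap, norm_sq, div_pow, h3]
      nlinarith
    · simp [cc, hub3, kap, norm_sq, div_pow, h3]
      linear_combination (√2 / 2) * h3

theorem hub_inj {a b : Fin 4} (h : hubPt a = hubPt b) : a = b := by
  by_contra hab
  have h1 := cc_hub a a
  have h2 := cc_hub b a
  rw [h, h2, if_pos rfl, if_neg hab] at h1
  exact (kap_pos a).ne h1

theorem cc_comb {z P A B : E 3} {l m n : ℝ} (h : Comb z P A B l m n) (c : Fin 4) :
    cc z c = l * cc P c + m * cc A c + n * cc B c := by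
  obtain ⟨h1, h2, h3⟩ := h
  have z0 : z 0 = l * P 0 + m * A 0 + n * B 0 := by rw [h2]; simp
  have z1 : z 1 = l * P 1 + m * A 1 + n * B 1 := by rw [h2]; simp
  fin_cases c
  · change √2 * (1 - ‖z‖ ^ 2) = l * (√2 * (1 - ‖P‖ ^ 2)) + m * (√2 * (1 - ‖A‖ ^ 2)) +
      n * (√2 * (1 - ‖B‖ ^ 2))
    rw [h3]
    linear_combination -√2 * h1
  · change √2 * (‖z‖ ^ 2 + 2 * z 0) = l * (√2 * (‖P‖ ^ 2 + 2 * P 0)) +
      m * (√2 * (‖A‖ ^ 2 + 2 * A 0)) + n * (√2 * (‖B‖ ^ 2 + 2 * B 0))
    rw [h3, z0]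
    ring
  · change √2 * (‖z‖ ^ 2 - z 0 + √3 * z 1) = l * (√2 * (‖P‖ ^ 2 - P 0 + √3 * P 1)) +
      m * (√2 * (‖A‖ ^ 2 - A 0 + √3 * A 1)) + n * (√2 * (‖B‖ ^ 2 - B 0 + √3 * B 1))
    rw [h3, z0, z1]
    ring
  · change √2 * (‖z‖ ^ 2 - z 0 - √3 * z 1) = l * (√2 * (‖P‖ ^ 2 - P 0 - √3 * P 1)) +
      m * (√2 * (‖A‖ ^ 2 - A 0 - √3 * A 1)) + n * (√2 * (‖B‖ ^ 2 - B 0 - √3 * B 1))
    rw [h3, z0, z1]
    ring

/-- the sum of the other coordinates -/
def lb (b : Fin 4) (X : Fin 4 → ℝ) : ℝ := X 0 + X 1 + X 2 + X 3 - X b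

theorem lb_cc (b : Fin 4) (p : E 3) :
    lb b (cc p) = (if b = 0 then 3 * √2 else √2) * ‖p - hubPt b‖ ^ 2 := by
  have h3 := s3
  have hN := norm_sq p
  fin_cases b
  · change lb 0 (cc p) = _
    simp only [lb, cc, Matrix.cons_val]
    simp [hub0]
    ring
  · change lb 1 (cc p) = _ * ‖p - hubPt 1‖ ^ 2
    rw [norm_sq (p - hubPt 1)]
    simp only [lb, cc, Matrix.cons_val]
    rw [hN]
    simp [hub1]
    ring
  · change lb 2 (cc p) = _ * ‖p - hubPt 2‖ ^ 2
    rw [norm_sq (p - hubPt 2)]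
    simp only [lb, cc, Matrix.cons_val]
    rw [hN]
    simp [hub2]
    linear_combination (-√2 / 4) * h3
  · change lb 3 (cc p) = _ * ‖p - hubPt 3‖ ^ 2
    rw [norm_sq (p - hubPt 3)]
    simp only [lb, cc, Matrix.cons_val]
    rw [hN]
    simp [hub3]
    linear_combination (-√2 / 4) * h3

theorem lb_pos {b : Fin 4} {p : E 3} (h : p ≠ hubPt b) : 0 < lb b (cc p) := by
  rw [lb_cc]
  have h1 : 0 < ‖p - hubPt b‖ := norm_pos_iff.2 (sub_ne_zero.2 h)
  split_ifs <;> positivity

theorem lb_hub (a b : Fin 4) (h : a ≠ b) : lb b (cc (hubPt a)) = kap a := by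
  unfold lb
  simp only [cc_hub]
  fin_cases a <;> fin_cases b <;> simp at h ⊢

theorem lb_hub_self (b : Fin 4) : lb b (cc (hubPt b)) = 0 := by
  rw [lb_cc]
  simp

theorem lb_comb {z P A B : E 3} {l m n : ℝ} (h : Comb z P A B l m n) (c : Fin 4) :
    lb c (cc z) = l * lb c (cc P) + m * lb c (cc A) + n * lb c (cc B) := by
  unfold lb
  simp only [cc_comb h]
  ring

theorem ne_hub {p : E 3} (hp : 0 < p 2) (b : Fin 4) : p ≠ hubPt b := by
  rintro rfl
  rw [hub_z] at hp
  exact lt_irrefl _ hp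

theorem lb_co {p : E 3} (b : Fin 4) : lb b (co p) = lb b (cc p) / p 2 := by
  unfold lb
  simp only [co_eq]
  ring

theorem lb_co_pos {p : E 3} (hp : 0 < p 2) (b : Fin 4) : 0 < lb b (co p) := by
  rw [lb_co]
  exact div_pos (lb_pos (ne_hub hp b)) hp

theorem e2_diff {a b : Fin 4} (hab : a ≠ b) (U V : Fin 4 → ℝ)
    (h : ∀ c, c ≠ a → c ≠ b → U c = V c) :
    e2 V - e2 U = (V a - U a) * lb a U + (V b - U b) * lb b V := by
  have h0 := h 0
  have h1 := h 1
  have h2 := h 2
  have h3 := h 3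
  unfold e2 lb
  fin_cases a <;> fin_cases b <;> simp at hab h0 h1 h2 h3 ⊢ <;> simp only [*] <;> ring

theorem lb_pos_of {X : Fin 4 → ℝ} (hP : StCoPt) (hX : e2 X = 6) (hs : 0 < sm X) (b : Fin 4) :
    0 < lb b X := by
  obtain ⟨h1, h2⟩ := hP.2 X hX hs
  have := lb_co_pos h1 b
  rwa [h2] at this

/-- one coordinate increases, the other one decreases -/
theorem anti {a b : Fin 4} (hab : a ≠ b) (U V : Fin 4 → ℝ)
    (h : ∀ c, c ≠ a → c ≠ b → U c = V c) (hU : e2 U = 6) (hV : e2 V = 6)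
    (hLU : ∀ c, 0 < lb c U) (hLV : ∀ c, 0 < lb c V) (hle : U a ≤ V a) : V b ≤ U b := by
  have h1 := e2_diff hab U V h
  rw [hU, hV, sub_self] at h1
  by_contra hcon
  push Not at hcon
  have h2 : 0 ≤ (V a - U a) * lb a U := mul_nonneg (by linarith) (hLU a).le
  have h3 : 0 < (V b - U b) * lb b V := mul_pos (by linarith) (hLV b)
  linarith

end Up

open Up in
theorem stUpCirc (h3 : StCirc3) (hC : StComb) : StUpCirc := by
  intro X hX hs a b hab
  have hP := stCoPt
  have hz := (hP.2 X hX hs).1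
  have hne : hubPt a ≠ hubPt b := fun h => hab (hub_inj h)
  have hind : AffineIndependent ℝ ![pt X, hubPt a, hubPt b] := by
    refine affineIndependent_of_ne_of_notMem_of_mem_of_mem
      (s := (LinearMap.ker (EuclideanSpace.proj (𝕜 := ℝ) (2 : Fin 3) :
        E 3 →L[ℝ] ℝ).toLinearMap).toAffineSubspace) hne ?_ ?_ ?_
    · intro hcon
      have : pt X 2 = 0 := hcon
      exact hz.ne' this
    · exact hub_z a
    · exact hub_z b
  obtain ⟨C, hCs, hPC, hAC, hBC⟩ := h3 3 _ _ _ hind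
  refine ⟨C, hCs, hPC, hAC, hBC, fun z hzC hz2 => ?_⟩
  obtain ⟨l, m, n, h1, h2, h4⟩ := (hC 3 C _ _ _ hCs hPC hAC hBC (ne_hub hz a) (ne_hub hz b) hne
    z).1 hzC
  have hl : l = 0 := by
    have h5 : z 2 = l * pt X 2 := by
      rw [h2]
      simp [hub_z]
    rw [hz2] at h5
    rcases mul_eq_zero.1 h5.symm with h | h
    · exact h
    · exact absurd h hz.ne'
  subst hl
  have hn : n = 1 - m := by linarith
  subst hn
  have h6 : m * (1 - m) * ‖hubPt a - hubPt b‖ ^ 2 = 0 := by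
    have h7 : ‖z‖ ^ 2 = m ^ 2 * ‖hubPt a‖ ^ 2 + 2 * (m * (1 - m)) * ⟪hubPt a, hubPt b⟫ +
        (1 - m) ^ 2 * ‖hubPt b‖ ^ 2 := by
      rw [h2, zero_smul, zero_add, norm_add_sq_real, norm_smul, norm_smul, mul_pow, mul_pow,
        Real.norm_eq_abs, Real.norm_eq_abs, sq_abs, sq_abs, real_inner_smul_left,
        real_inner_smul_right]
      ring
    rw [norm_sub_sq_real]
    rw [h7] at h4
    linear_combination -h4
  have h8 : ‖hubPt a - hubPt b‖ ^ 2 ≠ 0 := by
    have : 0 < ‖hubPt a - hubPt b‖ := norm_pos_iff.2 (sub_ne_zero.2 hne)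
    positivity
  rcases mul_eq_zero.1 ((mul_eq_zero.1 h6).resolve_right h8) with h | h
  · right
    rw [h2, h]
    simp
  · left
    rw [h2, h]
    have : m = 1 := by linarith
    simp [this]

namespace Up

/-- the points of the circle above the hubs -/
theorem param (hC : StCoord) (hP : StCoPt) {X : Fin 4 → ℝ} (hX : e2 X = 6) (hs : 0 < sm X)
    {a b : Fin 4} (hab : a ≠ b) {C : Set (E 3)} (hCs : IsSph 3 1 C) (hPC : pt X ∈ C)
    (hAC : hubPt a ∈ C) (hBC : hubPt b ∈ C) :
    ∃ (γ : ℝ → E 3), CircPar C (hubPt a) γ ∧ γ 0 = pt X ∧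
      ∀ t, 0 < lb b X + kap a * t / pt X 2 → 0 < γ t 2 ∧
        (∀ c, c ≠ a → c ≠ b → co (γ t) c = X c) ∧ co (γ t) a = X a + kap a * t / pt X 2 := by
  obtain ⟨hz, hco⟩ := hP.2 X hX hs
  have hne : hubPt a ≠ hubPt b := fun h => hab (hub_inj h)
  obtain ⟨γ, tB, htB, hγ, hγ0, hγB, hcomb⟩ := hC 3 C _ _ _ hCs hPC hAC hBC (ne_hub hz a)
    (ne_hub hz b) hne
  have hk := kap_pos a
  have hlX : lb b (cc (pt X)) = lb b X * pt X 2 := by
    have := lb_co (p := pt X) b
    rw [hco] at this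
    rw [this]
    field_simp
  -- the position of `tB`
  have hiff : ∀ t, t ≠ tB → 0 < lb b X * pt X 2 + kap a * t → tB < t := by
    intro t ht hpos
    obtain ⟨l, n, hc, hl⟩ := hcomb t
    have h1 : γ t ≠ hubPt b := by
      rw [← hγB]
      exact fun h => ht (hγ.inj h)
    have h2 := lb_pos h1
    rw [lb_comb hc, lb_hub a b hab, lb_hub_self, hlX] at h2
    rw [← hl]
    have h3 : 0 < l * (lb b X * pt X 2 + kap a * t) := by linarith
    by_contra hcon
    push Not at hcon
    nlinarith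
  have hlt : ∀ t, 0 < lb b X * pt X 2 + kap a * t → tB < t := by
    intro t hpos
    by_cases ht : t = tB
    · exfalso
      set δ := (lb b X * pt X 2 + kap a * t) / (2 * kap a) with hδ
      have hδ0 : 0 < δ := by positivity
      have h1 : 0 < lb b X * pt X 2 + kap a * (t - δ) := by
        have : kap a * δ = (lb b X * pt X 2 + kap a * t) / 2 := by
          rw [hδ]
          field_simp
        rw [mul_sub, this]
        linarith
      have h2 := hiff (t - δ) (by rw [ht]; linarith) h1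
      rw [ht] at h2
      linarith
    · exact hiff t ht hpos
  refine ⟨γ, hγ, hγ0, fun t ht => ?_⟩
  have ht' : 0 < lb b X * pt X 2 + kap a * t := by
    have := mul_pos ht hz
    rw [add_mul, div_mul_cancel₀ _ hz.ne'] at this
    exact this
  obtain ⟨l, n, hc, hl⟩ := hcomb t
  have hl0 := hl.2 (hlt t ht')
  have hz2 : γ t 2 = l * pt X 2 := by
    rw [hc.2.1]
    simp [hub_z]
  have hcP : ∀ c, cc (pt X) c = X c * pt X 2 := by
    intro c
    have := co_eq (pt X) c
    rw [hco] at this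
    rw [this]
    field_simp
  refine ⟨by rw [hz2]; positivity, fun c hca hcb => ?_, ?_⟩
  · rw [co_eq, cc_comb hc, cc_hub, cc_hub, if_neg hca, if_neg hcb, hz2, hcP]
    field_simp
    ring
  · rw [co_eq, cc_comb hc, cc_hub, cc_hub, if_pos rfl, if_neg hab, hz2, hcP]
    field_simp
    ring

end Up

open Up in
theorem stUpArc (hC : StCoord) (hP : StCoPt) : StUpArc := by
  intro X Y hX hs hY hsY a b hab hXYa hXY C hCs hPC hAC hBC
  obtain ⟨γ, hγ, hγ0, hpar⟩ := param hC hP hX hs hab hCs hPC hAC hBC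
  obtain ⟨hz, hco⟩ := hP.2 X hX hs
  obtain ⟨hzY, hcoY⟩ := hP.2 Y hY hsY
  have hk := kap_pos a
  set tY := (Y a - X a) * pt X 2 / kap a with htY
  have htY' : kap a * tY / pt X 2 = Y a - X a := by
    rw [htY]
    field_simp
  have htY0 : tY ≠ 0 := by
    intro h
    rw [h, mul_zero, zero_div] at htY'
    exact hXYa (by linarith)
  -- positivity along the arc
  have hlbY : lb b X + (Y a - X a) = lb b Y := by
    have h0 := hXY 0
    have h1 := hXY 1
    have h2 := hXY 2
    have h3 := hXY 3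
    unfold lb
    fin_cases a <;> fin_cases b <;> simp at hab h0 h1 h2 h3 ⊢ <;> linarith
  have hpos : ∀ t ∈ Set.uIcc 0 tY, 0 < lb b X + kap a * t / pt X 2 ∧
      X a + kap a * t / pt X 2 ∈ Set.uIcc (X a) (Y a) := by
    intro t ht
    have h1 := lb_pos_of hP hX hs b
    have h2 := lb_pos_of hP hY hsY b
    have hmono : ∀ s s' : ℝ, s ≤ s' → kap a * s / pt X 2 ≤ kap a * s' / pt X 2 := by
      intro s s' h
      gcongr
    rcases le_total 0 tY with h | h
    · rw [Set.uIcc_of_le h] at ht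
      have h3 := hmono 0 t ht.1
      have h4 := hmono t tY ht.2
      rw [mul_zero, zero_div] at h3
      rw [htY'] at h4
      refine ⟨by linarith, ?_⟩
      rw [Set.uIcc_of_le (by linarith)]
      exact ⟨by linarith, by linarith⟩
    · rw [Set.uIcc_of_ge h] at ht
      have h3 := hmono t 0 ht.2
      have h4 := hmono tY t ht.1
      rw [mul_zero, zero_div] at h3
      rw [htY'] at h4
      refine ⟨by linarith, ?_⟩
      rw [Set.uIcc_of_ge (by linarith)]
      exact ⟨by linarith, by linarith⟩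
  have hγY : γ tY = pt Y := by
    obtain ⟨h1, h2, h3⟩ := hpar tY (hpos tY Set.right_mem_uIcc).1
    rw [htY'] at h3
    obtain ⟨h4, h5, h6⟩ := hP.1 (γ tY) h1
    have h7 : co (γ tY) = Y := by
      have h8 : ∀ c, c ≠ a → c ≠ b → co (γ tY) c = Y c := fun c hca hcb => by
        rw [h2 c hca hcb, hXY c hca hcb]
      have h9 : co (γ tY) a = Y a := by linarith
      have h10 := anti hab (co (γ tY)) Y h8 h4 hY (lb_co_pos h1) (lb_pos_of hP hY hsY) h9.le
      have h11 := anti hab Y (co (γ tY)) (fun c hca hcb => (h8 c hca hcb).symm) hY h4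
        (lb_pos_of hP hY hsY) (lb_co_pos h1) h9.ge
      funext c
      by_cases hca : c = a
      · rw [hca, h9]
      · by_cases hcb : c = b
        · rw [hcb]
          linarith
        · exact h8 c hca hcb
    rw [← h6, h7]
  refine ⟨γ '' Set.uIcc 0 tY, ?_, ?_, ?_⟩
  · rintro _ ⟨t, -, rfl⟩
    have : γ t ∈ Set.range γ := ⟨t, rfl⟩
    rw [hγ.range] at this
    exact this.1
  · have := hγ.mkMid 0 tY htY0.symm
    rwa [hγ0, hγY] at this
  · rintro _ ⟨t, ht, rfl⟩
    obtain ⟨h1, h2⟩ := hpos t ht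
    obtain ⟨h3, h4, h5⟩ := hpar t h1
    rw [← h5] at h2
    refine ⟨h3, h4, h2, ?_⟩
    obtain ⟨h6, -, -⟩ := hP.1 (γ t) h3
    have hLX := lb_pos_of hP hX hs
    have hLY := lb_pos_of hP hY hsY
    have hLZ := lb_co_pos h3
    have hZX : ∀ c, c ≠ a → c ≠ b → X c = co (γ t) c := fun c hca hcb => (h4 c hca hcb).symm
    have hZY : ∀ c, c ≠ a → c ≠ b → co (γ t) c = Y c := fun c hca hcb => by
      rw [h4 c hca hcb, hXY c hca hcb]
    rcases le_total (X a) (Y a) with h | h
    · rw [Set.uIcc_of_le h] at h2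
      have h7 := anti hab X (co (γ t)) hZX hX h6 hLX hLZ h2.1
      have h8 := anti hab (co (γ t)) Y hZY h6 hY hLZ hLY h2.2
      rw [Set.uIcc_of_ge (h8.trans h7)]
      exact ⟨h8, h7⟩
    · rw [Set.uIcc_of_ge h] at h2
      have h7 := anti hab (co (γ t)) X (fun c hca hcb => (hZX c hca hcb).symm) h6 hX hLZ hLX h2.2
      have h8 := anti hab Y (co (γ t)) (fun c hca hcb => (hZY c hca hcb).symm) hY h6 hLY hLZ h2.1
      rw [Set.uIcc_of_le (h7.trans h8)]
      exact ⟨h7, h8⟩

open Up in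
theorem stUpHub (hC : StCoord) (hP : StCoPt) : StUpHub := by
  intro X hX hs a b hab C hCs hPC hAC hBC
  obtain ⟨γ, hγ, hγ0, hpar⟩ := param hC hP hX hs hab hCs hPC hAC hBC
  obtain ⟨hz, hco⟩ := hP.2 X hX hs
  have hk := kap_pos a
  refine ⟨insert (hubPt a) (γ '' Set.Ici 0), ?_, ?_, ?_⟩
  · rintro z (rfl | ⟨t, -, rfl⟩)
    · exact hAC
    · have : γ t ∈ Set.range γ := ⟨t, rfl⟩
      rw [hγ.range] at this
      exact this.1
  · have := hγ.mkUp 0
    rwa [hγ0] at this
  · rintro z (rfl | ⟨t, ht, rfl⟩)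
    · exact Or.inl rfl
    · right
      have ht0 : (0 : ℝ) ≤ t := ht
      have h0 : 0 ≤ kap a * t / pt X 2 := by positivity
      have hLX := lb_pos_of hP hX hs
      obtain ⟨h3, h4, h5⟩ := hpar t (by have := hLX b; linarith)
      refine ⟨h3, h4, by linarith, ?_⟩
      exact anti hab X (co (γ t)) (fun c hca hcb => (h4 c hca hcb).symm) hX (hP.1 _ h3).1 hLX
        (lb_co_pos h3) (by linarith)

end Pool.Agent.Lib.MP_9f365b_co
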