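import Mathlib
import Pool.Agent.Lib.MP_9f365b_co.ShellAux

/-!
F3. The vertices `y^c_a` of the piece are standard.
-/

namespace Pool.Agent.Lib.MP_9f365b_co

/-- `a, b, c, d` are the four elements of `Fin 4`. -/
def All4 (a b c d : Fin 4) : Prop :=
  a ≠ b ∧ a ≠ c ∧ a ≠ d ∧ b ≠ c ∧ b ≠ d ∧ c ≠ d ∧ ∀ x, x = a ∨ x = b ∨ x = c ∨ x = d

instance (a b c d : Fin 4) : Decidable (All4 a b c d) := by unfold All4; infer_instance

/-- Vertices which agree in three coordinates are equal. -/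
lemma PieceConf.eq_of_three {G : Fin 4 → Fin 4 → ℝ} {X : Fin 19 → Fin 4 → ℝ} (hA : StAnti)
    (h : PieceConf G X) {w w' : Fin 19} (k : Fin 4) (hk : ∀ c, c ≠ k → X w c = X w' c) :
    w = w' := by
  rcases le_total (X w k) (X w' k) with hle | hle
  · refine h.anti hA fun c => ?_
    by_cases hc : c = k
    · rw [hc]; exact hle
    · exact (hk c hc).le
  · refine (h.anti hA fun c => ?_).symm
    by_cases hc : c = k
    · rw [hc]; exact hle
    · exact (hk c hc).ge

/-- Adjacent vertices agree in two of the four coordinates. -/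
lemma PieceConf.two {G : Fin 4 → Fin 4 → ℝ} {X : Fin 19 → Fin 4 → ℝ}
    (h : PieceConf G X) {w w' : Fin 19} (hw : PAdj w w') (σ : Equiv.Perm (Fin 4))
    {a b c d : Fin 4} (hall : All4 a b c d) :
    (X w (σ a) = X w' (σ a) ∧ X w (σ b) = X w' (σ b)) ∨
    (X w (σ a) = X w' (σ a) ∧ X w (σ c) = X w' (σ c)) ∨
    (X w (σ a) = X w' (σ a) ∧ X w (σ d) = X w' (σ d)) ∨
    (X w (σ b) = X w' (σ b) ∧ X w (σ c) = X w' (σ c)) ∨
    (X w (σ b) = X w' (σ b) ∧ X w (σ d) = X w' (σ d)) ∨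
    (X w (σ c) = X w' (σ c) ∧ X w (σ d) = X w' (σ d)) := by
  obtain ⟨hab, hac, had, hbc, hbd, hcd, hx⟩ := hall
  obtain ⟨s, t, hst, hoff⟩ := h.edge w w' hw
  have hoff' : ∀ x, x ≠ σ.symm s → x ≠ σ.symm t → X w (σ x) = X w' (σ x) := by
    intro x h1 h2
    refine hoff _ (fun e => h1 ?_) (fun e => h2 ?_)
    · rw [← e, Equiv.symm_apply_apply]
    · rw [← e, Equiv.symm_apply_apply]
  rcases hx (σ.symm s) with hs | hs | hs | hs <;> rcases hx (σ.symm t) with ht | ht | ht | ht <;>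
    rw [hs, ht] at hoff'
  · exact Or.inr (Or.inr (Or.inr (Or.inl ⟨hoff' b hab.symm hab.symm, hoff' c hac.symm hac.symm⟩)))
  · exact Or.inr (Or.inr (Or.inr (Or.inr (Or.inr ⟨hoff' c hac.symm hbc.symm,
      hoff' d had.symm hbd.symm⟩))))
  · exact Or.inr (Or.inr (Or.inr (Or.inr (Or.inl ⟨hoff' b hab.symm hbc,
      hoff' d had.symm hcd.symm⟩))))
  · exact Or.inr (Or.inr (Or.inr (Or.inl ⟨hoff' b hab.symm hbd, hoff' c hac.symm hcd⟩)))
  · exact Or.inr (Or.inr (Or.inr (Or.inr (Or.inr ⟨hoff' c hbc.symm hac.symm,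
      hoff' d hbd.symm had.symm⟩))))
  · exact Or.inr (Or.inl ⟨hoff' a hab hab, hoff' c hbc.symm hbc.symm⟩)
  · exact Or.inr (Or.inr (Or.inl ⟨hoff' a hab hac, hoff' d hbd.symm hcd.symm⟩))
  · exact Or.inr (Or.inl ⟨hoff' a hab had, hoff' c hbc.symm hcd⟩)
  · exact Or.inr (Or.inr (Or.inr (Or.inr (Or.inl ⟨hoff' b hbc hab.symm,
      hoff' d hcd.symm had.symm⟩))))
  · exact Or.inr (Or.inr (Or.inl ⟨hoff' a hac hab, hoff' d hcd.symm hbd.symm⟩))
  · exact Or.inl ⟨hoff' a hac hac, hoff' b hbc hbc⟩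
  · exact Or.inl ⟨hoff' a hac had, hoff' b hbc hbd⟩
  · exact Or.inr (Or.inr (Or.inr (Or.inl ⟨hoff' b hbd hab.symm, hoff' c hcd hac.symm⟩)))
  · exact Or.inr (Or.inl ⟨hoff' a had hab, hoff' c hcd hbc.symm⟩)
  · exact Or.inl ⟨hoff' a had hac, hoff' b hbd hbc⟩
  · exact Or.inl ⟨hoff' a had had, hoff' b hbd hbd⟩

/-- The values of the shell vertices. -/
lemma ShellStd.vals {X : Fin 19 → Fin 4 → ℝ} {σ : Equiv.Perm (Fin 4)} {α α' : Fin 4 → ℝ}
    (hs : ShellStd X σ α α') {a b : Fin 4} (hab : a ≠ b) :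
    X (pI a b) (σ a) = X 0 (σ a) + α a ∧ X (pI a b) (σ b) = X 0 (σ b) + α' b ∧
      ∀ c, c ≠ a → c ≠ b → X (pI a b) (σ c) = X 0 (σ c) := by
  refine ⟨?_, ?_, fun c hca hcb => ?_⟩
  · rw [hs.2 a b hab, if_pos rfl, if_neg (fun e => hab (σ.injective e))]
    ring
  · rw [hs.2 a b hab, if_pos rfl, if_neg (fun e => hab (σ.injective e).symm)]
    ring
  · rw [hs.2 a b hab, if_neg (fun e => hca (σ.injective e)), if_neg (fun e => hcb (σ.injective e))]
    ring

/-- The two types of a vertex `y` adjacent to `p a b` and `p a d`. -/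
lemma PieceConf.typ {G : Fin 4 → Fin 4 → ℝ} {X : Fin 19 → Fin 4 → ℝ} (hA : StAnti)
    (h : PieceConf G X) {σ : Equiv.Perm (Fin 4)} {α α' : Fin 4 → ℝ} (hs : ShellStd X σ α α')
    {a b c d : Fin 4} (hall : All4 a b c d) (y : Fin 19) (y0 : y ≠ 0) (yc : y ≠ pI a c)
    (yb : y ≠ pI a b) (yd : y ≠ pI a d) (hbd' : pI a b ≠ pI a d)
    (h1 : PAdj y (pI a b)) (h2 : PAdj y (pI a d)) (h3 : PAdj (pI a b) (pI a d)) :
    X y (σ b) = X 0 (σ b) + α' b ∧ X y (σ d) = X 0 (σ d) + α' d ∧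
      (X y (σ c) = X 0 (σ c) ∨ X y (σ a) = X 0 (σ a) + α a) := by
  obtain ⟨hab, hac, had, hbc, hbd, hcd, hx⟩ := id hall
  obtain ⟨pb1, pb2, pb3⟩ := hs.vals hab
  obtain ⟨pd1, pd2, pd3⟩ := hs.vals had
  obtain ⟨pc1, pc2, pc3⟩ := hs.vals hac
  have hα' : ∀ x, α' x ≠ 0 := fun x hx0 => by
    have := hs.1 a x
    rw [hx0, mul_zero] at this
    exact lt_irrefl _ this
  have hσ : ∀ {x z : Fin 4}, x ≠ z → σ x ≠ σ z := fun hxz e => hxz (σ.injective e)
  have pbc := pb3 c hac.symm hbc.symm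
  have pbd := pb3 d had.symm hbd.symm
  have pdc := pd3 c hac.symm hcd
  have pdb := pd3 b hab.symm hbd
  have htri : ¬ (X y (σ a) = X (pI a b) (σ a) ∧ X y (σ c) = X (pI a b) (σ c)) := by
    rintro ⟨e1, e2⟩
    exact h.tri h1 h2 h3 yb yd hbd' (σ a) (σ c) (hσ hac)
      ⟨e1, pb1.trans pd1.symm, e2, pbc.trans pdc.symm⟩
  have eqv : (∀ x, x ≠ a → X y (σ x) = X 0 (σ x)) → False := by
    intro hh
    refine y0 (h.eq_of_three hA (σ a) fun x hxa => ?_)
    have := hh (σ.symm x) (fun e => hxa (by rw [← e, Equiv.apply_symm_apply]))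
    rwa [Equiv.apply_symm_apply] at this
  have eqc : (∀ x, x ≠ c → X y (σ x) = X (pI a c) (σ x)) → False := by
    intro hh
    refine yc (h.eq_of_three hA (σ c) fun x hxa => ?_)
    have := hh (σ.symm x) (fun e => hxa (by rw [← e, Equiv.apply_symm_apply]))
    rwa [Equiv.apply_symm_apply] at this
  -- excluded combinations
  have exb : X y (σ b) = X (pI a b) (σ b) → X y (σ b) = X (pI a d) (σ b) → False := by
    intro e1 e2
    rw [e1, pb2, pdb] at e2
    exact hα' b (by linarith)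
  have exd : X y (σ d) = X (pI a b) (σ d) → X y (σ d) = X (pI a d) (σ d) → False := by
    intro e1 e2
    rw [e1, pbd, pd2] at e2
    exact hα' d (by linarith)
  -- bad case: y agrees with v at b and d
  have bad : X y (σ d) = X (pI a b) (σ d) → X y (σ b) = X (pI a d) (σ b) →
      (X y (σ a) = X (pI a b) (σ a) ∨ X y (σ c) = X (pI a b) (σ c)) → False := by
    intro e1 e2 e3
    rw [pbd] at e1
    rw [pdb] at e2
    rcases e3 with e3 | e3
    · refine eqc fun x hxc => ?_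
      rcases hx x with rfl | rfl | rfl | rfl
      · rw [e3, pb1, pc1]
      · rw [e2, pc3 x hab.symm hbc]
      · exact absurd rfl hxc
      · rw [e1, pc3 x had.symm hcd.symm]
    · refine eqv fun x hxa => ?_
      rcases hx x with rfl | rfl | rfl | rfl
      · exact absurd rfl hxa
      · exact e2
      · rw [e3, pbc]
      · exact e1
  have good : X y (σ b) = X (pI a b) (σ b) → X y (σ d) = X (pI a d) (σ d) →
      (X y (σ a) = X (pI a b) (σ a) ∨ X y (σ c) = X (pI a b) (σ c)) →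
      X y (σ b) = X 0 (σ b) + α' b ∧ X y (σ d) = X 0 (σ d) + α' d ∧
      (X y (σ c) = X 0 (σ c) ∨ X y (σ a) = X 0 (σ a) + α a) := by
    intro e1 e2 e3
    refine ⟨e1.trans pb2, e2.trans pd2, ?_⟩
    rcases e3 with e3 | e3
    · exact Or.inr (e3.trans pb1)
    · exact Or.inl (e3.trans pbc)
  have ea : X (pI a b) (σ a) = X (pI a d) (σ a) := pb1.trans pd1.symm
  have ec : X (pI a b) (σ c) = X (pI a d) (σ c) := pbc.trans pdc.symm
  rcases h.two h1 σ hall with ⟨u, v⟩ | ⟨u, v⟩ | ⟨u, v⟩ | ⟨u, v⟩ | ⟨u, v⟩ | ⟨u, v⟩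
  · -- a b
    rcases h.two h2 σ hall with ⟨u', v'⟩ | ⟨u', v'⟩ | ⟨u', v'⟩ | ⟨u', v'⟩ | ⟨u', v'⟩ | ⟨u', v'⟩
    · exact (exb v v').elim
    · exact (htri ⟨u, v'.trans ec.symm⟩).elim
    · exact good v v' (Or.inl u)
    · exact (exb v u').elim
    · exact (exb v u').elim
    · exact good v v' (Or.inl u)
  · exact (htri ⟨u, v⟩).elim
  · -- a d
    rcases h.two h2 σ hall with ⟨u', v'⟩ | ⟨u', v'⟩ | ⟨u', v'⟩ | ⟨u', v'⟩ | ⟨u', v'⟩ | ⟨u', v'⟩
    · exact (bad v v' (Or.inl u)).elim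
    · exact (htri ⟨u, v'.trans ec.symm⟩).elim
    · exact (exd v v').elim
    · exact (bad v u' (Or.inl u)).elim
    · exact (exd v v').elim
    · exact (exd v v').elim
  · -- b c
    rcases h.two h2 σ hall with ⟨u', v'⟩ | ⟨u', v'⟩ | ⟨u', v'⟩ | ⟨u', v'⟩ | ⟨u', v'⟩ | ⟨u', v'⟩
    · exact (exb u v').elim
    · exact (htri ⟨u'.trans ea.symm, v⟩).elim
    · exact good u v' (Or.inr v)
    · exact (exb u u').elim
    · exact (exb u u').elim
    · exact good u v' (Or.inr v)
  · -- b d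
    rcases h.two h2 σ hall with ⟨u', v'⟩ | ⟨u', v'⟩ | ⟨u', v'⟩ | ⟨u', v'⟩ | ⟨u', v'⟩ | ⟨u', v'⟩
    · exact (exb u v').elim
    · exact (htri ⟨u'.trans ea.symm, v'.trans ec.symm⟩).elim
    · exact (exd v v').elim
    · exact (exb u u').elim
    · exact (exb u u').elim
    · exact (exd v v').elim
  · -- c d
    rcases h.two h2 σ hall with ⟨u', v'⟩ | ⟨u', v'⟩ | ⟨u', v'⟩ | ⟨u', v'⟩ | ⟨u', v'⟩ | ⟨u', v'⟩
    · exact (bad v v' (Or.inr u)).elim
    · exact (htri ⟨u'.trans ea.symm, u⟩).elim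
    · exact (exd v v').elim
    · exact (bad v u' (Or.inr u)).elim
    · exact (exd v v').elim
    · exact (exd v v').elim

/-- Mixed types are impossible. -/
lemma PieceConf.mixed {G : Fin 4 → Fin 4 → ℝ} {X : Fin 19 → Fin 4 → ℝ} (hA : StAnti)
    (h : PieceConf G X) {σ : Equiv.Perm (Fin 4)} {α α' : Fin 4 → ℝ} (hs : ShellStd X σ α α')
    {a c e d : Fin 4} (hall : All4 a c e d) (y1 y2 : Fin 19) (h12 : PAdj y1 y2)
    (n1 : y1 ≠ pI a e) (n2 : y2 ≠ pI a e)
    (c1 : X y1 (σ c) = X 0 (σ c)) (e1 : X y1 (σ e) = X 0 (σ e) + α' e)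
    (a2 : X y2 (σ a) = X 0 (σ a) + α a)
    (c2 : X y2 (σ c) = X 0 (σ c) + α' c) (d2 : X y2 (σ d) = X 0 (σ d) + α' d) : False := by
  obtain ⟨hac, hae, had, hce, hcd, hed, hx⟩ := id hall
  obtain ⟨pe1, pe2, pe3⟩ := hs.vals hae
  have hα' : ∀ x, α' x ≠ 0 := fun x hx0 => by
    have := hs.1 a x
    rw [hx0, mul_zero] at this
    exact lt_irrefl _ this
  have hsame : 0 < α' c * α' d := by
    have i1 := hs.1 a c
    have i2 := hs.1 a d
    have i3 : 0 < (α a * α' c) * (α a * α' d) := mul_pos_of_neg_of_neg i1 i2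
    have i4 : (α a * α' c) * (α a * α' d) = (α a) ^ 2 * (α' c * α' d) := by ring
    rw [i4] at i3
    by_contra hcon
    push Not at hcon
    have := mul_nonpos_of_nonneg_of_nonpos (sq_nonneg (α a)) hcon
    linarith
  have ca : X y1 (σ a) = X y2 (σ a) → False := by
    intro hh
    refine n1 (h.eq_of_three hA (σ d) fun x hxd => ?_)
    obtain ⟨x', rfl⟩ := σ.surjective x
    rcases hx x' with rfl | rfl | rfl | rfl
    · rw [hh, a2, pe1]
    · rw [c1, pe3 x' hac.symm hce]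
    · rw [e1, pe2]
    · exact absurd rfl hxd
  have ce : X y1 (σ e) = X y2 (σ e) → False := by
    intro hh
    have e2 : X y2 (σ e) = X (pI a e) (σ e) := by rw [← hh, e1, pe2]
    have aa2 : X y2 (σ a) = X (pI a e) (σ a) := by rw [a2, pe1]
    have pc := pe3 c hac.symm hce
    have pd := pe3 d had.symm hed.symm
    rcases mul_pos_iff.1 hsame with ⟨k1, k2⟩ | ⟨k1, k2⟩
    · refine n2 (h.anti hA fun x => ?_).symm
      obtain ⟨x', rfl⟩ := σ.surjective x
      rcases hx x' with rfl | rfl | rfl | rfl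
      · exact aa2.ge
      · rw [c2, pc]; linarith
      · exact e2.ge
      · rw [d2, pd]; linarith
    · refine n2 (h.anti hA fun x => ?_)
      obtain ⟨x', rfl⟩ := σ.surjective x
      rcases hx x' with rfl | rfl | rfl | rfl
      · exact aa2.le
      · rw [c2, pc]; linarith
      · exact e2.le
      · rw [d2, pd]; linarith
  have cc : X y1 (σ c) = X y2 (σ c) → False := by
    intro hh
    rw [c1, c2] at hh
    exact hα' c (by linarith)
  rcases h.two h12 σ hall with ⟨u, v⟩ | ⟨u, v⟩ | ⟨u, v⟩ | ⟨u, v⟩ | ⟨u, v⟩ | ⟨u, v⟩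
  · exact ca u
  · exact ca u
  · exact ca u
  · exact cc u
  · exact cc u
  · exact ce u

/-- Both vertices of a link are of standard type with the same new coordinate. -/
lemma PieceConf.link {G : Fin 4 → Fin 4 → ℝ} {X : Fin 19 → Fin 4 → ℝ} (hA : StAnti)
    (h : PieceConf G X) {σ : Equiv.Perm (Fin 4)} {α α' : Fin 4 → ℝ} (hs : ShellStd X σ α α')
    {a c e d : Fin 4} (hall : All4 a c e d) (h12 : PAdj (yI a c) (yI a e))
    (n10 : yI a c ≠ 0) (n1c : yI a c ≠ pI a c) (n1e : yI a c ≠ pI a e) (n1d : yI a c ≠ pI a d)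
    (n20 : yI a e ≠ 0) (n2c : yI a e ≠ pI a c) (n2e : yI a e ≠ pI a e) (n2d : yI a e ≠ pI a d)
    (ned : pI a e ≠ pI a d) (ncd : pI a c ≠ pI a d)
    (a1e : PAdj (yI a c) (pI a e)) (a1d : PAdj (yI a c) (pI a d)) (aed : PAdj (pI a e) (pI a d))
    (a2c : PAdj (yI a e) (pI a c)) (a2d : PAdj (yI a e) (pI a d)) (acd : PAdj (pI a c) (pI a d)) :
    ∃ Y, YStd X σ α' a c Y ∧ YStd X σ α' a e Y := by
  obtain ⟨hac, hae, had, hce, hcd, hed, hx⟩ := id hall
  have hall1 : All4 a e c d := ⟨hae, hac, had, hce.symm, hed, hcd, fun x => by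
    rcases hx x with h | h | h | h <;> simp [h]⟩
  have t1 := h.typ hA hs hall1 (yI a c) n10 n1c n1e n1d ned a1e a1d aed
  have t2 := h.typ hA hs hall (yI a e) n20 n2e n2c n2d ncd a2c a2d acd
  obtain ⟨e1, d1, t1⟩ := t1
  obtain ⟨c2, d2, t2⟩ := t2
  have hα' : ∀ x, α' x ≠ 0 := fun x hx0 => by
    have := hs.1 a x
    rw [hx0, mul_zero] at this
    exact lt_irrefl _ this
  rcases t1 with c1 | a1 <;> rcases t2 with e2 | a2
  · -- (1,1)
    have hcc : X (yI a c) (σ c) = X (yI a e) (σ c) → False := by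
      intro hh
      rw [c1, c2] at hh
      exact hα' c (by linarith)
    have hee : X (yI a c) (σ e) = X (yI a e) (σ e) → False := by
      intro hh
      rw [e1, e2] at hh
      exact hα' e (by linarith)
    have haa : X (yI a c) (σ a) = X (yI a e) (σ a) := by
      rcases h.two h12 σ hall with ⟨u, v⟩ | ⟨u, v⟩ | ⟨u, v⟩ | ⟨u, v⟩ | ⟨u, v⟩ | ⟨u, v⟩
      · exact u
      · exact u
      · exact u
      · exact (hcc u).elim
      · exact (hcc u).elim
      · exact (hee u).elim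
    refine ⟨X (yI a c) (σ a), ⟨rfl, c1, fun b hba hbc => ?_⟩, ⟨haa.symm, e2, fun b hba hbe => ?_⟩⟩
    · rcases hx b with rfl | rfl | rfl | rfl
      · exact absurd rfl hba
      · exact absurd rfl hbc
      · exact e1
      · exact d1
    · rcases hx b with rfl | rfl | rfl | rfl
      · exact absurd rfl hba
      · exact c2
      · exact absurd rfl hbe
      · exact d2
  · exact (h.mixed hA hs hall (yI a c) (yI a e) h12 n1e n2e c1 e1 a2 c2 d2).elim
  · exact (h.mixed hA hs hall1 (yI a e) (yI a c) h12.symm' n2c n1c e2 c2 a1 e1 d1).elim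
  · -- (2,2)
    exfalso
    obtain ⟨pd1, pd2, pd3⟩ := hs.vals had
    have pdc := pd3 c hac.symm hcd
    have pde := pd3 e hae.symm hed
    have hsame : 0 < α' c * α' e := by
      have i1 := hs.1 a c
      have i2 := hs.1 a e
      have i3 : 0 < (α a * α' c) * (α a * α' e) := mul_pos_of_neg_of_neg i1 i2
      have i4 : (α a * α' c) * (α a * α' e) = (α a) ^ 2 * (α' c * α' e) := by ring
      rw [i4] at i3
      by_contra hcon
      push Not at hcon
      have := mul_nonpos_of_nonneg_of_nonpos (sq_nonneg (α a)) hcon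
      linarith
    -- the value of `y1` at `c` is on the other side
    have hside : (0 < α' e → X (yI a c) (σ c) < X 0 (σ c)) ∧
        (α' e < 0 → X 0 (σ c) < X (yI a c) (σ c)) := by
      constructor
      · intro hpos
        by_contra hcon
        push Not at hcon
        refine n1d (h.anti hA fun x => ?_).symm
        obtain ⟨x', rfl⟩ := σ.surjective x
        rcases hx x' with rfl | rfl | rfl | rfl
        · rw [a1, pd1]
        · rw [pdc]; exact hcon
        · rw [pde, e1]; linarith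
        · rw [d1, pd2]
      · intro hneg
        by_contra hcon
        push Not at hcon
        refine n1d (h.anti hA fun x => ?_)
        obtain ⟨x', rfl⟩ := σ.surjective x
        rcases hx x' with rfl | rfl | rfl | rfl
        · rw [a1, pd1]
        · rw [pdc]; exact hcon
        · rw [pde, e1]; linarith
        · rw [d1, pd2]
    refine h.between (yI a c) (yI a e) (pI a d) h12 n1d.symm n2d.symm (σ c) (σ e)
      (fun e' => hce (σ.injective e')) (fun x hxc hxe => ?_) ?_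
    · obtain ⟨x', rfl⟩ := σ.surjective x
      rcases hx x' with rfl | rfl | rfl | rfl
      · exact ⟨a1.trans a2.symm, pd1.trans a1.symm⟩
      · exact absurd rfl hxc
      · exact absurd rfl hxe
      · exact ⟨d1.trans d2.symm, pd2.trans d1.symm⟩
    · rw [Set.mem_uIcc, pdc, c2]
      rcases mul_pos_iff.1 hsame with ⟨k1, k2⟩ | ⟨k1, k2⟩
      · left
        exact ⟨(hside.1 k2).le, by linarith⟩
      · right
        exact ⟨by linarith, (hside.2 k2).le⟩

set_option maxRecDepth 100000 in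
theorem stY (hA : StAnti) : StY := by
  intro G X h σ α α' hs
  have l1 : ∃ Y, YStd X σ α' 0 2 Y ∧ YStd X σ α' 0 3 Y :=
    h.link hA hs (a := 0) (c := 2) (e := 3) (d := 1) (by decide) (by decide) (by decide)
      (by decide) (by decide) (by decide) (by decide) (by decide) (by decide) (by decide)
      (by decide) (by decide) (by decide) (by decide) (by decide) (by decide) (by decide)
      (by decide)
  have l2 : ∃ Y, YStd X σ α' 0 1 Y ∧ YStd X σ α' 0 2 Y :=
    h.link hA hs (a := 0) (c := 1) (e := 2) (d := 3) (by decide) (by decide) (by decide)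
      (by decide) (by decide) (by decide) (by decide) (by decide) (by decide) (by decide)
      (by decide) (by decide) (by decide) (by decide) (by decide) (by decide) (by decide)
      (by decide)
  have l3 : ∃ Y, YStd X σ α' 1 2 Y ∧ YStd X σ α' 1 0 Y :=
    h.link hA hs (a := 1) (c := 2) (e := 0) (d := 3) (by decide) (by decide) (by decide)
      (by decide) (by decide) (by decide) (by decide) (by decide) (by decide) (by decide)
      (by decide) (by decide) (by decide) (by decide) (by decide) (by decide) (by decide)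
      (by decide)
  obtain ⟨Y, hY2, hY3⟩ := l1
  obtain ⟨Y', hY1, hY2'⟩ := l2
  have : Y' = Y := hY2'.1.symm.trans hY2.1
  subst this
  exact ⟨⟨Y', hY2, hY3, hY1⟩, l3⟩

end Pool.Agent.Lib.MP_9f365b_co
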